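import Pool.Agent.QFP.C1

/-!
# [C2x] The trace on families of matrices, words
-/

set_option autoImplicit false

namespace Pool.Agent.QFP

open scoped Matrix.Norms.L2Operator

/-- The trace on families `x : Fin n → Matrix κ κ ℂ`: the average of the normalised traces. -/
noncomputable def tpi (n : ℕ) (κ : Type*) [Fintype κ] : (Fin n → Matrix κ κ ℂ) →ₗ[ℂ] ℂ :=
  ((n : ℂ)⁻¹) • ∑ s : Fin n, ntr.comp (LinearMap.proj s)

theorem tpi_apply (n : ℕ) (κ : Type*) [Fintype κ] (x : Fin n → Matrix κ κ ℂ) :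
    tpi n κ x = (n : ℂ)⁻¹ * ∑ s, ntr (x s) := by
  unfold tpi
  rw [LinearMap.smul_apply, LinearMap.sum_apply, smul_eq_mul]
  rfl

theorem tpi_trAlg (n : ℕ) (hn : 0 < n) (κ : Type*) [Fintype κ] [DecidableEq κ] [Nonempty κ] :
    TrAlg (tpi n κ) := by
  have hn0 : (n : ℂ) ≠ 0 := by exact_mod_cast hn.ne'
  have hT : TrAlg (ntr : Matrix κ κ ℂ →ₗ[ℂ] ℂ) := ntr_trAlg
  refine ⟨?_, fun x y => ?_, fun x => ?_⟩
  · rw [tpi_apply]
    have e : ∀ s : Fin n, ntr ((1 : Fin n → Matrix κ κ ℂ) s) = 1 := fun s => hT.one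
    simp only [e, Finset.sum_const, Finset.card_univ, Fintype.card_fin, nsmul_eq_mul, mul_one]
    exact inv_mul_cancel₀ hn0
  · rw [tpi_apply, tpi_apply]
    congr 1
    exact Finset.sum_congr rfl fun s _ => hT.comm _ _
  · have e : tpi n κ (star x * x) = (((n : ℝ)⁻¹ * ∑ s, (ntr (star (x s) * x s)).re : ℝ) : ℂ) := by
      rw [tpi_apply]
      push_cast
      congr 1
      refine Finset.sum_congr rfl fun s _ => ?_
      apply Complex.ext
      · rw [Complex.ofReal_re]
        rfl
      · rw [Complex.ofReal_im]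
        exact (hT.pos (x s)).2
    rw [e]
    refine ⟨?_, Complex.ofReal_im _⟩
    rw [Complex.ofReal_re]
    exact mul_nonneg (by positivity) (Finset.sum_nonneg fun s _ => (hT.pos (x s)).1)

/-- For a constant family the 2-norm is the 2-norm of the matrix. -/
theorem n2_tpi_const (n : ℕ) (hn : 0 < n) (κ : Type*) [Fintype κ] [DecidableEq κ]
    (y : Matrix κ κ ℂ) : n2 (tpi n κ) (fun _ => y) = n2 ntr y := by
  have hn0 : (n : ℂ) ≠ 0 := by exact_mod_cast hn.ne'
  unfold n2
  congr 2
  rw [tpi_apply]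
  have e : ∀ s : Fin n, ntr ((star (fun _ : Fin n => y) * (fun _ : Fin n => y) : Fin n → Matrix κ κ ℂ) s) =
    ntr (star y * y) := fun s => rfl
  simp only [e, Finset.sum_const, Finset.card_univ, Fintype.card_fin, nsmul_eq_mul]
  rw [← mul_assoc, inv_mul_cancel₀ hn0, one_mul]

/-- A unital ⋆-homomorphism commutes with the evaluation of words. -/
theorem map_wordEval {R S κ : Type*} [Ring R] [StarRing R] [Algebra ℂ R] [Ring S] [StarRing S]
    [Algebra ℂ S] (Ψ : R →⋆ₐ[ℂ] S) (x : κ → R) (w : List (κ × Bool)) :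
    Ψ (wordEval x w) = wordEval (fun k => Ψ (x k)) w := by
  unfold wordEval
  rw [map_list_prod, List.map_map]
  congr 1
  refine List.map_congr_left fun p _ => ?_
  show Ψ (if p.2 then star (x p.1) else x p.1) = _
  split_ifs
  · exact map_star Ψ _
  · rfl

/-- Words in families are computed componentwise. -/
theorem wordEval_pi {κ : Type*} (n : ℕ) {R : Type*} [Ring R] [StarRing R] (x : κ → Fin n → R)
    (w : List (κ × Bool)) (s : Fin n) : wordEval x w s = wordEval (fun k => x k s) w := by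
  unfold wordEval
  have h := map_list_prod (Pi.evalMonoidHom (fun _ : Fin n => R) s) (w.map fun p => if p.2 then star (x p.1) else x p.1)
  rw [List.map_map] at h
  refine h.trans ?_
  congr 1
  refine List.map_congr_left fun p _ => ?_
  show (if p.2 then star (x p.1) else x p.1) s = if p.2 then star (x p.1 s) else x p.1 s
  split_ifs
  · rfl
  · rfl

end Pool.Agent.QFP
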