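import Pool.Agent.QFP.C1
import Pool.Agent.QFP.C2x

/-!
# [C2y] Reindexing, block diagonal matrices
-/

set_option autoImplicit false

namespace Pool.Agent.QFP

open scoped Matrix.Norms.L2Operator

/-- Matrices over any nonempty finite index set are matrices over some `Fin ν`. -/
theorem exists_fin (ι : Type*) [Fintype ι] [DecidableEq ι] [Nonempty ι] :
    ∃ (ν : ℕ) (_ : 0 < ν) (Ψ : Matrix ι ι ℂ →⋆ₐ[ℂ] Matrix (Fin ν) (Fin ν) ℂ),
      ∀ x, ntr (Ψ x) = ntr x := by
  let e := Fintype.equivFin ι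
  let Ψ : Matrix ι ι ℂ →⋆ₐ[ℂ] Matrix (Fin (Fintype.card ι)) (Fin (Fintype.card ι)) ℂ :=
    { (Matrix.reindexAlgEquiv ℂ ℂ e).toAlgHom with
      map_star' := fun x => rfl }
  refine ⟨Fintype.card ι, Fintype.card_pos, Ψ, fun x => ?_⟩
  rw [ntr_apply, ntr_apply, Fintype.card_fin]
  congr 1
  show ∑ i, x (e.symm i) (e.symm i) = ∑ i, x i i
  exact Equiv.sum_comp e.symm (fun i => x i i)

/-- Block diagonal matrices (`Matrix.blockDiagonal`). -/
theorem exists_blockDiag (n : ℕ) (hn : 0 < n) (κ : Type*) [Fintype κ] [DecidableEq κ] :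
    ∃ Ψ : (Fin n → Matrix κ κ ℂ) →⋆ₐ[ℂ] Matrix (κ × Fin n) (κ × Fin n) ℂ,
      (∀ x, Ψ x = Matrix.blockDiagonal x) ∧ ∀ x, ntr (Ψ x) = tpi n κ x := by
  have hn0 : (n : ℂ) ≠ 0 := by exact_mod_cast hn.ne'
  let Ψ : (Fin n → Matrix κ κ ℂ) →⋆ₐ[ℂ] Matrix (κ × Fin n) (κ × Fin n) ℂ :=
    { toFun := Matrix.blockDiagonal
      map_one' := Matrix.blockDiagonal_one
      map_mul' := fun x y => Matrix.blockDiagonal_mul x y
      map_zero' := Matrix.blockDiagonal_zero
      map_add' := fun x y => Matrix.blockDiagonal_add x y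
      commutes' := fun r => by
        rw [Algebra.algebraMap_eq_smul_one, Algebra.algebraMap_eq_smul_one, Matrix.blockDiagonal_smul,
          Matrix.blockDiagonal_one]
      map_star' := fun x => (Matrix.blockDiagonal_conjTranspose x).symm }
  refine ⟨Ψ, fun x => rfl, fun x => ?_⟩
  rw [tpi_apply, ntr_apply, Fintype.card_prod, Fintype.card_fin]
  have e : (Ψ x).trace = ∑ s, (x s).trace := Matrix.trace_blockDiagonal x
  rw [e]
  simp only [ntr_apply]
  rw [← Finset.mul_sum]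
  push_cast
  rw [mul_inv]
  ring

end Pool.Agent.QFP
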