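import Pool.Agent.QFP.B2

/-!
# [D1] Von Neumann algebras with trace as tracial C*-algebras
-/

set_option autoImplicit false

namespace Pool.Agent.QFP

open scoped InnerProductSpace

variable {H : Type*} [NormedAddCommGroup H] [InnerProductSpace ℂ H] [CompleteSpace H]

instance algIsClosed (N : VonNeumannAlgebra H) :
    IsClosed (N.toStarSubalgebra : Set (H →L[ℂ] H)) := by
  rw [VonNeumannAlgebra.coe_toStarSubalgebra, ← N.centralizer_centralizer]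
  exact Set.isClosed_centralizer _

noncomputable instance algCStar (N : VonNeumannAlgebra H) : CStarAlgebra (Alg N) :=
  inferInstance

variable {N : VonNeumannAlgebra H} {τ : Alg N →ₗ[ℂ] ℂ}

theorem D1_inner (x : Alg N) (v : H) :
    ⟪v, ((star x * x : Alg N) : H →L[ℂ] H) v⟫_ℂ = ((‖(x : H →L[ℂ] H) v‖ ^ 2 : ℝ) : ℂ) := by
  have h1 : ((star x * x : Alg N) : H →L[ℂ] H) v =
      ContinuousLinearMap.adjoint (x : H →L[ℂ] H) ((x : H →L[ℂ] H) v) := rfl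
  rw [h1, ContinuousLinearMap.adjoint_inner_right, inner_self_eq_norm_sq_to_K]
  push_cast
  rfl

theorem D1_sum {ξ : ℕ → H} (hτ : ∀ x : Alg N, τ x = ∑' i, ⟪ξ i, (x : H →L[ℂ] H) (ξ i)⟫_ℂ)
    (x : Alg N) : τ (star x * x) = ((∑' i, ‖(x : H →L[ℂ] H) (ξ i)‖ ^ 2 : ℝ) : ℂ) := by
  rw [hτ, Complex.ofReal_tsum]
  exact tsum_congr (fun i => D1_inner x (ξ i))

/-- `τ (star x * x) = ∑ ‖x ξᵢ‖²`, and so on. -/
theorem IsTrace.trAlg (h : IsTrace N τ) : TrAlg τ := by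
  obtain ⟨ξ, hξ, hτ⟩ := h.normal
  refine ⟨h.map_one, h.tracial, fun x => ?_⟩
  rw [D1_sum hτ]
  exact ⟨tsum_nonneg (fun i => sq_nonneg _), Complex.ofReal_im _⟩

/-- The 2-norm in terms of the vectors `ξᵢ`. -/
theorem IsTrace.exists_n2 (h : IsTrace N τ) : ∃ ξ : ℕ → H, Summable (fun i => ‖ξ i‖ ^ 2) ∧
    (∀ x : Alg N, τ x = ∑' i, ⟪ξ i, (x : H →L[ℂ] H) (ξ i)⟫_ℂ) ∧
    (∀ x : H →L[ℂ] H, Summable (fun i => ‖x (ξ i)‖ ^ 2)) ∧
    ∀ x : Alg N, n2 τ x ^ 2 = ∑' i, ‖(x : H →L[ℂ] H) (ξ i)‖ ^ 2 := by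
  obtain ⟨ξ, hξ, hτ⟩ := h.normal
  refine ⟨ξ, hξ, hτ, fun x => ?_, fun x => ?_⟩
  · refine Summable.of_nonneg_of_le (fun i => sq_nonneg _) (fun i => ?_) (hξ.mul_left (‖x‖ ^ 2))
    rw [← mul_pow]
    exact pow_le_pow_left₀ (norm_nonneg _) (x.le_opNorm (ξ i)) 2
  · have h1 : (τ (star x * x)).re = ∑' i, ‖(x : H →L[ℂ] H) (ξ i)‖ ^ 2 := by
      rw [D1_sum hτ]
      exact Complex.ofReal_re _
    unfold n2
    rw [h1, Real.sq_sqrt (tsum_nonneg (fun i => sq_nonneg _))]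

/-- faithfulness -/
theorem IsTrace.eq_zero_of_n2 (h : IsTrace N τ) (x : Alg N) (hx : n2 τ x = 0) : x = 0 := by
  apply h.faithful
  obtain ⟨h1, h2⟩ := h.trAlg.pos x
  unfold n2 at hx
  rw [Real.sqrt_eq_zero h1] at hx
  exact Complex.ext hx h2

/-- A trace preserving unital ⋆-homomorphism preserves the 2-norm. -/
theorem n2_map {D D' : Type*} [CStarAlgebra D] [CStarAlgebra D'] {t : D →ₗ[ℂ] ℂ}
    {t' : D' →ₗ[ℂ] ℂ} (Ψ : D →⋆ₐ[ℂ] D') (hΨ : ∀ x, t' (Ψ x) = t x) (x : D) :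
    n2 t' (Ψ x) = n2 t x := by
  unfold n2
  rw [← map_star, ← map_mul, hΨ]

end Pool.Agent.QFP
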