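import Pool.Agent.QFP.W1
import Pool.Agent.QFP.C2
import Pool.Agent.QFP.D1

/-!
# [A2x] Block shifts

`shift_avg`: for `x : Fin n → Matrix κ κ ℂ` the block diagonal matrix `X` with blocks `x s`
(`exists_blockDiag`) and the block shifts `v k`, `k : Fin n`
(`v k = 1 ⊗ (permutation matrix of s ↦ s + k)` on `κ × Fin n`, unitary), `v k * X * star (v k)` is block
diagonal with the blocks `x (s + k)` (or `s - k`), and `n⁻¹ ∑ k, v k * X * star (v k)` is block diagonal
with all blocks equal to `n⁻¹ ∑ s, x s`. For a constant family `v k` commutes with `X`.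

`innerAveraging_of_homs`: given `F`, `m`, `ε`, take `n`, `π` for `F` and `ε / 2`. Take the
microstates `Z : Alg P → Matrix (Fin ν) (Fin ν) ℂ` (`ConnesEmb P`) of the finite set
`F' = {π s a}` for `max m 2` and a small `ε'`, `x a s = Z (π s a)`, and `X a` = block diagonal
matrix of `x a`. `‖X a‖ ≤ max ‖x a s‖ ≤ max ‖π s a‖ ≤ ‖a‖` (`Ψ` of `exists_blockDiag` is contractive).
Moments: `ntr (wordEval X w) = n⁻¹ ∑ s, ntr (wordEval (Z ∘ π s) w)` is within `ε'` of
`n⁻¹ ∑ s, t (wordEval (π s) w) = τ (wordEval id w)`. For `b ∈ F ∩ B`: `π s b = π s' b`. For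
`a ∈ F`, `Perp a`: the square of `n2` of the average is
`n⁻² ∑ s s', ntr (star (Z (π s a)) * Z (π s' a))`, within `ε'` of
`n⁻² ∑ s s', t (star (π s a) * π s' a) = n2 t (n⁻¹ ∑ s, π s a) ^ 2 < ε ^ 2 / 4`.
Finally reindex `Fin ν × Fin n` to `Fin (ν * n)` by `exists_fin`.
-/

set_option autoImplicit false

namespace Pool.Agent.QFP

open scoped Matrix.Norms.L2Operator

/-- permutation matrices -/
def A2x_P {ι : Type} [DecidableEq ι] (σ : Equiv.Perm ι) : Matrix ι ι ℂ :=
  Matrix.of fun i j => if σ i = j then 1 else 0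

theorem A2x_P_apply {ι : Type} [DecidableEq ι] (σ : Equiv.Perm ι) (i j : ι) :
    A2x_P σ i j = if σ i = j then 1 else 0 := rfl

theorem A2x_P_mul {ι : Type} [Fintype ι] [DecidableEq ι] (σ : Equiv.Perm ι) (M : Matrix ι ι ℂ) :
    A2x_P σ * M = M.submatrix σ id := by
  ext i j
  rw [Matrix.mul_apply, Finset.sum_eq_single (σ i)]
  · rw [A2x_P_apply, if_pos rfl, one_mul]
    rfl
  · intro l _ hl
    rw [A2x_P_apply, if_neg (Ne.symm hl), zero_mul]
  · intro h
    exact absurd (Finset.mem_univ _) h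

theorem A2x_mul_star {ι : Type} [Fintype ι] [DecidableEq ι] (σ : Equiv.Perm ι) (M : Matrix ι ι ℂ) :
    M * star (A2x_P σ) = M.submatrix id σ := by
  ext i j
  rw [Matrix.mul_apply, Finset.sum_eq_single (σ j)]
  · rw [Matrix.star_apply, A2x_P_apply, if_pos rfl, star_one, mul_one]
    rfl
  · intro l _ hl
    rw [Matrix.star_apply, A2x_P_apply, if_neg (Ne.symm hl), star_zero, mul_zero]
  · intro h
    exact absurd (Finset.mem_univ _) h

theorem A2x_conj {ι : Type} [Fintype ι] [DecidableEq ι] (σ : Equiv.Perm ι) (M : Matrix ι ι ℂ) :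
    A2x_P σ * M * star (A2x_P σ) = M.submatrix σ σ := by
  rw [A2x_P_mul, A2x_mul_star]
  rfl

theorem A2x_unitary {ι : Type} [Fintype ι] [DecidableEq ι] (σ : Equiv.Perm ι) :
    A2x_P σ * star (A2x_P σ) = 1 := by
  rw [A2x_mul_star]
  ext i j
  rw [Matrix.submatrix_apply, A2x_P_apply, Matrix.one_apply]
  by_cases h : i = j
  · subst h
    rw [id_eq, if_pos rfl, if_pos rfl]
  · rw [if_neg h, if_neg]
    intro h'
    exact h (σ.injective h')

/-- the block shift -/
def A2x_sh (κ : Type) {n : ℕ} [NeZero n] (k : Fin n) : Equiv.Perm (κ × Fin n) :=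
  Equiv.prodCongr (Equiv.refl κ) (Equiv.addRight k)

theorem A2x_sh_apply (κ : Type) {n : ℕ} [NeZero n] (k : Fin n) (i : κ) (s : Fin n) :
    A2x_sh κ k (i, s) = (i, s + k) := rfl

theorem A2x_block {n : ℕ} [NeZero n] {κ : Type} [Fintype κ] [DecidableEq κ] (k : Fin n)
    (x : Fin n → Matrix κ κ ℂ) :
    (Matrix.blockDiagonal x).submatrix (A2x_sh κ k) (A2x_sh κ k) =
      Matrix.blockDiagonal (fun s => x (s + k)) := by
  ext ⟨i, s⟩ ⟨j, s'⟩
  rw [Matrix.submatrix_apply, A2x_sh_apply, A2x_sh_apply, Matrix.blockDiagonal_apply,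
    Matrix.blockDiagonal_apply]
  by_cases h : s = s'
  · subst h
    rw [if_pos rfl, if_pos rfl]
  · rw [if_neg h, if_neg]
    intro h'
    exact h (add_right_cancel h')

theorem shift_avg (n : ℕ) (hn : 0 < n) (κ : Type) [Fintype κ] [DecidableEq κ] [Nonempty κ] :
    ∃ v : Fin n → Matrix (κ × Fin n) (κ × Fin n) ℂ,
      (∀ k, v k * star (v k) = 1 ∧ star (v k) * v k = 1) ∧
      (∀ k (y : Matrix κ κ ℂ), v k * Matrix.blockDiagonal (fun _ => y) =
        Matrix.blockDiagonal (fun _ => y) * v k) ∧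
      ∀ x : Fin n → Matrix κ κ ℂ,
        n2 ntr ((n : ℂ)⁻¹ • ∑ k, v k * Matrix.blockDiagonal x * star (v k)) =
          n2 ntr ((n : ℂ)⁻¹ • ∑ s, x s) := by
  have : NeZero n := ⟨hn.ne'⟩
  have huni : ∀ k : Fin n, A2x_P (A2x_sh κ k) * star (A2x_P (A2x_sh κ k)) = 1 := fun k =>
    A2x_unitary _
  have huni' : ∀ k : Fin n, star (A2x_P (A2x_sh κ k)) * A2x_P (A2x_sh κ k) = 1 := fun k =>
    mul_eq_one_comm.1 (huni k)
  refine ⟨fun k => A2x_P (A2x_sh κ k), fun k => ⟨huni k, huni' k⟩, ?_, ?_⟩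
  · intro k y
    have h1 := A2x_conj (A2x_sh κ k) (Matrix.blockDiagonal (fun _ : Fin n => y))
    rw [A2x_block] at h1
    have h2 := congrArg (· * A2x_P (A2x_sh κ k)) h1
    simp only [] at h2
    rw [mul_assoc (A2x_P (A2x_sh κ k) * Matrix.blockDiagonal (fun _ : Fin n => y)), huni', mul_one] at h2
    exact h2
  · intro x
    obtain ⟨Ψ, hΨ, hΨt⟩ := exists_blockDiag n hn κ
    have h1 : (n : ℂ)⁻¹ • ∑ k, A2x_P (A2x_sh κ k) * Matrix.blockDiagonal x * star (A2x_P (A2x_sh κ k)) =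
        Ψ (fun _ => (n : ℂ)⁻¹ • ∑ s, x s) := by
      have h2 : ∀ k : Fin n, A2x_P (A2x_sh κ k) * Matrix.blockDiagonal x * star (A2x_P (A2x_sh κ k)) =
          Ψ (fun s => x (s + k)) := by
        intro k
        rw [A2x_conj, A2x_block, hΨ]
      rw [Finset.sum_congr rfl (fun k _ => h2 k), ← map_sum, ← map_smul]
      congr 1
      funext s
      rw [Pi.smul_apply, Finset.sum_apply]
      congr 1
      exact Equiv.sum_comp (Equiv.addLeft s) x
    show n2 ntr ((n : ℂ)⁻¹ • ∑ k, A2x_P (A2x_sh κ k) * Matrix.blockDiagonal x *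
      star (A2x_P (A2x_sh κ k))) = _
    rw [h1, n2_map Ψ hΨt, n2_tpi_const n hn]

end Pool.Agent.QFP
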