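import Pool.Agent.QFP.W1
import Pool.Agent.QFP.C2
import Pool.Agent.QFP.D1
import Pool.Agent.QFP.A2x

/-!
# [A2y] A family of embeddings with small averages gives inner averaging

`shift_avg`: for `x : Fin n → Matrix κ κ ℂ` the block diagonal matrix `X` with blocks `x s`
(`exists_blockDiag`) and the block shifts `v k`, `k : Fin n`
(`v k = 1 ⊗ (permutation matrix of s ↦ s + k)` on `κ × Fin n`, unitary), `v k * X * star (v k)` is block
diagonal with the blocks `x (s + k)` (or `s - k`), and `n⁻¹ ∑ k, v k * X * star (v k)` is block diagonal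
with all blocks equal to `n⁻¹ ∑ s, x s`. For a constant family `v k` commutes with `X`.

`innerAveraging_of_homs`: given `F`, `m`, `ε`, take `n`, `π` for `F` and `ε / 2`. Take the
microstates `Z : Alg P → Matrix (Fin ν) (Fin ν) ℂ` (`ConnesEmb P`) of the finite set
`F' = {π s a}` for `max m 2` and a small `ε'`, `x a s = Z (π s a)`, and `X a` = block diagonal
matrix of `x a`. `‖X a‖ ≤ max ‖x a s‖ ≤ max ‖π s a‖ ≤ ‖a‖` (`Ψ` of `exists_blockDiag` is contractive).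
Moments: `ntr (wordEval X w) = n⁻¹ ∑ s, ntr (wordEval (Z ∘ π s) w)` is within `ε'` of
`n⁻¹ ∑ s, t (wordEval (π s) w) = τ (wordEval id w)`. For `b ∈ F ∩ B`: `π s b = π s' b`. For
`a ∈ F`, `Perp a`: the square of `n2` of the average is
`n⁻² ∑ s s', ntr (star (Z (π s a)) * Z (π s' a))`, within `ε'` of
`n⁻² ∑ s s', t (star (π s a) * π s' a) = n2 t (n⁻¹ ∑ s, π s a) ^ 2 < ε ^ 2 / 4`.
Finally reindex `Fin ν × Fin n` to `Fin (ν * n)` by `exists_fin`.
-/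

set_option autoImplicit false

namespace Pool.Agent.QFP

open scoped Matrix.Norms.L2Operator

theorem A2y_avg {n : ℕ} (hn : 0 < n) (d : Fin n → ℂ) (e : ℝ) (h : ∀ s, ‖d s‖ < e) :
    ‖(n : ℂ)⁻¹ * ∑ s, d s‖ < e := by
  haveI : Nonempty (Fin n) := ⟨⟨0, hn⟩⟩
  have h1 : ‖∑ s, d s‖ < n * e := by
    refine lt_of_le_of_lt (norm_sum_le _ _) ?_
    have h2 : ∑ s : Fin n, ‖d s‖ < ∑ _s : Fin n, e :=
      Finset.sum_lt_sum_of_nonempty Finset.univ_nonempty fun s _ => h s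
    simpa using h2
  have hn' : (0 : ℝ) < n := by exact_mod_cast hn
  rw [norm_mul, norm_inv, Complex.norm_natCast]
  calc (n : ℝ)⁻¹ * ‖∑ s, d s‖ < (n : ℝ)⁻¹ * (n * e) :=
        mul_lt_mul_of_pos_left h1 (inv_pos.2 hn')
    _ = e := by field_simp

theorem A2y_avg2 {n : ℕ} (hn : 0 < n) (d : Fin n → Fin n → ℂ) (e : ℝ) (h : ∀ s s', ‖d s s'‖ < e) :
    ‖(n : ℂ)⁻¹ * ∑ s, (n : ℂ)⁻¹ * ∑ s', d s s'‖ < e :=
  A2y_avg hn _ e fun s => A2y_avg hn _ e (h s)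

/-- the square of an average -/
theorem A2y_expand {D : Type*} [CStarAlgebra D] (t : D →ₗ[ℂ] ℂ) {n : ℕ} (z : Fin n → D) :
    t (star ((n : ℂ)⁻¹ • ∑ s, z s) * ((n : ℂ)⁻¹ • ∑ s, z s)) =
      (n : ℂ)⁻¹ * ∑ s, (n : ℂ)⁻¹ * ∑ s', t (star (z s) * z s') := by
  rw [star_smul, star_sum, smul_mul_assoc, map_smul, Finset.sum_mul, map_sum, smul_eq_mul]
  have e : star ((n : ℂ)⁻¹) = (n : ℂ)⁻¹ := by simp
  rw [e]
  congr 1
  refine Finset.sum_congr rfl fun s _ => ?_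
  rw [mul_smul_comm, map_smul, Finset.mul_sum, map_sum, smul_eq_mul]

theorem A2y_word {R κ κ' : Type*} [Monoid R] [Star R] (x : κ' → R) (f : κ → κ')
    (w : List (κ × Bool)) :
    wordEval x (w.map fun p => (f p.1, p.2)) = wordEval (fun k => x (f k)) w := by
  unfold wordEval
  rw [List.map_map]
  rfl

theorem innerAveraging_of_homs {H : Type*} [NormedAddCommGroup H] [InnerProductSpace ℂ H]
    [CompleteSpace H] {A B : VonNeumannAlgebra H} {τ : Alg A →ₗ[ℂ] ℂ} (hτ : IsTrace A τ)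
    {K : Type*} [NormedAddCommGroup K] [InnerProductSpace ℂ K] [CompleteSpace K]
    {P : VonNeumannAlgebra K} {t : Alg P →ₗ[ℂ] ℂ} (ht : IsTrace P t) (hP : ConnesEmb P t)
    (hπ : ∀ (F : Finset (Alg A)) (ε : ℝ), 0 < ε →
      ∃ (n : ℕ) (_ : 0 < n) (π : Fin n → Alg A →⋆ₐ[ℂ] Alg P),
        (∀ s a, t (π s a) = τ a) ∧
        (∀ s s' (b : Alg A), (b : H →L[ℂ] H) ∈ B → π s b = π s' b) ∧
        ∀ a ∈ F, Perp A B τ a → n2 t ((n : ℂ)⁻¹ • ∑ s, π s a) < ε) :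
    InnerAveraging A B τ := by
  classical
  intro F m ε hε
  obtain ⟨n, hn, π, hπ1, hπ2, hπ3⟩ := hπ F (ε / 2) (by positivity)
  let F' : Finset (Alg P) := Finset.univ.biUnion fun s => F.image (π s)
  have hF' : ∀ s, ∀ a ∈ F, π s a ∈ F' := by
    intro s a ha
    exact Finset.mem_biUnion.2 ⟨s, Finset.mem_univ _, Finset.mem_image_of_mem _ ha⟩
  let ε' : ℝ := min ε (ε ^ 2 / 2)
  have hε'0 : 0 < ε' := lt_min hε (by positivity)
  obtain ⟨ν, hν, Z, hZ1, hZ2⟩ := hP F' (max m 2) ε' hε'0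
  haveI : Nonempty (Fin ν) := ⟨⟨0, hν⟩⟩
  haveI : Nonempty (Fin n) := ⟨⟨0, hn⟩⟩
  obtain ⟨Ψ, hΨ1, hΨ2⟩ := exists_blockDiag n hn (Fin ν)
  obtain ⟨v, hv1, hv2, hv3⟩ := shift_avg n hn (Fin ν)
  obtain ⟨ν', hν', Ψ', hΨ'⟩ := exists_fin (Fin ν × Fin n)
  haveI : Nonempty (Fin ν') := ⟨⟨0, hν'⟩⟩
  have hPtr := ht.trAlg
  have hAtr := hτ.trAlg
  let x : Alg A → Fin n → Matrix (Fin ν) (Fin ν) ℂ := fun a s => Z (π s a)
  have hn2' : ∀ y, n2 ntr (Ψ' y) = n2 ntr y := by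
    intro y
    unfold n2
    rw [← map_star, ← map_mul, hΨ']
  refine ⟨ν', hν', fun a => Ψ' (Ψ (x a)), n, hn, fun s => Ψ' (v s), ?_, ?_, ?_, ?_, ?_⟩
  · -- norms
    intro a
    refine le_trans (NonUnitalStarAlgHom.norm_apply_le Ψ' _) ?_
    refine le_trans (NonUnitalStarAlgHom.norm_apply_le Ψ _) ?_
    refine (pi_norm_le_iff_of_nonneg (norm_nonneg _)).2 fun s => ?_
    refine le_trans (hZ1 (π s a)) ?_
    exact NonUnitalStarAlgHom.norm_apply_le (π s) a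
  · -- moments
    intro w hw hwm
    have e1 : wordEval (fun a => Ψ' (Ψ (x a))) w = Ψ' (Ψ (wordEval x w)) := by
      rw [map_wordEval, map_wordEval]
    rw [e1, hΨ', hΨ2, tpi_apply]
    have e2 : (n : ℂ)⁻¹ * ∑ s, ntr (wordEval x w s) - τ (wordEval id w) =
        (n : ℂ)⁻¹ * ∑ s, (ntr (wordEval x w s) - τ (wordEval id w)) := by
      have hn' : (n : ℂ) ≠ 0 := by exact_mod_cast hn.ne'
      rw [Finset.sum_sub_distrib, mul_sub, Finset.sum_const, Finset.card_univ, Fintype.card_fin,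
        nsmul_eq_mul, inv_mul_cancel_left₀ hn']
    rw [e2]
    refine lt_of_lt_of_le (A2y_avg hn _ ε' fun s => ?_) (min_le_left _ _)
    have h1 := hZ2 (w.map fun p => (π s p.1, p.2)) (by
      intro p hp
      obtain ⟨q, hq, rfl⟩ := List.mem_map.1 hp
      exact hF' s q.1 (hw q hq)) (by
      rw [List.length_map]
      exact le_trans hwm (le_max_left _ _))
    rw [A2y_word, A2y_word] at h1
    have e3 : wordEval (fun k => id (π s k)) w = π s (wordEval id w) := by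
      rw [map_wordEval]
      rfl
    rw [e3, hπ1] at h1
    have e4 : wordEval x w s = wordEval (fun k => Z (π s k)) w := wordEval_pi n x w s
    rw [e4]
    exact h1
  · intro s
    constructor
    · rw [← map_star, ← map_mul, (hv1 s).1, map_one]
    · rw [← map_star, ← map_mul, (hv1 s).2, map_one]
  · intro s b _ hbB
    have e1 : x b = fun _ => Z (π ⟨0, hn⟩ b) := by
      funext s'
      change Z (π s' b) = _
      rw [hπ2 s' ⟨0, hn⟩ b hbB]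
    change Ψ' (v s) * Ψ' (Ψ (x b)) = Ψ' (Ψ (x b)) * Ψ' (v s)
    rw [← map_mul, ← map_mul, e1, hΨ1, hv2]
  · intro a haF haP
    have e1 : (n : ℂ)⁻¹ • ∑ s, Ψ' (v s) * Ψ' (Ψ (x a)) * star (Ψ' (v s)) =
        Ψ' ((n : ℂ)⁻¹ • ∑ s, v s * Matrix.blockDiagonal (x a) * star (v s)) := by
      rw [map_smul, map_sum]
      congr 1
      refine Finset.sum_congr rfl fun s _ => ?_
      rw [map_mul, map_mul, map_star, hΨ1]
    change n2 ntr ((n : ℂ)⁻¹ • ∑ s, Ψ' (v s) * Ψ' (Ψ (x a)) * star (Ψ' (v s))) < ε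
    rw [e1, hn2', hv3]
    have hntr : TrAlg (ntr : Matrix (Fin ν) (Fin ν) ℂ →ₗ[ℂ] ℂ) := ntr_trAlg
    have h1 : n2 ntr ((n : ℂ)⁻¹ • ∑ s, x a s) ^ 2 =
        ((n : ℂ)⁻¹ * ∑ s, (n : ℂ)⁻¹ * ∑ s', ntr (star (Z (π s a)) * Z (π s' a))).re := by
      rw [hntr.n2_sq, A2y_expand]
    have h2 : n2 t ((n : ℂ)⁻¹ • ∑ s, π s a) ^ 2 =
        ((n : ℂ)⁻¹ * ∑ s, (n : ℂ)⁻¹ * ∑ s', t (star (π s a) * π s' a)).re := by
      rw [hPtr.n2_sq, A2y_expand]
    have h3 := A2y_avg2 hn (fun s s' => ntr (star (Z (π s a)) * Z (π s' a)) -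
      t (star (π s a) * π s' a)) ε' (by
      intro s s'
      have h := hZ2 [(π s a, true), (π s' a, false)] (by
        intro p hp
        simp only [List.mem_cons, List.not_mem_nil, or_false] at hp
        rcases hp with rfl | rfl
        · exact hF' s a haF
        · exact hF' s' a haF) (by simp)
      simpa [wordEval] using h)
    have e3 : (n : ℂ)⁻¹ * ∑ s, (n : ℂ)⁻¹ * ∑ s', (ntr (star (Z (π s a)) * Z (π s' a)) -
        t (star (π s a) * π s' a)) =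
        (n : ℂ)⁻¹ * ∑ s, (n : ℂ)⁻¹ * ∑ s', ntr (star (Z (π s a)) * Z (π s' a)) -
        (n : ℂ)⁻¹ * ∑ s, (n : ℂ)⁻¹ * ∑ s', t (star (π s a) * π s' a) := by
      simp only [Finset.sum_sub_distrib, mul_sub]
    rw [e3] at h3
    have h4 : n2 ntr ((n : ℂ)⁻¹ • ∑ s, x a s) ^ 2 - n2 t ((n : ℂ)⁻¹ • ∑ s, π s a) ^ 2 < ε' := by
      rw [h1, h2, ← Complex.sub_re]
      exact lt_of_le_of_lt (Complex.re_le_norm _) h3
    have h5 : n2 t ((n : ℂ)⁻¹ • ∑ s, π s a) ^ 2 < (ε / 2) ^ 2 :=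
      pow_lt_pow_left₀ (hπ3 a haF haP) (n2_nonneg _ _) two_ne_zero
    have h6 : ε' ≤ ε ^ 2 / 2 := min_le_right _ _
    have h7 : n2 ntr ((n : ℂ)⁻¹ • ∑ s, x a s) ^ 2 < ε ^ 2 := by
      have : (0 : ℝ) < ε ^ 2 := by positivity
      nlinarith
    exact lt_of_pow_lt_pow_left₀ 2 hε.le h7

end Pool.Agent.QFP
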