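import Pool.Agent.QFP.L4

/-!
# [L5] Existence of the conditional expectation

`B ⊆ A` von Neumann algebras on `H`, `τ` a trace on `A`. The restriction of `τ` to `B` is a trace
(`IsTrace B`), so `IsTrace.ballComplete` and `exists_proj` apply to the inclusion
`Alg B → Alg A` (`StarSubalgebra.inclusion`).
-/

set_option autoImplicit false

namespace Pool.Agent.QFP

variable {H : Type*} [NormedAddCommGroup H] [InnerProductSpace ℂ H] [CompleteSpace H]

theorem exists_condexp {A B : VonNeumannAlgebra H} (hBA : ∀ x : H →L[ℂ] H, x ∈ B → x ∈ A)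
    {τ : Alg A →ₗ[ℂ] ℂ} (hτ : IsTrace A τ) (a : Alg A) :
    ∃ b : Alg A, (b : H →L[ℂ] H) ∈ B ∧ Perp A B τ (a - b) := by
  have hle : B.toStarSubalgebra ≤ A.toStarSubalgebra := fun x hx => hBA x hx
  let Ψ : Alg B →⋆ₐ[ℂ] Alg A := StarSubalgebra.inclusion hle
  have hΨv : ∀ x : Alg B, ((Ψ x : Alg A) : H →L[ℂ] H) = (x : H →L[ℂ] H) := fun x => rfl
  let τB : Alg B →ₗ[ℂ] ℂ := τ.comp Ψ.toAlgHom.toLinearMap
  have hτB : ∀ x : Alg B, τB x = τ (Ψ x) := fun x => rfl
  have hinj : ∀ x : Alg B, Ψ x = 0 → x = 0 := by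
    intro x hx
    have h1 : ((Ψ x : Alg A) : H →L[ℂ] H) = ((0 : Alg A) : H →L[ℂ] H) := congrArg Subtype.val hx
    exact Subtype.ext h1
  have hB : IsTrace B τB :=
    { map_one := by rw [hτB, map_one, hτ.map_one]
      tracial := fun x y => by rw [hτB, hτB, map_mul Ψ, map_mul Ψ, hτ.tracial]
      faithful := fun x hx => by
        rw [hτB, map_mul, map_star] at hx
        exact hinj x (hτ.faithful _ hx)
      normal := by
        obtain ⟨ξ, h1, h2⟩ := hτ.normal
        exact ⟨ξ, h1, fun x => by rw [hτB, h2]; rfl⟩ }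
  obtain ⟨b, hb⟩ := exists_proj hB.trAlg hτ.trAlg hB.ballComplete Ψ (fun x => rfl) a
  refine ⟨Ψ b, b.2, ?_⟩
  intro b' hb'
  have h1 := hb (star (⟨(b' : H →L[ℂ] H), hb'⟩ : Alg B))
  have h2 : star (Ψ (star (⟨(b' : H →L[ℂ] H), hb'⟩ : Alg B))) = b' := by
    rw [map_star, star_star]
    exact Subtype.ext rfl
  rw [h2] at h1
  rw [hτ.tracial]
  exact h1

/-- `Perp` is invariant under adjoints and under multiplication by elements of `B`. -/
theorem Perp.star {A B : VonNeumannAlgebra H} {τ : Alg A →ₗ[ℂ] ℂ} (hτ : IsTrace A τ) {a : Alg A}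
    (ha : Perp A B τ a) : Perp A B τ (Star.star a) := by
  intro b hb
  have h1 : Star.star a * b = Star.star (Star.star b * a) := by
    rw [star_mul, star_star]
  have h2 : ((Star.star b : Alg A) : H →L[ℂ] H) ∈ B := by
    show Star.star (b : H →L[ℂ] H) ∈ B
    exact star_mem hb
  rw [h1, hτ.trAlg.map_star, hτ.tracial, ha _ h2, map_zero]

end Pool.Agent.QFP
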