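import Pool.Agent.QFP.B2

/-!
# [T2x] Monotonicity of the trace

Proof of `truncate`. Let `g s = r / max r (√s)` (continuous on `ℝ`, `0 ≤ g ≤ 1`,
`√s * g s = min r (√s) ≤ r` for `s ≥ 0`), `Z' = Z * cfc g (star Z * Z)`. Then
`star Z' * Z' = cfc (fun s => s * g s ^ 2) (star Z * Z)` has norm at most `r ^ 2` (the spectrum is in
`[0, ∞)`), so `‖Z'‖ ≤ r`. With `h s = s * (1 - g s) ^ 2` one has
`n2 t (Z - Z') ^ 2 = re t (cfc h (star Z * Z))`. Given `0 < η ≤ 1` with `η ^ 2 * r ^ 2 < δ ^ 2 / 4`,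
for `0 ≤ s ≤ C ^ 2`:
`h s = (max (√s - r) 0) ^ 2 ≤ η ^ 2 * r ^ 2 + C ^ 2 * s ^ m / ((1 + η) * r) ^ (2 * m)`
(first term if `√s ≤ (1 + η) r`, second one otherwise). Positivity of the trace on
`cfc (difference) (star Z * Z)` (a nonnegative continuous function on the spectrum is a square) gives
`n2 t (Z - Z') ^ 2 ≤ η ^ 2 r ^ 2 + C ^ 2 * re t ((star Z * Z) ^ m) / ((1 + η) r) ^ (2 m)
  ≤ η ^ 2 r ^ 2 + 2 C ^ 2 / (1 + η) ^ (2 m)`, and `m` is chosen such that this is `< δ ^ 2`.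
-/

set_option autoImplicit false

namespace Pool.Agent.QFP

theorem T2x_cfc {D : Type*} [CStarAlgebra D] (y : D) (f : ℝ → ℝ) (hf : Continuous f) (hf0 : ∀ s, 0 ≤ f s) :
    ∃ d : D, cfc f y = star d * d := by
  refine ⟨cfc (fun s => Real.sqrt (f s)) y, ?_⟩
  have h1 : IsSelfAdjoint (cfc (fun s => Real.sqrt (f s)) y) := cfc_predicate _ _
  have hc : Continuous (fun s => Real.sqrt (f s)) := Real.continuous_sqrt.comp hf
  rw [h1.star_eq, ← cfc_mul (fun s => Real.sqrt (f s)) (fun s => Real.sqrt (f s)) y hc.continuousOn hc.continuousOn]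
  congr 1
  funext s
  exact (Real.mul_self_sqrt (hf0 s)).symm

theorem T2x_spec {D : Type*} [CStarAlgebra D] [Nontrivial D] (Z : D) (C : ℝ) (hZ : ‖Z‖ ≤ C) {s : ℝ}
    (hs : s ∈ spectrum ℝ (star Z * Z)) : 0 ≤ s ∧ s ≤ C ^ 2 := by
  refine ⟨spectrum_star_mul_self_nonneg s hs, ?_⟩
  have h1 := spectrum.norm_le_norm_of_mem hs
  rw [CStarRing.norm_star_mul_self] at h1
  calc s ≤ ‖s‖ := Real.le_norm_self s
    _ ≤ ‖Z‖ * ‖Z‖ := h1
    _ ≤ C ^ 2 := by
      rw [pow_two]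
      exact mul_self_le_mul_self (norm_nonneg _) hZ

/-- Monotonicity of the trace on functions of a positive element `star Z * Z` with `‖Z‖ ≤ C`. -/
theorem TrAlg.cfc_mono {D : Type*} [CStarAlgebra D] {t : D →ₗ[ℂ] ℂ} (h : TrAlg t) (Z : D) (C : ℝ)
    (hZ : ‖Z‖ ≤ C) (f g : ℝ → ℝ) (hf : Continuous f) (hg : Continuous g)
    (hfg : ∀ s, 0 ≤ s → s ≤ C ^ 2 → f s ≤ g s) :
    (t (cfc f (star Z * Z))).re ≤ (t (cfc g (star Z * Z))).re := by
  have hnt : Nontrivial D := by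
    by_contra hcon
    rw [not_nontrivial_iff_subsingleton] at hcon
    have h1 := h.one
    rw [Subsingleton.elim (1 : D) 0, map_zero] at h1
    exact zero_ne_one h1
  set k : ℝ → ℝ := fun s => max (g s - f s) 0 with hk
  have hkc : Continuous k := (hg.sub hf).max continuous_const
  obtain ⟨d, hd⟩ := T2x_cfc (star Z * Z) k hkc fun s => le_max_right _ _
  have h1 : cfc k (star Z * Z) = cfc g (star Z * Z) - cfc f (star Z * Z) := by
    rw [← cfc_sub g f (star Z * Z) hg.continuousOn hf.continuousOn]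
    refine cfc_congr fun s hs => ?_
    obtain ⟨h2, h3⟩ := T2x_spec Z C hZ hs
    exact max_eq_left (sub_nonneg.2 (hfg s h2 h3))
  have h2 := (h.pos d).1
  rw [← hd, h1, map_sub, Complex.sub_re] at h2
  linarith

end Pool.Agent.QFP
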