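import Pool.Agent.QFP.B2
import Pool.Agent.QFP.T2x

/-!
# [T2y] Truncation with the help of high moments

Proof of `truncate`. Let `g s = r / max r (√s)` (continuous on `ℝ`, `0 ≤ g ≤ 1`,
`√s * g s = min r (√s) ≤ r` for `s ≥ 0`), `Z' = Z * cfc g (star Z * Z)`. Then
`star Z' * Z' = cfc (fun s => s * g s ^ 2) (star Z * Z)` has norm at most `r ^ 2` (the spectrum is in
`[0, ∞)`), so `‖Z'‖ ≤ r`. With `h s = s * (1 - g s) ^ 2` one has
`n2 t (Z - Z') ^ 2 = re t (cfc h (star Z * Z))`. Given `0 < η ≤ 1` with `η ^ 2 * r ^ 2 < δ ^ 2 / 4`,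
for `0 ≤ s ≤ C ^ 2`:
`h s = (max (√s - r) 0) ^ 2 ≤ η ^ 2 * r ^ 2 + C ^ 2 * s ^ m / ((1 + η) * r) ^ (2 * m)`
(first term if `√s ≤ (1 + η) r`, second one otherwise). Positivity of the trace on
`cfc (difference) (star Z * Z)` (a nonnegative continuous function on the spectrum is a square) gives
`n2 t (Z - Z') ^ 2 ≤ η ^ 2 r ^ 2 + C ^ 2 * re t ((star Z * Z) ^ m) / ((1 + η) r) ^ (2 m)
  ≤ η ^ 2 r ^ 2 + 2 C ^ 2 / (1 + η) ^ (2 m)`, and `m` is chosen such that this is `< δ ^ 2`.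
-/

set_option autoImplicit false

namespace Pool.Agent.QFP

/-- The function `s ↦ r / max r √s`. -/
noncomputable def T2yg (r s : ℝ) : ℝ := r / max r (Real.sqrt s)

theorem T2yg_cont (r : ℝ) (hr : 0 < r) : Continuous (T2yg r) := by
  unfold T2yg
  refine continuous_const.div (continuous_const.max Real.continuous_sqrt) fun s => ?_
  exact (lt_of_lt_of_le hr (le_max_left _ _)).ne'

theorem T2yg_le (r : ℝ) (hr : 0 < r) (s : ℝ) (hs : 0 ≤ s) : ‖T2yg r s * s * T2yg r s‖ ≤ r ^ 2 := by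
  unfold T2yg
  set q := Real.sqrt s with hq
  have hq0 : 0 ≤ q := Real.sqrt_nonneg s
  have hs2 : s = q ^ 2 := (Real.sq_sqrt hs).symm
  have hM : 0 < max r q := lt_of_lt_of_le hr (le_max_left _ _)
  rw [hs2]
  have e : r / max r q * q ^ 2 * (r / max r q) = (r * (q / max r q)) ^ 2 := by
    field_simp
  rw [e, Real.norm_eq_abs, abs_of_nonneg (sq_nonneg _)]
  have h1 : q / max r q ≤ 1 := (div_le_one hM).2 (le_max_right _ _)
  have h2 : 0 ≤ q / max r q := div_nonneg hq0 hM.le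
  have h3 : r * (q / max r q) ≤ r * 1 := mul_le_mul_of_nonneg_left h1 hr.le
  rw [mul_one] at h3
  exact pow_le_pow_left₀ (mul_nonneg hr.le h2) h3 2

theorem T2yh_le (C r η : ℝ) (hr : 0 < r) (hη : 0 < η) (m : ℕ) (s : ℝ) (hs : 0 ≤ s) (hs2 : s ≤ C ^ 2) :
    (1 - T2yg r s) * s * (1 - T2yg r s) ≤
      η ^ 2 * r ^ 2 + C ^ 2 / ((1 + η) * r) ^ (2 * m) * s ^ m := by
  unfold T2yg
  set q := Real.sqrt s with hq
  have hq0 : 0 ≤ q := Real.sqrt_nonneg s
  have hsq : s = q ^ 2 := (Real.sq_sqrt hs).symm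
  have hM : 0 < max r q := lt_of_lt_of_le hr (le_max_left _ _)
  have hden : 0 < (1 + η) * r := by positivity
  have hqC : q ^ 2 ≤ C ^ 2 := by rw [← hsq]; exact hs2
  rw [hsq]
  have hnn1 : 0 ≤ η ^ 2 * r ^ 2 := by positivity
  have hnn2 : 0 ≤ C ^ 2 / ((1 + η) * r) ^ (2 * m) * (q ^ 2) ^ m := by positivity
  rcases le_total q r with h | h
  · rw [max_eq_left h, div_self hr.ne']
    have : (1 - 1) * q ^ 2 * (1 - 1) = 0 := by ring
    rw [this]
    exact add_nonneg hnn1 hnn2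
  · rw [max_eq_right h]
    have hqpos : 0 < q := lt_of_lt_of_le hr h
    have e : (1 - r / q) * q ^ 2 * (1 - r / q) = (q - r) ^ 2 := by
      field_simp
    rw [e]
    rcases le_total q ((1 + η) * r) with h' | h'
    · have h1 : (q - r) ^ 2 ≤ (η * r) ^ 2 := by
        refine pow_le_pow_left₀ (by linarith) ?_ 2
        linarith
      rw [mul_pow] at h1
      linarith
    · have h1 : (q - r) ^ 2 ≤ q ^ 2 := pow_le_pow_left₀ (by linarith) (by linarith) 2
      have h2 : (1 : ℝ) ≤ (q ^ 2) ^ m / ((1 + η) * r) ^ (2 * m) := by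
        rw [one_le_div (by positivity), ← pow_mul]
        exact pow_le_pow_left₀ hden.le h' _
      have h3 : C ^ 2 / ((1 + η) * r) ^ (2 * m) * (q ^ 2) ^ m =
          C ^ 2 * ((q ^ 2) ^ m / ((1 + η) * r) ^ (2 * m)) := by ring
      rw [h3]
      have h4 : C ^ 2 * 1 ≤ C ^ 2 * ((q ^ 2) ^ m / ((1 + η) * r) ^ (2 * m)) :=
        mul_le_mul_of_nonneg_left h2 (sq_nonneg C)
      linarith

/-- The exponent does not depend on the algebra. -/
theorem truncate (C r δ : ℝ) (hC : 0 ≤ C) (hr : 0 < r) (hδ : 0 < δ) : ∃ m : ℕ,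
    ∀ (D : Type) [CStarAlgebra D] (t : D →ₗ[ℂ] ℂ), TrAlg t → ∀ Z : D, ‖Z‖ ≤ C →
      (t ((star Z * Z) ^ m)).re ≤ 2 * r ^ (2 * m) →
      ∃ Z' : D, ‖Z'‖ ≤ r ∧ n2 t (Z - Z') < δ := by
  obtain ⟨η, hη, hη2⟩ : ∃ η : ℝ, 0 < η ∧ η ^ 2 * r ^ 2 = δ ^ 2 / 4 := by
    refine ⟨δ / (2 * r), by positivity, ?_⟩
    field_simp
    ring
  obtain ⟨m, hm⟩ : ∃ m : ℕ, 4 * C ^ 2 / δ ^ 2 < ((1 + η) ^ 2) ^ m := by
    refine pow_unbounded_of_one_lt _ ?_
    nlinarith
  refine ⟨m, fun D _ t ht Z hZ hmom => ?_⟩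
  have hnt : Nontrivial D := by
    by_contra hcon
    rw [not_nontrivial_iff_subsingleton] at hcon
    have h1 := ht.one
    rw [Subsingleton.elim (1 : D) 0, map_zero] at h1
    exact zero_ne_one h1
  set a : D := star Z * Z with ha
  have hasa : IsSelfAdjoint a := IsSelfAdjoint.star_mul_self Z
  set g : ℝ → ℝ := T2yg r with hg
  have hgc : Continuous g := T2yg_cont r hr
  have hidc : Continuous (fun s : ℝ => s) := continuous_id
  have hgs : star (cfc g a) = cfc g a := (cfc_predicate g a : IsSelfAdjoint (cfc g a)).star_eq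
  have key : ∀ k : ℝ → ℝ, Continuous k → star (Z * cfc k a) * (Z * cfc k a) = cfc (fun s => k s * s * k s) a := by
    intro k hk
    have hks : star (cfc k a) = cfc k a := (cfc_predicate k a : IsSelfAdjoint (cfc k a)).star_eq
    rw [star_mul, hks, cfc_mul (fun s => k s * s) k a (hk.mul hidc).continuousOn hk.continuousOn,
      cfc_mul k (fun s => s) a hk.continuousOn hidc.continuousOn, cfc_id' ℝ a]
    simp only [ha, mul_assoc]
  refine ⟨Z * cfc g a, ?_, ?_⟩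
  · have h1 : ‖star (Z * cfc g a) * (Z * cfc g a)‖ ≤ r ^ 2 := by
      rw [key g hgc]
      refine norm_cfc_le (sq_nonneg r) fun s hs => ?_
      exact T2yg_le r hr s (T2x_spec Z C hZ hs).1
    rw [CStarRing.norm_star_mul_self, ← pow_two] at h1
    exact (pow_le_pow_iff_left₀ (norm_nonneg _) hr.le two_ne_zero).1 h1
  · have h0 : Z - Z * cfc g a = Z * cfc (fun s => 1 - g s) a := by
      rw [cfc_sub (fun _ => (1 : ℝ)) g a continuousOn_const hgc.continuousOn, cfc_const_one ℝ a, mul_sub, mul_one]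
    have h1 : n2 t (Z - Z * cfc g a) ^ 2 = (t (cfc (fun s => (1 - g s) * s * (1 - g s)) a)).re := by
      rw [ht.n2_sq, h0, key (fun s => 1 - g s) (continuous_const.sub hgc)]
    have h2 := ht.cfc_mono Z C hZ (fun s => (1 - g s) * s * (1 - g s))
      (fun s => η ^ 2 * r ^ 2 + C ^ 2 / ((1 + η) * r) ^ (2 * m) * s ^ m)
      (((continuous_const.sub hgc).mul hidc).mul (continuous_const.sub hgc))
      (continuous_const.add (continuous_const.mul (hidc.pow m)))
      (fun s hs hs2 => T2yh_le C r η hr hη m s hs hs2)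
    have h3 : cfc (fun s => η ^ 2 * r ^ 2 + C ^ 2 / ((1 + η) * r) ^ (2 * m) * s ^ m) (star Z * Z) =
        algebraMap ℝ D (η ^ 2 * r ^ 2) + (C ^ 2 / ((1 + η) * r) ^ (2 * m)) • a ^ m := by
      rw [cfc_add (star Z * Z) (fun _ => η ^ 2 * r ^ 2) (fun s => C ^ 2 / ((1 + η) * r) ^ (2 * m) * s ^ m)
        continuousOn_const (continuous_const.mul (hidc.pow m)).continuousOn,
        cfc_const (η ^ 2 * r ^ 2) (star Z * Z) hasa,
        cfc_const_mul (C ^ 2 / ((1 + η) * r) ^ (2 * m)) (fun s => s ^ m) (star Z * Z) (hidc.pow m).continuousOn,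
        cfc_pow_id (star Z * Z) m hasa]
    have h4 : (t (algebraMap ℝ D (η ^ 2 * r ^ 2) + (C ^ 2 / ((1 + η) * r) ^ (2 * m)) • a ^ m)).re =
        η ^ 2 * r ^ 2 + C ^ 2 / ((1 + η) * r) ^ (2 * m) * (t (a ^ m)).re := by
      rw [Algebra.algebraMap_eq_smul_one, map_add, Complex.add_re, ← Complex.coe_smul, ← Complex.coe_smul,
        map_smul, map_smul, ht.one, smul_eq_mul, smul_eq_mul, Complex.re_ofReal_mul, Complex.re_ofReal_mul,
        Complex.one_re, mul_one]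
    rw [h3, h4, ← h1] at h2
    have hpos : (0 : ℝ) < ((1 + η) * r) ^ (2 * m) := by positivity
    have h5 : C ^ 2 / ((1 + η) * r) ^ (2 * m) * (t (a ^ m)).re ≤
        C ^ 2 / ((1 + η) * r) ^ (2 * m) * (2 * r ^ (2 * m)) :=
      mul_le_mul_of_nonneg_left hmom (by positivity)
    have h6 : C ^ 2 / ((1 + η) * r) ^ (2 * m) * (2 * r ^ (2 * m)) = 2 * C ^ 2 / ((1 + η) ^ 2) ^ m := by
      rw [mul_pow, ← pow_mul]
      have : r ^ (2 * m) ≠ 0 := by positivity
      have h' : (1 + η) ^ (2 * m) ≠ 0 := by positivity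
      field_simp
    have h7 : 2 * C ^ 2 / ((1 + η) ^ 2) ^ m < δ ^ 2 / 2 := by
      have hp : (0 : ℝ) < ((1 + η) ^ 2) ^ m := by positivity
      rw [div_lt_iff₀ (by positivity)] at hm
      rw [div_lt_iff₀ hp]
      linarith
    have h8 : n2 t (Z - Z * cfc g a) ^ 2 < δ ^ 2 := by
      have : 0 < δ ^ 2 := by positivity
      linarith
    exact lt_of_pow_lt_pow_left₀ 2 hδ.le h8

end Pool.Agent.QFP
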