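import Pool.Agent.QFP.B2

/-!
# [T1] Clamping selfadjoint elements

`clamp r s = max (-r) (min r s)`. For selfadjoint `x, y` with `‖x‖ ≤ r`,
`‖clamp_r(y) - x‖₂ ≤ ‖y - x‖₂`.

Proof. Put `z = cfc (clamp r) y`, `y = z + f(y) - g(y)` with `f s = max (s - r) 0`,
`g s = max (-r - s) 0`. Then `t((y - x)²) - t((z - x)²) = t((y - z)²) + 2 Re t((y - z)(z - x))`,
`(y - z) z = r f(y) + r g(y)` (as `f(y) z = r f(y)`, `g(y) z = - r g(y)`), so
`t((y - z)(z - x)) = t((r - x) f(y)) + t((r + x) g(y))`, whose real part is `≥ 0` by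
`TrAlg.cfc_nonneg` (`B2`), and `t((y - z)²) ≥ 0`.
-/

set_option autoImplicit false

namespace Pool.Agent.QFP

variable {D : Type*} [CStarAlgebra D] {t : D →ₗ[ℂ] ℂ}

/-- The clamp function. -/
noncomputable def clamp (r s : ℝ) : ℝ := max (-r) (min r s)

theorem clamp_continuous (r : ℝ) : Continuous (clamp r) := by
  unfold clamp
  exact continuous_const.max (continuous_const.min continuous_id)

theorem norm_cfc_clamp_le (y : D) (hy : IsSelfAdjoint y) (r : ℝ) (hr : 0 ≤ r) :
    ‖cfc (clamp r) y‖ ≤ r := by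
  refine norm_cfc_le hr fun s _ => ?_
  rw [Real.norm_eq_abs, abs_le]
  unfold clamp
  exact ⟨le_max_left _ _, max_le (by linarith) (min_le_left _ _)⟩

theorem T1_id (r : ℝ) (hr : 0 ≤ r) (s : ℝ) :
    s - clamp r s = max (s - r) 0 - max (-r - s) 0 ∧
      (s - clamp r s) * clamp r s = r * max (s - r) 0 + r * max (-r - s) 0 := by
  unfold clamp
  rcases le_total s (-r) with h | h
  · rw [min_eq_right (by linarith), max_eq_left h, max_eq_right (by linarith : s - r ≤ 0),
      max_eq_left (by linarith : (0 : ℝ) ≤ -r - s)]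
    constructor <;> ring
  · rcases le_total s r with h' | h'
    · rw [min_eq_right h', max_eq_right h, max_eq_right (by linarith : s - r ≤ 0),
        max_eq_right (by linarith : -r - s ≤ 0)]
      constructor <;> ring
    · rw [min_eq_left h', max_eq_right (by linarith : -r ≤ r), max_eq_left (by linarith : (0 : ℝ) ≤ s - r),
        max_eq_right (by linarith : -r - s ≤ 0)]
      constructor <;> ring

theorem TrAlg.clamp_close (h : TrAlg t) (x y : D) (hx : IsSelfAdjoint x) (hy : IsSelfAdjoint y)
    (r : ℝ) (hr : ‖x‖ ≤ r) : n2 t (cfc (clamp r) y - x) ≤ n2 t (y - x) := by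
  have hr0 : 0 ≤ r := (norm_nonneg x).trans hr
  set f : ℝ → ℝ := fun s => max (s - r) 0 with hf
  set g : ℝ → ℝ := fun s => max (-r - s) 0 with hg
  have hfc : Continuous f := (continuous_id.sub continuous_const).max continuous_const
  have hgc : Continuous g := (continuous_const.sub continuous_id).max continuous_const
  have hcc := clamp_continuous r
  set z := cfc (clamp r) y with hz
  have hzs : IsSelfAdjoint z := cfc_predicate _ _
  have h1 : y - z = cfc f y - cfc g y := by
    have e1 : cfc (fun s : ℝ => s - clamp r s) y = y - z := by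
      rw [cfc_sub (fun s : ℝ => s) (clamp r) y continuousOn_id hcc.continuousOn, cfc_id' ℝ y]
    have e2 : cfc (fun s : ℝ => f s - g s) y = cfc f y - cfc g y :=
      cfc_sub f g y hfc.continuousOn hgc.continuousOn
    rw [← e1, ← e2]
    congr 1
    funext s
    exact (T1_id r hr0 s).1
  have h2 : (y - z) * z = (r : ℂ) • cfc f y + (r : ℂ) • cfc g y := by
    have e1 : cfc (fun s : ℝ => s - clamp r s) y = y - z := by
      rw [cfc_sub (fun s : ℝ => s) (clamp r) y continuousOn_id hcc.continuousOn, cfc_id' ℝ y]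
    have e2 : cfc (fun s : ℝ => (s - clamp r s) * clamp r s) y = (y - z) * z := by
      rw [cfc_mul (fun s : ℝ => s - clamp r s) (clamp r) y (continuous_id.sub hcc).continuousOn hcc.continuousOn, e1]
    have e3 : cfc (fun s : ℝ => r * f s + r * g s) y = (r : ℂ) • cfc f y + (r : ℂ) • cfc g y := by
      rw [cfc_add y (fun s : ℝ => r * f s) (fun s => r * g s) (continuous_const.mul hfc).continuousOn
        (continuous_const.mul hgc).continuousOn, cfc_const_mul r f y hfc.continuousOn,
        cfc_const_mul r g y hgc.continuousOn, Complex.coe_smul, Complex.coe_smul]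
    rw [← e2, ← e3]
    congr 1
    funext s
    exact (T1_id r hr0 s).2
  have h3 := (h.cfc_nonneg x y hx hy r hr f hfc fun s => le_max_right _ _).1
  have h4 := (h.cfc_nonneg x y hx hy r hr g hgc fun s => le_max_right _ _).2
  have h5 : (t ((y - z) * (z - x))).re =
      (t (((r : ℂ) • (1 : D) - x) * cfc f y)).re + (t (((r : ℂ) • (1 : D) + x) * cfc g y)).re := by
    rw [← Complex.add_re, ← map_add, mul_sub, h2, h1, map_sub, sub_mul, map_sub (t) (cfc f y * x), h.comm (cfc f y) x,
      h.comm (cfc g y) x, sub_mul, add_mul, smul_one_mul, smul_one_mul]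
    simp only [map_add, map_sub, Complex.add_re, Complex.sub_re]
    ring
  have h6 : 0 ≤ (t ((y - z) * (z - x))).re := by
    rw [h5]
    exact add_nonneg h3 h4
  have hyz : star (y - z) = y - z := (hy.sub hzs).star_eq
  have hzx : star (z - x) = z - x := (hzs.sub hx).star_eq
  have hyx : star (y - x) = y - x := (hy.sub hx).star_eq
  have h7 : n2 t (y - x) ^ 2 = n2 t (y - z) ^ 2 + 2 * (t ((y - z) * (z - x))).re + n2 t (z - x) ^ 2 := by
    rw [h.n2_sq, h.n2_sq, h.n2_sq, hyz, hzx, hyx]
    have e : (y - x) * (y - x) = (y - z) * (y - z) + (y - z) * (z - x) + (z - x) * (y - z) + (z - x) * (z - x) := by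
      noncomm_ring
    rw [e, map_add, map_add, map_add, h.comm (z - x) (y - z)]
    simp only [Complex.add_re]
    ring
  have h8 : n2 t (z - x) ^ 2 ≤ n2 t (y - x) ^ 2 := by
    have := sq_nonneg (n2 t (y - z))
    linarith
  exact (pow_le_pow_iff_left₀ (n2_nonneg _ _) (n2_nonneg _ _) two_ne_zero).1 h8

end Pool.Agent.QFP
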