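import Pool.Agent.QFP.N2
import Pool.Agent.QFP.T1

/-!
# [T3x] Bounded approximation by polynomials: selfadjoint elements

Proof. `approxNC_sa`: choose `Q₀` with `n2 φ (ncEval c Q₀ - x) < δ / 2` (density) and put
`Q = (1/2) • (Q₀ + Q₀*)` (`ncSmul`, `++`, `ncStar`); then `ncEval y Q` is selfadjoint for every `y`
in every algebra, `n2 φ (ncEval c Q - x) < δ / 2` (`x` is selfadjoint). Let `B = ncBound R Q`; let
`p` be a real polynomial with `|p s - clamp r s| ≤ min (δ / 2) (1 / 2)` (strictly less than `δ/2`)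
on `[-B, B]` (Weierstrass: `exists_polynomial_near_of_continuousOn`), and `P = ncPoly (p.map
(algebraMap ℝ ℂ)) Q`. For every family `y` with `‖y k‖ ≤ R k` the selfadjoint element
`q = ncEval y Q` has norm at most `B`, `ncEval y P = aeval q p = cfc p.eval q` and
`‖cfc p.eval q - cfc (clamp r) q‖ ≤ 1/2`, so `‖ncEval y P‖ ≤ r + 1 / 2` (`norm_cfc_clamp_le`). For
`y = c`: `n2 φ (ncEval c P - x) ≤ ‖cfc p.eval q - cfc (clamp r) q‖ + n2 φ (cfc (clamp r) q - x)
< δ` (`n2_le_norm`, `clamp_close`).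
`approxNC`: apply this to the real and imaginary parts of `x` (norm at most `‖x‖ ≤ r`).
-/

set_option autoImplicit false

namespace Pool.Agent.QFP

universe u v

theorem T3x_key {D : Type*} [CStarAlgebra D] (q : D) (hq : IsSelfAdjoint q) (B : ℝ)
    (hB : ‖q‖ ≤ B) (p : Polynomial ℝ) (r η : ℝ) (hη : 0 < η)
    (hp : ∀ s ∈ Set.Icc (-B) B, |p.eval s - clamp r s| < η) :
    ‖Polynomial.aeval q (p.map (algebraMap ℝ ℂ)) - cfc (clamp r) q‖ ≤ η := by
  have h1 : Polynomial.aeval q (p.map (algebraMap ℝ ℂ)) = cfc (fun s => p.eval s) q := by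
    rw [Polynomial.aeval_map_algebraMap, cfc_polynomial p q hq]
  have h2 : Continuous (clamp r) := clamp_continuous r
  rw [h1, ← cfc_sub (fun s => p.eval s) (clamp r) q p.continuous.continuousOn h2.continuousOn]
  apply norm_cfc_le hη.le
  intro s hs
  rcases subsingleton_or_nontrivial D with hD | hD
  · rw [spectrum.of_subsingleton] at hs
    exact absurd hs (Set.notMem_empty _)
  · have h3 : ‖s‖ ≤ ‖q‖ := spectrum.norm_le_norm_of_mem hs
    rw [Real.norm_eq_abs] at h3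
    have h4 := abs_le.1 (h3.trans hB)
    rw [Real.norm_eq_abs]
    exact (hp s ⟨h4.1, h4.2⟩).le

/-- the real part of a polynomial -/
noncomputable def T3x_re {κ : Type*} (Q : NC κ) : NC κ := ncSmul (1 / 2) (Q ++ ncStar Q)

theorem T3x_re_eval {κ D : Type*} [CStarAlgebra D] (y : κ → D) (Q : NC κ) :
    ncEval y (T3x_re Q) = (1 / 2 : ℂ) • (ncEval y Q + star (ncEval y Q)) := by
  unfold T3x_re
  rw [ncEval_smul, ncEval_append, ncEval_star]

theorem T3x_re_sa {κ D : Type*} [CStarAlgebra D] (y : κ → D) (Q : NC κ) :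
    IsSelfAdjoint (ncEval y (T3x_re Q)) := by
  rw [T3x_re_eval, isSelfAdjoint_iff, star_smul, star_add, star_star, add_comm]
  congr 1
  simp

theorem approxNC_sa {κ : Type u} {E : Type v} [CStarAlgebra E] (φ : E →ₗ[ℂ] ℂ) (hφ : TrAlg φ)
    (c : κ → E) (R : κ → ℝ) (hc : ∀ k, ‖c k‖ ≤ R k)
    (hd : ∀ (x : E) (δ : ℝ), 0 < δ → ∃ P : NC κ, n2 φ (ncEval c P - x) < δ)
    (x : E) (hx : IsSelfAdjoint x) (r : ℝ) (hr : ‖x‖ ≤ r) (δ : ℝ) (hδ : 0 < δ) :
    ∃ P : NC κ, n2 φ (ncEval c P - x) < δ ∧ ‖ncEval c P‖ ≤ r + 1 / 2 ∧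
      ∀ (D : Type) [CStarAlgebra D] (y : κ → D), (∀ k, ‖y k‖ ≤ R k) →
        ‖ncEval y P‖ ≤ r + 1 / 2 := by
  have hr0 : 0 ≤ r := (norm_nonneg x).trans hr
  obtain ⟨Q0, hQ0⟩ := hd x (δ / 2) (by linarith)
  set Q := T3x_re Q0 with hQ
  have hQ2 : n2 φ (ncEval c Q - x) < δ / 2 := by
    have h1 : ncEval c Q - x =
        (1 / 2 : ℂ) • ((ncEval c Q0 - x) + star (ncEval c Q0 - x)) := by
      rw [hQ, T3x_re_eval, star_sub, hx.star_eq]
      have h2 : ncEval c Q0 - x + (star (ncEval c Q0) - x) =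
          (ncEval c Q0 + star (ncEval c Q0)) - (2 : ℂ) • x := by
        rw [two_smul]
        abel
      rw [h2, smul_sub, smul_smul]
      norm_num
    rw [h1, hφ.n2_smul]
    have h3 := hφ.n2_add_le (ncEval c Q0 - x) (star (ncEval c Q0 - x))
    rw [hφ.n2_star] at h3
    have h4 : ‖(1 / 2 : ℂ)‖ = 1 / 2 := by norm_num
    rw [h4]
    linarith
  set B := ncBound R Q with hB
  set η := min (δ / 2) (1 / 2) with hη
  have hη0 : 0 < η := lt_min (by linarith) (by norm_num)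
  obtain ⟨p, hp⟩ := exists_polynomial_near_of_continuousOn (-B) B (clamp r)
    (clamp_continuous r).continuousOn η hη0
  have hb : ∀ {D : Type _} [CStarAlgebra D] (y : κ → D), (∀ k, ‖y k‖ ≤ R k) →
      ‖ncEval y (ncPoly (p.map (algebraMap ℝ ℂ)) Q) - cfc (clamp r) (ncEval y Q)‖ ≤ η ∧
      ‖ncEval y (ncPoly (p.map (algebraMap ℝ ℂ)) Q)‖ ≤ r + 1 / 2 := by
    intro D _ y hy
    have h1 := T3x_key (ncEval y Q) (T3x_re_sa y Q0) B (norm_ncEval_le y R hy Q) p r η hη0 hp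
    rw [← ncEval_poly] at h1
    refine ⟨h1, ?_⟩
    have h2 := norm_cfc_clamp_le (ncEval y Q) (T3x_re_sa y Q0) r hr0
    have h3 : ‖ncEval y (ncPoly (p.map (algebraMap ℝ ℂ)) Q)‖ ≤
        ‖ncEval y (ncPoly (p.map (algebraMap ℝ ℂ)) Q) - cfc (clamp r) (ncEval y Q)‖ +
          ‖cfc (clamp r) (ncEval y Q)‖ := by
      have h4 := norm_add_le (ncEval y (ncPoly (p.map (algebraMap ℝ ℂ)) Q) -
        cfc (clamp r) (ncEval y Q)) (cfc (clamp r) (ncEval y Q))
      rwa [sub_add_cancel] at h4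
    have h5 : η ≤ 1 / 2 := min_le_right _ _
    linarith
  have hc1 := T3x_key (ncEval c Q) (T3x_re_sa c Q0) B (norm_ncEval_le c R hc Q) p r η hη0 hp
  rw [← ncEval_poly] at hc1
  have hc2 := norm_cfc_clamp_le (ncEval c Q) (T3x_re_sa c Q0) r hr0
  refine ⟨ncPoly (p.map (algebraMap ℝ ℂ)) Q, ?_, ?_, fun D _ y hy => (hb y hy).2⟩
  · have h1 := hφ.n2_sub_le (ncEval c (ncPoly (p.map (algebraMap ℝ ℂ)) Q))
      (cfc (clamp r) (ncEval c Q)) x
    have h2 := hφ.n2_le_norm (ncEval c (ncPoly (p.map (algebraMap ℝ ℂ)) Q) -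
      cfc (clamp r) (ncEval c Q))
    have h3 := hφ.clamp_close x (ncEval c Q) hx (T3x_re_sa c Q0) r hr
    have h5 : η ≤ δ / 2 := min_le_left _ _
    linarith
  · have h4 := norm_add_le (ncEval c (ncPoly (p.map (algebraMap ℝ ℂ)) Q) -
      cfc (clamp r) (ncEval c Q)) (cfc (clamp r) (ncEval c Q))
    rw [sub_add_cancel] at h4
    have h5 : η ≤ 1 / 2 := min_le_right _ _
    linarith

end Pool.Agent.QFP
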