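import Pool.Agent.QFP.N2
import Pool.Agent.QFP.T1
import Pool.Agent.QFP.T3x

/-!
# [T3y] Bounded approximation by polynomials

Proof. `approxNC_sa`: choose `Q₀` with `n2 φ (ncEval c Q₀ - x) < δ / 2` (density) and put
`Q = (1/2) • (Q₀ + Q₀*)` (`ncSmul`, `++`, `ncStar`); then `ncEval y Q` is selfadjoint for every `y`
in every algebra, `n2 φ (ncEval c Q - x) < δ / 2` (`x` is selfadjoint). Let `B = ncBound R Q`; let
`p` be a real polynomial with `|p s - clamp r s| ≤ min (δ / 2) (1 / 2)` (strictly less than `δ/2`)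
on `[-B, B]` (Weierstrass: `exists_polynomial_near_of_continuousOn`), and `P = ncPoly (p.map
(algebraMap ℝ ℂ)) Q`. For every family `y` with `‖y k‖ ≤ R k` the selfadjoint element
`q = ncEval y Q` has norm at most `B`, `ncEval y P = aeval q p = cfc p.eval q` and
`‖cfc p.eval q - cfc (clamp r) q‖ ≤ 1/2`, so `‖ncEval y P‖ ≤ r + 1 / 2` (`norm_cfc_clamp_le`). For
`y = c`: `n2 φ (ncEval c P - x) ≤ ‖cfc p.eval q - cfc (clamp r) q‖ + n2 φ (cfc (clamp r) q - x)
< δ` (`n2_le_norm`, `clamp_close`).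
`approxNC`: apply this to the real and imaginary parts of `x` (norm at most `‖x‖ ≤ r`).
-/

set_option autoImplicit false

namespace Pool.Agent.QFP

universe u v

theorem approxNC {κ : Type u} {E : Type v} [CStarAlgebra E] (φ : E →ₗ[ℂ] ℂ) (hφ : TrAlg φ)
    (c : κ → E) (R : κ → ℝ) (hc : ∀ k, ‖c k‖ ≤ R k)
    (hd : ∀ (x : E) (δ : ℝ), 0 < δ → ∃ P : NC κ, n2 φ (ncEval c P - x) < δ)
    (x : E) (r : ℝ) (hr : ‖x‖ ≤ r) (δ : ℝ) (hδ : 0 < δ) :
    ∃ P : NC κ, n2 φ (ncEval c P - x) < δ ∧ ‖ncEval c P‖ ≤ 2 * r + 1 ∧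
      ∀ (D : Type) [CStarAlgebra D] (y : κ → D), (∀ k, ‖y k‖ ≤ R k) →
        ‖ncEval y P‖ ≤ 2 * r + 1 := by
  set a : E := (1 / 2 : ℂ) • (x + star x) with ha
  set b : E := (-(Complex.I / 2) : ℂ) • (x - star x) with hb
  have hab : a + Complex.I • b = x := by
    rw [ha, hb, smul_smul]
    have h1 : Complex.I * -(Complex.I / 2) = 1 / 2 := by
      have h2 := Complex.I_mul_I
      linear_combination (-1 / 2 : ℂ) * h2
    rw [h1, ← smul_add]
    have h3 : x + star x + (x - star x) = (2 : ℂ) • x := by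
      rw [two_smul]
      abel
    rw [h3, smul_smul]
    norm_num
  have hasa : IsSelfAdjoint a := by
    rw [isSelfAdjoint_iff, ha, star_smul, star_add, star_star, add_comm]
    congr 1
    simp
  have hbsa : IsSelfAdjoint b := by
    rw [isSelfAdjoint_iff, hb, star_smul, star_sub, star_star]
    have h1 : star (-(Complex.I / 2) : ℂ) = Complex.I / 2 := by
      rw [star_neg, star_div₀]
      simp
      ring
    rw [h1, neg_smul, ← smul_neg, neg_sub]
  have hna : ‖a‖ ≤ r := by
    rw [ha, norm_smul]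
    have h1 := norm_add_le x (star x)
    rw [norm_star] at h1
    have h2 : ‖(1 / 2 : ℂ)‖ = 1 / 2 := by norm_num
    rw [h2]
    linarith
  have hnb : ‖b‖ ≤ r := by
    rw [hb, norm_smul]
    have h1 := norm_sub_le x (star x)
    rw [norm_star] at h1
    have h2 : ‖(-(Complex.I / 2) : ℂ)‖ = 1 / 2 := by
      rw [norm_neg, norm_div, Complex.norm_I]
      norm_num
    rw [h2]
    linarith
  obtain ⟨P1, h1, h1', h1''⟩ := approxNC_sa φ hφ c R hc hd a hasa r hna (δ / 2) (by linarith)
  obtain ⟨P2, h2, h2', h2''⟩ := approxNC_sa φ hφ c R hc hd b hbsa r hnb (δ / 2) (by linarith)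
  refine ⟨P1 ++ ncSmul Complex.I P2, ?_, ?_, ?_⟩
  · rw [ncEval_append, ncEval_smul]
    have h3 : ncEval c P1 + Complex.I • ncEval c P2 - x =
        (ncEval c P1 - a) + Complex.I • (ncEval c P2 - b) := by
      rw [← hab, smul_sub]
      abel
    have h4 := hφ.n2_add_le (ncEval c P1 - a) (Complex.I • (ncEval c P2 - b))
    rw [hφ.n2_smul, Complex.norm_I, one_mul] at h4
    rw [h3]
    linarith
  · rw [ncEval_append, ncEval_smul]
    have h4 := norm_add_le (ncEval c P1) (Complex.I • ncEval c P2)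
    rw [norm_smul, Complex.norm_I, one_mul] at h4
    linarith
  · intro D _ y hy
    rw [ncEval_append, ncEval_smul]
    have h4 := norm_add_le (ncEval y P1) (Complex.I • ncEval y P2)
    rw [norm_smul, Complex.norm_I, one_mul] at h4
    have h5 := h1'' D y hy
    have h6 := h2'' D y hy
    linarith

end Pool.Agent.QFP
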