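import Pool.Agent.QFP.K4x
import Pool.Agent.QFP.T2
import Pool.Agent.QFP.T3
import Pool.Agent.QFP.D1

/-!
# [T4] Microstates of generators give microstates of the whole algebra

Proof of `connesEmb_of_model`. Let `F, m, ε` be given, `r a = ‖a‖`, `C a = 2 ‖a‖ + 1`,
`C = max 1 (max over F)`. Choose in this order
* `δ > 0` with `2 m C ^ m δ < ε / 3`;
* for `a ∈ F`, `a ≠ 0`: `m a` from `truncate (C a) (r a) δ`;
* `δ' ≤ δ` with `2 (m a) (C a) ^ (2 (m a)) δ' < (1/4) (r a) ^ (2 (m a))` for all `a ∈ F`, `a ≠ 0`;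
* `P a` from `approxNC` for `a`, `r a`, `δ'` (so for `a = 0` `n2 φ (ncEval c (P 0)) < δ'`);
* `Y` from `model_poly` for the polynomials `ncSubst P w` (`w` of length at most `m` with letters in
  `F`, `words_finite`), `ncPow (ncMul (ncStar (P a)) (P a)) (m a)` (`a ∈ F`), and
  `ncMul (ncStar (P a)) (P a)` with a small `ε'`.
Then `re φ((P*P)^m) ≤ re φ((a*a)^m) + (1/4) r^(2m) ≤ (5/4) r^(2m)` (`word_close`/`prod_close`,
`norm_le`), so `re ntr((Z*Z)^m) ≤ 2 r^(2m)` for `Z = ncEval Y (P a)`, and `truncate` gives `X a`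
with `‖X a‖ ≤ ‖a‖`, `n2 ntr (Z - X a) < δ`. For `a = 0` put `X 0 = 0`
(`n2 ntr (ncEval Y (P 0)) < δ` since its square is close to `n2 φ (ncEval c (P 0)) ^ 2 < δ' ^ 2`;
take `δ' < δ`). For `a ∉ F` put `X a = 0`. For words of length at most `m` with letters in `F`:
`|ntr w(X) - ntr w(P(Y))| ≤ m C^m δ`, `|ntr w(P(Y)) - φ w(P(c))| < ε'`,
`|φ w(P(c)) - φ w(a)| ≤ m C^m δ'` (`word_close`).
-/

set_option autoImplicit false

namespace Pool.Agent.QFP

open scoped Matrix.Norms.L2Operator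

theorem T4_min {E : Type*} (F : Finset E) (η : E → ℝ) (hη : ∀ a, 0 < η a) :
    ∃ d : ℝ, 0 < d ∧ ∀ a ∈ F, d ≤ η a := by
  classical
  induction F using Finset.induction with
  | empty => exact ⟨1, one_pos, fun a ha => absurd ha (Finset.notMem_empty a)⟩
  | insert a s ha ih =>
    obtain ⟨d, hd, h⟩ := ih
    refine ⟨min d (η a), lt_min hd (hη a), ?_⟩
    intro b hb
    rcases Finset.mem_insert.1 hb with rfl | hb
    · exact min_le_right _ _
    · exact le_trans (min_le_left _ _) (h b hb)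

/-- the word `(z* z)^k` in one letter -/
def T4_word (k : ℕ) : List (Unit × Bool) :=
  (List.replicate k [((), true), ((), false)]).flatten

theorem T4_word_length (k : ℕ) : (T4_word k).length = 2 * k := by
  simp [T4_word, mul_comm]

theorem T4_word_eval {D : Type*} [CStarAlgebra D] (z : D) (k : ℕ) :
    wordEval (fun _ : Unit => z) (T4_word k) = (star z * z) ^ k := by
  unfold T4_word
  induction k with
  | zero => simp [wordEval]
  | succ k ih =>
    rw [List.replicate_succ, List.flatten_cons, pow_succ', ← ih]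
    simp [wordEval, mul_assoc]

theorem T4_pow_close {D : Type*} [CStarAlgebra D] {t : D →ₗ[ℂ] ℂ} (h : TrAlg t) (a b : D)
    (C δ : ℝ) (hC : 1 ≤ C) (hδ : 0 ≤ δ) (ha : ‖a‖ ≤ C) (hb : ‖b‖ ≤ C) (hab : n2 t (a - b) ≤ δ)
    (k : ℕ) : ‖t ((star a * a) ^ k) - t ((star b * b) ^ k)‖ ≤ (2 * k : ℕ) * C ^ (2 * k) * δ := by
  have h1 := (h.word_close (fun _ : Unit => a) (fun _ : Unit => b) C δ hC hδ (T4_word k)
    (fun p _ => ⟨ha, hb, hab⟩)).2
  rw [T4_word_eval, T4_word_eval, T4_word_length] at h1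
  exact h1

theorem norm_pow_le_of_le_T4 {D : Type*} [CStarAlgebra D] (a : D) (k : ℕ) :
    ‖a ^ k‖ ≤ ‖a‖ ^ k := by
  induction k with
  | zero =>
    rw [pow_zero, pow_zero]
    by_cases h : Subsingleton D
    · have : (1 : D) = 0 := Subsingleton.elim _ _
      rw [this, norm_zero]
      exact zero_le_one
    · haveI := not_subsingleton_iff_nontrivial.1 h
      exact (CStarRing.norm_one).le
  | succ k ih =>
    rw [pow_succ, pow_succ]
    exact le_trans (norm_mul_le _ _) (mul_le_mul_of_nonneg_right ih (norm_nonneg _))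

/-- Abstract form, for a tracial C*-algebra `(E, φ)`. -/
theorem microstates_of_model {κ E : Type*} [CStarAlgebra E] (φ : E →ₗ[ℂ] ℂ) (hφ : TrAlg φ)
    (c : κ → E) (R : κ → ℝ) (hc : ∀ k, ‖c k‖ ≤ R k)
    (hd : ∀ (x : E) (δ : ℝ), 0 < δ → ∃ P : NC κ, n2 φ (ncEval c P - x) < δ)
    (H : ∀ (F : Finset κ) (m : ℕ) (ε : ℝ), 0 < ε →
      ∃ (ν : ℕ) (_ : 0 < ν) (Y : κ → Matrix (Fin ν) (Fin ν) ℂ), (∀ k, ‖Y k‖ ≤ R k) ∧
        ∀ w : List (κ × Bool), (∀ p ∈ w, p.1 ∈ F) → w.length ≤ m →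
          ‖ntr (wordEval Y w) - φ (wordEval c w)‖ < ε)
    (F : Finset E) (m : ℕ) (ε : ℝ) (hε : 0 < ε) :
    ∃ (ν : ℕ) (_ : 0 < ν) (X : E → Matrix (Fin ν) (Fin ν) ℂ), (∀ a, ‖X a‖ ≤ ‖a‖) ∧
      ∀ w : List (E × Bool), (∀ p ∈ w, p.1 ∈ F) → w.length ≤ m →
        ‖ntr (wordEval X w) - φ (wordEval id w)‖ < ε := by
  classical
  -- constants
  obtain ⟨C, hC1, hC2⟩ : ∃ C : ℝ, 1 ≤ C ∧ ∀ a ∈ F, 2 * ‖a‖ + 1 ≤ C := by
    refine ⟨1 + ∑ a ∈ F, (2 * ‖a‖ + 1), ?_, ?_⟩
    · have : 0 ≤ ∑ a ∈ F, (2 * ‖a‖ + 1) := Finset.sum_nonneg fun a _ => by positivity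
      linarith
    · intro a ha
      have : 2 * ‖a‖ + 1 ≤ ∑ a ∈ F, (2 * ‖a‖ + 1) :=
        Finset.single_le_sum (f := fun a : E => 2 * ‖a‖ + 1) (fun a _ => by positivity) ha
      linarith
  have hC0 : 0 ≤ C := le_trans zero_le_one hC1
  obtain ⟨δ, hδ0, hδ⟩ : ∃ δ : ℝ, 0 < δ ∧ m * C ^ m * δ < ε / 4 := by
    refine ⟨ε / (8 * (m * C ^ m + 1)), by positivity, ?_⟩
    have h1 : (0 : ℝ) ≤ m * C ^ m := by positivity
    have h2 : (m * C ^ m) * (ε / (8 * (m * C ^ m + 1))) = (ε / 8) * ((m * C ^ m) / (m * C ^ m + 1)) := by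
      field_simp
    rw [h2]
    have h3 : (m * C ^ m) / (m * C ^ m + 1) ≤ 1 := by
      rw [div_le_one (by positivity)]
      linarith
    have h4 : (ε / 8) * ((m * C ^ m) / (m * C ^ m + 1)) ≤ (ε / 8) * 1 :=
      mul_le_mul_of_nonneg_left h3 (by positivity)
    linarith
  -- exponents
  have hk : ∀ a : E, ∃ k : ℕ, a ≠ 0 → ∀ (D : Type) [CStarAlgebra D] (t : D →ₗ[ℂ] ℂ), TrAlg t →
      ∀ Z : D, ‖Z‖ ≤ 2 * ‖a‖ + 1 → (t ((star Z * Z) ^ k)).re ≤ 2 * ‖a‖ ^ (2 * k) →
      ∃ Z' : D, ‖Z'‖ ≤ ‖a‖ ∧ n2 t (Z - Z') < δ := by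
    intro a
    by_cases ha : a = 0
    · exact ⟨0, fun h => absurd ha h⟩
    · obtain ⟨k, hk⟩ := truncate (2 * ‖a‖ + 1) ‖a‖ δ (by positivity) (norm_pos_iff.2 ha) hδ0
      exact ⟨k, fun _ => hk⟩
  choose k hk using hk
  obtain ⟨d, hd0, hd1⟩ := T4_min F
    (fun a => if a = 0 then 1 else ‖a‖ ^ (2 * k a) / (4 * (((2 * k a : ℕ) : ℝ) * C ^ (2 * k a) + 1)))
    (by
      intro a
      by_cases ha : a = 0
      · simp [ha]
      · simp only [ha, if_false]
        have := norm_pos_iff.2 ha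
        positivity)
  let δ' : ℝ := min (δ / 2) d
  have hδ'0 : 0 < δ' := lt_min (by positivity) hd0
  have hδ'1 : δ' ≤ δ / 2 := min_le_left _ _
  have hδ'2 : δ' ≤ d := min_le_right _ _
  -- polynomials
  have hP := fun a : E => approxNC φ hφ c R hc hd a ‖a‖ le_rfl δ' hδ'0
  choose P hP1 hP2 hP3 using hP
  obtain ⟨d', hd'0, hd'1⟩ := T4_min F (fun a => if a = 0 then 1 else ‖a‖ ^ (2 * k a) / 4)
    (by
      intro a
      by_cases ha : a = 0
      · simp [ha]
      · simp only [ha, if_false]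
        have := norm_pos_iff.2 ha
        positivity)
  let ε' : ℝ := min (min (ε / 4) (δ ^ 2 / 2)) d'
  have hε'0 : 0 < ε' := lt_min (lt_min (by positivity) (by positivity)) hd'0
  have hε'1 : ε' ≤ ε / 4 := le_trans (min_le_left _ _) (min_le_left _ _)
  have hε'2 : ε' ≤ δ ^ 2 / 2 := le_trans (min_le_left _ _) (min_le_right _ _)
  have hε'3 : ε' ≤ d' := min_le_right _ _
  let W := (words_finite F m).toFinset
  obtain ⟨ν, hν, Y, hY, hYP⟩ := model_poly φ c R H
    (W.toList.map (ncSubst P) ++ (F.toList.map (fun a => ncPow (ncMul (ncStar (P a)) (P a)) (k a)) ++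
      F.toList.map (fun a => ncMul (ncStar (P a)) (P a)))) ε' hε'0
  haveI : Nonempty (Fin ν) := ⟨⟨0, hν⟩⟩
  have htr : TrAlg (ntr : Matrix (Fin ν) (Fin ν) ℂ →ₗ[ℂ] ℂ) := ntr_trAlg
  have hYn : ∀ a, ‖ncEval Y (P a)‖ ≤ 2 * ‖a‖ + 1 := fun a =>
    hP3 a (Matrix (Fin ν) (Fin ν) ℂ) Y hY
  -- the truncated matrices
  have hX : ∀ a : E, ∃ X : Matrix (Fin ν) (Fin ν) ℂ, ‖X‖ ≤ ‖a‖ ∧
      (a ∈ F → n2 ntr (ncEval Y (P a) - X) < δ) := by
    intro a
    by_cases haF : a ∈ F
    · by_cases ha : a = 0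
      · refine ⟨0, by simp, fun _ => ?_⟩
        rw [sub_zero]
        have h1 := hYP (ncMul (ncStar (P a)) (P a)) (by
          simp only [List.mem_append, List.mem_map, Finset.mem_toList]
          exact Or.inr (Or.inr ⟨a, haF, rfl⟩))
        rw [ncEval_mul, ncEval_star, ncEval_mul, ncEval_star] at h1
        have h2 : n2 ntr (ncEval Y (P a)) ^ 2 = (ntr (star (ncEval Y (P a)) * ncEval Y (P a))).re :=
          htr.n2_sq _
        have h3 : n2 φ (ncEval c (P a)) ^ 2 = (φ (star (ncEval c (P a)) * ncEval c (P a))).re :=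
          hφ.n2_sq _
        have h4 : n2 φ (ncEval c (P a)) < δ' := by
          have := hP1 a
          rwa [ha, sub_zero, ← ha] at this
        have h5 : n2 φ (ncEval c (P a)) ^ 2 ≤ δ' ^ 2 :=
          pow_le_pow_left₀ (n2_nonneg _ _) h4.le 2
        have h6 : (ntr (star (ncEval Y (P a)) * ncEval Y (P a))).re -
            (φ (star (ncEval c (P a)) * ncEval c (P a))).re < ε' := by
          rw [← Complex.sub_re]
          exact lt_of_le_of_lt (Complex.re_le_norm _) h1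
        have h7 : δ' ^ 2 ≤ (δ / 2) ^ 2 := pow_le_pow_left₀ hδ'0.le hδ'1 2
        have h8 : n2 ntr (ncEval Y (P a)) ^ 2 < δ ^ 2 := by
          have : (0 : ℝ) < δ ^ 2 := by positivity
          nlinarith
        exact lt_of_pow_lt_pow_left₀ 2 hδ0.le h8
      · have hr : 0 < ‖a‖ := norm_pos_iff.2 ha
        have h1 := hYP (ncPow (ncMul (ncStar (P a)) (P a)) (k a)) (by
          simp only [List.mem_append, List.mem_map, Finset.mem_toList]
          exact Or.inr (Or.inl ⟨a, haF, rfl⟩))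
        simp only [ncEval_pow, ncEval_mul, ncEval_star] at h1
        have h2 := T4_pow_close hφ (ncEval c (P a)) a C δ' hC1 hδ'0.le
          (le_trans (hP2 a) (hC2 a haF)) (le_trans (by linarith [norm_nonneg a]) (hC2 a haF))
          (hP1 a).le (k a)
        have h3 : ((2 * k a : ℕ) : ℝ) * C ^ (2 * k a) * δ' ≤ ‖a‖ ^ (2 * k a) / 4 := by
          have h4 := le_trans hδ'2 (hd1 a haF)
          simp only [ha, if_false] at h4
          have h5 : (0 : ℝ) ≤ ((2 * k a : ℕ) : ℝ) * C ^ (2 * k a) := by positivity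
          calc ((2 * k a : ℕ) : ℝ) * C ^ (2 * k a) * δ'
              ≤ (((2 * k a : ℕ) : ℝ) * C ^ (2 * k a) + 1) * δ' := by nlinarith
            _ ≤ (((2 * k a : ℕ) : ℝ) * C ^ (2 * k a) + 1) *
                (‖a‖ ^ (2 * k a) / (4 * (((2 * k a : ℕ) : ℝ) * C ^ (2 * k a) + 1))) := by
                gcongr
            _ = ‖a‖ ^ (2 * k a) / 4 := by
                field_simp
        have h6 : (φ ((star a * a) ^ (k a))).re ≤ ‖a‖ ^ (2 * k a) := by
          refine le_trans (Complex.re_le_norm _) (le_trans (hφ.norm_le _) ?_)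
          refine le_trans (norm_pow_le_of_le_T4 _ _) ?_
          rw [pow_mul, CStarRing.norm_star_mul_self, pow_two]
        have h7 := hd'1 a haF
        simp only [ha, if_false] at h7
        have h8 : (ntr ((star (ncEval Y (P a)) * ncEval Y (P a)) ^ (k a))).re ≤
            2 * ‖a‖ ^ (2 * k a) := by
          have e1 : (ntr ((star (ncEval Y (P a)) * ncEval Y (P a)) ^ (k a))).re -
              (φ ((star (ncEval c (P a)) * ncEval c (P a)) ^ (k a))).re < ε' := by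
            rw [← Complex.sub_re]
            exact lt_of_le_of_lt (Complex.re_le_norm _) h1
          have e2 : (φ ((star (ncEval c (P a)) * ncEval c (P a)) ^ (k a))).re -
              (φ ((star a * a) ^ (k a))).re ≤ ((2 * k a : ℕ) : ℝ) * C ^ (2 * k a) * δ' := by
            rw [← Complex.sub_re]
            exact le_trans (Complex.re_le_norm _) h2
          have e3 : 0 < ‖a‖ ^ (2 * k a) := by positivity
          linarith
        obtain ⟨X, hX1, hX2⟩ := hk a ha (Matrix (Fin ν) (Fin ν) ℂ) ntr htr (ncEval Y (P a))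
          (hYn a) h8
        exact ⟨X, hX1, fun _ => hX2⟩
    · exact ⟨0, by simp, fun h => absurd h haF⟩
  choose X hX1 hX2 using hX
  refine ⟨ν, hν, X, hX1, ?_⟩
  intro w hw hwm
  have hlen : (w.length : ℝ) * C ^ w.length ≤ m * C ^ m := by
    have h1 : (w.length : ℝ) ≤ m := by exact_mod_cast hwm
    have h2 : C ^ w.length ≤ C ^ m := pow_le_pow_right₀ hC1 hwm
    gcongr
  have h1 : ‖ntr (wordEval X w) - ntr (wordEval (fun a => ncEval Y (P a)) w)‖ < ε / 4 := by
    refine lt_of_le_of_lt ((htr.word_close X (fun a => ncEval Y (P a)) C δ hC1 hδ0.le w ?_).2) ?_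
    · intro p hp
      have hpF := hw p hp
      refine ⟨le_trans (hX1 _) (le_trans (by linarith [norm_nonneg p.1]) (hC2 _ hpF)),
        le_trans (hYn _) (hC2 _ hpF), ?_⟩
      rw [htr.n2_sub_comm]
      exact (hX2 _ hpF).le
    · exact lt_of_le_of_lt (mul_le_mul_of_nonneg_right hlen hδ0.le) hδ
  have h2 : ‖φ (wordEval (fun a => ncEval c (P a)) w) - φ (wordEval id w)‖ ≤ ε / 4 := by
    refine le_trans ((hφ.word_close (fun a => ncEval c (P a)) id C δ' hC1 hδ'0.le w ?_).2) ?_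
    · intro p hp
      have hpF := hw p hp
      refine ⟨le_trans (hP2 _) (hC2 _ hpF),
        le_trans (by simp only [id]; linarith [norm_nonneg p.1]) (hC2 _ hpF), ?_⟩
      exact (hP1 p.1).le
    · have h3 : (w.length : ℝ) * C ^ w.length * δ' ≤ m * C ^ m * δ := by
        have : δ' ≤ δ := by linarith
        have h4 : (0 : ℝ) ≤ m * C ^ m := by positivity
        exact mul_le_mul hlen this hδ'0.le h4
      linarith
  have h3 : ‖ntr (wordEval (fun a => ncEval Y (P a)) w) -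
      φ (wordEval (fun a => ncEval c (P a)) w)‖ < ε / 4 := by
    have h4 := hYP (ncSubst P w) (by
      simp only [List.mem_append, List.mem_map, Finset.mem_toList]
      refine Or.inl ⟨w, ?_, rfl⟩
      simp only [W, Set.Finite.mem_toFinset, Set.mem_setOf_eq]
      exact ⟨hw, hwm⟩)
    rw [ncEval_subst, ncEval_subst] at h4
    exact lt_of_lt_of_le h4 hε'1
  calc ‖ntr (wordEval X w) - φ (wordEval id w)‖
      ≤ ‖ntr (wordEval X w) - ntr (wordEval (fun a => ncEval Y (P a)) w)‖ +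
        ‖ntr (wordEval (fun a => ncEval Y (P a)) w) - φ (wordEval (fun a => ncEval c (P a)) w)‖ +
        ‖φ (wordEval (fun a => ncEval c (P a)) w) - φ (wordEval id w)‖ := by
        refine le_trans (norm_sub_le_norm_sub_add_norm_sub _
          (φ (wordEval (fun a => ncEval c (P a)) w)) _) ?_
        gcongr
        exact norm_sub_le_norm_sub_add_norm_sub _ _ _
    _ < ε := by linarith

/-- The von Neumann algebra form. -/
theorem connesEmb_of_model {K : Type*} [NormedAddCommGroup K] [InnerProductSpace ℂ K]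
    [CompleteSpace K] {M : VonNeumannAlgebra K} {φ : Alg M →ₗ[ℂ] ℂ} (hφ : IsTrace M φ)
    {κ : Type*} (c : κ → Alg M) (R : κ → ℝ) (hc : ∀ k, ‖c k‖ ≤ R k)
    (hd : ∀ (x : Alg M) (δ : ℝ), 0 < δ → ∃ P : NC κ, n2 φ (ncEval c P - x) < δ)
    (H : ∀ (F : Finset κ) (m : ℕ) (ε : ℝ), 0 < ε →
      ∃ (ν : ℕ) (_ : 0 < ν) (Y : κ → Matrix (Fin ν) (Fin ν) ℂ), (∀ k, ‖Y k‖ ≤ R k) ∧
        ∀ w : List (κ × Bool), (∀ p ∈ w, p.1 ∈ F) → w.length ≤ m →
          ‖ntr (wordEval Y w) - φ (wordEval c w)‖ < ε) :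
    ConnesEmb M φ := by
  intro F m ε hε
  exact microstates_of_model φ hφ.trAlg c R hc hd H F m ε hε

end Pool.Agent.QFP
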