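import Pool.Agent.QFP.G2
import Pool.Agent.QFP.C2

/-!
# [G3] Almost free copies of families of matrices over the constant families

`Φ j x = ∑ s, x s ⊗ Θ j (δ s)` (Kronecker product with the projections `Θ j (δ s)`,
`δ s = Pi.single s 1`). It is a unital ⋆-homomorphism since the `Θ j (δ s)` are orthogonal
projections with sum `1`; for a constant family it is `y ⊗ 1`. If `∑ s, x s = 0` then
`Φ j x = ∑ s, x s ⊗ Θ j (δ s - 1/n)`, and a product of such elements with alternating indices is a
sum of terms `(x₁ s₁ ⋯ xₘ sₘ) ⊗ (Θ j₁ (δ s₁ - 1/n) ⋯ Θ jₘ (δ sₘ - 1/n))`, whose trace is `0` by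
`G2` and `ntr_kron`.
-/

set_option autoImplicit false

namespace Pool.Agent.QFP

open scoped Matrix.Norms.L2Operator

section G3

variable {κ Γ : Type} [Fintype κ] [DecidableEq κ] [Fintype Γ] [DecidableEq Γ]

set_option linter.unusedSectionVars false

/-- the Kronecker product as a bilinear map -/
noncomputable def G3_K : Matrix κ κ ℂ →ₗ[ℂ] Matrix Γ Γ ℂ →ₗ[ℂ] Matrix (κ × Γ) (κ × Γ) ℂ :=
  LinearMap.mk₂ ℂ (fun a b => Matrix.kroneckerMap (fun x y => x * y) a b)
    (fun a a' b => by
      ext i j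
      simp only [Matrix.kroneckerMap_apply, Matrix.add_apply, add_mul])
    (fun c a b => by
      ext i j
      simp only [Matrix.kroneckerMap_apply, Matrix.smul_apply, smul_eq_mul, mul_assoc])
    (fun a b b' => by
      ext i j
      simp only [Matrix.kroneckerMap_apply, Matrix.add_apply, mul_add])
    (fun c a b => by
      ext i j
      simp only [Matrix.kroneckerMap_apply, Matrix.smul_apply, smul_eq_mul]
      ring)

theorem G3_K_apply (a : Matrix κ κ ℂ) (b : Matrix Γ Γ ℂ) :
    G3_K a b = Matrix.kroneckerMap (fun x y => x * y) a b := rfl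

theorem G3_K_mul (a a' : Matrix κ κ ℂ) (b b' : Matrix Γ Γ ℂ) :
    G3_K a b * G3_K a' b' = G3_K (a * a') (b * b') := by
  rw [G3_K_apply, G3_K_apply, G3_K_apply, kron_mul]

theorem G3_K_star (a : Matrix κ κ ℂ) (b : Matrix Γ Γ ℂ) :
    star (G3_K a b) = G3_K (star a) (star b) := by
  rw [G3_K_apply, G3_K_apply, kron_star]

theorem G3_K_one : G3_K (1 : Matrix κ κ ℂ) (1 : Matrix Γ Γ ℂ) = 1 := by
  rw [G3_K_apply]
  ext ⟨i, j⟩ ⟨i', j'⟩
  rw [Matrix.kroneckerMap_apply, Matrix.one_apply, Matrix.one_apply, Matrix.one_apply]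
  by_cases h1 : i = i' <;> by_cases h2 : j = j' <;> simp [h1, h2]

theorem G3_ntr (a : Matrix κ κ ℂ) (b : Matrix Γ Γ ℂ) : ntr (G3_K a b) = ntr a * ntr b := by
  rw [G3_K_apply, ntr_kron]

variable {n : ℕ}

/-- the homomorphism given by orthogonal projections -/
noncomputable def G3_phi (P : Fin n → Matrix Γ Γ ℂ) (h1 : ∑ s, P s = 1)
    (h2 : ∀ s s', P s * P s' = if s = s' then P s else 0) (h3 : ∀ s, star (P s) = P s) :
    (Fin n → Matrix κ κ ℂ) →⋆ₐ[ℂ] Matrix (κ × Γ) (κ × Γ) ℂ where
  toFun x := ∑ s, G3_K (x s) (P s)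
  map_one' := by
    simp only [Pi.one_apply]
    rw [← map_sum, h1, G3_K_one]
  map_mul' x y := by
    rw [Finset.sum_mul]
    refine Finset.sum_congr rfl (fun s _ => ?_)
    rw [Finset.mul_sum, Finset.sum_eq_single s]
    · rw [G3_K_mul, h2, if_pos rfl, Pi.mul_apply]
    · intro s' _ hs'
      rw [G3_K_mul, h2, if_neg (Ne.symm hs'), map_zero]
    · intro h
      exact absurd (Finset.mem_univ _) h
  map_zero' := by
    simp only [Pi.zero_apply, map_zero, LinearMap.zero_apply, Finset.sum_const_zero]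
  map_add' x y := by
    simp only [Pi.add_apply, map_add, LinearMap.add_apply, Finset.sum_add_distrib]
  commutes' r := by
    have h4 : ∀ s : Fin n, (algebraMap ℂ (Fin n → Matrix κ κ ℂ) r) s = r • 1 := fun s => by
      rw [Pi.algebraMap_apply, Algebra.algebraMap_eq_smul_one]
    simp only [h4]
    rw [← map_sum, h1, map_smul, LinearMap.smul_apply, G3_K_one, Algebra.algebraMap_eq_smul_one]
  map_star' x := by
    rw [star_sum]
    refine Finset.sum_congr rfl (fun s _ => ?_)
    rw [G3_K_star, h3, Pi.star_apply]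

theorem G3_phi_apply (P : Fin n → Matrix Γ Γ ℂ) (h1 : ∑ s, P s = 1)
    (h2 : ∀ s s', P s * P s' = if s = s' then P s else 0) (h3 : ∀ s, star (P s) = P s)
    (x : Fin n → Matrix κ κ ℂ) : G3_phi P h1 h2 h3 x = ∑ s, G3_K (x s) (P s) := rfl

/-- the span of the products of words over the indices `js` -/
def G3_span {J : Type} (Θ : J → ((Fin n → ℂ) →⋆ₐ[ℂ] Matrix Γ Γ ℂ)) (js : List J) :
    Submodule ℂ (Matrix (κ × Γ) (κ × Γ) ℂ) :=
  Submodule.span ℂ {x | ∃ (a : Matrix κ κ ℂ) (w : List (J × (Fin n → ℂ))), w.map Prod.fst = js ∧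
    (∀ p ∈ w, ∑ s, p.2 s = 0) ∧ x = G3_K a (w.map fun p => Θ p.1 p.2).prod}

end G3

theorem exists_phi (J : Type) [Fintype J] [DecidableEq J] (n : ℕ) (hn : 0 < n) (L : ℕ)
    (κ : Type) [Fintype κ] [DecidableEq κ] [Nonempty κ] :
    ∃ (Γ : Type) (_ : Fintype Γ) (_ : DecidableEq Γ) (_ : Nonempty Γ)
      (Φ : J → ((Fin n → Matrix κ κ ℂ) →⋆ₐ[ℂ] Matrix (κ × Γ) (κ × Γ) ℂ)),
      (∀ j x, ntr (Φ j x) = tpi n κ x) ∧
      (∀ i j y, Φ i (fun _ => y) = Φ j (fun _ => y)) ∧
      ∀ l : List (J × (Fin n → Matrix κ κ ℂ)), l ≠ [] → l.length ≤ L →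
        l.IsChain (fun p q => p.1 ≠ q.1) → (∀ p ∈ l, ∑ s, p.2 s = 0) →
        ntr (l.map fun p => Φ p.1 p.2).prod = 0 := by
  have hn0 : (n : ℂ) ≠ 0 := Nat.cast_ne_zero.2 hn.ne'
  obtain ⟨Γ, hF, hD, hne, Θ, hΘ, hfree⟩ := exists_theta J n hn L
  have h1 : ∀ j, ∑ s, Θ j (Pi.single s 1) = 1 := by
    intro j
    rw [← map_sum]
    have e : ∑ s : Fin n, (Pi.single s 1 : Fin n → ℂ) = 1 := by
      funext t
      rw [Finset.sum_apply, Finset.sum_pi_single]
      simp
    rw [e, map_one]
  have h2 : ∀ j, ∀ s s' : Fin n, Θ j (Pi.single s 1) * Θ j (Pi.single s' 1) =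
      if s = s' then Θ j (Pi.single s 1) else 0 := by
    intro j s s'
    rw [← map_mul]
    by_cases h : s = s'
    · subst h
      rw [if_pos rfl, ← Pi.single_mul, one_mul]
    · rw [if_neg h]
      have e : (Pi.single s 1 : Fin n → ℂ) * Pi.single s' 1 = 0 := by
        funext t
        rw [Pi.mul_apply, Pi.zero_apply]
        by_cases ht : t = s
        · subst ht
          rw [Pi.single_eq_of_ne h, mul_zero]
        · rw [Pi.single_eq_of_ne ht, zero_mul]
      rw [e, map_zero]
  have h3 : ∀ j, ∀ s : Fin n, star (Θ j (Pi.single s 1)) = Θ j (Pi.single s 1) := by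
    intro j s
    rw [← map_star]
    congr 1
    funext t
    rw [Pi.star_apply]
    by_cases ht : t = s
    · subst ht
      rw [Pi.single_eq_same, star_one]
    · rw [Pi.single_eq_of_ne ht, star_zero]
  obtain ⟨Φ, hΦ⟩ : ∃ Φ : J → ((Fin n → Matrix κ κ ℂ) →⋆ₐ[ℂ] Matrix (κ × Γ) (κ × Γ) ℂ),
      ∀ j x, Φ j x = ∑ s, G3_K (x s) (Θ j (Pi.single s 1)) :=
    ⟨fun j => G3_phi (fun s => Θ j (Pi.single s 1)) (h1 j) (h2 j) (h3 j), fun j x => rfl⟩
  refine ⟨Γ, hF, hD, hne, Φ, ?_, ?_, ?_⟩
  · intro j x
    rw [hΦ, map_sum, tpi_apply, Finset.mul_sum]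
    refine Finset.sum_congr rfl (fun s _ => ?_)
    rw [G3_ntr, hΘ, Finset.sum_pi_single']
    simp only [Finset.mem_univ, if_true, mul_one]
    exact mul_comm _ _
  · intro i j y
    have e : ∀ j, Φ j (fun _ => y) = G3_K y 1 := by
      intro j
      rw [hΦ, ← h1 j, map_sum]
    rw [e, e]
  · have hcen : ∀ j (x : Fin n → Matrix κ κ ℂ), ∑ s, x s = 0 → Φ j x =
        ∑ s, G3_K (x s) (Θ j (Pi.single s 1 - fun _ => (n : ℂ)⁻¹)) := by
      intro j x hx
      have e : ∀ s, G3_K (x s) (Θ j (Pi.single s 1 - fun _ => (n : ℂ)⁻¹)) =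
          G3_K (x s) (Θ j (Pi.single s 1)) - G3_K (x s) (Θ j (fun _ => (n : ℂ)⁻¹)) := by
        intro s
        rw [map_sub, map_sub]
      rw [Finset.sum_congr rfl (fun s _ => e s), Finset.sum_sub_distrib, hΦ]
      have e2 : ∑ s, G3_K (x s) (Θ j (fun _ => (n : ℂ)⁻¹)) = 0 := by
        have e3 : ∑ s, G3_K (x s) (Θ j (fun _ => (n : ℂ)⁻¹)) =
            G3_K (∑ s, x s) (Θ j (fun _ => (n : ℂ)⁻¹)) := by
          rw [map_sum, LinearMap.sum_apply]
        rw [e3, hx, map_zero, LinearMap.zero_apply]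
      rw [e2, sub_zero]
    have hsum0 : ∀ s : Fin n, ∑ t, ((Pi.single s 1 - fun _ => (n : ℂ)⁻¹ : Fin n → ℂ)) t = 0 := by
      intro s
      simp only [Pi.sub_apply]
      rw [Finset.sum_sub_distrib, Finset.sum_pi_single']
      simp only [Finset.mem_univ, if_true, Finset.sum_const, Finset.card_univ, Fintype.card_fin,
        nsmul_eq_mul]
      rw [mul_inv_cancel₀ hn0, sub_self]
    have key : ∀ l : List (J × (Fin n → Matrix κ κ ℂ)), (∀ p ∈ l, ∑ s, p.2 s = 0) →
        (l.map fun p => Φ p.1 p.2).prod ∈ G3_span (κ := κ) Θ (l.map Prod.fst) := by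
      intro l
      induction l with
      | nil =>
        intro _
        refine Submodule.subset_span ⟨1, [], rfl, ?_, ?_⟩
        · intro p hp
          exact absurd hp List.not_mem_nil
        · simp only [List.map_nil, List.prod_nil]
          exact G3_K_one.symm
      | cons p l ih =>
        intro hl
        have ih' := ih (fun q hq => hl q (List.mem_cons_of_mem p hq))
        have hp := hl p List.mem_cons_self
        simp only [List.map_cons, List.prod_cons]
        rw [hcen p.1 p.2 hp, Finset.sum_mul]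
        refine Submodule.sum_mem _ (fun s _ => ?_)
        have hmap : ∀ x ∈ G3_span (κ := κ) Θ (l.map Prod.fst),
            G3_K (p.2 s) (Θ p.1 (Pi.single s 1 - fun _ => (n : ℂ)⁻¹)) * x ∈
            G3_span (κ := κ) Θ (p.1 :: l.map Prod.fst) := by
          intro x hx
          unfold G3_span at hx
          induction hx using Submodule.span_induction with
          | mem x hx =>
            obtain ⟨a, w, hw1, hw2, rfl⟩ := hx
            refine Submodule.subset_span ⟨p.2 s * a, (p.1, Pi.single s 1 - fun _ => (n : ℂ)⁻¹) :: w,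
              ?_, ?_, ?_⟩
            · rw [List.map_cons, hw1]
            · intro q hq
              rcases List.mem_cons.1 hq with rfl | hq
              · exact hsum0 s
              · exact hw2 q hq
            · rw [List.map_cons, List.prod_cons, G3_K_mul]
          | zero =>
            rw [mul_zero]
            exact Submodule.zero_mem _
          | add x y _ _ hx hy =>
            rw [mul_add]
            exact Submodule.add_mem _ hx hy
          | smul c x _ hx =>
            rw [mul_smul_comm]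
            exact Submodule.smul_mem _ c hx
        exact hmap _ ih'
    intro l hl0 hlL hlc hl
    have hmem := key l hl
    have hspan : ∀ x ∈ G3_span (κ := κ) Θ (l.map Prod.fst), ntr x = 0 := by
      intro x hx
      unfold G3_span at hx
      induction hx using Submodule.span_induction with
      | mem x hx =>
        obtain ⟨a, w, hw1, hw2, rfl⟩ := hx
        have hlen : w.length = l.length := by
          have h3 := congrArg List.length hw1
          rwa [List.length_map, List.length_map] at h3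
        rw [G3_ntr, hfree w, mul_zero]
        · rintro rfl
          apply hl0
          rw [List.length_nil] at hlen
          exact List.length_eq_zero_iff.1 hlen.symm
        · omega
        · have h3 : (l.map Prod.fst).IsChain (fun a b => a ≠ b) := (List.isChain_map Prod.fst).2 hlc
          rw [← hw1] at h3
          exact (List.isChain_map Prod.fst).1 h3
        · exact hw2
      | zero => exact map_zero _
      | add x y _ _ hx hy => rw [map_add, hx, hy, add_zero]
      | smul c x _ hx => rw [map_smul, hx, smul_zero]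
    exact hspan _ hmem

end Pool.Agent.QFP
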