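import Pool.Agent.QFP.K3
import Pool.Agent.QFP.G3

/-!
# [K4x] Finitely many words

Same data as in `K3`, for the index set `J = Fin k` (`J : Type` finite), and `ℱ` is proper.

Proof. Choose `ρ α L`, `Φ α L` by `exists_phi` (`G3`, for `n α`, `L`, `κ α`), apply
`model_moments` (`K3`) to each of the finitely many words of length at most `m` with letters in `F`
(the set of such words is finite: words of length at most `m` over the finite set `F × Bool`), take
one `(α, L)` for which all of them are within `ε`, and move the matrices to `Fin ν` by `exists_fin`
(`C2`; `Ψ` is contractive and `map_wordEval`).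
-/

set_option autoImplicit false

namespace Pool.Agent.QFP

open Filter Topology
open scoped Matrix.Norms.L2Operator

/-- There are only finitely many words of length at most `m` with letters in a finite set. -/
theorem words_finite {κ : Type*} (F : Finset κ) (m : ℕ) :
    {w : List (κ × Bool) | (∀ p ∈ w, p.1 ∈ F) ∧ w.length ≤ m}.Finite := by
  induction m with
  | zero =>
    apply (Set.finite_singleton ([] : List (κ × Bool))).subset
    rintro w ⟨_, hw⟩
    exact List.length_eq_zero_iff.1 (Nat.le_zero.1 hw)
  | succ m ih =>
    have hF : {p : κ × Bool | p.1 ∈ F}.Finite := by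
      apply ((F : Set κ).toFinite.prod (Set.univ : Set Bool).toFinite).subset
      intro p hp
      exact ⟨hp, Set.mem_univ _⟩
    apply ((Set.finite_singleton ([] : List (κ × Bool))).union
      (Set.Finite.image2 List.cons hF ih)).subset
    rintro w ⟨hw, hl⟩
    cases w with
    | nil => exact Or.inl rfl
    | cons p w =>
      right
      exact ⟨p, hw p List.mem_cons_self, w,
        ⟨fun q hq => hw q (List.mem_cons_of_mem _ hq), Nat.le_of_succ_le_succ hl⟩, rfl⟩

end Pool.Agent.QFP
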