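import Pool.Agent.QFP.K3
import Pool.Agent.QFP.G3
import Pool.Agent.QFP.K4x

/-!
# [K4y] Matricial microstates of a free power, J finite

Same data as in `K3`, for the index set `J = Fin k` (`J : Type` finite), and `ℱ` is proper.

Proof. Choose `ρ α L`, `Φ α L` by `exists_phi` (`G3`, for `n α`, `L`, `κ α`), apply
`model_moments` (`K3`) to each of the finitely many words of length at most `m` with letters in `F`
(the set of such words is finite: words of length at most `m` over the finite set `F × Bool`), take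
one `(α, L)` for which all of them are within `ε`, and move the matrices to `Fin ν` by `exists_fin`
(`C2`; `Ψ` is contractive and `map_wordEval`).
-/

set_option autoImplicit false

namespace Pool.Agent.QFP

open Filter Topology
open scoped Matrix.Norms.L2Operator

theorem K4y_phi (J : Type) [Fintype J] [DecidableEq J] (n : ℕ) (hn : 0 < n) (L : ℕ)
    (κ : Type) [Fintype κ] [DecidableEq κ] [Nonempty κ] :
    ∃ (ρ : Type) (_ : Fintype ρ) (_ : DecidableEq ρ) (_ : Nonempty ρ)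
      (Φ : J → ((Fin n → Matrix κ κ ℂ) →⋆ₐ[ℂ] Matrix ρ ρ ℂ)),
      (∀ j x, ntr (Φ j x) = tpi n κ x) ∧
      (∀ i j y, Φ i (fun _ => y) = Φ j (fun _ => y)) ∧
      ∀ l : List (J × (Fin n → Matrix κ κ ℂ)), l ≠ [] → l.length ≤ L →
        l.IsChain (fun p q => p.1 ≠ q.1) → (∀ p ∈ l, ∑ s, p.2 s = 0) →
        ntr (l.map fun p => Φ p.1 p.2).prod = 0 := by
  obtain ⟨Γ, i1, i2, i3, Φ, h1, h2, h3⟩ := exists_phi J n hn L κ
  exact ⟨κ × Γ, inferInstance, inferInstance, inferInstance, Φ, h1, h2, h3⟩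

theorem tuple_model {S : Type*} {J : Type} [Fintype J] [DecidableEq J]
    (mul : S → S → S) (st : S → S) (isB isC : S → Prop) (R : S → ℝ) (T : S → ℂ)
    {E : Type*} [CStarAlgebra E] (φ : E →ₗ[ℂ] ℂ) (hφ : TrAlg φ) (c : J → S → E)
    (cmul : ∀ j a b, c j (mul a b) = c j a * c j b)
    (cst : ∀ j a, c j (st a) = star (c j a))
    (cB : ∀ i j b, isB b → c i b = c j b)
    (ctr : ∀ j a, φ (c j a) = T a)
    (cfree : ∀ l : List (J × S), l ≠ [] → l.IsChain (fun p q => p.1 ≠ q.1) →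
      (∀ p ∈ l, isC p.2) → φ (l.map fun p => c p.1 p.2).prod = 0)
    {Λ : Type*} (ℱ : Filter Λ) [ℱ.NeBot] (n : Λ → ℕ) (hn : ∀ α, 0 < n α)
    (κ : Λ → Type) [∀ α, Fintype (κ α)] [∀ α, DecidableEq (κ α)] [∀ α, Nonempty (κ α)]
    (x : ∀ α, S → Fin (n α) → Matrix (κ α) (κ α) ℂ)
    (xR : ∀ α a s, ‖x α a s‖ ≤ R a)
    (xmul : ∀ a b, Tendsto (fun α => n2 (tpi (n α) (κ α)) (x α (mul a b) - x α a * x α b)) ℱ (𝓝 0))
    (xst : ∀ a, Tendsto (fun α => n2 (tpi (n α) (κ α)) (x α (st a) - star (x α a))) ℱ (𝓝 0))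
    (xtr : ∀ a, Tendsto (fun α => tpi (n α) (κ α) (x α a)) ℱ (𝓝 (T a)))
    (xB : ∀ b, isB b → ∀ᶠ α in ℱ, ∀ s s', x α b s = x α b s')
    (xC : ∀ a, isC a → Tendsto (fun α => n2 ntr ((n α : ℂ)⁻¹ • ∑ s, x α a s)) ℱ (𝓝 0))
    (hdec : ∀ a, isB a ∨ isC a ∨ ∃ a0 b, isC a0 ∧ isB b ∧ (∀ j, c j a = c j a0 + c j b) ∧
      Tendsto (fun α => n2 (tpi (n α) (κ α)) (x α a - (x α a0 + x α b))) ℱ (𝓝 0))
    (F : Finset (J × S)) (m : ℕ) (ε : ℝ) (hε : 0 < ε) :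
    ∃ (ν : ℕ) (_ : 0 < ν) (Y : J × S → Matrix (Fin ν) (Fin ν) ℂ),
      (∀ p, ‖Y p‖ ≤ R p.2) ∧
      ∀ w : List ((J × S) × Bool), (∀ p ∈ w, p.1 ∈ F) → w.length ≤ m →
        ‖ntr (wordEval Y w) - φ (wordEval (fun p : J × S => c p.1 p.2) w)‖ < ε := by
  classical
  have hΦ0 := fun (α : Λ) (L : ℕ) => K4y_phi J (n α) (hn α) L (κ α)
  choose ρ i1 i2 i3 Φ Φtr Φc Φfree using hΦ0
  have hmod := model_moments mul st isB isC R T φ hφ c cmul cst cB ctr cfree ℱ n hn κ x xR xmul xst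
    xtr xB xC hdec ρ Φ Φtr Φc Φfree
  have hev : ∀ᶠ q : Λ × ℕ in ℱ ×ˢ atTop, ∀ w ∈ {w : List ((J × S) × Bool) | (∀ p ∈ w, p.1 ∈ F) ∧ w.length ≤ m},
      ‖ntr (wordEval (fun p : J × S => Φ q.1 q.2 p.1 (x q.1 p.2)) w) -
        φ (wordEval (fun p : J × S => c p.1 p.2) w)‖ < ε := by
    rw [Filter.eventually_all_finite (words_finite F m)]
    intro w _
    filter_upwards [Metric.tendsto_nhds.1 (hmod w) ε hε] with q hq
    rwa [dist_eq_norm] at hq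
  obtain ⟨⟨α, L⟩, hq⟩ := hev.exists
  obtain ⟨ν, hν, Ψ, hΨ⟩ := exists_fin (ρ α L)
  have hR : ∀ a, 0 ≤ R a := fun a => (norm_nonneg _).trans (xR α a ⟨0, hn α⟩)
  refine ⟨ν, hν, fun p => Ψ (Φ α L p.1 (x α p.2)), fun p => ?_, fun w hw hwm => ?_⟩
  · have h1 := NonUnitalStarAlgHom.norm_apply_le Ψ (Φ α L p.1 (x α p.2))
    have h2 := NonUnitalStarAlgHom.norm_apply_le (Φ α L p.1) (x α p.2)
    have h3 : ‖x α p.2‖ ≤ R p.2 := (pi_norm_le_iff_of_nonneg (hR p.2)).2 fun s => xR α p.2 s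
    exact h1.trans (h2.trans h3)
  · have h1 := hq w ⟨hw, hwm⟩
    have h2 : wordEval (fun p : J × S => Ψ (Φ α L p.1 (x α p.2))) w =
        Ψ (wordEval (fun p : J × S => Φ α L p.1 (x α p.2)) w) :=
      (map_wordEval Ψ (fun p : J × S => Φ α L p.1 (x α p.2)) w).symm
    rw [h2, hΨ]
    exact h1

end Pool.Agent.QFP
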