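import Pool.Agent.QFP.K3
import Pool.Agent.QFP.G3
import Pool.Agent.QFP.K4y

/-!
# [K4z] Matricial microstates of a free power, J arbitrary

Same data as in `K3`, for the index set `J = Fin k` (`J : Type` finite), and `ℱ` is proper.

Proof. Choose `ρ α L`, `Φ α L` by `exists_phi` (`G3`, for `n α`, `L`, `κ α`), apply
`model_moments` (`K3`) to each of the finitely many words of length at most `m` with letters in `F`
(the set of such words is finite: words of length at most `m` over the finite set `F × Bool`), take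
one `(α, L)` for which all of them are within `ε`, and move the matrices to `Fin ν` by `exists_fin`
(`C2`; `Ψ` is contractive and `map_wordEval`).
-/

set_option autoImplicit false

namespace Pool.Agent.QFP

open Filter Topology
open scoped Matrix.Norms.L2Operator

theorem K4z_word {S : Type*} {J J' : Type*} {A B : Type*} [Monoid A] [Star A] [Monoid B] [Star B]
    (F : Finset (J × S)) (F' : Finset (J' × S)) (y : J × S → A) (y' : J' × S → A) (z : J × S → B) (z' : J' × S → B)
    (H : ∀ p ∈ F, ∃ p' ∈ F', y p = y' p' ∧ z p = z' p') (w : List ((J × S) × Bool))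
    (hw : ∀ p ∈ w, p.1 ∈ F) :
    ∃ w' : List ((J' × S) × Bool), (∀ p ∈ w', p.1 ∈ F') ∧ w'.length = w.length ∧
      wordEval y w = wordEval y' w' ∧ wordEval z w = wordEval z' w' := by
  induction w with
  | nil => exact ⟨[], by simp, rfl, rfl, rfl⟩
  | cons p w ih =>
    obtain ⟨w', h1, h2, h3, h4⟩ := ih fun q hq => hw q (List.mem_cons_of_mem _ hq)
    obtain ⟨p', hp', e1, e2⟩ := H p.1 (hw p List.mem_cons_self)
    refine ⟨(p', p.2) :: w', ?_, ?_, ?_, ?_⟩
    · intro q hq
      rcases List.mem_cons.1 hq with rfl | hq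
      · exact hp'
      · exact h1 q hq
    · rw [List.length_cons, List.length_cons, h2]
    · unfold wordEval at h3 ⊢
      rw [List.map_cons, List.prod_cons, List.map_cons, List.prod_cons, h3, e1]
    · unfold wordEval at h4 ⊢
      rw [List.map_cons, List.prod_cons, List.map_cons, List.prod_cons, h4, e2]

/-- The same for an arbitrary index set `J`: only finitely many indices occur in `F`; take
`e : Fin k → J` injective whose range contains them (for instance from
`(F.image Prod.fst).equivFin`, `k = 0` allowed), apply `tuple_model` with `Fin k` and `c ∘ e`, and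
put `Y (j, a) = Y' (i, a)` if `j = e i` and `Y (j, a) = 0` if `j` is not in the range of `e`
(`0 ≤ R a` because `‖x α a s‖ ≤ R a`, `ℱ` is proper, `n α > 0`). -/
theorem tuple_model_any {S : Type*} {J : Type*}
    (mul : S → S → S) (st : S → S) (isB isC : S → Prop) (R : S → ℝ) (T : S → ℂ)
    {E : Type*} [CStarAlgebra E] (φ : E →ₗ[ℂ] ℂ) (hφ : TrAlg φ) (c : J → S → E)
    (cmul : ∀ j a b, c j (mul a b) = c j a * c j b)
    (cst : ∀ j a, c j (st a) = star (c j a))
    (cB : ∀ i j b, isB b → c i b = c j b)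
    (ctr : ∀ j a, φ (c j a) = T a)
    (cfree : ∀ l : List (J × S), l ≠ [] → l.IsChain (fun p q => p.1 ≠ q.1) →
      (∀ p ∈ l, isC p.2) → φ (l.map fun p => c p.1 p.2).prod = 0)
    {Λ : Type*} (ℱ : Filter Λ) [ℱ.NeBot] (n : Λ → ℕ) (hn : ∀ α, 0 < n α)
    (κ : Λ → Type) [∀ α, Fintype (κ α)] [∀ α, DecidableEq (κ α)] [∀ α, Nonempty (κ α)]
    (x : ∀ α, S → Fin (n α) → Matrix (κ α) (κ α) ℂ)
    (xR : ∀ α a s, ‖x α a s‖ ≤ R a)
    (xmul : ∀ a b, Tendsto (fun α => n2 (tpi (n α) (κ α)) (x α (mul a b) - x α a * x α b)) ℱ (𝓝 0))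
    (xst : ∀ a, Tendsto (fun α => n2 (tpi (n α) (κ α)) (x α (st a) - star (x α a))) ℱ (𝓝 0))
    (xtr : ∀ a, Tendsto (fun α => tpi (n α) (κ α) (x α a)) ℱ (𝓝 (T a)))
    (xB : ∀ b, isB b → ∀ᶠ α in ℱ, ∀ s s', x α b s = x α b s')
    (xC : ∀ a, isC a → Tendsto (fun α => n2 ntr ((n α : ℂ)⁻¹ • ∑ s, x α a s)) ℱ (𝓝 0))
    (hdec : ∀ a, isB a ∨ isC a ∨ ∃ a0 b, isC a0 ∧ isB b ∧ (∀ j, c j a = c j a0 + c j b) ∧
      Tendsto (fun α => n2 (tpi (n α) (κ α)) (x α a - (x α a0 + x α b))) ℱ (𝓝 0))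
    (F : Finset (J × S)) (m : ℕ) (ε : ℝ) (hε : 0 < ε) :
    ∃ (ν : ℕ) (_ : 0 < ν) (Y : J × S → Matrix (Fin ν) (Fin ν) ℂ),
      (∀ p, ‖Y p‖ ≤ R p.2) ∧
      ∀ w : List ((J × S) × Bool), (∀ p ∈ w, p.1 ∈ F) → w.length ≤ m →
        ‖ntr (wordEval Y w) - φ (wordEval (fun p : J × S => c p.1 p.2) w)‖ < ε := by
  classical
  set I : Finset J := F.image Prod.fst with hI
  set e : Fin I.card → J := fun i => (I.equivFin.symm i : J) with he
  have hinj : Function.Injective e := fun i j hij => I.equivFin.symm.injective (Subtype.ext hij)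
  obtain ⟨α0⟩ : Nonempty Λ := ℱ.nonempty_of_neBot
  have hR : ∀ a, 0 ≤ R a := fun a => (norm_nonneg _).trans (xR α0 a ⟨0, hn α0⟩)
  obtain ⟨ν, hν, Y', hY1, hY2⟩ := tuple_model (J := Fin I.card) mul st isB isC R T φ hφ (fun i => c (e i))
    (fun j a b => cmul _ a b) (fun j a => cst _ a) (fun i j b hb => cB _ _ b hb) (fun j a => ctr _ a)
    (fun l hl hch hC => by
      have h := cfree (l.map fun p => (e p.1, p.2)) (by simpa using hl)
        ((List.isChain_map _).2 (hch.imp fun p q hpq h => hpq (hinj h)))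
        (fun p hp => by
          obtain ⟨q, hq, rfl⟩ := List.mem_map.1 hp
          exact hC q hq)
      rw [List.map_map] at h
      exact h)
    ℱ n hn κ x xR xmul xst xtr xB xC
    (fun a => by
      rcases hdec a with h | h | ⟨a0, b, h1, h2, h3, h4⟩
      · exact Or.inl h
      · exact Or.inr (Or.inl h)
      · exact Or.inr (Or.inr ⟨a0, b, h1, h2, fun j => h3 _, h4⟩))
    ((Finset.univ : Finset (Fin I.card)) ×ˢ F.image Prod.snd) m ε hε
  set Y : J × S → Matrix (Fin ν) (Fin ν) ℂ := fun p => if h : p.1 ∈ I then Y' (I.equivFin ⟨p.1, h⟩, p.2) else 0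
    with hY
  refine ⟨ν, hν, Y, fun p => ?_, fun w hw hwm => ?_⟩
  · by_cases h : p.1 ∈ I
    · have e1 : Y p = Y' (I.equivFin ⟨p.1, h⟩, p.2) := dif_pos h
      rw [e1]
      exact hY1 (I.equivFin ⟨p.1, h⟩, p.2)
    · have e1 : Y p = 0 := dif_neg h
      rw [e1, norm_zero]
      exact hR p.2
  · obtain ⟨w', h1, h2, h3, h4⟩ := K4z_word F ((Finset.univ : Finset (Fin I.card)) ×ˢ F.image Prod.snd)
      Y Y' (fun p : J × S => c p.1 p.2) (fun p : Fin I.card × S => c (e p.1) p.2)
      (fun p hp => by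
        have hpI : p.1 ∈ I := Finset.mem_image_of_mem _ hp
        refine ⟨(I.equivFin ⟨p.1, hpI⟩, p.2), ?_, dif_pos hpI, ?_⟩
        · exact Finset.mem_product.2 ⟨Finset.mem_univ _, Finset.mem_image_of_mem _ hp⟩
        · have e1 : e (I.equivFin ⟨p.1, hpI⟩) = p.1 := by
            simp [he]
          show c p.1 p.2 = c (e (I.equivFin ⟨p.1, hpI⟩)) p.2
          rw [e1]) w hw
    rw [h3, h4]
    exact hY2 w' h1 (h2.le.trans hwm)

end Pool.Agent.QFP
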