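import Pool.Agent.QFP.B2

/-!
# [B3] Perturbation of products and of words in the 2-norm
-/

set_option autoImplicit false

namespace Pool.Agent.QFP

variable {D : Type*} [CStarAlgebra D] {t : D →ₗ[ℂ] ℂ}

theorem B3_one : ‖(1 : D)‖ ≤ 1 := by
  rcases subsingleton_or_nontrivial D with hs | hs
  · rw [Subsingleton.elim (1 : D) 0, norm_zero]
    exact zero_le_one
  · exact CStarRing.norm_one.le

theorem norm_prod_le (R : ℝ) (hR : 1 ≤ R) (l : List D) (hl : ∀ x ∈ l, ‖x‖ ≤ R) :
    ‖l.prod‖ ≤ R ^ l.length := by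
  induction l with
  | nil =>
    rw [List.prod_nil, List.length_nil, pow_zero]
    exact B3_one
  | cons a l ih =>
    rw [List.prod_cons, List.length_cons, pow_succ']
    refine (norm_mul_le _ _).trans (mul_le_mul (hl a List.mem_cons_self)
      (ih fun x hx => hl x (List.mem_cons_of_mem a hx)) (norm_nonneg _) (by linarith))

/-- Induction on the list: `x X - y Y = x (X - Y) + (x - y) Y`. -/
theorem TrAlg.prod_close (h : TrAlg t) (R δ : ℝ) (hR : 1 ≤ R) (hδ : 0 ≤ δ) (l : List (D × D))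
    (hl : ∀ p ∈ l, ‖p.1‖ ≤ R ∧ ‖p.2‖ ≤ R ∧ n2 t (p.1 - p.2) ≤ δ) :
    n2 t ((l.map Prod.fst).prod - (l.map Prod.snd).prod) ≤ l.length * R ^ l.length * δ := by
  induction l with
  | nil =>
    rw [List.map_nil, List.map_nil, sub_self, h.n2_zero]
    simp
  | cons p l ih =>
    have hR0 : 0 ≤ R := by linarith
    obtain ⟨h1, h2, h3⟩ := hl p List.mem_cons_self
    have ih' := ih fun q hq => hl q (List.mem_cons_of_mem p hq)
    have hY : ‖(l.map Prod.snd).prod‖ ≤ R ^ l.length := by
      have := norm_prod_le R hR (l.map Prod.snd) (by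
        intro x hx
        obtain ⟨q, hq, rfl⟩ := List.mem_map.1 hx
        exact (hl q (List.mem_cons_of_mem p hq)).2.1)
      rwa [List.length_map] at this
    rw [List.map_cons, List.map_cons, List.prod_cons, List.prod_cons, List.length_cons]
    set X := (l.map Prod.fst).prod
    set Y := (l.map Prod.snd).prod
    have e : p.1 * X - p.2 * Y = p.1 * (X - Y) + (p.1 - p.2) * Y := by noncomm_ring
    rw [e]
    have hpow : 1 ≤ R ^ l.length := one_le_pow₀ hR
    calc n2 t (p.1 * (X - Y) + (p.1 - p.2) * Y) ≤ n2 t (p.1 * (X - Y)) + n2 t ((p.1 - p.2) * Y) := h.n2_add_le _ _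
      _ ≤ ‖p.1‖ * n2 t (X - Y) + n2 t (p.1 - p.2) * ‖Y‖ := add_le_add (h.n2_mul_left _ _) (h.n2_mul_right _ _)
      _ ≤ R * (l.length * R ^ l.length * δ) + δ * R ^ l.length :=
          add_le_add (mul_le_mul h1 ih' (n2_nonneg _ _) hR0) (mul_le_mul h3 hY (norm_nonneg _) hδ)
      _ ≤ R * (l.length * R ^ l.length * δ) + R * (δ * R ^ l.length) := by
          have : 0 ≤ δ * R ^ l.length := by positivity
          nlinarith
      _ = ((l.length + 1 : ℕ) : ℝ) * R ^ (l.length + 1) * δ := by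
          push_cast
          ring

/-- A word bound. -/
theorem norm_wordEval_le {κ : Type*} (x : κ → D) (R : ℝ) (hR : 1 ≤ R) (w : List (κ × Bool))
    (hx : ∀ p ∈ w, ‖x p.1‖ ≤ R) : ‖wordEval x w‖ ≤ R ^ w.length := by
  unfold wordEval
  have := norm_prod_le R hR (w.map fun p => if p.2 then star (x p.1) else x p.1) (by
    intro y hy
    obtain ⟨q, hq, rfl⟩ := List.mem_map.1 hy
    split_ifs
    · rw [norm_star]
      exact hx q hq
    · exact hx q hq)
  rwa [List.length_map] at this

/-- From `prod_close` (and `n2_star`, `norm_star`). -/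
theorem TrAlg.word_close (h : TrAlg t) {κ : Type*} (x y : κ → D) (R δ : ℝ) (hR : 1 ≤ R)
    (hδ : 0 ≤ δ) (w : List (κ × Bool))
    (hl : ∀ p ∈ w, ‖x p.1‖ ≤ R ∧ ‖y p.1‖ ≤ R ∧ n2 t (x p.1 - y p.1) ≤ δ) :
    n2 t (wordEval x w - wordEval y w) ≤ w.length * R ^ w.length * δ ∧
      ‖t (wordEval x w) - t (wordEval y w)‖ ≤ w.length * R ^ w.length * δ := by
  have key := h.prod_close R δ hR hδ (w.map fun p => ((if p.2 then star (x p.1) else x p.1),
    (if p.2 then star (y p.1) else y p.1))) (by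
    intro q hq
    obtain ⟨p, hp, rfl⟩ := List.mem_map.1 hq
    obtain ⟨h1, h2, h3⟩ := hl p hp
    by_cases hb : p.2 = true
    · simp only [hb, if_true, norm_star]
      rw [← star_sub, h.n2_star]
      exact ⟨h1, h2, h3⟩
    · simp only [hb, if_false]
      exact ⟨h1, h2, h3⟩)
  rw [List.map_map, List.map_map, List.length_map] at key
  have key' : n2 t (wordEval x w - wordEval y w) ≤ w.length * R ^ w.length * δ := key
  refine ⟨key', ?_⟩
  rw [← map_sub]
  exact (h.norm_le_n2 _).trans key'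

end Pool.Agent.QFP
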