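import Pool.Agent.QFP.N1
import Pool.Agent.QFP.B3
import Pool.Agent.QFP.C2

/-!
# [N2] Noncommutative ⋆-polynomials: norm bounds, closeness of moments
-/

set_option autoImplicit false

namespace Pool.Agent.QFP

open scoped Matrix.Norms.L2Operator

theorem N2_one (D : Type*) [CStarAlgebra D] : ‖(1 : D)‖ ≤ 1 := by
  rcases subsingleton_or_nontrivial D with hs | hs
  · rw [Subsingleton.elim (1 : D) 0, norm_zero]
    exact zero_le_one
  · exact CStarRing.norm_one.le

theorem N2_word {κ D : Type*} [CStarAlgebra D] (x : κ → D) (R : κ → ℝ)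
    (hx : ∀ k, ‖x k‖ ≤ R k) (w : List (κ × Bool)) : ‖wordEval x w‖ ≤ (w.map fun l => R l.1).prod := by
  have hR : ∀ k, 0 ≤ R k := fun k => (norm_nonneg _).trans (hx k)
  induction w with
  | nil =>
    rw [wordEval_nil, List.map_nil, List.prod_nil]
    exact N2_one D
  | cons l w ih =>
    have e2 : wordEval x (l :: w) = (if l.2 then star (x l.1) else x l.1) * wordEval x w := by
      unfold wordEval
      rw [List.map_cons, List.prod_cons]
    rw [e2, List.map_cons, List.prod_cons]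
    refine (norm_mul_le _ _).trans (mul_le_mul ?_ ih (norm_nonneg _) (hR _))
    split_ifs
    · rw [norm_star]
      exact hx l.1
    · exact hx l.1

theorem ncBound_nonneg {κ : Type*} (R : κ → ℝ) (hR : ∀ k, 0 ≤ R k) (P : NC κ) :
    0 ≤ ncBound R P := by
  unfold ncBound
  refine List.sum_nonneg ?_
  intro y hy
  obtain ⟨q, -, rfl⟩ := List.mem_map.1 hy
  refine mul_nonneg (norm_nonneg _) (List.prod_nonneg ?_)
  intro z hz
  obtain ⟨l, -, rfl⟩ := List.mem_map.1 hz
  exact hR l.1

/-- `‖x‖ ≤ ∑ ‖c‖ ∏ R k` -/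
theorem norm_ncEval_le {κ D : Type*} [CStarAlgebra D] (x : κ → D) (R : κ → ℝ)
    (hx : ∀ k, ‖x k‖ ≤ R k) (P : NC κ) : ‖ncEval x P‖ ≤ ncBound R P := by
  induction P with
  | nil =>
    rw [ncEval_nil, norm_zero]
    exact le_rfl
  | cons q P ih =>
    have e1 : ncEval x (q :: P) = q.1 • wordEval x q.2 + ncEval x P := by
      unfold ncEval
      rw [List.map_cons, List.sum_cons]
    have e2 : ncBound R (q :: P) = ‖q.1‖ * (q.2.map fun l => R l.1).prod + ncBound R P := by
      unfold ncBound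
      rw [List.map_cons, List.sum_cons]
    rw [e1, e2]
    refine (norm_add_le _ _).trans (add_le_add ?_ ih)
    rw [norm_smul]
    exact mul_le_mul_of_nonneg_left (N2_word x R hx q.2) (norm_nonneg _)

/-- The model hypothesis for words gives it for finitely many polynomials: take the finite set of
all letters and words occurring in the `P ∈ Ps`, `m` the maximal length, and `ε'` with
`ε' * (∑ over the monomials of ‖coefficient‖) < ε`. -/
theorem model_poly {κ E : Type*} [CStarAlgebra E] (φ : E →ₗ[ℂ] ℂ) (c : κ → E) (R : κ → ℝ)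
    (H : ∀ (F : Finset κ) (m : ℕ) (ε : ℝ), 0 < ε →
      ∃ (ν : ℕ) (_ : 0 < ν) (Y : κ → Matrix (Fin ν) (Fin ν) ℂ), (∀ k, ‖Y k‖ ≤ R k) ∧
        ∀ w : List (κ × Bool), (∀ p ∈ w, p.1 ∈ F) → w.length ≤ m →
          ‖ntr (wordEval Y w) - φ (wordEval c w)‖ < ε)
    (Ps : List (NC κ)) (ε : ℝ) (hε : 0 < ε) :
    ∃ (ν : ℕ) (_ : 0 < ν) (Y : κ → Matrix (Fin ν) (Fin ν) ℂ), (∀ k, ‖Y k‖ ≤ R k) ∧
      ∀ P ∈ Ps, ‖ntr (ncEval Y P) - φ (ncEval c P)‖ < ε := by
  classical
  -- the list of all words
  set W : List (List (κ × Bool)) := Ps.flatMap fun P => P.map Prod.snd with hW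
  set F : Finset κ := (W.flatMap fun w => w.map Prod.fst).toFinset with hF
  set m : ℕ := (W.map List.length).sum with hm
  set S : ℝ := (Ps.map fun P => (P.map fun q => ‖q.1‖).sum).sum with hS
  have hS0 : 0 ≤ S := by
    refine List.sum_nonneg ?_
    intro y hy
    obtain ⟨P, -, rfl⟩ := List.mem_map.1 hy
    refine List.sum_nonneg ?_
    intro z hz
    obtain ⟨q, -, rfl⟩ := List.mem_map.1 hz
    exact norm_nonneg _
  obtain ⟨ν, hν, Y, hY, hw⟩ := H F m (ε / (S + 1)) (div_pos hε (by linarith))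
  refine ⟨ν, hν, Y, hY, fun P hP => ?_⟩
  have hwP : ∀ q ∈ P, ‖ntr (wordEval Y q.2) - φ (wordEval c q.2)‖ < ε / (S + 1) := by
    intro q hq
    have hqW : q.2 ∈ W := List.mem_flatMap.2 ⟨P, hP, List.mem_map.2 ⟨q, hq, rfl⟩⟩
    apply hw
    · intro p hp
      rw [hF, List.mem_toFinset]
      exact List.mem_flatMap.2 ⟨q.2, hqW, List.mem_map.2 ⟨p, hp, rfl⟩⟩
    · exact List.single_le_sum (fun _ _ => Nat.zero_le _) _ (List.mem_map.2 ⟨q.2, hqW, rfl⟩)
  have key : ∀ P : NC κ, (∀ q ∈ P, ‖ntr (wordEval Y q.2) - φ (wordEval c q.2)‖ < ε / (S + 1)) →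
      ‖ntr (ncEval Y P) - φ (ncEval c P)‖ ≤ (P.map fun q => ‖q.1‖).sum * (ε / (S + 1)) := by
    intro P
    induction P with
    | nil =>
      intro _
      rw [ncEval_nil, ncEval_nil, map_zero, map_zero, sub_zero, norm_zero, List.map_nil, List.sum_nil, zero_mul]
    | cons q P ih =>
      intro h
      have e1 : ncEval Y (q :: P) = q.1 • wordEval Y q.2 + ncEval Y P := by
        unfold ncEval
        rw [List.map_cons, List.sum_cons]
      have e2 : ncEval c (q :: P) = q.1 • wordEval c q.2 + ncEval c P := by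
        unfold ncEval
        rw [List.map_cons, List.sum_cons]
      have ih' := ih fun q' hq' => h q' (List.mem_cons_of_mem q hq')
      have h1 := h q List.mem_cons_self
      have e3 : ntr (ncEval Y (q :: P)) - φ (ncEval c (q :: P)) =
          q.1 * (ntr (wordEval Y q.2) - φ (wordEval c q.2)) + (ntr (ncEval Y P) - φ (ncEval c P)) := by
        rw [e1, e2, map_add, map_add, map_smul, map_smul, smul_eq_mul, smul_eq_mul]
        ring
      rw [e3, List.map_cons, List.sum_cons, add_mul]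
      refine (norm_add_le _ _).trans (add_le_add ?_ ih')
      rw [norm_mul]
      exact mul_le_mul_of_nonneg_left h1.le (norm_nonneg _)
  refine (key P hwP).trans_lt ?_
  have h1 : (P.map fun q => ‖q.1‖).sum ≤ S := by
    refine List.single_le_sum ?_ _ (List.mem_map.2 ⟨P, hP, rfl⟩)
    intro y hy
    obtain ⟨P', -, rfl⟩ := List.mem_map.1 hy
    refine List.sum_nonneg ?_
    intro z hz
    obtain ⟨q, -, rfl⟩ := List.mem_map.1 hz
    exact norm_nonneg _
  have h2 : 0 < ε / (S + 1) := div_pos hε (by linarith)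
  calc (P.map fun q => ‖q.1‖).sum * (ε / (S + 1)) ≤ S * (ε / (S + 1)) := mul_le_mul_of_nonneg_right h1 h2.le
    _ < (S + 1) * (ε / (S + 1)) := mul_lt_mul_of_pos_right (by linarith) h2
    _ = ε := by
      field_simp

end Pool.Agent.QFP
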