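import Pool.Agent.QFP.Amp
import Pool.Agent.QFP.N2
import Pool.Agent.QFP.D1

/-!
# [S1x] Density of polynomials in generators

Proof of `density_of_generates`. Take `ξ` from `IsTrace.exists_n2` and apply
`approx_of_bicommutant` (`Amp`) to the constant sequence `A n = StarAlgebra.adjoin ℂ (range of c)`
(in `K →L[ℂ] K`); its bicommutant contains the bicommutant of the range of `c`. An element of
`StarAlgebra.adjoin` is `ncEval (fun k => (c k : K →L[ℂ] K)) P` for some `P : NC κ`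
(`StarAlgebra.adjoin_induction`, with the operations of `N1`), which is the image of
`ncEval c P ∈ Alg M` (`map_ncEval` for the inclusion `StarSubalgebra.subtype`).
-/

set_option autoImplicit false

namespace Pool.Agent.QFP

theorem S1x_adjoin {K : Type*} [NormedAddCommGroup K] [InnerProductSpace ℂ K]
    [CompleteSpace K] {κ : Type*} (c : κ → (K →L[ℂ] K)) (q : K →L[ℂ] K)
    (hq : q ∈ StarAlgebra.adjoin ℂ {x | ∃ k, x = c k}) : ∃ P : NC κ, ncEval c P = q := by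
  induction hq using StarAlgebra.adjoin_induction with
  | mem x h =>
    obtain ⟨k, rfl⟩ := h
    exact ⟨ncVar k, ncEval_var c k⟩
  | algebraMap r =>
    refine ⟨ncSmul r ncOne, ?_⟩
    rw [ncEval_smul, ncEval_one, Algebra.algebraMap_eq_smul_one]
  | add x y hx hy h1 h2 =>
    obtain ⟨P, rfl⟩ := h1
    obtain ⟨Q, rfl⟩ := h2
    exact ⟨P ++ Q, ncEval_append c P Q⟩
  | mul x y hx hy h1 h2 =>
    obtain ⟨P, rfl⟩ := h1
    obtain ⟨Q, rfl⟩ := h2
    exact ⟨ncMul P Q, ncEval_mul c P Q⟩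
  | star x hx h1 =>
    obtain ⟨P, rfl⟩ := h1
    exact ⟨ncStar P, ncEval_star c P⟩

theorem density_of_generates {K : Type*} [NormedAddCommGroup K] [InnerProductSpace ℂ K]
    [CompleteSpace K] {M : VonNeumannAlgebra K} {φ : Alg M →ₗ[ℂ] ℂ} (hφ : IsTrace M φ)
    {κ : Type*} (c : κ → Alg M)
    (hgen : (M : Set (K →L[ℂ] K)) ⊆
      Set.centralizer (Set.centralizer {x | ∃ k, x = ((c k : Alg M) : K →L[ℂ] K)}))
    (x : Alg M) (δ : ℝ) (hδ : 0 < δ) : ∃ P : NC κ, n2 φ (ncEval c P - x) < δ := by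
  obtain ⟨ξ, hξ, -, -, hn2⟩ := hφ.exists_n2
  set G : Set (K →L[ℂ] K) := {x | ∃ k, x = ((c k : Alg M) : K →L[ℂ] K)} with hG
  have hx1 : (x : K →L[ℂ] K) ∈ Set.centralizer (Set.centralizer G) := hgen x.2
  have hsub : G ⊆ ⋃ _n : ℕ, ((StarAlgebra.adjoin ℂ G : StarSubalgebra ℂ (K →L[ℂ] K)) : Set (K →L[ℂ] K)) := by
    intro y hy
    exact Set.mem_iUnion.2 ⟨0, StarAlgebra.subset_adjoin ℂ G hy⟩
  have hx2 : (x : K →L[ℂ] K) ∈ Set.centralizer (Set.centralizer
      (⋃ _n : ℕ, ((StarAlgebra.adjoin ℂ G : StarSubalgebra ℂ (K →L[ℂ] K)) : Set (K →L[ℂ] K)))) :=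
    Set.centralizer_subset (Set.centralizer_subset hsub) hx1
  obtain ⟨n, q, hq, hlt⟩ := approx_of_bicommutant (fun _ : ℕ => StarAlgebra.adjoin ℂ G)
    (fun _ _ _ => le_rfl) (x : K →L[ℂ] K) hx2 ξ hξ δ hδ
  obtain ⟨P, hP⟩ := S1x_adjoin (fun k => ((c k : Alg M) : K →L[ℂ] K)) q hq
  refine ⟨P, ?_⟩
  have hPq : ((ncEval c P : Alg M) : K →L[ℂ] K) = q := by
    rw [← hP]
    exact map_ncEval c (M.toStarSubalgebra.subtype) P
  have h1 : n2 φ (ncEval c P - x) ^ 2 < δ ^ 2 := by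
    rw [hn2]
    refine lt_of_eq_of_lt ?_ hlt
    refine tsum_congr fun i => ?_
    have h2 : ((ncEval c P - x : Alg M) : K →L[ℂ] K) = q - (x : K →L[ℂ] K) := by
      rw [← hPq]
      rfl
    rw [h2, sub_apply, sub_apply, norm_sub_rev]
  exact lt_of_pow_lt_pow_left₀ 2 hδ.le h1

end Pool.Agent.QFP
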