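import Pool.Agent.QFP.Amp
import Pool.Agent.QFP.N2
import Pool.Agent.QFP.D1
import Pool.Agent.QFP.S1x

/-!
# [S1y] Transitivity of density

Proof of `density_of_generates`. Take `ξ` from `IsTrace.exists_n2` and apply
`approx_of_bicommutant` (`Amp`) to the constant sequence `A n = StarAlgebra.adjoin ℂ (range of c)`
(in `K →L[ℂ] K`); its bicommutant contains the bicommutant of the range of `c`. An element of
`StarAlgebra.adjoin` is `ncEval (fun k => (c k : K →L[ℂ] K)) P` for some `P : NC κ`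
(`StarAlgebra.adjoin_induction`, with the operations of `N1`), which is the image of
`ncEval c P ∈ Alg M` (`map_ncEval` for the inclusion `StarSubalgebra.subtype`).
-/

set_option autoImplicit false

namespace Pool.Agent.QFP

/-- renaming of the variables -/
def S1y_ren {κ0 J : Type*} (j : J) (P : NC κ0) : NC (J × κ0) :=
  P.map fun q => (q.1, q.2.map fun l => ((j, l.1), l.2))

theorem S1y_ren_eval {κ0 J E : Type*} [CStarAlgebra E] (c : J × κ0 → E) (j : J) (P : NC κ0) :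
    ncEval c (S1y_ren j P) = ncEval (fun k => c (j, k)) P := by
  unfold ncEval S1y_ren
  rw [List.map_map]
  congr 1
  apply List.map_congr_left
  intro q _
  show q.1 • wordEval c (q.2.map fun l => ((j, l.1), l.2)) = _
  congr 1
  unfold wordEval
  rw [List.map_map]
  rfl

/-- the 2-norm closure of the polynomials -/
def S1y_C {E κ : Type*} [CStarAlgebra E] (φ : E →ₗ[ℂ] ℂ) (c : κ → E) : Set E :=
  {x | ∀ δ : ℝ, 0 < δ → ∃ Q : NC κ, n2 φ (ncEval c Q - x) < δ}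

theorem S1y_poly {E κ : Type*} [CStarAlgebra E] {φ : E →ₗ[ℂ] ℂ} (hφ : TrAlg φ) (c : κ → E)
    (Q : NC κ) : ncEval c Q ∈ S1y_C φ c := by
  intro δ hδ
  refine ⟨Q, ?_⟩
  rw [sub_self, hφ.n2_zero]
  exact hδ

theorem S1y_add {E κ : Type*} [CStarAlgebra E] {φ : E →ₗ[ℂ] ℂ} (hφ : TrAlg φ) (c : κ → E)
    {x y : E} (hx : x ∈ S1y_C φ c) (hy : y ∈ S1y_C φ c) : x + y ∈ S1y_C φ c := by
  intro δ hδ
  obtain ⟨P, hP⟩ := hx (δ / 2) (by linarith)
  obtain ⟨Q, hQ⟩ := hy (δ / 2) (by linarith)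
  refine ⟨P ++ Q, ?_⟩
  have h1 := hφ.n2_add_le (ncEval c P - x) (ncEval c Q - y)
  have h2 : ncEval c (P ++ Q) - (x + y) = ncEval c P - x + (ncEval c Q - y) := by
    rw [ncEval_append]
    abel
  rw [h2]
  linarith

theorem S1y_smul {E κ : Type*} [CStarAlgebra E] {φ : E →ₗ[ℂ] ℂ} (hφ : TrAlg φ) (c : κ → E)
    {x : E} (hx : x ∈ S1y_C φ c) (z : ℂ) : z • x ∈ S1y_C φ c := by
  intro δ hδ
  have hz := norm_nonneg z
  obtain ⟨P, hP⟩ := hx (δ / (‖z‖ + 1)) (by positivity)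
  refine ⟨ncSmul z P, ?_⟩
  rw [ncEval_smul, ← smul_sub, hφ.n2_smul]
  have h1 := n2_nonneg φ (ncEval c P - x)
  have h2 : (‖z‖ + 1) * n2 φ (ncEval c P - x) < δ := by
    have h3 := (lt_div_iff₀ (by linarith : (0 : ℝ) < ‖z‖ + 1)).1 hP
    linarith
  linarith

theorem S1y_lim {E κ : Type*} [CStarAlgebra E] {φ : E →ₗ[ℂ] ℂ} (hφ : TrAlg φ) (c : κ → E)
    {x : E} (hx : ∀ δ : ℝ, 0 < δ → ∃ y ∈ S1y_C φ c, n2 φ (y - x) < δ) : x ∈ S1y_C φ c := by
  intro δ hδ
  obtain ⟨y, hy, h1⟩ := hx (δ / 2) (by linarith)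
  obtain ⟨P, hP⟩ := hy (δ / 2) (by linarith)
  refine ⟨P, ?_⟩
  have h2 := hφ.n2_sub_le (ncEval c P) y x
  linarith

theorem S1y_mul {E0 E : Type*} [CStarAlgebra E0] [CStarAlgebra E] {t0 : E0 →ₗ[ℂ] ℂ}
    {φ : E →ₗ[ℂ] ℂ} (hφ : TrAlg φ) {κ0 J : Type*} (ι : J → E0 →⋆ₐ[ℂ] E)
    (hι : ∀ j a, φ (ι j a) = t0 a) (c0 : κ0 → E0)
    (hd0 : ∀ (x : E0) (δ : ℝ), 0 < δ → ∃ P : NC κ0, n2 t0 (ncEval c0 P - x) < δ)
    (j : J) (a : E0) {x : E} (hx : x ∈ S1y_C φ (fun p : J × κ0 => ι p.1 (c0 p.2))) :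
    ι j a * x ∈ S1y_C φ (fun p : J × κ0 => ι p.1 (c0 p.2)) := by
  intro δ hδ
  set c' : J × κ0 → E := fun p => ι p.1 (c0 p.2) with hc'
  have ha := norm_nonneg (ι j a)
  obtain ⟨Q, hQ⟩ := hx (δ / 2 / (‖ι j a‖ + 1)) (by positivity)
  have hq := norm_nonneg (ncEval c' Q)
  obtain ⟨P, hP⟩ := hd0 a (δ / 2 / (‖ncEval c' Q‖ + 1)) (by positivity)
  refine ⟨ncMul (S1y_ren j P) Q, ?_⟩
  have h1 : ncEval c' (ncMul (S1y_ren j P) Q) = ι j (ncEval c0 P) * ncEval c' Q := by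
    rw [ncEval_mul, S1y_ren_eval, map_ncEval]
  have h2 : ι j (ncEval c0 P) * ncEval c' Q - ι j a * x =
      ι j (ncEval c0 P - a) * ncEval c' Q + ι j a * (ncEval c' Q - x) := by
    rw [map_sub, sub_mul, mul_sub]
    abel
  rw [h1, h2]
  have h3 := hφ.n2_add_le (ι j (ncEval c0 P - a) * ncEval c' Q) (ι j a * (ncEval c' Q - x))
  have h4 := hφ.n2_mul_right (ncEval c' Q) (ι j (ncEval c0 P - a))
  have h5 := hφ.n2_mul_left (ι j a) (ncEval c' Q - x)
  rw [n2_map (ι j) (hι j)] at h4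
  have h6 := (lt_div_iff₀ (by linarith : (0 : ℝ) < ‖ncEval c' Q‖ + 1)).1 hP
  have h7 := (lt_div_iff₀ (by linarith : (0 : ℝ) < ‖ι j a‖ + 1)).1 hQ
  have h8 := n2_nonneg t0 (ncEval c0 P - a)
  have h9 := n2_nonneg φ (ncEval c' Q - x)
  nlinarith [h3, h4, h5, h6, h7, h8, h9]

/-- Transitivity of density. Let `𝒞` be the set of `x : E` such that for all `δ > 0` some
`ncEval c' Q` (`c' (j, k) = ι j (c0 k)`) is within `δ` of `x` in 2-norm. `𝒞` is closed under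
sums, scalar multiples, 2-norm limits, and `1 ∈ 𝒞`. If `x ∈ 𝒞` then `ι j a * x ∈ 𝒞` for all `a : E0`:
choose `Q` close to `x` (`‖a‖ n2 φ (ncEval c' Q - x)` small), then `P : NC κ0` with
`n2 t0 (ncEval c0 P - a) * ‖ncEval c' Q‖` small; `ι j (ncEval c0 P) * ncEval c' Q` is a polynomial in
`c'` (rename the variables of `P` by `k ↦ (j, k)`). `star (ι j a) = ι j (star a)`. So `𝒞` contains
all words in the `ι j a`. -/
theorem density_trans {E0 E : Type*} [CStarAlgebra E0] [CStarAlgebra E] {t0 : E0 →ₗ[ℂ] ℂ}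
    {φ : E →ₗ[ℂ] ℂ} (h0 : TrAlg t0) (hφ : TrAlg φ) {κ0 J : Type*} (ι : J → E0 →⋆ₐ[ℂ] E)
    (hι : ∀ j a, φ (ι j a) = t0 a) (c0 : κ0 → E0)
    (hd0 : ∀ (x : E0) (δ : ℝ), 0 < δ → ∃ P : NC κ0, n2 t0 (ncEval c0 P - x) < δ)
    (hd : ∀ (x : E) (δ : ℝ), 0 < δ →
      ∃ P : NC (J × E0), n2 φ (ncEval (fun p : J × E0 => ι p.1 p.2) P - x) < δ)
    (x : E) (δ : ℝ) (hδ : 0 < δ) :
    ∃ P : NC (J × κ0), n2 φ (ncEval (fun p : J × κ0 => ι p.1 (c0 p.2)) P - x) < δ := by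
  set c' : J × κ0 → E := fun p => ι p.1 (c0 p.2) with hc'
  have hword : ∀ w : List ((J × E0) × Bool),
      wordEval (fun p : J × E0 => ι p.1 p.2) w ∈ S1y_C φ c' := by
    intro w
    induction w with
    | nil =>
      have h1 := S1y_poly hφ c' ncOne
      rw [ncEval_one] at h1
      exact h1
    | cons l w ih =>
      have h1 : wordEval (fun p : J × E0 => ι p.1 p.2) (l :: w) =
          ι l.1.1 (if l.2 then star l.1.2 else l.1.2) *
            wordEval (fun p : J × E0 => ι p.1 p.2) w := by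
        unfold wordEval
        rw [List.map_cons, List.prod_cons]
        congr 1
        cases l.2
        · simp
        · simp only [if_true]
          exact (map_star (ι l.1.1) l.1.2).symm
      rw [h1]
      exact S1y_mul hφ ι hι c0 hd0 _ _ ih
  have hpoly : ∀ P : NC (J × E0), ncEval (fun p : J × E0 => ι p.1 p.2) P ∈ S1y_C φ c' := by
    intro P
    induction P with
    | nil =>
      have h1 := S1y_poly hφ c' []
      rw [ncEval_nil] at h1
      rw [ncEval_nil]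
      exact h1
    | cons q P ih =>
      have h1 : ncEval (fun p : J × E0 => ι p.1 p.2) (q :: P) =
          q.1 • wordEval (fun p : J × E0 => ι p.1 p.2) q.2 +
            ncEval (fun p : J × E0 => ι p.1 p.2) P := by
        unfold ncEval
        rw [List.map_cons, List.sum_cons]
      rw [h1]
      exact S1y_add hφ c' (S1y_smul hφ c' (hword q.2) q.1) ih
  have hx : x ∈ S1y_C φ c' := by
    apply S1y_lim hφ c'
    intro δ hδ
    obtain ⟨P, hP⟩ := hd x δ hδ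
    exact ⟨_, hpoly P, hP⟩
  exact hx δ hδ

end Pool.Agent.QFP
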