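import Pool.Agent.QFP.C1

/-!
# [H1] A finite family of unitary matrices averaging to the trace

On `Fin k`: `D` = diagonal matrix with entries `ζ ^ i`, `ζ = exp (2 π i / k)`, `S` = cyclic
shift. Averaging over the conjugations by `D ^ q`, `q < k`, gives the diagonal part of `Y`; then
averaging over the conjugations by `S ^ p`, `p < k`, gives `ntr Y • 1`. So the unitaries
`S ^ p * D ^ q` (`k ^ 2` of them) do it.
-/

set_option autoImplicit false

namespace Pool.Agent.QFP

open scoped Matrix.Norms.L2Operator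

/-- the matrices `S ^ p * D ^ q` -/
def H1_w (k : ℕ) [NeZero k] (ζ : ℂ) (p q : Fin k) : Matrix (Fin k) (Fin k) ℂ :=
  fun i j => if j = i - p then ζ ^ (q.val * j.val) else 0

theorem H1_conj (k : ℕ) [NeZero k] (ζ : ℂ) (p q : Fin k) (Y : Matrix (Fin k) (Fin k) ℂ)
    (i i' : Fin k) : (H1_w k ζ p q * Y * star (H1_w k ζ p q)) i i' =
      ζ ^ (q.val * (i - p).val) * Y (i - p) (i' - p) * star (ζ ^ (q.val * (i' - p).val)) := by
  have h1 : ∀ j, (H1_w k ζ p q * Y) i j = ζ ^ (q.val * (i - p).val) * Y (i - p) j := by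
    intro j
    rw [Matrix.mul_apply]
    unfold H1_w
    simp only [ite_mul, zero_mul]
    rw [Finset.sum_ite_eq' Finset.univ (i - p)]
    rw [if_pos (Finset.mem_univ _)]
  rw [Matrix.mul_apply]
  have h2 : ∀ j, (star (H1_w k ζ p q)) j i' =
      if j = i' - p then star (ζ ^ (q.val * j.val)) else 0 := by
    intro j
    rw [Matrix.star_apply]
    unfold H1_w
    split_ifs
    · rfl
    · exact star_zero _
  simp only [h1, h2, mul_ite, mul_zero]
  rw [Finset.sum_ite_eq' Finset.univ (i' - p), if_pos (Finset.mem_univ _)]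

theorem H1_sum (k : ℕ) [NeZero k] {ζ : ℂ} (hζ : IsPrimitiveRoot ζ k) (hn : ζ * star ζ = 1)
    (a b : Fin k) : ∑ q : Fin k, ζ ^ (q.val * a.val) * star (ζ ^ (q.val * b.val)) =
      if a = b then (k : ℂ) else 0 := by
  have h1 : ∀ q : Fin k, ζ ^ (q.val * a.val) * star (ζ ^ (q.val * b.val)) =
      (ζ ^ a.val * star ζ ^ b.val) ^ q.val := by
    intro q
    rw [star_pow, mul_pow, ← pow_mul, ← pow_mul, mul_comm a.val, mul_comm b.val]
  rw [Finset.sum_congr rfl fun q _ => h1 q, Fin.sum_univ_eq_sum_range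
    (fun n => (ζ ^ a.val * star ζ ^ b.val) ^ n)]
  split_ifs with hab
  · rw [hab, ← mul_pow, hn, one_pow]
    simp
  · have h2 : ζ ^ a.val * star ζ ^ b.val ≠ 1 := by
      intro h
      have h3 : ζ ^ a.val = ζ ^ b.val := by
        calc ζ ^ a.val = ζ ^ a.val * (ζ * star ζ) ^ b.val := by rw [hn, one_pow, mul_one]
          _ = (ζ ^ a.val * star ζ ^ b.val) * ζ ^ b.val := by rw [mul_pow]; ring
          _ = ζ ^ b.val := by rw [h, one_mul]
      exact hab (Fin.ext (hζ.pow_inj a.isLt b.isLt h3))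
    have h3 : (ζ ^ a.val * star ζ ^ b.val) ^ k = 1 := by
      rw [mul_pow, ← pow_mul, ← pow_mul, mul_comm a.val, mul_comm b.val, pow_mul, pow_mul,
        hζ.pow_eq_one, one_pow, ← star_pow, hζ.pow_eq_one, star_one, one_pow, one_mul]
    have h4 := geom_sum_mul (ζ ^ a.val * star ζ ^ b.val) k
    rw [h3, sub_self] at h4
    rcases mul_eq_zero.1 h4 with h5 | h5
    · exact h5
    · exact absurd (sub_eq_zero.1 h5) h2

theorem exists_avg_unitaries (k : ℕ) (hk : 0 < k) :
    ∃ (N : ℕ) (_ : 0 < N) (w : Fin N → Matrix (Fin k) (Fin k) ℂ),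
      (∀ s, w s * star (w s) = 1 ∧ star (w s) * w s = 1) ∧
      ∀ Y : Matrix (Fin k) (Fin k) ℂ,
        (N : ℂ)⁻¹ • ∑ s, w s * Y * star (w s) = ntr Y • (1 : Matrix (Fin k) (Fin k) ℂ) := by
  have hk' : NeZero k := ⟨hk.ne'⟩
  have hζ := Complex.isPrimitiveRoot_exp k hk.ne'
  set ζ : ℂ := Complex.exp (2 * Real.pi * Complex.I / k) with hζd
  have hnorm : ‖ζ‖ = 1 := hζ.norm'_eq_one hk.ne'
  have hn : ζ * star ζ = 1 := by
    have h1 : ζ * star ζ = ((‖ζ‖ ^ 2 : ℝ) : ℂ) := by
      rw [← Complex.normSq_eq_norm_sq]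
      exact Complex.mul_conj ζ
    rw [h1, hnorm]
    norm_num
  have hpn : ∀ n : ℕ, ζ ^ n * star (ζ ^ n) = 1 := by
    intro n
    rw [star_pow, ← mul_pow, hn, one_pow]
  let e := Fintype.equivFin (Fin k × Fin k)
  have hcard : Fintype.card (Fin k × Fin k) = k * k := by
    rw [Fintype.card_prod, Fintype.card_fin]
  refine ⟨Fintype.card (Fin k × Fin k), by rw [hcard]; exact Nat.mul_pos hk hk,
    fun s => H1_w k ζ (e.symm s).1 (e.symm s).2, ?_, ?_⟩
  · intro s
    set p := (e.symm s).1 with hp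
    set q := (e.symm s).2 with hq
    have h1 : H1_w k ζ p q * star (H1_w k ζ p q) = 1 := by
      ext i i'
      have h2 := H1_conj k ζ p q 1 i i'
      rw [mul_one] at h2
      rw [h2]
      by_cases h : i = i'
      · subst h
        rw [Matrix.one_apply_eq, Matrix.one_apply_eq, mul_one, hpn]
      · rw [Matrix.one_apply_ne h, Matrix.one_apply_ne (fun h3 => h (sub_left_injective h3)),
          mul_zero, zero_mul]
    exact ⟨h1, mul_eq_one_comm.1 h1⟩
  · intro Y
    have h1 : ∑ s : Fin (Fintype.card (Fin k × Fin k)),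
        H1_w k ζ (e.symm s).1 (e.symm s).2 * Y * star (H1_w k ζ (e.symm s).1 (e.symm s).2) =
        ∑ a : Fin k × Fin k, H1_w k ζ a.1 a.2 * Y * star (H1_w k ζ a.1 a.2) :=
      Equiv.sum_comp e.symm (fun a => H1_w k ζ a.1 a.2 * Y * star (H1_w k ζ a.1 a.2))
    have hkC : (k : ℂ) ≠ 0 := by exact_mod_cast hk.ne'
    rw [h1, Fintype.sum_prod_type, hcard]
    ext i i'
    rw [Matrix.smul_apply, Matrix.smul_apply, Matrix.sum_apply, ntr_apply, Fintype.card_fin]
    have h2 : ∀ p : Fin k, (∑ q : Fin k, H1_w k ζ p q * Y * star (H1_w k ζ p q)) i i' =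
        (if i = i' then (k : ℂ) else 0) * Y (i - p) (i' - p) := by
      intro p
      rw [Matrix.sum_apply, Finset.sum_congr rfl fun q _ => H1_conj k ζ p q Y i i']
      have h3 := H1_sum k hζ hn (i - p) (i' - p)
      have h4 : (i - p = i' - p) ↔ i = i' := sub_left_inj
      simp only [h4] at h3
      rw [← h3, Finset.sum_mul]
      apply Finset.sum_congr rfl
      intro q _
      ring
    rw [Finset.sum_congr rfl fun p _ => h2 p, ← Finset.mul_sum]
    by_cases h : i = i'
    · subst h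
      rw [if_pos rfl, Matrix.one_apply_eq]
      have h5 : ∑ p : Fin k, Y (i - p) (i - p) = Y.trace := by
        unfold Matrix.trace
        exact Equiv.sum_comp (Equiv.subLeft i) (fun j => Y j j)
      rw [h5, smul_eq_mul, smul_eq_mul, mul_one, Nat.cast_mul, mul_inv]
      field_simp
    · rw [if_neg h, Matrix.one_apply_ne h, zero_mul, smul_zero, smul_zero]

end Pool.Agent.QFP
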