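import Pool.Agent.QFP.B3

/-!
# [W1] Convergence of the moments of words gives asymptotic algebraic relations

`X α : S → D α` are maps of a ⋆-algebra `S` with linear functional `τ` into tracial C*-algebras such
that all ⋆-moments converge. Then sums, products and adjoints are asymptotically respected in
2-norm: for instance `n2 (X (a + b) - X a - X b)^2` is a linear combination of ⋆-moments of words
of length at most 2 in `X (a + b), X a, X b`, which converges to
`τ (star c * c)` with `c = (a + b) - a - b = 0`. A convenient common form: if `P` is a finite family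
of words with coefficients (`Q : List (ℂ × List (S × Bool))`), then
`t (sum of c • wordEval (X α) w)` tends to `τ (sum of c • wordEval id w)`; expand
`star z * z` as such a combination.
-/

set_option autoImplicit false

namespace Pool.Agent.QFP

open Filter Topology

variable {Λ : Type*} {ℱ : Filter Λ} {D : Λ → Type*} [∀ α, CStarAlgebra (D α)]
  {t : ∀ α, D α →ₗ[ℂ] ℂ} {S : Type*} [Ring S] [StarRing S] [Algebra ℂ S] [StarModule ℂ S]
  {τ : S →ₗ[ℂ] ℂ} {X : ∀ α, S → D α}

/-- the adjoint word -/
def W1_adj {κ : Type*} (w : List (κ × Bool)) : List (κ × Bool) :=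
  (w.map fun p => (p.1, !p.2)).reverse

theorem W1_nil {R κ : Type*} [Monoid R] [Star R] (x : κ → R) : wordEval x [] = 1 := rfl

theorem W1_cons {R κ : Type*} [Monoid R] [Star R] (x : κ → R) (p : κ × Bool)
    (w : List (κ × Bool)) :
    wordEval x (p :: w) = (if p.2 then star (x p.1) else x p.1) * wordEval x w := by
  unfold wordEval
  rw [List.map_cons, List.prod_cons]

theorem W1_append {R κ : Type*} [Monoid R] [Star R] (x : κ → R) (v w : List (κ × Bool)) :
    wordEval x (v ++ w) = wordEval x v * wordEval x w := by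
  unfold wordEval
  rw [List.map_append, List.prod_append]

theorem W1_star {R κ : Type*} [Monoid R] [StarMul R] (x : κ → R) (w : List (κ × Bool)) :
    wordEval x (W1_adj w) = star (wordEval x w) := by
  induction w with
  | nil =>
    show (1 : R) = star (1 : R)
    rw [star_one]
  | cons p w ih =>
    have h1 : W1_adj (p :: w) = W1_adj w ++ [(p.1, !p.2)] := by
      unfold W1_adj
      rw [List.map_cons, List.reverse_cons]
    rw [h1, W1_append, ih, W1_cons, W1_cons, W1_nil, mul_one, star_mul]
    congr 1
    cases p.2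
    · simp
    · simp

theorem W1_sq {R κ : Type*} [Ring R] [StarRing R] [Algebra ℂ R] [StarModule ℂ R]
    (x : κ → R) (t : R →ₗ[ℂ] ℂ) {n : ℕ} (c : Fin n → ℂ) (u : Fin n → List (κ × Bool)) :
    t (star (∑ i, c i • wordEval x (u i)) * ∑ i, c i • wordEval x (u i)) =
      ∑ i, ∑ j, star (c i) * (c j * t (wordEval x (W1_adj (u i) ++ u j))) := by
  rw [star_sum, Finset.sum_mul_sum, map_sum]
  apply Finset.sum_congr rfl
  intro i _
  rw [map_sum]
  apply Finset.sum_congr rfl
  intro j _
  rw [star_smul, smul_mul_assoc, mul_smul_comm, map_smul, map_smul, smul_eq_mul, smul_eq_mul,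
    W1_append, W1_star]

theorem W1_gen (hX : ∀ w : List (S × Bool),
    Tendsto (fun α => t α (wordEval (X α) w)) ℱ (𝓝 (τ (wordEval id w)))) {n : ℕ}
    (c : Fin n → ℂ) (u : Fin n → List (S × Bool))
    (h0 : ∑ i, c i • wordEval (id : S → S) (u i) = 0) :
    Tendsto (fun α => n2 (t α) (∑ i, c i • wordEval (X α) (u i))) ℱ (𝓝 0) := by
  have h1 : Tendsto (fun α => t α (star (∑ i, c i • wordEval (X α) (u i)) *
      ∑ i, c i • wordEval (X α) (u i))) ℱ (𝓝 0) := by
    have h2 : τ (star (∑ i, c i • wordEval (id : S → S) (u i)) *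
        ∑ i, c i • wordEval (id : S → S) (u i)) = 0 := by
      rw [h0, mul_zero, map_zero]
    rw [W1_sq] at h2
    rw [← h2]
    simp only [W1_sq]
    exact tendsto_finsetSum _ fun i _ => tendsto_finsetSum _ fun j _ =>
      ((hX _).const_mul _).const_mul _
  have h3 := (Complex.continuous_re.tendsto 0).comp h1
  have h4 := (Real.continuous_sqrt.tendsto (Complex.re 0)).comp h3
  rw [Complex.zero_re, Real.sqrt_zero] at h4
  exact h4

theorem words_tr (hX : ∀ w : List (S × Bool),
    Tendsto (fun α => t α (wordEval (X α) w)) ℱ (𝓝 (τ (wordEval id w)))) (a : S) :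
    Tendsto (fun α => t α (X α a)) ℱ (𝓝 (τ a)) := by
  have h := hX [(a, false)]
  simpa [wordEval] using h

theorem words_add (ht : ∀ α, TrAlg (t α)) (hX : ∀ w : List (S × Bool),
    Tendsto (fun α => t α (wordEval (X α) w)) ℱ (𝓝 (τ (wordEval id w)))) (a b c : S)
    (hc : c = a + b) :
    Tendsto (fun α => n2 (t α) (X α c - (X α a + X α b))) ℱ (𝓝 0) := by
  have h := W1_gen hX ![1, -1, -1] ![[(c, false)], [(a, false)], [(b, false)]] (by
    rw [Fin.sum_univ_three]
    simp [wordEval, hc])
  refine h.congr fun α => ?_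
  congr 1
  rw [Fin.sum_univ_three]
  simp [wordEval]
  abel

theorem words_mul (ht : ∀ α, TrAlg (t α)) (hX : ∀ w : List (S × Bool),
    Tendsto (fun α => t α (wordEval (X α) w)) ℱ (𝓝 (τ (wordEval id w)))) (a b : S) :
    Tendsto (fun α => n2 (t α) (X α (a * b) - X α a * X α b)) ℱ (𝓝 0) := by
  have h := W1_gen hX ![1, -1] ![[(a * b, false)], [(a, false), (b, false)]] (by
    rw [Fin.sum_univ_two]
    simp [wordEval])
  refine h.congr fun α => ?_
  congr 1
  rw [Fin.sum_univ_two]
  simp [wordEval, sub_eq_add_neg]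

theorem words_star (ht : ∀ α, TrAlg (t α)) (hX : ∀ w : List (S × Bool),
    Tendsto (fun α => t α (wordEval (X α) w)) ℱ (𝓝 (τ (wordEval id w)))) (a : S) :
    Tendsto (fun α => n2 (t α) (X α (star a) - star (X α a))) ℱ (𝓝 0) := by
  have h := W1_gen hX ![1, -1] ![[(star a, false)], [(a, true)]] (by
    rw [Fin.sum_univ_two]
    simp [wordEval])
  refine h.congr fun α => ?_
  congr 1
  rw [Fin.sum_univ_two]
  simp [wordEval, sub_eq_add_neg]

end Pool.Agent.QFP
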