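import Pool.Agent.QFP.K4
import Pool.Agent.QFP.W1
import Pool.Agent.QFP.S1
import Pool.Agent.QFP.T4
import Pool.Agent.QFP.H1

/-!
# [H2x] Models of graded algebras

Letters `S = Σ g : G, V g`, `mul (g, a) (h, b) = (g h, a b)`, `st (g, a) = (g⁻¹, a*)`,
`isB (g, a) = (g = 1)`, `isC (g, a) = (g ≠ 1)`, `R (g, a) = ‖a‖`, `T (g, a) = τ a`, `E = Alg M`,
`c j (g, a) = ι j a`. Index set `Λ = Finset (Alg A) × Finset G × ℕ` with `atTop`; for
`α = (F, F', m)` take microstates `X : Alg A → Matrix (Fin ν)` of `F` for `m` and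
`ε = 1 / (m + 1)` (`ConnesEmb A`), `ψ : G → Matrix (Fin k)` from `IsHyperlinear` for `F'` and
`1 / (m + 1)`, and `w : Fin N → Matrix (Fin k)` from `H1`;
`x α (g, a) s = X a ⊗ (w s * ψ g * star (w s))` (`Matrix.kroneckerMap`), `κ α = Fin ν × Fin k`.
* `‖x α (g, a) s‖ ≤ ‖X a‖ * 1` (`norm_kron_le`, unitaries have norm at most 1).
* `tpi (x α (g, a)) = ntr (X a) * ntr (ψ g)`: for `g = 1` it tends to `τ a`; for `g ≠ 1` it tends to
  `0 = τ a` (`Vtr`), as `‖ntr (X a)‖ ≤ ‖a‖`.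
* `xmul`: `X (ab) ⊗ wψ(gh)w* - X a X b ⊗ wψ(g)ψ(h)w* = (X (ab) - X a X b) ⊗ wψ(gh)w* +
  X a X b ⊗ w(ψ(gh) - ψ(g)ψ(h))w*`, whose 2-norm is at most
  `n2 (X (ab) - X a X b) + ‖a‖ ‖b‖ n2 (ψ(gh) - ψ(g)ψ(h))` (`words_mul`, `n2` of a Kronecker
  product is the product).
* `xst`: similarly `n2 (ψ g⁻¹ - star (ψ g)) = n2 (ψ g * ψ g⁻¹ - 1)`, small for `g, g⁻¹ ∈ F'`.
* `xB`: `ψ 1 = 1`, so `x α (1, a) s = X a ⊗ 1`.
* `xC`: the average is `X a ⊗ (ntr (ψ g) • 1)`.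
* `hdec`: `isB` or `isC`.
* `cfree`: for `a ∈ V g`, `g ≠ 1`, `Perp A B τ a`: for `b ∈ B`, `b ∈ V 1`, `a * b ∈ V (g * 1)`.
`tuple_model_any` gives models for the letters `(j, (g, a))`. Density: `density_of_generates` for the
`ι j a` in `M` and for the homogeneous elements in `A` (`Vgen`), and `density_trans`. Then
`connesEmb_of_model`.
-/

set_option autoImplicit false

namespace Pool.Agent.QFP

open Filter Topology
open scoped Matrix.Norms.L2Operator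

universe u v

theorem H2x_tendsto {α' β' : Type*} [DecidableEq α'] [DecidableEq β']
    (f : Finset α' × Finset β' × ℕ → ℝ) (F0 : Finset α') (G0 : Finset β') (N0 : ℕ) (C : ℝ)
    (h0 : ∀ α, 0 ≤ f α)
    (h : ∀ α : Finset α' × Finset β' × ℕ, F0 ⊆ α.1 → G0 ⊆ α.2.1 → N0 ≤ α.2.2 →
      f α ≤ C * (1 / ((α.2.2 : ℝ) + 1))) :
    Tendsto f atTop (𝓝 0) := by
  have hC : ∀ α : Finset α' × Finset β' × ℕ, C * (1 / ((α.2.2 : ℝ) + 1)) ≤
      (|C| + 1) * (1 / ((α.2.2 : ℝ) + 1)) := by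
    intro α
    have : C ≤ |C| + 1 := le_trans (le_abs_self C) (by linarith)
    exact mul_le_mul_of_nonneg_right this (by positivity)
  rw [Metric.tendsto_atTop]
  intro ε hε
  obtain ⟨N, hN⟩ := exists_nat_one_div_lt (show 0 < ε / (|C| + 1) by positivity)
  refine ⟨(F0, G0, max N0 N), fun α hα => ?_⟩
  have h1 : F0 ⊆ α.1 := hα.1
  have h1' : G0 ⊆ α.2.1 := hα.2.1
  have h2 : max N0 N ≤ α.2.2 := hα.2.2
  have h3 := le_trans (h α h1 h1' (le_trans (le_max_left _ _) h2)) (hC α)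
  rw [dist_zero_right, Real.norm_eq_abs, abs_of_nonneg (h0 α)]
  have h4 : (N : ℝ) ≤ α.2.2 := by exact_mod_cast le_trans (le_max_right _ _) h2
  have h5 : 1 / ((α.2.2 : ℝ) + 1) ≤ 1 / ((N : ℝ) + 1) := by gcongr
  have h6 : 1 / ((α.2.2 : ℝ) + 1) < ε / (|C| + 1) := lt_of_le_of_lt h5 hN
  rw [lt_div_iff₀ (by positivity)] at h6
  calc f α ≤ (|C| + 1) * (1 / ((α.2.2 : ℝ) + 1)) := h3
    _ = 1 / ((α.2.2 : ℝ) + 1) * (|C| + 1) := by ring
    _ < ε := h6

theorem H2x_norm {D : Type*} [CStarAlgebra D] (u : D) (h2 : star u * u = 1) : ‖u‖ ≤ 1 := by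
  have h : ‖u‖ * ‖u‖ = ‖(1 : D)‖ := by
    rw [← CStarRing.norm_star_mul_self, h2]
  have h3 : ‖(1 : D)‖ ≤ 1 := by
    by_cases hs : Subsingleton D
    · have : (1 : D) = 0 := Subsingleton.elim _ _
      rw [this, norm_zero]
      exact zero_le_one
    · have := not_subsingleton_iff_nontrivial.1 hs
      exact (CStarRing.norm_one).le
  nlinarith [norm_nonneg u]

section kron

set_option linter.unusedSectionVars false

variable {ι κ : Type} [Fintype ι] [DecidableEq ι] [Nonempty ι] [Fintype κ] [DecidableEq κ]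
  [Nonempty κ]

/-- Kronecker product -/
noncomputable def H2x_kr (a : Matrix ι ι ℂ) (b : Matrix κ κ ℂ) : Matrix (ι × κ) (ι × κ) ℂ :=
  Matrix.kroneckerMap (fun x y => x * y) a b

theorem H2x_kr_mul (a a' : Matrix ι ι ℂ) (b b' : Matrix κ κ ℂ) :
    H2x_kr a b * H2x_kr a' b' = H2x_kr (a * a') (b * b') := kron_mul a a' b b'

theorem H2x_kr_star (a : Matrix ι ι ℂ) (b : Matrix κ κ ℂ) :
    star (H2x_kr a b) = H2x_kr (star a) (star b) := kron_star a b

theorem H2x_kr_ntr (a : Matrix ι ι ℂ) (b : Matrix κ κ ℂ) :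
    ntr (H2x_kr a b) = ntr a * ntr b := ntr_kron a b

theorem H2x_kr_sub_left (a a' : Matrix ι ι ℂ) (b : Matrix κ κ ℂ) :
    H2x_kr (a - a') b = H2x_kr a b - H2x_kr a' b := by
  ext i j
  simp [H2x_kr, Matrix.kroneckerMap_apply, sub_mul]

theorem H2x_kr_sub_right (a : Matrix ι ι ℂ) (b b' : Matrix κ κ ℂ) :
    H2x_kr a (b - b') = H2x_kr a b - H2x_kr a b' := by
  ext i j
  simp [H2x_kr, Matrix.kroneckerMap_apply, mul_sub]

theorem H2x_kr_n2 (a : Matrix ι ι ℂ) (b : Matrix κ κ ℂ) :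
    n2 ntr (H2x_kr a b) = n2 ntr a * n2 ntr b := by
  have ha : TrAlg (ntr : Matrix ι ι ℂ →ₗ[ℂ] ℂ) := ntr_trAlg
  have hb : TrAlg (ntr : Matrix κ κ ℂ →ₗ[ℂ] ℂ) := ntr_trAlg
  have hab : TrAlg (ntr : Matrix (ι × κ) (ι × κ) ℂ →ₗ[ℂ] ℂ) := ntr_trAlg
  have h1 : n2 ntr (H2x_kr a b) ^ 2 = (n2 ntr a * n2 ntr b) ^ 2 := by
    rw [hab.n2_sq, H2x_kr_star, H2x_kr_mul, H2x_kr_ntr, ha.apply_sq, hb.apply_sq,
      ← Complex.ofReal_mul, Complex.ofReal_re]
    ring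
  exact (pow_left_inj₀ (n2_nonneg _ _) (mul_nonneg (n2_nonneg _ _) (n2_nonneg _ _))
    two_ne_zero).1 h1

theorem H2x_kr_norm (a : Matrix ι ι ℂ) (b : Matrix κ κ ℂ) : ‖H2x_kr a b‖ ≤ ‖a‖ * ‖b‖ :=
  norm_kron_le a b

theorem H2x_kr_sum {N : ℕ} (c : ℂ) (a : Matrix ι ι ℂ) (b : Fin N → Matrix κ κ ℂ) :
    c • ∑ s, H2x_kr a (b s) = H2x_kr a (c • ∑ s, b s) := by
  ext i j
  simp only [H2x_kr, Matrix.kroneckerMap_apply, Matrix.smul_apply, Matrix.sum_apply, smul_eq_mul,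
    Finset.mul_sum]
  refine Finset.sum_congr rfl fun s _ => ?_
  ring

end kron

theorem H2x_n2_conj {D : Type*} [CStarAlgebra D] {t : D →ₗ[ℂ] ℂ} (h : TrAlg t) (u y : D)
    (h2 : star u * u = 1) : n2 t (u * y * star u) ≤ n2 t y := by
  have hu := H2x_norm u h2
  calc n2 t (u * y * star u) ≤ n2 t (u * y) * ‖star u‖ := h.n2_mul_right _ _
    _ ≤ (‖u‖ * n2 t y) * ‖star u‖ :=
        mul_le_mul_of_nonneg_right (h.n2_mul_left _ _) (norm_nonneg _)
    _ ≤ (1 * n2 t y) * 1 := by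
        rw [norm_star]
        have := n2_nonneg t y
        gcongr
    _ = n2 t y := by ring

theorem H2x_tpi_le {n : ℕ} (hn : 0 < n) {ν : ℕ} (hν : 0 < ν)
    (z : Fin n → Matrix (Fin ν) (Fin ν) ℂ) (b : ℝ) (hb : 0 ≤ b) (h : ∀ s, n2 ntr (z s) ≤ b) :
    n2 (tpi n (Fin ν)) z ≤ b := by
  have : Nonempty (Fin ν) := ⟨⟨0, hν⟩⟩
  have hn' : (0 : ℝ) < n := by exact_mod_cast hn
  have h1 : TrAlg (ntr : Matrix (Fin ν) (Fin ν) ℂ →ₗ[ℂ] ℂ) := ntr_trAlg
  have h2 := tpi_trAlg n hn (Fin ν)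
  have h3 : n2 (tpi n (Fin ν)) z ^ 2 ≤ b ^ 2 := by
    rw [h2.n2_sq, tpi_apply]
    have e : ∀ s, ntr ((star z * z) s) = ((n2 ntr (z s) ^ 2 : ℝ) : ℂ) := by
      intro s
      exact h1.apply_sq (z s)
    rw [Finset.sum_congr rfl fun s _ => e s, ← Complex.ofReal_sum, ← Complex.ofReal_natCast,
      ← Complex.ofReal_inv, ← Complex.ofReal_mul, Complex.ofReal_re]
    have h4 : ∑ s, n2 ntr (z s) ^ 2 ≤ ∑ _s : Fin n, b ^ 2 :=
      Finset.sum_le_sum fun s _ => pow_le_pow_left₀ (n2_nonneg _ _) (h s) 2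
    rw [Finset.sum_const, Finset.card_univ, Fintype.card_fin, nsmul_eq_mul] at h4
    calc (n : ℝ)⁻¹ * ∑ s, n2 ntr (z s) ^ 2 ≤ (n : ℝ)⁻¹ * (n * b ^ 2) := by gcongr
      _ = b ^ 2 := by field_simp
  exact (pow_le_pow_iff_left₀ (n2_nonneg _ _) hb two_ne_zero).1 h3

/-- The models for homogeneous elements. -/
theorem graded_models {H : Type u} [NormedAddCommGroup H] [InnerProductSpace ℂ H]
    [CompleteSpace H] {A : VonNeumannAlgebra H} {τ : Alg A →ₗ[ℂ] ℂ} (hτ : IsTrace A τ)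
    (hA : ConnesEmb A τ) {G : Type v} [Group G] (hG : IsHyperlinear G)
    (V : G → Submodule ℂ (Alg A))
    (Vmul : ∀ g h a b, a ∈ V g → b ∈ V h → a * b ∈ V (g * h))
    (Vstar : ∀ g a, a ∈ V g → star a ∈ V g⁻¹)
    (Vtr : ∀ g a, g ≠ 1 → a ∈ V g → τ a = 0) :
    ∃ (Λ : Type (max u v)) (ℱ : Filter Λ) (_ : ℱ.NeBot) (n : Λ → ℕ) (_ : ∀ α, 0 < n α)
      (ν : Λ → ℕ) (_ : ∀ α, 0 < ν α)
      (x : ∀ α, (Σ g : G, V g) → Fin (n α) → Matrix (Fin (ν α)) (Fin (ν α)) ℂ),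
      (∀ α a s, ‖x α a s‖ ≤ ‖((a.2 : Alg A) : H →L[ℂ] H)‖) ∧
      (∀ (g h : G) (a : V g) (b : V h), Tendsto (fun α => n2 (tpi (n α) (Fin (ν α)))
        (x α ⟨g * h, ⟨a.1 * b.1, Vmul g h _ _ a.2 b.2⟩⟩ - x α ⟨g, a⟩ * x α ⟨h, b⟩)) ℱ (𝓝 0)) ∧
      (∀ (g : G) (a : V g), Tendsto (fun α => n2 (tpi (n α) (Fin (ν α)))
        (x α ⟨g⁻¹, ⟨star a.1, Vstar g _ a.2⟩⟩ - star (x α ⟨g, a⟩))) ℱ (𝓝 0)) ∧
      (∀ a, Tendsto (fun α => tpi (n α) (Fin (ν α)) (x α a)) ℱ (𝓝 (τ (a.2 : Alg A)))) ∧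
      (∀ a : Σ g : G, V g, a.1 = 1 → ∀ α s s', x α a s = x α a s') ∧
      ∀ a : Σ g : G, V g, a.1 ≠ 1 →
        Tendsto (fun α => n2 ntr ((n α : ℂ)⁻¹ • ∑ s, x α a s)) ℱ (𝓝 0) := by
  classical
  have hA' := fun α : Finset (Alg A) × Finset G × ℕ =>
    hA α.1 α.2.2 (1 / ((α.2.2 : ℝ) + 1)) (by positivity)
  choose ν hν X hX1 hX2 using hA'
  have hG' := fun α : Finset (Alg A) × Finset G × ℕ =>
    hG α.2.1 (1 / ((α.2.2 : ℝ) + 1)) (by positivity)
  choose k hk ψ hψu hψ1 hψm hψt using hG'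
  choose N hN w hwu hwa using fun α : Finset (Alg A) × Finset G × ℕ =>
    exists_avg_unitaries (k α) (hk α)
  have i1 : ∀ α, Nonempty (Fin (ν α)) := fun α => ⟨⟨0, hν α⟩⟩
  have i2 : ∀ α, Nonempty (Fin (k α)) := fun α => ⟨⟨0, hk α⟩⟩
  choose ν' hν' Ψ hΨ using fun α : Finset (Alg A) × Finset G × ℕ =>
    exists_fin (Fin (ν α) × Fin (k α))
  have i3 : ∀ α, Nonempty (Fin (ν' α)) := fun α => ⟨⟨0, hν' α⟩⟩
  have tX : ∀ α, TrAlg (ntr : Matrix (Fin (ν α)) (Fin (ν α)) ℂ →ₗ[ℂ] ℂ) := fun α => ntr_trAlg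
  have tk : ∀ α, TrAlg (ntr : Matrix (Fin (k α)) (Fin (k α)) ℂ →ₗ[ℂ] ℂ) := fun α => ntr_trAlg
  have tp : ∀ α, TrAlg (ntr : Matrix (Fin (ν α) × Fin (k α)) (Fin (ν α) × Fin (k α)) ℂ →ₗ[ℂ] ℂ) :=
    fun α => ntr_trAlg
  have hn2Ψ : ∀ α y, n2 ntr (Ψ α y) = n2 ntr y := by
    intro α y
    unfold n2
    rw [← map_star, ← map_mul, hΨ]
  -- words in X
  have hwords : ∀ w : List (Alg A × Bool),
      Tendsto (fun α => ntr (wordEval (X α) w)) atTop (𝓝 (τ (wordEval id w))) := by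
    intro w
    rw [tendsto_iff_norm_sub_tendsto_zero]
    refine H2x_tendsto _ (w.map Prod.fst).toFinset ∅ w.length 1 (fun α => norm_nonneg _) ?_
    intro α h1 _ h2
    rw [one_mul]
    refine (hX2 α w ?_ h2).le
    intro p hp
    exact h1 (List.mem_toFinset.2 (List.mem_map.2 ⟨p, hp, rfl⟩))
  -- the twisted group elements
  let u : ∀ α, G → Fin (N α) → Matrix (Fin (k α)) (Fin (k α)) ℂ :=
    fun α g s => w α s * ψ α g * star (w α s)
  have hu_mul : ∀ α g h s, u α g s * u α h s = w α s * (ψ α g * ψ α h) * star (w α s) := by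
    intro α g h s
    calc w α s * ψ α g * star (w α s) * (w α s * ψ α h * star (w α s))
        = w α s * ψ α g * (star (w α s) * w α s) * ψ α h * star (w α s) := by
          simp only [mul_assoc]
      _ = w α s * (ψ α g * ψ α h) * star (w α s) := by
          rw [(hwu α s).2, mul_one]
          simp only [mul_assoc]
  have hu_star : ∀ α g s, star (u α g s) = w α s * star (ψ α g) * star (w α s) := by
    intro α g s
    change star (w α s * ψ α g * star (w α s)) = _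
    simp only [star_mul, star_star, mul_assoc]
  have hu_norm : ∀ α g s, ‖u α g s‖ ≤ 1 := by
    intro α g s
    have e : star (u α g s) * u α g s = 1 := by
      rw [hu_star]
      calc w α s * star (ψ α g) * star (w α s) * (w α s * ψ α g * star (w α s))
          = w α s * star (ψ α g) * (star (w α s) * w α s) * ψ α g * star (w α s) := by
            simp only [mul_assoc]
        _ = w α s * (star (ψ α g) * ψ α g) * star (w α s) := by
            rw [(hwu α s).2, mul_one]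
            simp only [mul_assoc]
        _ = 1 := by rw [(hψu α g).2, mul_one, (hwu α s).1]
    exact H2x_norm _ e
  have hu_n2 : ∀ α g s, n2 ntr (u α g s) ≤ 1 := fun α g s =>
    le_trans ((tk α).n2_le_norm _) (hu_norm α g s)
  have hu_one : ∀ α s, u α 1 s = 1 := by
    intro α s
    change w α s * ψ α 1 * star (w α s) = 1
    rw [hψ1, mul_one, (hwu α s).1]
  have hu_tr : ∀ α g s, ntr (u α g s) = ntr (ψ α g) := by
    intro α g s
    change ntr (w α s * ψ α g * star (w α s)) = _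
    rw [(tk α).comm, ← mul_assoc, (hwu α s).2, one_mul]
  let x : ∀ α, (Σ g : G, V g) → Fin (N α) → Matrix (Fin (ν' α)) (Fin (ν' α)) ℂ :=
    fun α a s => Ψ α (H2x_kr (X α (a.2 : Alg A)) (u α a.1 s))
  have hXn : ∀ α a, ‖X α a‖ ≤ ‖a‖ := hX1
  refine ⟨Finset (Alg A) × Finset G × ℕ, atTop, inferInstance, N, hN, ν', hν', x,
    ?_, ?_, ?_, ?_, ?_, ?_⟩
  · intro α a s
    refine le_trans (NonUnitalStarAlgHom.norm_apply_le (Ψ α) _) ?_
    refine le_trans (H2x_kr_norm _ _) ?_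
    have h1 := hX1 α (a.2 : Alg A)
    have h2 := hu_norm α a.1 s
    calc ‖X α (a.2 : Alg A)‖ * ‖u α a.1 s‖ ≤ ‖((a.2 : Alg A) : H →L[ℂ] H)‖ * 1 :=
          mul_le_mul h1 h2 (norm_nonneg _) (norm_nonneg _)
      _ = _ := mul_one _
  · intro g h a b
    have hlim : Tendsto (fun α => n2 ntr (X α (a.1 * b.1) - X α a.1 * X α b.1) +
        ‖(a.1 : Alg A)‖ * ‖(b.1 : Alg A)‖ * n2 ntr (ψ α g * ψ α h - ψ α (g * h))) atTop (𝓝 0) := by
      have l1 := words_mul tX hwords a.1 b.1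
      have l2 : Tendsto (fun α => n2 ntr (ψ α g * ψ α h - ψ α (g * h))) atTop (𝓝 0) := by
        refine H2x_tendsto _ ∅ {g, h} 0 1 (fun α => n2_nonneg _ _) ?_
        intro α _ h1 _
        rw [one_mul]
        exact (hψm α g (h1 (by simp)) h (h1 (by simp))).le
      simpa using l1.add (l2.const_mul (‖(a.1 : Alg A)‖ * ‖(b.1 : Alg A)‖))
    refine squeeze_zero (fun α => n2_nonneg _ _) (fun α => ?_) hlim
    refine H2x_tpi_le (hN α) (hν' α) _ _ (add_nonneg (n2_nonneg _ _)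
      (mul_nonneg (mul_nonneg (norm_nonneg _) (norm_nonneg _)) (n2_nonneg _ _))) fun s => ?_
    change n2 ntr (Ψ α (H2x_kr (X α (a.1 * b.1)) (u α (g * h) s)) -
      Ψ α (H2x_kr (X α a.1) (u α g s)) * Ψ α (H2x_kr (X α b.1) (u α h s))) ≤ _
    rw [← map_mul, ← map_sub, hn2Ψ, H2x_kr_mul]
    refine le_trans ((tp α).n2_sub_le _ (H2x_kr (X α a.1 * X α b.1) (u α (g * h) s)) _) ?_
    refine add_le_add ?_ ?_
    · rw [← H2x_kr_sub_left, H2x_kr_n2]
      calc _ ≤ n2 ntr (X α (a.1 * b.1) - X α a.1 * X α b.1) * 1 :=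
            mul_le_mul_of_nonneg_left (hu_n2 α _ s) (n2_nonneg _ _)
        _ = _ := mul_one _
    · rw [← H2x_kr_sub_right, H2x_kr_n2]
      refine mul_le_mul ?_ ?_ (n2_nonneg _ _) (mul_nonneg (norm_nonneg _) (norm_nonneg _))
      · refine le_trans ((tX α).n2_le_norm _) (le_trans (norm_mul_le _ _) ?_)
        exact mul_le_mul (hXn α _) (hXn α _) (norm_nonneg _) (norm_nonneg _)
      · rw [hu_mul, (tk α).n2_sub_comm]
        have e : w α s * (ψ α g * ψ α h) * star (w α s) - u α (g * h) s =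
            w α s * (ψ α g * ψ α h - ψ α (g * h)) * star (w α s) := by
          change w α s * (ψ α g * ψ α h) * star (w α s) - w α s * ψ α (g * h) * star (w α s) = _
          rw [mul_sub, sub_mul]
        rw [e]
        exact H2x_n2_conj (tk α) _ _ (hwu α s).2
  · intro g a
    have hlim : Tendsto (fun α => n2 ntr (X α (star a.1) - star (X α a.1)) +
        ‖(a.1 : Alg A)‖ * n2 ntr (ψ α g * ψ α g⁻¹ - ψ α (g * g⁻¹))) atTop (𝓝 0) := by
      have l1 := words_star tX hwords a.1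
      have l2 : Tendsto (fun α => n2 ntr (ψ α g * ψ α g⁻¹ - ψ α (g * g⁻¹))) atTop (𝓝 0) := by
        refine H2x_tendsto _ ∅ {g, g⁻¹} 0 1 (fun α => n2_nonneg _ _) ?_
        intro α _ h1 _
        rw [one_mul]
        exact (hψm α g (h1 (by simp)) g⁻¹ (h1 (by simp))).le
      simpa using l1.add (l2.const_mul (‖(a.1 : Alg A)‖))
    refine squeeze_zero (fun α => n2_nonneg _ _) (fun α => ?_) hlim
    refine H2x_tpi_le (hN α) (hν' α) _ _ (add_nonneg (n2_nonneg _ _)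
      (mul_nonneg (norm_nonneg _) (n2_nonneg _ _))) fun s => ?_
    change n2 ntr (Ψ α (H2x_kr (X α (star a.1)) (u α g⁻¹ s)) -
      star (Ψ α (H2x_kr (X α a.1) (u α g s)))) ≤ _
    rw [← map_star, ← map_sub, hn2Ψ, H2x_kr_star]
    refine le_trans ((tp α).n2_sub_le _ (H2x_kr (star (X α a.1)) (u α g⁻¹ s)) _) ?_
    refine add_le_add ?_ ?_
    · rw [← H2x_kr_sub_left, H2x_kr_n2]
      calc _ ≤ n2 ntr (X α (star a.1) - star (X α a.1)) * 1 :=
            mul_le_mul_of_nonneg_left (hu_n2 α _ s) (n2_nonneg _ _)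
        _ = _ := mul_one _
    · rw [← H2x_kr_sub_right, H2x_kr_n2]
      refine mul_le_mul ?_ ?_ (n2_nonneg _ _) (norm_nonneg _)
      · refine le_trans ((tX α).n2_le_norm _) ?_
        rw [norm_star]
        exact hXn α _
      · rw [hu_star]
        have e : u α g⁻¹ s - w α s * star (ψ α g) * star (w α s) =
            w α s * (star (ψ α g) * (ψ α g * ψ α g⁻¹ - ψ α (g * g⁻¹))) * star (w α s) := by
          have e0 : star (ψ α g) * (ψ α g * ψ α g⁻¹ - ψ α (g * g⁻¹)) =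
              ψ α g⁻¹ - star (ψ α g) := by
            rw [mul_inv_cancel, hψ1, mul_sub, ← mul_assoc, (hψu α g).2, one_mul, mul_one]
          change w α s * ψ α g⁻¹ * star (w α s) - w α s * star (ψ α g) * star (w α s) = _
          rw [e0, mul_sub, sub_mul]
        rw [e]
        refine le_trans (H2x_n2_conj (tk α) _ _ (hwu α s).2) ?_
        refine le_trans ((tk α).n2_mul_left _ _) ?_
        have h1 : ‖star (ψ α g)‖ ≤ 1 := by
          rw [norm_star]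
          exact H2x_norm _ (hψu α g).2
        calc _ ≤ 1 * n2 ntr (ψ α g * ψ α g⁻¹ - ψ α (g * g⁻¹)) :=
              mul_le_mul_of_nonneg_right h1 (n2_nonneg _ _)
          _ = _ := one_mul _
  · intro a
    have e : ∀ α, tpi (N α) (Fin (ν' α)) (x α a) = ntr (X α (a.2 : Alg A)) * ntr (ψ α a.1) := by
      intro α
      rw [tpi_apply]
      have e1 : ∀ s, ntr (x α a s) = ntr (X α (a.2 : Alg A)) * ntr (ψ α a.1) := by
        intro s
        change ntr (Ψ α (H2x_kr (X α (a.2 : Alg A)) (u α a.1 s))) = _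
        rw [hΨ, H2x_kr_ntr, hu_tr]
      have hn' : (N α : ℂ) ≠ 0 := by exact_mod_cast (hN α).ne'
      rw [Finset.sum_congr rfl fun s _ => e1 s, Finset.sum_const, Finset.card_univ,
        Fintype.card_fin, nsmul_eq_mul, inv_mul_cancel_left₀ hn']
    simp only [e]
    by_cases ha : a.1 = 1
    · have e2 : ∀ α, ntr (ψ α a.1) = 1 := by
        intro α
        rw [ha, hψ1]
        exact (tk α).one
      simp only [e2, mul_one]
      exact words_tr hwords (a.2 : Alg A)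
    · rw [Vtr a.1 a.2 ha a.2.2]
      rw [tendsto_zero_iff_norm_tendsto_zero]
      refine H2x_tendsto _ ∅ {a.1} 0 ‖(a.2 : Alg A)‖ (fun α => norm_nonneg _) ?_
      intro α _ h1 _
      rw [norm_mul]
      refine mul_le_mul ?_ (hψt α a.1 (h1 (by simp)) ha).le (norm_nonneg _) (norm_nonneg _)
      exact le_trans ((tX α).norm_le _) (hXn α _)
  · intro a ha α s s'
    change Ψ α (H2x_kr (X α (a.2 : Alg A)) (u α a.1 s)) =
      Ψ α (H2x_kr (X α (a.2 : Alg A)) (u α a.1 s'))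
    have h1 : ∀ s, u α a.1 s = 1 := fun s => by
      rw [ha]
      exact hu_one α s
    rw [h1, h1]
  · intro a ha
    refine H2x_tendsto _ ∅ {a.1} 0 ‖(a.2 : Alg A)‖ (fun α => n2_nonneg _ _) ?_
    intro α _ h1 _
    have e : ((N α : ℂ)⁻¹ • ∑ s, x α a s) =
        Ψ α (H2x_kr (X α (a.2 : Alg A)) (ntr (ψ α a.1) • 1)) := by
      rw [← hwa α (ψ α a.1), ← H2x_kr_sum, map_smul, map_sum]
    rw [e, hn2Ψ, H2x_kr_n2, (tk α).n2_smul]
    refine mul_le_mul (le_trans ((tX α).n2_le_norm _) (hXn α _)) ?_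
      (mul_nonneg (norm_nonneg _) (n2_nonneg _ _)) (norm_nonneg _)
    have h2 : n2 ntr (1 : Matrix (Fin (k α)) (Fin (k α)) ℂ) ≤ 1 := by
      refine le_trans ((tk α).n2_le_norm _) ?_
      exact H2x_norm _ (by rw [star_one, one_mul])
    calc ‖ntr (ψ α a.1)‖ * n2 ntr (1 : Matrix (Fin (k α)) (Fin (k α)) ℂ)
        ≤ ‖ntr (ψ α a.1)‖ * 1 := mul_le_mul_of_nonneg_left h2 (norm_nonneg _)
      _ = ‖ntr (ψ α a.1)‖ := mul_one _
      _ ≤ _ := (hψt α a.1 (h1 (by simp)) ha).le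

end Pool.Agent.QFP
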