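import Pool.Agent.QFP.K4
import Pool.Agent.QFP.W1
import Pool.Agent.QFP.S1
import Pool.Agent.QFP.T4
import Pool.Agent.QFP.L5

/-!
# [A1] Inner averaging implies that the free powers are Connes embeddable

Proof. Letters `S = Alg A`, `mul = (· * ·)`, `st = star`, `isB b = (b ∈ B)`, `isC = Perp A B τ`,
`R a = ‖a‖`, `T = τ`, `E = Alg M`, `c j a = ι j a`. Index set `Λ = Finset (Alg A) × ℕ` with the
filter `atTop` (`Finset (Alg A) × ℕ` is directed, nonempty); for `α = (F, m)` take the data of
`InnerAveraging` for `F`, `m`, `ε = 1 / (m + 1)`, and `x α a s = v s * X a * star (v s)`,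
`κ α = Fin ν`.
* words: `wordEval (x α) w s = v s * wordEval X w * star (v s)` (`wordEval_pi`, and conjugation by a
  unitary is a ⋆-homomorphism), so `tpi (wordEval (x α) w) = ntr (wordEval X w)` tends to
  `τ (wordEval id w)`. So `W1` (for `D α = Fin (n α) → Matrix ..`, `t α = tpi ..`, `tpi_trAlg`)
  gives `xtr`, `xmul`, `xst`, and the limit in `hdec`.
* `xB`: for `b ∈ B` and `b ∈ F`, `v s * X b * star (v s) = X b`.
* `xC`: directly from `InnerAveraging`.
* `hdec`: `exists_condexp` (`L5`): `a = (a - b) + b`.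
Then `tuple_model_any` gives the hypothesis `H` of `connesEmb_of_model` (`T4`) for
`κ = J × Alg A`, and `density_of_generates` (`S1`) gives `hd`.
-/

set_option autoImplicit false

namespace Pool.Agent.QFP

open Filter Topology
open scoped Matrix.Norms.L2Operator

universe u v w

theorem A1_conj {D κ : Type*} [CStarAlgebra D] (u : D) (h1 : u * star u = 1)
    (h2 : star u * u = 1) (X : κ → D) (w : List (κ × Bool)) :
    wordEval (fun a => u * X a * star u) w = u * wordEval X w * star u := by
  induction w with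
  | nil => simp [wordEval, h1]
  | cons p w ih =>
    have e : ∀ Y : κ → D, wordEval Y (p :: w) =
        (if p.2 then star (Y p.1) else Y p.1) * wordEval Y w := by
      intro Y
      simp [wordEval]
    rw [e, e, ih]
    have e2 : (if p.2 then star (u * X p.1 * star u) else u * X p.1 * star u) =
        u * (if p.2 then star (X p.1) else X p.1) * star u := by
      by_cases hp : p.2
      · simp [hp, mul_assoc]
      · simp [hp]
    rw [e2]
    calc u * (if p.2 then star (X p.1) else X p.1) * star u * (u * wordEval X w * star u)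
        = u * (if p.2 then star (X p.1) else X p.1) * (star u * u) * wordEval X w * star u := by
          simp only [mul_assoc]
      _ = u * ((if p.2 then star (X p.1) else X p.1) * wordEval X w) * star u := by
          rw [h2]
          simp only [mul_assoc, one_mul]

theorem A1_norm {D : Type*} [CStarAlgebra D] (u : D) (h2 : star u * u = 1) : ‖u‖ ≤ 1 := by
  have h : ‖u‖ * ‖u‖ = ‖(1 : D)‖ := by
    rw [← CStarRing.norm_star_mul_self, h2]
  have h3 : ‖(1 : D)‖ ≤ 1 := by
    by_cases hs : Subsingleton D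
    · have : (1 : D) = 0 := Subsingleton.elim _ _
      rw [this, norm_zero]
      exact zero_le_one
    · have := not_subsingleton_iff_nontrivial.1 hs
      exact (CStarRing.norm_one).le
  nlinarith [norm_nonneg u]

theorem A1_conj_norm {D : Type*} [CStarAlgebra D] (u : D) (h2 : star u * u = 1) (y : D) :
    ‖u * y * star u‖ ≤ ‖y‖ := by
  have h := A1_norm u h2
  calc ‖u * y * star u‖ ≤ ‖u‖ * ‖y‖ * ‖star u‖ :=
        le_trans (norm_mul_le _ _) (mul_le_mul_of_nonneg_right (norm_mul_le _ _) (norm_nonneg _))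
    _ ≤ 1 * ‖y‖ * 1 := by
        rw [norm_star]
        gcongr
    _ = ‖y‖ := by ring

theorem A1_tendsto {α' : Type*} [DecidableEq α'] (f : Finset α' × ℕ → ℝ)
    (F0 : Finset α') (N0 : ℕ) (h0 : ∀ α, 0 ≤ f α)
    (h : ∀ α : Finset α' × ℕ, F0 ⊆ α.1 → N0 ≤ α.2 → f α ≤ 1 / ((α.2 : ℝ) + 1)) :
    Tendsto f atTop (𝓝 0) := by
  rw [Metric.tendsto_atTop]
  intro ε hε
  obtain ⟨N, hN⟩ := exists_nat_one_div_lt hε
  refine ⟨(F0, max N0 N), fun α hα => ?_⟩
  have h1 : F0 ⊆ α.1 := hα.1
  have h2 : max N0 N ≤ α.2 := hα.2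
  have h3 := h α h1 (le_trans (le_max_left _ _) h2)
  rw [dist_zero_right, Real.norm_eq_abs, abs_of_nonneg (h0 α)]
  refine lt_of_le_of_lt h3 (lt_of_le_of_lt ?_ hN)
  have h4 : (N : ℝ) ≤ α.2 := by exact_mod_cast le_trans (le_max_right _ _) h2
  gcongr

theorem connesEmb_of_innerAveraging {H : Type u} [NormedAddCommGroup H] [InnerProductSpace ℂ H]
    [CompleteSpace H] {A B : VonNeumannAlgebra H} (hBA : ∀ x : H →L[ℂ] H, x ∈ B → x ∈ A)
    {τ : Alg A →ₗ[ℂ] ℂ} (hτ : IsTrace A τ) (hI : InnerAveraging A B τ)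
    {K : Type v} [NormedAddCommGroup K] [InnerProductSpace ℂ K] [CompleteSpace K]
    {M : VonNeumannAlgebra K} {φ : Alg M →ₗ[ℂ] ℂ} (hφ : IsTrace M φ)
    {J : Type w} {ι : J → Alg A →⋆ₐ[ℂ] Alg M} (hι : IsFreePower A B τ M φ ι) :
    ConnesEmb M φ := by
  classical
  have hI' := fun α : Finset (Alg A) × ℕ => hI α.1 α.2 (1 / ((α.2 : ℝ) + 1)) (by positivity)
  choose ν hν X n hn v hX1 hX2 hv hvB hvC using hI'
  haveI : ∀ α, Nonempty (Fin (ν α)) := fun α => ⟨⟨0, hν α⟩⟩
  let x : ∀ α, Alg A → Fin (n α) → Matrix (Fin (ν α)) (Fin (ν α)) ℂ :=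
    fun α a s => v α s * X α a * star (v α s)
  have htp : ∀ α, TrAlg (tpi (n α) (Fin (ν α))) := fun α => tpi_trAlg (n α) (hn α) _
  have htr : ∀ α, TrAlg (ntr : Matrix (Fin (ν α)) (Fin (ν α)) ℂ →ₗ[ℂ] ℂ) := fun α => ntr_trAlg
  have hword : ∀ α w, tpi (n α) (Fin (ν α)) (wordEval (x α) w) = ntr (wordEval (X α) w) := by
    intro α w
    rw [tpi_apply]
    have e : ∀ s, ntr (wordEval (x α) w s) = ntr (wordEval (X α) w) := by
      intro s
      rw [wordEval_pi]
      have := A1_conj (v α s) (hv α s).1 (hv α s).2 (X α) w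
      change ntr (wordEval (fun a => v α s * X α a * star (v α s)) w) = _
      rw [this, (htr α).comm, ← mul_assoc, (hv α s).2, one_mul]
    have hn' : (n α : ℂ) ≠ 0 := by exact_mod_cast (hn α).ne'
    rw [Finset.sum_congr rfl fun s _ => e s, Finset.sum_const, Finset.card_univ, Fintype.card_fin,
      nsmul_eq_mul, inv_mul_cancel_left₀ hn']
  have hwords : ∀ w : List (Alg A × Bool),
      Tendsto (fun α => tpi (n α) (Fin (ν α)) (wordEval (x α) w)) atTop
        (𝓝 (τ (wordEval id w))) := by
    intro w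
    rw [tendsto_iff_norm_sub_tendsto_zero]
    refine A1_tendsto _ (w.map Prod.fst).toFinset w.length (fun α => norm_nonneg _) ?_
    intro α h1 h2
    rw [hword]
    refine (hX2 α w ?_ h2).le
    intro p hp
    exact h1 (List.mem_toFinset.2 (List.mem_map.2 ⟨p, hp, rfl⟩))
  have H := tuple_model_any (S := Alg A) (J := J) (fun a b => a * b) star
    (fun b => (b : H →L[ℂ] H) ∈ B) (Perp A B τ) (fun a => ‖a‖) τ φ hφ.trAlg (fun j a => ι j a)
    (fun j a b => map_mul _ _ _) (fun j a => map_star _ _) (fun i j b hb => hι.agree i j b hb)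
    hι.trace_eq hι.free (atTop : Filter (Finset (Alg A) × ℕ)) n hn (fun α => Fin (ν α)) x
    (fun α a s => le_trans (A1_conj_norm _ (hv α s).2 _) (hX1 α a))
    (fun a b => words_mul htp hwords a b)
    (fun a => words_star htp hwords a)
    (fun a => words_tr hwords a)
    (by
      intro b hb
      filter_upwards [eventually_ge_atTop (({b} : Finset (Alg A)), 0)] with α hα s s'
      have hbα : b ∈ α.1 := hα.1 (Finset.mem_singleton_self b)
      have e : ∀ s, x α b s = X α b := by
        intro s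
        change v α s * X α b * star (v α s) = X α b
        rw [hvB α s b hbα hb, mul_assoc, (hv α s).1, mul_one]
      rw [e, e])
    (by
      intro a ha
      refine A1_tendsto _ {a} 0 (fun α => n2_nonneg _ _) ?_
      intro α h1 _
      exact (hvC α a (h1 (Finset.mem_singleton_self a)) ha).le)
    (by
      intro a
      obtain ⟨b, hb, hp⟩ := exists_condexp hBA hτ a
      refine Or.inr (Or.inr ⟨a - b, b, hp, hb, fun j => ?_, ?_⟩)
      · rw [← map_add, sub_add_cancel]
      · exact words_add htp hwords (a - b) b a (by rw [sub_add_cancel]))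
  refine connesEmb_of_model hφ (κ := J × Alg A) (fun p => ι p.1 p.2) (fun p => ‖p.2‖)
    (fun p => NonUnitalStarAlgHom.norm_apply_le (ι p.1) p.2) ?_ H
  intro y δ hδ
  refine density_of_generates hφ (fun p : J × Alg A => ι p.1 p.2) ?_ y δ hδ
  have e : {x : K →L[ℂ] K | ∃ k : J × Alg A, x = ((ι k.1 k.2 : Alg M) : K →L[ℂ] K)} =
      {x | ∃ j a, x = ((ι j a : Alg M) : K →L[ℂ] K)} := by
    ext z
    constructor
    · rintro ⟨k, hk⟩
      exact ⟨k.1, k.2, hk⟩
    · rintro ⟨j, a, h⟩
      exact ⟨(j, a), h⟩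
  rw [e, ← hι.generates]

end Pool.Agent.QFP
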