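import Pool.Agent.QFP.A2
import Pool.Agent.QFP.L5

/-!
# [A3] Converse: Connes embeddability of an infinite free power gives inner averaging

Apply `innerAveraging_of_homs` with `P = M`, `π s = ι (e s)` for `e : Fin n → J` injective
(`Infinite.natEmbedding`). For `Perp a` also `Perp (star a)`, so by freeness
`φ (star (ι i a) * ι j a) = φ (ι i (star a) * ι j a) = 0` for `i ≠ j`, and
`n2 φ (n⁻¹ ∑ s, π s a) ^ 2 = n⁻² ∑ s, n2 τ a ^ 2 = n⁻¹ n2 τ a ^ 2`, small for large `n`, uniformly for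
`a ∈ F`.
-/

set_option autoImplicit false

namespace Pool.Agent.QFP

theorem innerAveraging_of_connesEmb {H : Type*} [NormedAddCommGroup H] [InnerProductSpace ℂ H]
    [CompleteSpace H] {A B : VonNeumannAlgebra H} {τ : Alg A →ₗ[ℂ] ℂ} (hτ : IsTrace A τ)
    {K : Type*} [NormedAddCommGroup K] [InnerProductSpace ℂ K] [CompleteSpace K]
    {M : VonNeumannAlgebra K} {φ : Alg M →ₗ[ℂ] ℂ} (hφ : IsTrace M φ)
    {J : Type*} [Infinite J] {ι : J → Alg A →⋆ₐ[ℂ] Alg M} (hι : IsFreePower A B τ M φ ι)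
    (hM : ConnesEmb M φ) : InnerAveraging A B τ := by
  classical
  have hAtr := hτ.trAlg
  have hMtr := hφ.trAlg
  refine innerAveraging_of_homs hτ hφ hM ?_
  intro F ε hε
  -- a bound for the 2-norms
  obtain ⟨C, hC0, hC⟩ : ∃ C : ℝ, 0 ≤ C ∧ ∀ a ∈ F, n2 τ a ^ 2 ≤ C := by
    refine ⟨∑ a ∈ F, n2 τ a ^ 2, Finset.sum_nonneg fun a _ => by positivity, fun a ha => ?_⟩
    exact Finset.single_le_sum (f := fun a => n2 τ a ^ 2) (fun a _ => by positivity) ha
  obtain ⟨N, hN⟩ := exists_nat_gt (C / ε ^ 2)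
  have hn : 0 < N + 1 := Nat.succ_pos N
  let e : Fin (N + 1) → J := fun s => Infinite.natEmbedding J s.1
  have he : Function.Injective e := fun s s' h => Fin.ext ((Infinite.natEmbedding J).injective h)
  refine ⟨N + 1, hn, fun s => ι (e s), fun s a => hι.trace_eq (e s) a,
    fun s s' b hb => hι.agree _ _ b hb, ?_⟩
  intro a haF haP
  have h1 : n2 φ (((N + 1 : ℕ) : ℂ)⁻¹ • ∑ s, ι (e s) a) ^ 2 =
      (((N + 1 : ℕ) : ℂ)⁻¹ * ∑ s : Fin (N + 1), ((N + 1 : ℕ) : ℂ)⁻¹ * ∑ s',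
        φ (star (ι (e s) a) * ι (e s') a)).re := by
    rw [hMtr.n2_sq, A2y_expand]
  have h2 : ∀ s : Fin (N + 1), ∑ s', φ (star (ι (e s) a) * ι (e s') a) = τ (star a * a) := by
    intro s
    rw [Finset.sum_eq_single s]
    · rw [← map_star, ← map_mul, hι.trace_eq]
    · intro s' _ hs'
      have h3 := hι.free [(e s, star a), (e s', a)] (by simp)
        (by
          refine List.IsChain.cons_cons ?_ (List.IsChain.singleton _)
          exact fun h => hs' (he h).symm)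
        (by
          intro p hp
          simp only [List.mem_cons, List.not_mem_nil, or_false] at hp
          rcases hp with rfl | rfl
          · exact Perp.star hτ haP
          · exact haP)
      rw [← map_star]
      simpa using h3
    · intro h
      exact absurd (Finset.mem_univ s) h
  have hN0 : (((N + 1 : ℕ) : ℂ)) ≠ 0 := by exact_mod_cast hn.ne'
  have hN1 : (0 : ℝ) < ((N + 1 : ℕ) : ℝ) := by exact_mod_cast hn
  have h4 : n2 φ (((N + 1 : ℕ) : ℂ)⁻¹ • ∑ s, ι (e s) a) ^ 2 = n2 τ a ^ 2 / ((N + 1 : ℕ) : ℝ) := by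
    rw [h1]
    simp only [h2]
    rw [Finset.sum_const, Finset.card_univ, Fintype.card_fin, nsmul_eq_mul, mul_inv_cancel_left₀ hN0,
      hAtr.apply_sq, ← Complex.ofReal_natCast, ← Complex.ofReal_inv, ← Complex.ofReal_mul,
      Complex.ofReal_re]
    field_simp
  have h5 : n2 φ (((N + 1 : ℕ) : ℂ)⁻¹ • ∑ s, ι (e s) a) ^ 2 < ε ^ 2 := by
    rw [h4, div_lt_iff₀ hN1]
    have h6 := hC a haF
    have h7 : C < ε ^ 2 * N := by
      rw [div_lt_iff₀ (by positivity)] at hN
      linarith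
    have h8 : ε ^ 2 * (N : ℝ) ≤ ε ^ 2 * ((N + 1 : ℕ) : ℝ) := by
      have : (N : ℝ) ≤ ((N + 1 : ℕ) : ℝ) := by exact_mod_cast Nat.le_succ N
      gcongr
    linarith
  exact lt_of_pow_lt_pow_left₀ 2 hε.le h5

end Pool.Agent.QFP
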