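import Mathlib

/-!
# Amplification and the density theorem

If `x ∈ (⋃ Aₙ)''` for an increasing sequence of ⋆-subalgebras `Aₙ`, and `(ξᵢ)` is a square
summable sequence of vectors, then `∑ ‖(x - q) ξᵢ‖²` can be made small with `q ∈ ⋃ Aₙ`.
-/

namespace Pool.Agent.QFP

open scoped InnerProductSpace

variable {K : Type*} [NormedAddCommGroup K] [InnerProductSpace ℂ K]

/-- `ℓ²(ℕ, K)`. -/
abbrev Amp (K : Type*) [NormedAddCommGroup K] : Type _ := lp (fun _ : ℕ => K) 2

omit [InnerProductSpace ℂ K] in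
theorem Amp.summable (η : Amp K) : Summable (fun i => ‖η i‖ ^ 2) := by
  simpa using (lp.memℓp η).summable (by norm_num)

omit [InnerProductSpace ℂ K] in
theorem Amp.norm_sq (η : Amp K) : ‖η‖ ^ 2 = ∑' i, ‖η i‖ ^ 2 := by
  simpa using lp.norm_rpow_eq_tsum (p := 2) (by norm_num) η

theorem Amp.summable_apply (T : K →L[ℂ] K) (η : Amp K) : Summable (fun i => ‖T (η i)‖ ^ 2) := by
  refine Summable.of_nonneg_of_le (fun i => by positivity) (fun i => ?_)
    (η.summable.mul_left (‖T‖ ^ 2))
  rw [← mul_pow]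
  gcongr
  exact T.le_opNorm _

/-- The amplification of an operator. -/
noncomputable def amp (T : K →L[ℂ] K) : Amp K →L[ℂ] Amp K :=
  LinearMap.mkContinuous
    { toFun := fun η => (⟨fun i => T (η i), memℓp_gen (by
        simpa using Amp.summable_apply T η)⟩ : Amp K)
      map_add' := fun η ζ => by
        ext i
        exact map_add T _ _
      map_smul' := fun c η => by
        ext i
        exact map_smul T _ _ } ‖T‖ (fun η => by
    rw [← sq_le_sq₀ (norm_nonneg _) (by positivity), mul_pow, Amp.norm_sq, Amp.norm_sq,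
      ← tsum_mul_left]
    refine (Amp.summable_apply T η).tsum_le_tsum (fun i => ?_) (η.summable.mul_left (‖T‖ ^ 2))
    rw [← mul_pow]
    change ‖T (η i)‖ ^ 2 ≤ _
    gcongr
    exact T.le_opNorm _)

@[simp] theorem amp_apply (T : K →L[ℂ] K) (η : Amp K) (i : ℕ) : amp T η i = T (η i) := rfl

theorem amp_mul (S T : K →L[ℂ] K) (η : Amp K) : amp (S * T) η = amp S (amp T η) := rfl

theorem amp_single (T : K →L[ℂ] K) (i : ℕ) (v : K) :
    amp T (lp.single 2 i v) = lp.single 2 i (T v) := by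
  ext j
  rw [amp_apply, lp.single_apply, lp.single_apply, Pi.single_apply, Pi.single_apply]
  split_ifs <;> simp

variable [CompleteSpace K]

theorem amp_inner (T : K →L[ℂ] K) (η ζ : Amp K) : ⟪amp T η, ζ⟫_ℂ = ⟪η, amp (star T) ζ⟫_ℂ := by
  rw [lp.inner_eq_tsum, lp.inner_eq_tsum]
  refine tsum_congr fun i => ?_
  rw [amp_apply, amp_apply, ContinuousLinearMap.star_eq_adjoint,
    ContinuousLinearMap.adjoint_inner_right]

/-- The projection onto a closed subspace invariant under `amp q` and `amp q*` commutes with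
`amp q`. -/
theorem proj_comm (V : Submodule ℂ (Amp K)) [V.HasOrthogonalProjection] (q : K →L[ℂ] K)
    (h1 : ∀ v ∈ V, amp q v ∈ V) (h2 : ∀ v ∈ V, amp (star q) v ∈ V) (η : Amp K) :
    V.starProjection (amp q η) = amp q (V.starProjection η) := by
  apply Submodule.eq_starProjection_of_mem_of_inner_eq_zero
  · exact h1 _ (V.starProjection_apply_mem η)
  · intro w hw
    rw [← map_sub, amp_inner]
    exact V.starProjection_inner_eq_zero η _ (h2 w hw)

theorem approx_of_bicommutant (A : ℕ → StarSubalgebra ℂ (K →L[ℂ] K)) (hA : Monotone A)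
    (x : K →L[ℂ] K)
    (hx : x ∈ Set.centralizer (Set.centralizer (⋃ n, (A n : Set (K →L[ℂ] K)))))
    (ξ : ℕ → K) (hξ : Summable (fun i => ‖ξ i‖ ^ 2)) (ε : ℝ) (hε : 0 < ε) :
    ∃ n, ∃ q ∈ A n, ∑' i, ‖(x - q) (ξ i)‖ ^ 2 < ε ^ 2 := by
  let Ξ : Amp K := ⟨ξ, memℓp_gen (by simpa using hξ)⟩
  have hΞ : ∀ i, Ξ i = ξ i := fun i => rfl
  let S : Submodule ℂ (Amp K) :=
    { carrier := {s | ∃ n, ∃ q ∈ A n, s = amp q Ξ}
      add_mem' := by
        rintro _ _ ⟨n, q, hq, rfl⟩ ⟨m, r, hr, rfl⟩
        refine ⟨max n m, q + r, add_mem (hA (le_max_left n m) hq) (hA (le_max_right n m) hr), ?_⟩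
        ext i; rfl
      zero_mem' := ⟨0, 0, zero_mem _, by ext i; rfl⟩
      smul_mem' := by
        rintro c _ ⟨n, q, hq, rfl⟩
        exact ⟨n, c • q, (A n).smul_mem hq c, by ext i; rfl⟩ }
  set V := S.topologicalClosure with hV
  have hVc : IsClosed (V : Set (Amp K)) := S.isClosed_topologicalClosure
  have : CompleteSpace V := hVc.completeSpace_coe
  -- invariance
  have hinv : ∀ n, ∀ q ∈ A n, ∀ v ∈ V, amp q v ∈ V := by
    intro n q hq v hv
    have hmaps : Set.MapsTo (amp q) (S : Set (Amp K)) (S : Set (Amp K)) := by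
      rintro _ ⟨m, r, hr, rfl⟩
      exact ⟨max n m, q * r, mul_mem (hA (le_max_left n m) hq) (hA (le_max_right n m) hr), rfl⟩
    have h2 := hmaps.closure (amp q).continuous
    exact h2 hv
  have hcomm : ∀ n, ∀ q ∈ A n, ∀ η, V.starProjection (amp q η) = amp q (V.starProjection η) := by
    intro n q hq η
    exact proj_comm V q (hinv n q hq) (hinv n (star q) (star_mem hq)) η
  -- matrix coefficients
  have hmat : ∀ i j, ∀ v, x ((V.starProjection (lp.single 2 j v)) i) =
      (V.starProjection (lp.single 2 j (x v))) i := by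
    intro i j
    let p : K →L[ℂ] K := (lp.evalCLM ℂ (fun _ : ℕ => K) 2 i) ∘L V.starProjection ∘L
      (lp.singleContinuousLinearMap ℂ (fun _ : ℕ => K) 2 j)
    have hp : ∀ v, p v = (V.starProjection (lp.single 2 j v)) i := fun v => rfl
    have hpc : p ∈ Set.centralizer (⋃ n, (A n : Set (K →L[ℂ] K))) := by
      intro q hq
      rw [Set.mem_iUnion] at hq
      obtain ⟨n, hq⟩ := hq
      refine ContinuousLinearMap.ext fun v => ?_
      rw [mul_apply_eq_comp, mul_apply_eq_comp, hp, hp, ← amp_single, hcomm n q hq, amp_apply]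
    have h3 := hx p hpc
    intro v
    have h4 := congrArg (fun T : K →L[ℂ] K => T v) h3
    simp only [mul_apply_eq_comp] at h4
    rw [hp, hp] at h4
    exact h4.symm
  have hxcomm : (amp x) ∘L V.starProjection = V.starProjection ∘L (amp x) := by
    refine lp.ext_continuousLinearMap (by norm_num) fun j => ?_
    refine ContinuousLinearMap.ext fun v => ?_
    ext i
    change x ((V.starProjection (lp.single 2 j v)) i) =
      (V.starProjection (amp x (lp.single 2 j v))) i
    rw [amp_single]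
    exact hmat i j v
  have hΞV : Ξ ∈ V := S.le_topologicalClosure ⟨0, 1, one_mem _, by ext i; rfl⟩
  have hxV : amp x Ξ ∈ V := by
    have h5 := congrArg (fun T : Amp K →L[ℂ] Amp K => T Ξ) hxcomm
    simp only [ContinuousLinearMap.comp_apply] at h5
    rw [Submodule.starProjection_eq_self_iff.2 hΞV] at h5
    rw [h5]
    exact V.starProjection_apply_mem _
  have hcl : amp x Ξ ∈ closure (S : Set (Amp K)) := hxV
  obtain ⟨_, ⟨n, q, hq, rfl⟩, hdist⟩ := Metric.mem_closure_iff.1 hcl ε hε
  refine ⟨n, q, hq, ?_⟩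
  rw [dist_eq_norm] at hdist
  have h6 : ‖amp x Ξ - amp q Ξ‖ ^ 2 < ε ^ 2 := by gcongr
  rw [Amp.norm_sq] at h6
  exact h6

end Pool.Agent.QFP
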