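import Pool.Agent.QFP.Defs

/-!
# [B1] Tracial functionals on C*-algebras: basic properties

`TrAlg t`: `t` is a tracial state on the C*-algebra `D` (not necessarily faithful).
`t (star x * x) >= 0` and polarisation give `t (star x) = conj (t x)`; the semi-inner product
`<x, y> = t (star x * y)` gives Cauchy-Schwarz, the triangle inequality and the parallelogram law.
-/

set_option autoImplicit false

namespace Pool.Agent.QFP

open scoped ComplexConjugate

/-- `t` is a tracial state on `D`. -/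
structure TrAlg {D : Type*} [CStarAlgebra D] (t : D →ₗ[ℂ] ℂ) : Prop where
  one : t 1 = 1
  comm : ∀ x y, t (x * y) = t (y * x)
  pos : ∀ x, 0 ≤ (t (star x * x)).re ∧ (t (star x * x)).im = 0

variable {D : Type*} [CStarAlgebra D] {t : D →ₗ[ℂ] ℂ}

theorem n2_nonneg (t : D → ℂ) (x : D) : 0 ≤ n2 t x := Real.sqrt_nonneg _

theorem TrAlg.n2_sq (h : TrAlg t) (x : D) : n2 t x ^ 2 = (t (star x * x)).re :=
  Real.sq_sqrt (h.pos x).1

theorem TrAlg.apply_sq (h : TrAlg t) (x : D) : t (star x * x) = ((n2 t x ^ 2 : ℝ) : ℂ) := by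
  apply Complex.ext
  · rw [Complex.ofReal_re, h.n2_sq]
  · rw [Complex.ofReal_im, (h.pos x).2]

theorem B1_expand (t : D →ₗ[ℂ] ℂ) (x y : D) (c : ℂ) :
    t (star (x + c • y) * (x + c • y)) = t (star x * x) + c * t (star x * y) +
      conj c * t (star y * x) + (conj c * c) * t (star y * y) := by
  rw [star_add, star_smul, add_mul, mul_add, mul_add, smul_mul_assoc, smul_mul_assoc,
    mul_smul_comm, mul_smul_comm, map_add, map_add, map_add, map_smul, map_smul, map_smul, map_smul,
    smul_eq_mul, smul_eq_mul, smul_eq_mul, smul_eq_mul]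
  simp only [starRingEnd_apply]
  ring

theorem B1_conj (h : TrAlg t) (x y : D) : t (star x * y) = conj (t (star y * x)) := by
  have h1 := congrArg Complex.im (B1_expand t x y 1)
  have h2 := congrArg Complex.im (B1_expand t x y Complex.I)
  rw [(h.pos _).2] at h1 h2
  have hx := (h.pos x).2
  have hy := (h.pos y).2
  simp only [map_one, one_mul, Complex.add_im, hx, hy] at h1
  simp only [Complex.conj_I, Complex.add_im, Complex.mul_im, Complex.mul_re, Complex.neg_re,
    Complex.neg_im, Complex.I_re, Complex.I_im, hx, hy] at h2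
  apply Complex.ext
  · rw [Complex.conj_re]
    linarith
  · rw [Complex.conj_im]
    linarith

/-- polarisation: expand `t (star (x + c) * (x + c))` with `c = y, I y` to see that
`t (star x * y) = conj (t (star y * x))`; then take `x = 1`. -/
theorem TrAlg.map_star (h : TrAlg t) (x : D) : t (star x) = conj (t x) := by
  have h1 := B1_conj h x 1
  rwa [mul_one, star_one, one_mul] at h1

/-- Cauchy-Schwarz: `0 <= t (star (x + c y) * (x + c y))` for all complex `c`. -/
theorem TrAlg.cs (h : TrAlg t) (x y : D) : ‖t (star x * y)‖ ≤ n2 t x * n2 t y := by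
  set z : ℂ := t (star x * y) with hz
  have hz' : t (star y * x) = conj z := B1_conj h y x
  have key : ∀ s : ℝ, 0 ≤ (‖z‖ ^ 2 * n2 t y ^ 2) * (s * s) + (-2 * ‖z‖ ^ 2) * s + n2 t x ^ 2 := by
    intro s
    have h1 := (h.pos (x + (-(s : ℂ) * conj z) • y)).1
    rw [B1_expand, h.apply_sq x, h.apply_sq y, ← hz, hz'] at h1
    have h2 : conj (-(s : ℂ) * conj z) = -(s : ℂ) * z := by
      rw [map_mul, map_neg, Complex.conj_ofReal, Complex.conj_conj]
    rw [h2] at h1
    have h3 : (((n2 t x ^ 2 : ℝ) : ℂ) + -(s : ℂ) * conj z * z + -(s : ℂ) * z * conj z +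
        -(s : ℂ) * z * (-(s : ℂ) * conj z) * ((n2 t y ^ 2 : ℝ) : ℂ)) =
        (((‖z‖ ^ 2 * n2 t y ^ 2) * (s * s) + (-2 * ‖z‖ ^ 2) * s + n2 t x ^ 2 : ℝ) : ℂ) := by
      have h4 : z * conj z = ((‖z‖ ^ 2 : ℝ) : ℂ) := by
        rw [Complex.mul_conj, Complex.normSq_eq_norm_sq]
      push_cast at h4 ⊢
      linear_combination ((s : ℂ) * (s : ℂ) * (n2 t y : ℂ) ^ 2 - 2 * (s : ℂ)) * h4
    rw [h3, Complex.ofReal_re] at h1
    exact h1
  have hd := discrim_le_zero key
  unfold discrim at hd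
  have hx := n2_nonneg t x
  have hy := n2_nonneg t y
  have hn := norm_nonneg z
  rcases eq_or_lt_of_le hn with h0 | h0
  · rw [← h0]
    positivity
  · have h5 : ‖z‖ ^ 2 * (‖z‖ ^ 2 - (n2 t x * n2 t y) ^ 2) ≤ 0 := by nlinarith [hd]
    have h6 : ‖z‖ ^ 2 ≤ (n2 t x * n2 t y) ^ 2 := by
      by_contra hcon
      have := mul_pos (pow_pos h0 2) (sub_pos.2 (not_le.1 hcon))
      linarith
    exact (pow_le_pow_iff_left₀ hn (mul_nonneg hx hy) two_ne_zero).1 h6

/-- `cs` with `x = 1`. -/
theorem TrAlg.norm_le_n2 (h : TrAlg t) (x : D) : ‖t x‖ ≤ n2 t x := by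
  have h1 := h.cs 1 x
  have h2 : n2 t (1 : D) = 1 := by
    unfold n2
    rw [star_one, one_mul, h.one, Complex.one_re, Real.sqrt_one]
  rwa [star_one, one_mul, h2, one_mul] at h1

theorem TrAlg.n2_star (h : TrAlg t) (x : D) : n2 t (star x) = n2 t x := by
  unfold n2
  rw [star_star, h.comm]

theorem TrAlg.n2_smul (h : TrAlg t) (c : ℂ) (x : D) : n2 t (c • x) = ‖c‖ * n2 t x := by
  unfold n2
  have h1 : t (star (c • x) * (c • x)) = ((‖c‖ ^ 2 : ℝ) : ℂ) * t (star x * x) := by
    rw [star_smul, smul_mul_assoc, mul_smul_comm, map_smul, map_smul, smul_eq_mul, smul_eq_mul,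
      ← mul_assoc, ← Complex.normSq_eq_norm_sq, Complex.normSq_eq_conj_mul_self]
    rfl
  rw [h1, Complex.re_ofReal_mul, Real.sqrt_mul (sq_nonneg _), Real.sqrt_sq (norm_nonneg c)]

theorem TrAlg.n2_neg (h : TrAlg t) (x : D) : n2 t (-x) = n2 t x := by
  unfold n2
  rw [star_neg, neg_mul_neg]

theorem TrAlg.n2_zero (h : TrAlg t) : n2 t (0 : D) = 0 := by
  unfold n2
  rw [mul_zero, map_zero, Complex.zero_re, Real.sqrt_zero]

theorem TrAlg.n2_sub_comm (h : TrAlg t) (x y : D) : n2 t (x - y) = n2 t (y - x) := by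
  rw [← neg_sub, h.n2_neg]

theorem TrAlg.n2_add_le (h : TrAlg t) (x y : D) : n2 t (x + y) ≤ n2 t x + n2 t y := by
  have h1 := congrArg Complex.re (B1_expand t x y 1)
  rw [one_smul, ← h.n2_sq, map_one, one_mul, one_mul, one_mul, one_mul, Complex.add_re,
    Complex.add_re, Complex.add_re, ← h.n2_sq, ← h.n2_sq, B1_conj h y x, Complex.conj_re] at h1
  have h2 := (Complex.re_le_norm _).trans (h.cs x y)
  have hx := n2_nonneg t x
  have hy := n2_nonneg t y
  have hxy := n2_nonneg t (x + y)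
  refine (pow_le_pow_iff_left₀ hxy (add_nonneg hx hy) two_ne_zero).1 ?_
  rw [h1]
  nlinarith [h2]

theorem TrAlg.n2_sub_le (h : TrAlg t) (x y z : D) :
    n2 t (x - z) ≤ n2 t (x - y) + n2 t (y - z) := by
  have h1 := h.n2_add_le (x - y) (y - z)
  rwa [sub_add_sub_cancel] at h1

theorem TrAlg.n2_sum_le (h : TrAlg t) {ι : Type*} (s : Finset ι) (f : ι → D) :
    n2 t (∑ i ∈ s, f i) ≤ ∑ i ∈ s, n2 t (f i) := by
  classical
  induction s using Finset.induction_on with
  | empty => rw [Finset.sum_empty, Finset.sum_empty, h.n2_zero]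
  | insert a s ha ih =>
    rw [Finset.sum_insert ha, Finset.sum_insert ha]
    exact (h.n2_add_le _ _).trans (add_le_add le_rfl ih)

theorem TrAlg.parallelogram (h : TrAlg t) (x y : D) :
    n2 t (x + y) ^ 2 + n2 t (x - y) ^ 2 = 2 * n2 t x ^ 2 + 2 * n2 t y ^ 2 := by
  have h1 := congrArg Complex.re (B1_expand t x y 1)
  have h2 := congrArg Complex.re (B1_expand t x y (-1))
  rw [one_smul, ← h.n2_sq, map_one, one_mul, one_mul, one_mul, one_mul, Complex.add_re,
    Complex.add_re, Complex.add_re, ← h.n2_sq, ← h.n2_sq] at h1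
  rw [neg_smul, one_smul, ← sub_eq_add_neg, ← h.n2_sq, map_neg, map_one, neg_mul_neg, one_mul,
    one_mul, Complex.add_re, Complex.add_re, Complex.add_re, ← h.n2_sq, ← h.n2_sq, neg_mul,
    neg_mul, one_mul, one_mul, Complex.neg_re, Complex.neg_re] at h2
  rw [h1, h2]
  ring

end Pool.Agent.QFP
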