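import Pool.Agent.QFP.B1

/-!
# [B2x] Operator norm bounds

Use the order of the C*-algebra only inside proofs (`CStarAlgebra.spectralOrder`,
`CStarAlgebra.spectralOrderedRing` as local instances) or the continuous functional calculus.
-/

set_option autoImplicit false

namespace Pool.Agent.QFP

variable {D : Type*} [CStarAlgebra D] {t : D →ₗ[ℂ] ℂ}

theorem B2x_diff (a : D) : ∃ c : D, algebraMap ℝ D (‖a‖ ^ 2) - star a * a = star c * c := by
  letI := CStarAlgebra.spectralOrder D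
  letI := CStarAlgebra.spectralOrderedRing D
  have h : star a * a ≤ algebraMap ℝ D (‖a‖ ^ 2) := CStarAlgebra.star_mul_le_algebraMap_norm_sq
  exact CStarAlgebra.nonneg_iff_eq_star_mul_self.1 (sub_nonneg.2 h)

/-- `star a * a <= ‖a‖^2`, so `‖a‖^2 - star a * a = star c * c` for some `c` (the square root, by
the continuous functional calculus), and `‖a‖^2 t(x* x) - t(x* a* a x) = t((c x)* (c x)) >= 0`. -/
theorem TrAlg.n2_mul_left (h : TrAlg t) (a x : D) : n2 t (a * x) ≤ ‖a‖ * n2 t x := by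
  obtain ⟨c, hc⟩ := B2x_diff a
  have h1 := (h.pos (c * x)).1
  have e : star (c * x) * (c * x) = ((‖a‖ ^ 2 : ℝ) : ℂ) • (star x * x) - star (a * x) * (a * x) := by
    have e1 : star (c * x) * (c * x) = star x * (star c * c) * x := by
      rw [star_mul]
      simp only [mul_assoc]
    have e2 : algebraMap ℝ D (‖a‖ ^ 2) = ((‖a‖ ^ 2 : ℝ) : ℂ) • (1 : D) := by
      rw [Algebra.algebraMap_eq_smul_one]
      exact (Complex.coe_smul (‖a‖ ^ 2) (1 : D)).symm
    rw [e1, ← hc, e2, star_mul]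
    simp only [mul_sub, sub_mul, mul_assoc, smul_mul_assoc, mul_smul_comm, one_mul]
  rw [e, map_sub, map_smul, Complex.sub_re, smul_eq_mul, Complex.re_ofReal_mul] at h1
  rw [← h.n2_sq, ← h.n2_sq] at h1
  have h2 : n2 t (a * x) ^ 2 ≤ (‖a‖ * n2 t x) ^ 2 := by
    rw [mul_pow]
    linarith
  exact (pow_le_pow_iff_left₀ (n2_nonneg _ _) (mul_nonneg (norm_nonneg a) (n2_nonneg _ _)) two_ne_zero).1 h2

/-- `n2_star` and `n2_mul_left`. -/
theorem TrAlg.n2_mul_right (h : TrAlg t) (a x : D) : n2 t (x * a) ≤ n2 t x * ‖a‖ := by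
  rw [← h.n2_star, star_mul, ← h.n2_star x, mul_comm (n2 t (star x)), ← norm_star a]
  exact h.n2_mul_left (star a) (star x)

theorem TrAlg.n2_le_norm (h : TrAlg t) (x : D) : n2 t x ≤ ‖x‖ := by
  have h1 := h.n2_mul_left x 1
  have h2 : n2 t (1 : D) = 1 := by
    unfold n2
    rw [star_one, one_mul, h.one, Complex.one_re, Real.sqrt_one]
  rwa [mul_one, h2, mul_one] at h1

theorem TrAlg.norm_le (h : TrAlg t) (x : D) : ‖t x‖ ≤ ‖x‖ := by
  exact (h.norm_le_n2 x).trans (h.n2_le_norm x)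

end Pool.Agent.QFP
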