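import Pool.Agent.QFP.B1
import Pool.Agent.QFP.B2x

/-!
# [B2y] Positivity

Use the order of the C*-algebra only inside proofs (`CStarAlgebra.spectralOrder`,
`CStarAlgebra.spectralOrderedRing` as local instances) or the continuous functional calculus.
-/

set_option autoImplicit false

namespace Pool.Agent.QFP

variable {D : Type*} [CStarAlgebra D] {t : D →ₗ[ℂ] ℂ}

theorem B2y_diff (x : D) (hx : IsSelfAdjoint x) (r : ℝ) (hr : ‖x‖ ≤ r) :
    ∃ c : D, (r : ℂ) • (1 : D) - x = star c * c := by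
  letI := CStarAlgebra.spectralOrder D
  letI := CStarAlgebra.spectralOrderedRing D
  have h1 : x ≤ algebraMap ℝ D ‖x‖ := hx.le_algebraMap_norm_self
  have h2 : algebraMap ℝ D ‖x‖ ≤ algebraMap ℝ D r := by
    rw [← sub_nonneg, ← map_sub]
    exact algebraMap_nonneg D (sub_nonneg.2 hr)
  have e2 : algebraMap ℝ D r = ((r : ℝ) : ℂ) • (1 : D) := by
    rw [Algebra.algebraMap_eq_smul_one]
    exact (Complex.coe_smul r (1 : D)).symm
  have h3 : 0 ≤ algebraMap ℝ D r - x := sub_nonneg.2 (h1.trans h2)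
  rw [e2] at h3
  exact CStarAlgebra.nonneg_iff_eq_star_mul_self.1 h3

theorem B2y_cfc (y : D) (hy : IsSelfAdjoint y) (f : ℝ → ℝ) (hf : Continuous f) (hf0 : ∀ s, 0 ≤ f s) :
    ∃ d : D, cfc f y = star d * d := by
  refine ⟨cfc (fun s => Real.sqrt (f s)) y, ?_⟩
  have h1 : IsSelfAdjoint (cfc (fun s => Real.sqrt (f s)) y) := cfc_predicate _ _
  have hc : Continuous (fun s => Real.sqrt (f s)) := Real.continuous_sqrt.comp hf
  rw [h1.star_eq, ← cfc_mul (fun s => Real.sqrt (f s)) (fun s => Real.sqrt (f s)) y hc.continuousOn hc.continuousOn]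
  congr 1
  funext s
  exact (Real.mul_self_sqrt (hf0 s)).symm

/-- The trace of a product of two positive elements is positive. Positive elements are written
in the form `star a * a`: `t (star a * a * (star b * b)) = t (star (a * star b) * (a * star b))`. -/
theorem TrAlg.mul_nonneg (h : TrAlg t) (a b : D) :
    0 ≤ (t (star a * a * (star b * b))).re := by
  have h1 := (h.pos (a * star b)).1
  have e : t (star (a * star b) * (a * star b)) = t (star a * a * (star b * b)) := by
    have e1 : star (a * star b) * (a * star b) = b * (star a * a * star b) := by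
      rw [star_mul, star_star]
      simp only [mul_assoc]
    rw [e1, h.comm]
    simp only [mul_assoc]
  rwa [e] at h1

/-- For selfadjoint `y`, real functions `f g` continuous on `ℝ`, `f >= 0` and `g >= 0` and
selfadjoint `x` with `‖x‖ <= r`: `(r - x)` and `(r + x)` are positive, so
`0 <= re t ((r - x) f(y))` and `0 <= re t ((r + x) f(y))`. -/
theorem TrAlg.cfc_nonneg (h : TrAlg t) (x y : D) (hx : IsSelfAdjoint x) (hy : IsSelfAdjoint y)
    (r : ℝ) (hr : ‖x‖ ≤ r) (f : ℝ → ℝ) (hf : Continuous f) (hf0 : ∀ s, 0 ≤ f s) :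
    0 ≤ (t (((r : ℂ) • (1 : D) - x) * cfc f y)).re ∧
      0 ≤ (t (((r : ℂ) • (1 : D) + x) * cfc f y)).re := by
  obtain ⟨d, hd⟩ := B2y_cfc y hy f hf hf0
  obtain ⟨c, hc⟩ := B2y_diff x hx r hr
  obtain ⟨c', hc'⟩ := B2y_diff (-x) hx.neg r (by rwa [norm_neg])
  rw [sub_neg_eq_add] at hc'
  rw [hd, hc, hc']
  exact ⟨h.mul_nonneg c d, h.mul_nonneg c' d⟩

end Pool.Agent.QFP
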