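import Pool.Agent.QFP.B2

/-!
# [C1] The normalised trace of matrices, Kronecker products
-/

set_option autoImplicit false

namespace Pool.Agent.QFP

open scoped Matrix.Norms.L2Operator

theorem ntr_apply {ι : Type*} [Fintype ι] (x : Matrix ι ι ℂ) :
    ntr x = (Fintype.card ι : ℂ)⁻¹ * x.trace := by
  rfl

theorem ntr_trAlg {ι : Type*} [Fintype ι] [DecidableEq ι] [Nonempty ι] :
    TrAlg (ntr : Matrix ι ι ℂ →ₗ[ℂ] ℂ) := by
  have hc : (Fintype.card ι : ℂ) ≠ 0 := by
    exact_mod_cast Fintype.card_ne_zero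
  refine ⟨?_, fun x y => ?_, fun x => ?_⟩
  · rw [ntr_apply, Matrix.trace_one, inv_mul_cancel₀ hc]
  · rw [ntr_apply, ntr_apply, Matrix.trace_mul_comm]
  · have e : ntr (star x * x) = (((Fintype.card ι : ℝ)⁻¹ * ∑ i, ∑ j, ‖x j i‖ ^ 2 : ℝ) : ℂ) := by
      rw [ntr_apply, Matrix.trace]
      push_cast
      congr 1
      refine Finset.sum_congr rfl fun i _ => ?_
      rw [Matrix.diag_apply, Matrix.mul_apply]
      refine Finset.sum_congr rfl fun j _ => ?_
      rw [Matrix.star_apply]
      exact Complex.conj_mul' (x j i)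
    rw [e]
    refine ⟨?_, Complex.ofReal_im _⟩
    rw [Complex.ofReal_re]
    positivity

theorem ntr_kron {ι κ : Type*} [Fintype ι] [Fintype κ] (a : Matrix ι ι ℂ) (b : Matrix κ κ ℂ) :
    ntr (Matrix.kroneckerMap (fun x y => x * y) a b) = ntr a * ntr b := by
  have e := Matrix.trace_kronecker a b
  rw [ntr_apply, ntr_apply, ntr_apply, Fintype.card_prod]
  have e' : (Matrix.kroneckerMap (fun x y => x * y) a b).trace = a.trace * b.trace := e
  rw [e']
  push_cast
  rw [mul_inv]
  ring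

theorem kron_mul {ι κ : Type*} [Fintype ι] [Fintype κ] (a a' : Matrix ι ι ℂ) (b b' : Matrix κ κ ℂ) :
    Matrix.kroneckerMap (fun x y => x * y) a b * Matrix.kroneckerMap (fun x y => x * y) a' b' =
      Matrix.kroneckerMap (fun x y => x * y) (a * a') (b * b') := by
  exact (Matrix.mul_kronecker_mul a a' b b').symm

theorem kron_star {ι κ : Type*} [Fintype ι] [Fintype κ] (a : Matrix ι ι ℂ) (b : Matrix κ κ ℂ) :
    star (Matrix.kroneckerMap (fun x y => x * y) a b) =
      Matrix.kroneckerMap (fun x y => x * y) (star a) (star b) := by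
  exact Matrix.conjTranspose_kronecker a b

/-- `a ↦ a ⊗ 1` -/
noncomputable def C1_left (ι κ : Type*) [Fintype ι] [DecidableEq ι] [Fintype κ] [DecidableEq κ] :
    Matrix ι ι ℂ →⋆ₐ[ℂ] Matrix (ι × κ) (ι × κ) ℂ where
  toFun a := Matrix.kroneckerMap (fun x y => x * y) a (1 : Matrix κ κ ℂ)
  map_one' := Matrix.one_kronecker_one
  map_mul' a a' := by rw [kron_mul, mul_one]
  map_zero' := Matrix.zero_kronecker _
  map_add' a a' := Matrix.add_kronecker a a' _
  commutes' r := by
    rw [Algebra.algebraMap_eq_smul_one, Algebra.algebraMap_eq_smul_one]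
    exact (Matrix.smul_kronecker r 1 (1 : Matrix κ κ ℂ)).trans (congrArg (r • ·) Matrix.one_kronecker_one)
  map_star' a := by rw [kron_star, star_one]

/-- `b ↦ 1 ⊗ b` -/
noncomputable def C1_right (ι κ : Type*) [Fintype ι] [DecidableEq ι] [Fintype κ] [DecidableEq κ] :
    Matrix κ κ ℂ →⋆ₐ[ℂ] Matrix (ι × κ) (ι × κ) ℂ where
  toFun b := Matrix.kroneckerMap (fun x y => x * y) (1 : Matrix ι ι ℂ) b
  map_one' := Matrix.one_kronecker_one
  map_mul' a a' := by rw [kron_mul, mul_one]
  map_zero' := Matrix.kronecker_zero _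
  map_add' a a' := Matrix.kronecker_add _ a a'
  commutes' r := by
    rw [Algebra.algebraMap_eq_smul_one, Algebra.algebraMap_eq_smul_one]
    exact (Matrix.kronecker_smul r (1 : Matrix ι ι ℂ) 1).trans (congrArg (r • ·) Matrix.one_kronecker_one)
  map_star' a := by rw [kron_star, star_one]

/-- `a ⊗ b` has norm at most `‖a‖ ‖b‖`: `a ⊗ 1` and `1 ⊗ b` are images under unital
⋆-homomorphisms between C*-algebras, which are contractive (`NonUnitalStarAlgHom.norm_apply_le`). -/
theorem norm_kron_le {ι κ : Type*} [Fintype ι] [DecidableEq ι] [Fintype κ] [DecidableEq κ]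
    (a : Matrix ι ι ℂ) (b : Matrix κ κ ℂ) :
    ‖Matrix.kroneckerMap (fun x y => x * y) a b‖ ≤ ‖a‖ * ‖b‖ := by
  have e : Matrix.kroneckerMap (fun x y => x * y) a b = C1_left ι κ a * C1_right ι κ b := by
    show _ = Matrix.kroneckerMap (fun x y => x * y) a 1 * Matrix.kroneckerMap (fun x y => x * y) 1 b
    rw [kron_mul, mul_one, one_mul]
  rw [e]
  refine (norm_mul_le _ _).trans (mul_le_mul ?_ ?_ (norm_nonneg _) (norm_nonneg _))
  · exact NonUnitalStarAlgHom.norm_apply_le (C1_left ι κ) a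
  · exact NonUnitalStarAlgHom.norm_apply_le (C1_right ι κ) b

end Pool.Agent.QFP
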