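import Mathlib

/-!
# Definitions: finite von Neumann algebras, matricial microstates, amalgamated free powers
-/

set_option autoImplicit false

namespace Pool.Agent.QFP

open scoped InnerProductSpace Matrix.Norms.L2Operator

universe u v

/-- The value of the ⋆-word `w` at the family `x`. A letter is a pair `(k, s)`; it stands for
`x k` if `s = false` and for `(x k)*` if `s = true`. -/
def wordEval {R κ : Type*} [Monoid R] [Star R] (x : κ → R) (w : List (κ × Bool)) : R :=
  (w.map fun p => if p.2 then star (x p.1) else x p.1).prod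

/-- The normalised trace of complex matrices. -/
noncomputable def ntr {ι : Type*} [Fintype ι] : Matrix ι ι ℂ →ₗ[ℂ] ℂ :=
  ((Fintype.card ι : ℂ)⁻¹) • Matrix.traceLinearMap ι ℂ ℂ

/-- The 2-norm `‖x‖₂ = t(x* x)^(1/2)` defined by a functional `t`. -/
noncomputable def n2 {D : Type*} [Mul D] [Star D] (t : D → ℂ) (x : D) : ℝ :=
  Real.sqrt (t (star x * x)).re

section VN

variable {H : Type u} [NormedAddCommGroup H] [InnerProductSpace ℂ H] [CompleteSpace H]

/-- The ⋆-algebra (as a type) underlying the von Neumann algebra `N ⊆ B(H)`. -/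
abbrev Alg (N : VonNeumannAlgebra H) : Type u := N.toStarSubalgebra

/-- `τ` is a faithful normal tracial state on the von Neumann algebra `N ⊆ B(H)`.
Normality (and positivity) is expressed by `τ x = ∑ᵢ ⟨ξᵢ, x ξᵢ⟩` for a sequence of vectors
`ξᵢ ∈ H` with `∑ᵢ ‖ξᵢ‖² < ∞`. -/
structure IsTrace (N : VonNeumannAlgebra H) (τ : Alg N →ₗ[ℂ] ℂ) : Prop where
  map_one : τ 1 = 1
  tracial : ∀ x y : Alg N, τ (x * y) = τ (y * x)
  faithful : ∀ x : Alg N, τ (star x * x) = 0 → x = 0
  normal : ∃ ξ : ℕ → H, Summable (fun i => ‖ξ i‖ ^ 2) ∧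
    ∀ x : Alg N, τ x = ∑' i, ⟪ξ i, (x : H →L[ℂ] H) (ξ i)⟫_ℂ

/-- `(N, τ)` is Connes embeddable (for a finite von Neumann algebra with faithful normal tracial
state this is equivalent to being QWEP, by Kirchberg's theorem): every finite subset `F` of `N`
has matricial microstates, that is, for all `m` and `ε > 0` there are complex matrices `X a`,
`a ∈ N`, of operator norm at most `‖a‖`, such that all ⋆-moments of order at most `m` of
`(X a)_{a ∈ F}` with respect to the normalised trace are within `ε` of those of `F`. -/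
def ConnesEmb (N : VonNeumannAlgebra H) (τ : Alg N →ₗ[ℂ] ℂ) : Prop :=
  ∀ (F : Finset (Alg N)) (m : ℕ) (ε : ℝ), 0 < ε →
    ∃ (ν : ℕ) (_ : 0 < ν) (X : Alg N → Matrix (Fin ν) (Fin ν) ℂ),
      (∀ a, ‖X a‖ ≤ ‖(a : H →L[ℂ] H)‖) ∧
      ∀ w : List (Alg N × Bool), (∀ p ∈ w, p.1 ∈ F) → w.length ≤ m →
        ‖ntr (wordEval X w) - τ (wordEval id w)‖ < ε

/-- `a ∈ A` is orthogonal to `B ⊆ A`, that is, `E_B(a) = 0` for the `τ`-preserving conditional
expectation `E_B` of `A` onto `B`. -/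
def Perp (A B : VonNeumannAlgebra H) (τ : Alg A →ₗ[ℂ] ℂ) (a : Alg A) : Prop :=
  ∀ b : Alg A, (b : H →L[ℂ] H) ∈ B → τ (a * b) = 0

/-- `(M, φ)`, with the maps `ι j : A → M` (`j ∈ J`), is the amalgamated free product over `B` of
copies of `(A, τ)` indexed by `J`: the `ι j` are trace preserving unital ⋆-homomorphisms which
agree on `B`, `M` is generated by their ranges as a von Neumann algebra, and
`φ(ι j₁ a₁ ⋯ ι jₙ aₙ) = 0` whenever `n ≥ 1`, neighbouring indices are distinct and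
`E_B(a₁) = ⋯ = E_B(aₙ) = 0`. -/
structure IsFreePower (A B : VonNeumannAlgebra H) (τ : Alg A →ₗ[ℂ] ℂ)
    {K : Type v} [NormedAddCommGroup K] [InnerProductSpace ℂ K] [CompleteSpace K]
    (M : VonNeumannAlgebra K) (φ : Alg M →ₗ[ℂ] ℂ) {J : Type*} (ι : J → Alg A →⋆ₐ[ℂ] Alg M) :
    Prop where
  trace_eq : ∀ j a, φ (ι j a) = τ a
  agree : ∀ i j (b : Alg A), (b : H →L[ℂ] H) ∈ B → ι i b = ι j b
  generates : (M : Set (K →L[ℂ] K)) =
    Set.centralizer (Set.centralizer {x | ∃ j a, x = ((ι j a : Alg M) : K →L[ℂ] K)})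
  free : ∀ l : List (J × Alg A), l ≠ [] → l.IsChain (fun p q => p.1 ≠ q.1) →
    (∀ p ∈ l, Perp A B τ p.2) → φ (l.map fun p => ι p.1 p.2).prod = 0

/-- Inner averaging: there are matricial microstates of `A` together with unitary matrices
commuting with the microstates of `B`, such that the averages of the unitary conjugates of the
microstates of `a` tend to `0` in the normalised Hilbert-Schmidt norm for all `a` with
`E_B(a) = 0`. In terms of a tracial ultraproduct `𝓜` of matrix algebras: there is a trace preserving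
embedding `θ` of `A` in `𝓜` such that, for all `a ∈ A`, `θ(E_B(a))` is in the 2-norm closure of
the averages of `u θ(a) u*` over finite sets of unitaries `u ∈ θ(B)' ∩ 𝓜`. -/
def InnerAveraging (A B : VonNeumannAlgebra H) (τ : Alg A →ₗ[ℂ] ℂ) : Prop :=
  ∀ (F : Finset (Alg A)) (m : ℕ) (ε : ℝ), 0 < ε →
    ∃ (ν : ℕ) (_ : 0 < ν) (X : Alg A → Matrix (Fin ν) (Fin ν) ℂ) (n : ℕ) (_ : 0 < n)
      (v : Fin n → Matrix (Fin ν) (Fin ν) ℂ),
      (∀ a, ‖X a‖ ≤ ‖(a : H →L[ℂ] H)‖) ∧
      (∀ w : List (Alg A × Bool), (∀ p ∈ w, p.1 ∈ F) → w.length ≤ m →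
        ‖ntr (wordEval X w) - τ (wordEval id w)‖ < ε) ∧
      (∀ s, v s * star (v s) = 1 ∧ star (v s) * v s = 1) ∧
      (∀ s, ∀ b ∈ F, (b : H →L[ℂ] H) ∈ B → v s * X b = X b * v s) ∧
      ∀ a ∈ F, Perp A B τ a →
        n2 ntr ((n : ℂ)⁻¹ • ∑ s, v s * X a * star (v s)) < ε

end VN

/-- A group `G` is hyperlinear: it has approximate unitary representations `σ` of finite dimension
which are asymptotically multiplicative in the normalised Hilbert-Schmidt norm and whose normalised
trace tends to `0` at every `g ≠ 1` (equivalently, the group von Neumann algebra of `G` is Connes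
embeddable). -/
def IsHyperlinear (G : Type*) [Group G] : Prop :=
  ∀ (F : Finset G) (ε : ℝ), 0 < ε →
    ∃ (k : ℕ) (_ : 0 < k) (σ : G → Matrix (Fin k) (Fin k) ℂ),
      (∀ g, σ g * star (σ g) = 1 ∧ star (σ g) * σ g = 1) ∧ σ 1 = 1 ∧
      (∀ g ∈ F, ∀ h ∈ F, n2 ntr (σ g * σ h - σ (g * h)) < ε) ∧
      ∀ g ∈ F, g ≠ 1 → ‖ntr (σ g)‖ < ε

end Pool.Agent.QFP
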