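import Pool.Agent.QFP.L1

/-!
# [L2x] Mean ergodic theorem, one element
-/

set_option autoImplicit false

namespace Pool.Agent.QFP

open Filter Topology

/-- The average of `σ g x` over a list of group elements. -/
noncomputable def lavg {G D : Type*} [CStarAlgebra D] (σ : G → D →⋆ₐ[ℂ] D) (l : List G) (x : D) : D :=
  ((l.length : ℂ)⁻¹) • (l.map fun g => σ g x).sum

section L2x

variable {G D : Type*} [CStarAlgebra D] {t : D →ₗ[ℂ] ℂ}

theorem L2x_norm (σ : G → D →⋆ₐ[ℂ] D) (l : List G) (hl : l ≠ []) (x : D) : ‖lavg σ l x‖ ≤ ‖x‖ := by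
  have h1 : ∀ l : List G, ‖(l.map fun g => σ g x).sum‖ ≤ l.length * ‖x‖ := by
    intro l
    induction l with
    | nil => simp
    | cons g l ih =>
      rw [List.map_cons, List.sum_cons, List.length_cons]
      push_cast
      have h2 : ‖σ g x‖ ≤ ‖x‖ := NonUnitalStarAlgHom.norm_apply_le (σ g) x
      calc ‖σ g x + (l.map fun g => σ g x).sum‖ ≤ ‖σ g x‖ + ‖(l.map fun g => σ g x).sum‖ :=
            norm_add_le _ _
        _ ≤ ‖x‖ + l.length * ‖x‖ := add_le_add h2 ih
        _ = _ := by ring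
  unfold lavg
  have hpos : 0 < (l.length : ℝ) := by exact_mod_cast List.length_pos_iff.2 hl
  rw [norm_smul, norm_inv, Complex.norm_natCast, inv_mul_le_iff₀ hpos]
  exact h1 l

theorem L2x_rep_length (n : ℕ) (l : List G) : (List.replicate n l).flatten.length = n * l.length := by
  induction n with
  | zero => simp
  | succ n ih =>
    rw [List.replicate_succ, List.flatten_cons, List.length_append, ih]
    ring

theorem L2x_rep_sum (f : G → D) (n : ℕ) (l : List G) :
    ((List.replicate n l).flatten.map f).sum = (n : ℂ) • (l.map f).sum := by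
  induction n with
  | zero => simp
  | succ n ih =>
    rw [List.replicate_succ, List.flatten_cons, List.map_append, List.sum_append, ih]
    push_cast
    rw [add_smul, one_smul, add_comm]

theorem L2x_mid (σ : G → D →⋆ₐ[ℂ] D) (l l' : List G) (hl : l ≠ []) (hl' : l' ≠ []) (x : D) :
    ∃ L : List G, L ≠ [] ∧ lavg σ L x = (1 / 2 : ℂ) • (lavg σ l x + lavg σ l' x) := by
  have hp : 0 < l.length := List.length_pos_iff.2 hl
  have hq : 0 < l'.length := List.length_pos_iff.2 hl'
  have hp0 : (l.length : ℂ) ≠ 0 := Nat.cast_ne_zero.2 hp.ne'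
  have hq0 : (l'.length : ℂ) ≠ 0 := Nat.cast_ne_zero.2 hq.ne'
  have hlen : ((List.replicate l'.length l).flatten ++ (List.replicate l.length l').flatten).length =
      2 * (l.length * l'.length) := by
    rw [List.length_append, L2x_rep_length, L2x_rep_length]
    ring
  refine ⟨(List.replicate l'.length l).flatten ++ (List.replicate l.length l').flatten, ?_, ?_⟩
  · intro h0
    have h1 := congrArg List.length h0
    rw [hlen, List.length_nil] at h1
    have h2 := Nat.mul_pos hp hq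
    omega
  · unfold lavg
    rw [hlen, List.map_append, List.sum_append, L2x_rep_sum, L2x_rep_sum, smul_add, smul_add,
      smul_smul, smul_smul, smul_smul, smul_smul]
    congr 2
    · push_cast
      field_simp
    · push_cast
      field_simp

theorem L2x_equi [Group G] (σ : G → D →⋆ₐ[ℂ] D) (σm : ∀ g g' x, σ (g * g') x = σ g (σ g' x))
    (g : G) (l : List G) (x : D) : σ g (lavg σ l x) = lavg σ (l.map (g * ·)) x := by
  unfold lavg
  rw [map_smul, map_list_sum, List.length_map, List.map_map, List.map_map]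
  congr 2
  refine List.map_congr_left (fun g' _ => ?_)
  exact (σm g g' x).symm

theorem L2x_close (h : TrAlg t) {a b : D} {d δ δ' : ℝ} (hd : 0 ≤ d) (ha : n2 t a ^ 2 < d ^ 2 + δ)
    (hb : n2 t b ^ 2 < d ^ 2 + δ') (hab : d ≤ n2 t ((1 / 2 : ℂ) • (a + b))) :
    n2 t (a - b) ^ 2 < 2 * (δ + δ') := by
  have h1 := h.parallelogram a b
  rw [h.n2_smul] at hab
  have h2 : ‖(1 / 2 : ℂ)‖ = 1 / 2 := by norm_num
  rw [h2] at hab
  have h3 : 2 * d ≤ n2 t (a + b) := by linarith
  have h4 : (2 * d) ^ 2 ≤ n2 t (a + b) ^ 2 := pow_le_pow_left₀ (by linarith) h3 2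
  nlinarith

end L2x

/-- A minimising sequence `y k = lavg σ (l k) x`, `n2 t (y k) → d = inf`. Midpoints of averages are
averages: `(1/2) (lavg l x + lavg l' x) = lavg L x` where `L` consists of `l'.length` copies of `l`
and `l.length` copies of `l'`. So the parallelogram law makes `y k` Cauchy in 2-norm, and
`‖y k‖ ≤ ‖x‖`; let `y` be the limit (`BallComplete`). For `g : G` also `σ g (y k)` is an average
(`σ g (lavg l x) = lavg (l.map (g * ·)) x`), so
`n2 ((y k + σ g (y k)) / 2) ≥ d` and `n2 t (y k - σ g (y k)) → 0`, hence `n2 t (y - σ g y) = 0` and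
`σ g y = y`. By `hx` and invariance, `t (star y * σ g x) = t (σ g (star y * x)) = 0`, so
`t (star y * y k) = 0`, so `n2 t y ^ 2 = t (star y * y) = lim t (star y * (y - y k)) + 0 = 0` and
`n2 t (y k) → n2 t y = 0`. -/
theorem exists_small_avg {G D : Type*} [Group G] [CStarAlgebra D] {t : D →ₗ[ℂ] ℂ} (h : TrAlg t)
    (hc : BallComplete t) (hf : ∀ x, n2 t x = 0 → x = 0) (σ : G → D →⋆ₐ[ℂ] D)
    (σ1 : ∀ x, σ 1 x = x) (σm : ∀ g g' x, σ (g * g') x = σ g (σ g' x))
    (σt : ∀ g x, t (σ g x) = t x) (x : D)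
    (hx : ∀ c, (∀ g, σ g c = c) → t (star c * x) = 0) (ε : ℝ) (hε : 0 < ε) :
    ∃ l : List G, l ≠ [] ∧ n2 t (lavg σ l x) < ε := by
  set S : Set ℝ := {r | ∃ l : List G, l ≠ [] ∧ r = n2 t (lavg σ l x)} with hS
  have hSne : S.Nonempty := ⟨_, [1], by simp, rfl⟩
  have hSbd : BddBelow S := ⟨0, by
    rintro r ⟨l, -, rfl⟩
    exact n2_nonneg _ _⟩
  have hd0 : 0 ≤ sInf S := by
    apply Real.sInf_nonneg
    rintro r ⟨l, -, rfl⟩
    exact n2_nonneg _ _
  obtain ⟨d, hd⟩ : ∃ d, d = sInf S := ⟨_, rfl⟩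
  rw [← hd] at hd0
  have hdle : ∀ l : List G, l ≠ [] → d ≤ n2 t (lavg σ l x) := by
    intro l hl
    rw [hd]
    exact csInf_le hSbd ⟨l, hl, rfl⟩
  have hex : ∀ k : ℕ, ∃ l : List G, l ≠ [] ∧ n2 t (lavg σ l x) ^ 2 < d ^ 2 + 1 / ((k : ℝ) + 1) := by
    intro k
    have hk : 0 < 1 / ((k : ℝ) + 1) := Nat.one_div_pos_of_nat
    have h1 : sInf S < Real.sqrt (d ^ 2 + 1 / ((k : ℝ) + 1)) := by
      rw [← hd]
      exact Real.lt_sqrt_of_sq_lt (by linarith)
    obtain ⟨r, ⟨l, hl, rfl⟩, hr⟩ := exists_lt_of_csInf_lt hSne h1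
    refine ⟨l, hl, ?_⟩
    exact (Real.lt_sqrt (n2_nonneg _ _)).1 hr
  choose l hl hlt using hex
  have hδ : Tendsto (fun k : ℕ => 1 / ((k : ℝ) + 1)) atTop (𝓝 0) :=
    tendsto_one_div_add_atTop_nhds_zero_nat
  -- the sequence is Cauchy
  obtain ⟨y, hy, hlim⟩ := hc ‖x‖ (fun k => lavg σ (l k) x) (fun k => L2x_norm σ (l k) (hl k) x) (by
    intro e he
    have he2 : 0 < e ^ 2 / 4 := by positivity
    obtain ⟨N, hN⟩ := (hδ.eventually (gt_mem_nhds he2)).exists_forall_of_atTop
    refine ⟨N, fun k hk m hm => ?_⟩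
    obtain ⟨L, hL, hmid⟩ := L2x_mid σ (l k) (l m) (hl k) (hl m) x
    have h1 := L2x_close h hd0 (hlt k) (hlt m) (by
      rw [← hmid]
      exact hdle L hL)
    have h2 := hN k hk
    have h3 := hN m hm
    have h4 : n2 t (lavg σ (l k) x - lavg σ (l m) x) ^ 2 < e ^ 2 := by linarith
    exact lt_of_pow_lt_pow_left₀ 2 he.le h4)
  -- the limit is fixed
  have hfix : ∀ g, σ g y = y := by
    intro g
    have h1 : n2 t (y - σ g y) = 0 := by
      refine le_antisymm ?_ (n2_nonneg _ _)
      have h2 : ∀ k : ℕ, n2 t (y - σ g y) ≤ 2 * n2 t (lavg σ (l k) x - y) +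
          Real.sqrt (4 * (1 / ((k : ℝ) + 1))) := by
        intro k
        have h3 := h.n2_sub_le y (lavg σ (l k) x) (σ g y)
        have h4 := h.n2_sub_le (lavg σ (l k) x) (σ g (lavg σ (l k) x)) (σ g y)
        rw [← map_sub, n2_map (σ g) (σt g)] at h4
        rw [h.n2_sub_comm y (lavg σ (l k) x)] at h3
        have h5 : n2 t (lavg σ (l k) x - σ g (lavg σ (l k) x)) ≤ Real.sqrt (4 * (1 / ((k : ℝ) + 1))) := by
          apply Real.le_sqrt_of_sq_le
          have h6 : n2 t (σ g (lavg σ (l k) x)) ^ 2 < d ^ 2 + 1 / ((k : ℝ) + 1) := by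
            rw [n2_map (σ g) (σt g)]
            exact hlt k
          have hne : (l k).map (g * ·) ≠ [] := by
            intro h0
            exact hl k (List.map_eq_nil_iff.1 h0)
          obtain ⟨L, hL, hmid⟩ := L2x_mid σ (l k) ((l k).map (g * ·)) (hl k) hne x
          have h7 := L2x_close h hd0 (hlt k) h6 (by
            rw [L2x_equi σ σm, ← hmid]
            exact hdle L hL)
          linarith
        linarith
      have h8 : Tendsto (fun k : ℕ => 2 * n2 t (lavg σ (l k) x - y) +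
          Real.sqrt (4 * (1 / ((k : ℝ) + 1)))) atTop (𝓝 (2 * 0 + Real.sqrt (4 * 0))) :=
        (hlim.const_mul 2).add ((hδ.const_mul 4).sqrt)
      rw [mul_zero, mul_zero, Real.sqrt_zero, add_zero] at h8
      exact ge_of_tendsto' h8 h2
    exact (sub_eq_zero.1 (hf _ h1)).symm
  -- orthogonality
  have horth : ∀ L : List G, t (star y * lavg σ L x) = 0 := by
    intro L
    have h1 : ∀ g, t (star y * σ g x) = 0 := by
      intro g
      have h2 : star y * σ g x = σ g (star y * x) := by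
        rw [map_mul, map_star, hfix]
      rw [h2, σt]
      exact hx y hfix
    unfold lavg
    rw [mul_smul_comm, map_smul]
    have h3 : t (star y * (L.map fun g => σ g x).sum) = 0 := by
      induction L with
      | nil => simp
      | cons g L ih => rw [List.map_cons, List.sum_cons, mul_add, map_add, h1, ih, add_zero]
    rw [h3, smul_zero]
  have hy0 : n2 t y ^ 2 = 0 := by
    refine le_antisymm ?_ (sq_nonneg _)
    have h1 : ∀ k : ℕ, n2 t y ^ 2 ≤ n2 t y * n2 t (lavg σ (l k) x - y) := by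
      intro k
      have h2 := h.cs y (y - lavg σ (l k) x)
      rw [mul_sub, map_sub, horth, sub_zero, h.apply_sq, h.n2_sub_comm] at h2
      rw [Complex.norm_real] at h2
      exact (le_abs_self _).trans h2
    have h3 : Tendsto (fun k : ℕ => n2 t y * n2 t (lavg σ (l k) x - y)) atTop (𝓝 (n2 t y * 0)) :=
      hlim.const_mul _
    rw [mul_zero] at h3
    exact ge_of_tendsto' h3 h1
  have hy1 : n2 t y = 0 := by
    exact pow_eq_zero_iff two_ne_zero |>.1 hy0
  obtain ⟨k, hk⟩ := (hlim.eventually (gt_mem_nhds hε)).exists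
  refine ⟨l k, hl k, ?_⟩
  have h1 := h.n2_sub_le (lavg σ (l k) x) y 0
  rw [sub_zero, sub_zero, hy1, add_zero] at h1
  exact lt_of_le_of_lt h1 hk

end Pool.Agent.QFP
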