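import Pool.Agent.QFP.L1
import Pool.Agent.QFP.L2x

/-!
# [L2y] Mean ergodic theorem, several elements
-/

set_option autoImplicit false

namespace Pool.Agent.QFP

open Filter Topology

theorem L2y_len {G : Type*} [Group G] (l l' : List G) :
    (l.flatMap fun g => l'.map fun g' => g * g').length = l.length * l'.length := by
  induction l with
  | nil => simp
  | cons a l ih =>
    rw [List.flatMap_cons, List.length_append, ih, List.length_map, List.length_cons]
    ring

theorem L2y_sum {G D : Type*} [Group G] [CStarAlgebra D] (σ : G → D →⋆ₐ[ℂ] D)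
    (σm : ∀ g g' x, σ (g * g') x = σ g (σ g' x)) (l l' : List G) (y : D) :
    ((l.flatMap fun g => l'.map fun g' => g * g').map fun g => σ g y).sum =
      (l.map fun g => σ g (l'.map fun g' => σ g' y).sum).sum := by
  induction l with
  | nil => simp
  | cons a l ih =>
    rw [List.flatMap_cons, List.map_append, List.sum_append, ih, List.map_cons, List.sum_cons,
      List.map_map, map_list_sum, List.map_map]
    congr 2
    apply List.map_congr_left
    intro g _
    exact σm a g y

theorem L2y_smul {G D : Type*} [CStarAlgebra D] (σ : G → D →⋆ₐ[ℂ] D) (l : List G) (c : ℂ)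
    (y : D) : (l.map fun g => σ g (c • y)).sum = c • (l.map fun g => σ g y).sum := by
  induction l with
  | nil => simp
  | cons a l ih => rw [List.map_cons, List.sum_cons, ih, List.map_cons, List.sum_cons, map_smul,
      smul_add]

theorem L2y_comp {G D : Type*} [Group G] [CStarAlgebra D] (σ : G → D →⋆ₐ[ℂ] D)
    (σm : ∀ g g' x, σ (g * g') x = σ g (σ g' x)) (l l' : List G) (y : D) :
    lavg σ (l.flatMap fun g => l'.map fun g' => g * g') y = lavg σ l (lavg σ l' y) := by
  unfold lavg
  rw [L2y_len, L2y_sum σ σm, L2y_smul, smul_smul, Nat.cast_mul, mul_inv]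

theorem L2y_n2_sum {G D : Type*} [CStarAlgebra D] {t : D →ₗ[ℂ] ℂ} (h : TrAlg t)
    (σ : G → D →⋆ₐ[ℂ] D) (σt : ∀ g x, t (σ g x) = t x) (l : List G) (y : D) :
    n2 t (l.map fun g => σ g y).sum ≤ l.length * n2 t y := by
  induction l with
  | nil =>
    rw [List.map_nil, List.sum_nil, h.n2_zero]
    simp
  | cons a l ih =>
    rw [List.map_cons, List.sum_cons, List.length_cons, Nat.cast_succ]
    have h1 := h.n2_add_le (σ a y) (l.map fun g => σ g y).sum
    rw [n2_map (σ a) (σt a)] at h1
    linarith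

theorem L2y_n2 {G D : Type*} [CStarAlgebra D] {t : D →ₗ[ℂ] ℂ} (h : TrAlg t)
    (σ : G → D →⋆ₐ[ℂ] D) (σt : ∀ g x, t (σ g x) = t x) (l : List G) (hl : l ≠ []) (y : D) :
    n2 t (lavg σ l y) ≤ n2 t y := by
  unfold lavg
  have hpos : (0 : ℝ) < l.length := by
    exact_mod_cast List.length_pos_iff.2 hl
  rw [h.n2_smul, norm_inv, Complex.norm_natCast]
  have h1 := L2y_n2_sum h σ σt l y
  calc (l.length : ℝ)⁻¹ * n2 t (l.map fun g => σ g y).sum ≤
      (l.length : ℝ)⁻¹ * (l.length * n2 t y) :=
        mul_le_mul_of_nonneg_left h1 (inv_nonneg.2 hpos.le)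
    _ = n2 t y := by field_simp

theorem L2y_inv {G D : Type*} [CStarAlgebra D] {t : D →ₗ[ℂ] ℂ}
    (σ : G → D →⋆ₐ[ℂ] D) (σt : ∀ g x, t (σ g x) = t x) (l : List G) (x c : D)
    (hcg : ∀ g, σ g c = c) (h0 : t (star c * x) = 0) : t (star c * lavg σ l x) = 0 := by
  unfold lavg
  rw [mul_smul_comm, map_smul]
  have h1 : t (star c * (l.map fun g => σ g x).sum) = 0 := by
    induction l with
    | nil => simp
    | cons a l ih =>
      rw [List.map_cons, List.sum_cons, mul_add, map_add, ih, add_zero]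
      have h2 : star c * σ a x = σ a (star c * x) := by
        rw [map_mul, map_star, hcg a]
      rw [h2, σt, h0]
  rw [h1, smul_zero]

/-- Several elements: `lavg l (lavg l' x) = lavg L x` with `L` the list of all products `g * g'`,
`g ∈ l`, `g' ∈ l'`; averages do not increase the 2-norm, and `lavg l' x` satisfies `hx` again
(`t (star c * σ g x) = t (σ g (star c * x)) = t (star c * x)` for fixed `c`). Induction on
`F`. -/
theorem exists_small_avgs {G D : Type*} [Group G] [CStarAlgebra D] {t : D →ₗ[ℂ] ℂ} (h : TrAlg t)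
    (hc : BallComplete t) (hf : ∀ x, n2 t x = 0 → x = 0) (σ : G → D →⋆ₐ[ℂ] D)
    (σ1 : ∀ x, σ 1 x = x) (σm : ∀ g g' x, σ (g * g') x = σ g (σ g' x))
    (σt : ∀ g x, t (σ g x) = t x) (F : List D)
    (hF : ∀ x ∈ F, ∀ c, (∀ g, σ g c = c) → t (star c * x) = 0) (ε : ℝ) (hε : 0 < ε) :
    ∃ l : List G, l ≠ [] ∧ ∀ x ∈ F, n2 t (lavg σ l x) < ε := by
  induction F with
  | nil => exact ⟨[1], List.cons_ne_nil _ _, fun x hx => absurd hx List.not_mem_nil⟩
  | cons x F ih =>
    obtain ⟨l', hl', h1⟩ := ih fun y hy => hF y (List.mem_cons_of_mem _ hy)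
    obtain ⟨l, hl, h2⟩ := exists_small_avg h hc hf σ σ1 σm σt (lavg σ l' x)
      (fun c hcg => L2y_inv σ σt l' x c hcg (hF x List.mem_cons_self c hcg)) ε hε
    refine ⟨l.flatMap fun g => l'.map fun g' => g * g', ?_, ?_⟩
    · intro h0
      have h3 := L2y_len l l'
      rw [h0, List.length_nil] at h3
      have h4 := Nat.mul_pos (List.length_pos_iff.2 hl) (List.length_pos_iff.2 hl')
      omega
    · intro y hy
      rw [L2y_comp σ σm]
      rcases List.mem_cons.1 hy with rfl | hy
      · exact h2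
      · exact (L2y_n2 h σ σt l hl _).trans_lt (h1 y hy)

end Pool.Agent.QFP
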