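import Pool.Agent.QFP.A2
import Pool.Agent.QFP.L2

/-!
# [F1x] Fixed point algebras

`innerAveraging_of_fixed`: apply `innerAveraging_of_homs` with `π s = σ (l s) ∘ θ` for the list `l` of
group elements given by `exists_small_avgs` for the elements `θ a`, `a ∈ F`, `Perp a`
(`IsTrace.ballComplete`, `IsTrace.eq_zero_of_n2`; the hypothesis of `exists_small_avgs` is
`t (star c * θ a) = 0` for fixed `c`: `star c` is fixed too and `t (star c * θ a) =
t (θ a * star c)`). `lavg σ l (θ a) = n⁻¹ ∑ s : Fin n, σ (l s) (θ a)`, `n = l.length`.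

`innerAveraging_of_bicommutant`: `P = A`, `θ = id`, `G` = the group of unitaries `u` of `Alg A`
commuting with all `b ∈ B` (a `Subgroup` of `unitary (Alg A)`), `σ u x = u x u*`. A fixed `c`
commutes with all such `u`. A selfadjoint `y : Alg A` with `‖y‖ ≤ 1` commuting with all `b ∈ B` is
`(u + u*) / 2` with the unitary `u = y + i √(1 - y²)` (`cfc`, commutes with all `b ∈ B` as well:
`B` is a ⋆-algebra, `Commute.cfc`), so `c` commutes with all `y ∈ B' ∩ A` and `c ∈ B` by `hB`; then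
`t (a * c) = 0` by `Perp`.
-/

set_option autoImplicit false

namespace Pool.Agent.QFP

theorem innerAveraging_of_fixed {H : Type*} [NormedAddCommGroup H] [InnerProductSpace ℂ H]
    [CompleteSpace H] {A B : VonNeumannAlgebra H} {τ : Alg A →ₗ[ℂ] ℂ} (hτ : IsTrace A τ)
    {K : Type*} [NormedAddCommGroup K] [InnerProductSpace ℂ K] [CompleteSpace K]
    {P : VonNeumannAlgebra K} {t : Alg P →ₗ[ℂ] ℂ} (ht : IsTrace P t) (hP : ConnesEmb P t)
    (θ : Alg A →⋆ₐ[ℂ] Alg P) (hθ : ∀ a, t (θ a) = τ a)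
    {G : Type*} [Group G] (σ : G → Alg P →⋆ₐ[ℂ] Alg P) (σ1 : ∀ x, σ 1 x = x)
    (σm : ∀ g g' x, σ (g * g') x = σ g (σ g' x)) (σt : ∀ g x, t (σ g x) = t x)
    (hB : ∀ b : Alg A, (b : H →L[ℂ] H) ∈ B → ∀ g, σ g (θ b) = θ b)
    (hc : ∀ a : Alg A, Perp A B τ a → ∀ c, (∀ g, σ g c = c) → t (θ a * c) = 0) :
    InnerAveraging A B τ := by
  classical
  refine innerAveraging_of_homs hτ ht hP ?_
  intro F ε hε
  have htr := ht.trAlg
  obtain ⟨l, hl, hl2⟩ := exists_small_avgs htr ht.ballComplete (fun x hx => ht.eq_zero_of_n2 x hx)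
    σ σ1 σm σt ((F.toList.filter (fun a => decide (Perp A B τ a))).map θ)
    (by
      intro x hx c hcf
      obtain ⟨a, ha, rfl⟩ := List.mem_map.1 hx
      have haP : Perp A B τ a := by simpa using (List.mem_filter.1 ha).2
      rw [htr.comm]
      refine hc a haP (star c) fun g => ?_
      rw [map_star, hcf g]) ε hε
  refine ⟨l.length, List.length_pos_iff.2 hl, fun s => (σ l[s.1]).comp θ, ?_, ?_, ?_⟩
  · intro s a
    change t (σ l[s.1] (θ a)) = τ a
    rw [σt, hθ]
  · intro s s' b hb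
    change σ l[s.1] (θ b) = σ l[s'.1] (θ b)
    rw [hB b hb, hB b hb]
  · intro a haF haP
    have h1 := hl2 (θ a) (List.mem_map.2 ⟨a, List.mem_filter.2 ⟨Finset.mem_toList.2 haF,
      by simpa using haP⟩, rfl⟩)
    have h2 : ((l.length : ℂ)⁻¹ • ∑ s : Fin l.length, ((σ l[s.1]).comp θ) a) = lavg σ l (θ a) := by
      unfold lavg
      rw [← Fin.sum_univ_fun_getElem]
      rfl
    rw [h2]
    exact h1

end Pool.Agent.QFP
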