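import Pool.Agent.QFP.A2
import Pool.Agent.QFP.L2
import Pool.Agent.QFP.F1x

/-!
# [F1y] Relative commutants

`innerAveraging_of_fixed`: apply `innerAveraging_of_homs` with `π s = σ (l s) ∘ θ` for the list `l` of
group elements given by `exists_small_avgs` for the elements `θ a`, `a ∈ F`, `Perp a`
(`IsTrace.ballComplete`, `IsTrace.eq_zero_of_n2`; the hypothesis of `exists_small_avgs` is
`t (star c * θ a) = 0` for fixed `c`: `star c` is fixed too and `t (star c * θ a) =
t (θ a * star c)`). `lavg σ l (θ a) = n⁻¹ ∑ s : Fin n, σ (l s) (θ a)`, `n = l.length`.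

`innerAveraging_of_bicommutant`: `P = A`, `θ = id`, `G` = the group of unitaries `u` of `Alg A`
commuting with all `b ∈ B` (a `Subgroup` of `unitary (Alg A)`), `σ u x = u x u*`. A fixed `c`
commutes with all such `u`. A selfadjoint `y : Alg A` with `‖y‖ ≤ 1` commuting with all `b ∈ B` is
`(u + u*) / 2` with the unitary `u = y + i √(1 - y²)` (`cfc`, commutes with all `b ∈ B` as well:
`B` is a ⋆-algebra, `Commute.cfc`), so `c` commutes with all `y ∈ B' ∩ A` and `c ∈ B` by `hB`; then
`t (a * c) = 0` by `Perp`.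
-/

set_option autoImplicit false

namespace Pool.Agent.QFP

/-- conjugation by a unitary -/
noncomputable def F1y_conj {D : Type*} [CStarAlgebra D] (u : D) (h1 : u * star u = 1)
    (h2 : star u * u = 1) : D →⋆ₐ[ℂ] D where
  toFun x := u * x * star u
  map_one' := by rw [mul_one, h1]
  map_mul' x y := by
    calc u * (x * y) * star u = u * x * 1 * y * star u := by noncomm_ring
      _ = u * x * (star u * u) * y * star u := by rw [h2]
      _ = u * x * star u * (u * y * star u) := by noncomm_ring
  map_zero' := by rw [mul_zero, zero_mul]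
  map_add' x y := by rw [mul_add, add_mul]
  commutes' r := by
    rw [← Algebra.commutes, mul_assoc, h1, mul_one]
  map_star' x := by
    rw [star_mul, star_mul, star_star, mul_assoc]

theorem innerAveraging_of_bicommutant {H : Type*} [NormedAddCommGroup H] [InnerProductSpace ℂ H]
    [CompleteSpace H] {A B : VonNeumannAlgebra H} (hBA : ∀ x : H →L[ℂ] H, x ∈ B → x ∈ A)
    {τ : Alg A →ₗ[ℂ] ℂ} (hτ : IsTrace A τ) (hA : ConnesEmb A τ)
    (hB : ∀ a : Alg A, (∀ y : Alg A, (∀ b : Alg A, (b : H →L[ℂ] H) ∈ B → b * y = y * b) →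
      a * y = y * a) → (a : H →L[ℂ] H) ∈ B) :
    InnerAveraging A B τ := by
  let SB : Set (Alg A) := {b | (b : H →L[ℂ] H) ∈ B}
  let M : StarSubalgebra ℂ (Alg A) := StarSubalgebra.centralizer ℂ SB
  have hMc : IsClosed (M : Set (Alg A)) := by
    show IsClosed ((StarSubalgebra.centralizer ℂ SB : StarSubalgebra ℂ (Alg A)) : Set (Alg A))
    rw [StarSubalgebra.coe_centralizer]
    exact Set.isClosed_centralizer _
  let iM : CStarAlgebra M := inferInstance
  have hstar : ∀ g : Alg A, g ∈ SB → star g ∈ SB := by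
    intro g hg
    show star (g : H →L[ℂ] H) ∈ B
    exact star_mem (show (g : H →L[ℂ] H) ∈ B from hg)
  have hu1 : ∀ u : unitary M, ((u : M) : Alg A) * star ((u : M) : Alg A) = 1 := fun u =>
    congrArg Subtype.val (Unitary.mul_star_self_of_mem u.2)
  have hu2 : ∀ u : unitary M, star ((u : M) : Alg A) * ((u : M) : Alg A) = 1 := fun u =>
    congrArg Subtype.val (Unitary.star_mul_self_of_mem u.2)
  refine innerAveraging_of_fixed hτ hτ hA (StarAlgHom.id ℂ (Alg A)) (fun a => rfl)
    (G := unitary M) (fun u => F1y_conj ((u : M) : Alg A) (hu1 u) (hu2 u)) ?_ ?_ ?_ ?_ ?_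
  · intro x
    show ((1 : M) : Alg A) * x * star ((1 : M) : Alg A) = x
    rw [OneMemClass.coe_one, star_one, one_mul, mul_one]
  · intro g g' x
    show (((g : M) : Alg A) * ((g' : M) : Alg A)) * x * star (((g : M) : Alg A) * ((g' : M) : Alg A)) =
      ((g : M) : Alg A) * (((g' : M) : Alg A) * x * star ((g' : M) : Alg A)) *
        star ((g : M) : Alg A)
    rw [star_mul]
    noncomm_ring
  · intro g x
    show τ (((g : M) : Alg A) * x * star ((g : M) : Alg A)) = τ x
    rw [hτ.tracial, ← mul_assoc, hu2 g, one_mul]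
  · intro b hb g
    show ((g : M) : Alg A) * b * star ((g : M) : Alg A) = b
    have h1 : b * ((g : M) : Alg A) = ((g : M) : Alg A) * b :=
      ((StarSubalgebra.mem_centralizer_iff ℂ).1 (g : M).2 b hb).1
    rw [← h1, mul_assoc, hu1 g, mul_one]
  · intro a ha c hc
    show τ (a * c) = 0
    apply ha c
    apply hB c
    intro y hy
    have hyM : y ∈ M := by
      rw [StarSubalgebra.mem_centralizer_iff]
      intro g hg
      exact ⟨hy g hg, hy (star g) (hstar g hg)⟩
    have h1 : (⟨y, hyM⟩ : M) ∈ Submodule.span ℂ (unitary M : Set M) := by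
      rw [CStarAlgebra.span_unitary]
      exact Submodule.mem_top
    have h2 : ∀ z : M, z ∈ Submodule.span ℂ (unitary M : Set M) →
        c * (z : Alg A) = (z : Alg A) * c := by
      intro z hz
      induction hz using Submodule.span_induction with
      | mem z hz =>
        have h3 : (z : Alg A) * c * star (z : Alg A) = c := hc ⟨z, hz⟩
        have h4 : star (z : Alg A) * (z : Alg A) = 1 := hu2 ⟨z, hz⟩
        calc c * (z : Alg A) = (z : Alg A) * c * star (z : Alg A) * (z : Alg A) := by rw [h3]
          _ = (z : Alg A) * c * (star (z : Alg A) * (z : Alg A)) := by rw [mul_assoc]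
          _ = (z : Alg A) * c := by rw [h4, mul_one]
      | zero => rw [ZeroMemClass.coe_zero, mul_zero, zero_mul]
      | add z z' _ _ h3 h4 =>
        show c * ((z : Alg A) + (z' : Alg A)) = ((z : Alg A) + (z' : Alg A)) * c
        rw [mul_add, add_mul, h3, h4]
      | smul r z _ h3 =>
        show c * (r • (z : Alg A)) = (r • (z : Alg A)) * c
        rw [mul_smul_comm, smul_mul_assoc, h3]
    exact h2 ⟨y, hyM⟩ h1

end Pool.Agent.QFP
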