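import Mathlib

/-!
# [G1] Finite groups with almost free cyclic elements

For `n ≥ 1`, a finite set `J` and `L` there is a finite group with elements `g j` (`j ∈ J`) with
`g j ^ n = 1` such that no alternating product `g j₁ ^ k₁ ⋯ g jₘ ^ kₘ`, `0 < kᵢ < n`, `1 ≤ m ≤ L`,
is trivial.

Proof. Let `W` be the finite set of reduced words: lists `[(j₁, k₁), …, (jₘ, kₘ)]` with `m ≤ L`,
`0 < kᵢ < n`, neighbouring `j` distinct. Every `w ∈ W` can be written uniquely as `(j, k) · w'`
with `0 ≤ k < n` and `w'` a reduced word not starting with `j` (`k = 0` meaning `w = w'`). Define the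
permutation `ρ j` of `W` by `(j, k) · w' ↦ (j, k + 1 mod n) · w'` if `w'.length ≤ L - 1` (that is
`w'.length < L`), and as the identity if `w'.length = L` (then `k = 0`). Then `ρ j ^ n = 1`, and
`ρ j₁ ^ k₁ ⋯ ρ jₘ ^ kₘ` maps the empty word to `[(j₁, k₁), …, (jₘ, kₘ)]`, which is not empty.
The group is `Equiv.Perm W`.
-/

set_option autoImplicit false

namespace Pool.Agent.QFP

open Monoid

/-- the cyclic factors -/
abbrev G1_M (J : Type) (n : ℕ) : J → Type := fun _ => Multiplicative (ZMod n)

/-- reduced words of length at most `L` -/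
def G1_F (J : Type) (n L : ℕ) : Type := {w : CoprodI.Word (G1_M J n) // w.toList.length ≤ L}

section

variable {J : Type} [DecidableEq J] {n L : ℕ}

theorem G1_len (j : J) (m : Multiplicative (ZMod n)) (w : CoprodI.Word (G1_M J n)) :
    ((CoprodI.of (M := G1_M J n) (i := j) m) • w).toList.length ≤
      (CoprodI.Word.equivPair j w).tail.toList.length + 1 := by
  rw [CoprodI.Word.of_smul_def]
  unfold CoprodI.Word.rcons
  split_ifs with h
  · exact Nat.le_succ _
  · exact le_of_eq (List.length_cons)

/-- the partial action of the `j`-th factor -/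
def G1_act (j : J) (m : Multiplicative (ZMod n)) (w : G1_F J n L) : G1_F J n L :=
  if h : (CoprodI.Word.equivPair j w.1).tail.toList.length < L then
    ⟨(CoprodI.of (M := G1_M J n) (i := j) m) • w.1, (G1_len j m w.1).trans h⟩ else w

theorem G1_act_pos (j : J) (m : Multiplicative (ZMod n)) (w : G1_F J n L)
    (h : (CoprodI.Word.equivPair j w.1).tail.toList.length < L) :
    (G1_act j m w).1 = (CoprodI.of (M := G1_M J n) (i := j) m) • w.1 := by
  unfold G1_act
  rw [dif_pos h]

theorem G1_act_neg (j : J) (m : Multiplicative (ZMod n)) (w : G1_F J n L)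
    (h : ¬ (CoprodI.Word.equivPair j w.1).tail.toList.length < L) :
    G1_act j m w = w := by
  unfold G1_act
  rw [dif_neg h]

theorem G1_act_one (j : J) (w : G1_F J n L) : G1_act j 1 w = w := by
  by_cases h : (CoprodI.Word.equivPair j w.1).tail.toList.length < L
  · apply Subtype.ext
    rw [G1_act_pos j 1 w h, map_one, one_smul]
  · exact G1_act_neg j 1 w h

theorem G1_act_mul (j : J) (m m' : Multiplicative (ZMod n)) (w : G1_F J n L) :
    G1_act j (m * m') w = G1_act j m (G1_act j m' w) := by
  by_cases h : (CoprodI.Word.equivPair j w.1).tail.toList.length < L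
  · apply Subtype.ext
    have h1 := G1_act_pos j m' w h
    have h2 : (CoprodI.Word.equivPair j (G1_act j m' w).1).tail.toList.length < L := by
      rw [h1, CoprodI.Word.equivPair_smul_same]
      exact h
    rw [G1_act_pos j _ w h, G1_act_pos j m _ h2, h1, map_mul, mul_smul]
  · rw [G1_act_neg j _ w h, G1_act_neg j m' w h, G1_act_neg j m w h]

/-- the action of the `j`-th factor -/
@[reducible] def G1_ma (j : J) : MulAction (Multiplicative (ZMod n)) (G1_F J n L) where
  smul m w := G1_act j m w
  one_smul w := G1_act_one j w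
  mul_smul m m' w := G1_act_mul j m m' w

/-- the homomorphism to the permutations -/
def G1_hom (j : J) : Multiplicative (ZMod n) →* Equiv.Perm (G1_F J n L) :=
  @MulAction.toPermHom _ _ _ (G1_ma j)

theorem G1_hom_apply (j : J) (m : Multiplicative (ZMod n)) (w : G1_F J n L) :
    G1_hom j m w = G1_act j m w := rfl

/-- the empty word -/
def G1_e : G1_F J n L := ⟨CoprodI.Word.empty, Nat.zero_le _⟩

theorem G1_ne (k : ℕ) (h0 : 0 < k) (hk : k < n) :
    (Multiplicative.ofAdd (1 : ZMod n)) ^ k ≠ 1 := by
  intro h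
  rw [← ofAdd_nsmul, nsmul_one, ofAdd_eq_one, ZMod.natCast_eq_zero_iff] at h
  exact absurd (Nat.le_of_dvd h0 h) (not_le.2 hk)

theorem G1_path (l : List (J × ℕ)) (hl : l.length ≤ L)
    (hc : l.IsChain (fun p q => p.1 ≠ q.1)) (hk : ∀ p ∈ l, 0 < p.2 ∧ p.2 < n) :
    (((l.map fun p => (G1_hom (L := L) p.1 (Multiplicative.ofAdd (1 : ZMod n))) ^ p.2).prod
      (G1_e (J := J) (n := n) (L := L))).1).toList =
      l.map (fun p => (⟨p.1, (Multiplicative.ofAdd (1 : ZMod n)) ^ p.2⟩ :
        Σ j : J, G1_M J n j)) := by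
  induction l with
  | nil => rfl
  | cons p l ih =>
    have hl' : l.length < L := hl
    have ih' := ih hl'.le hc.of_cons (fun q hq => hk q (List.mem_cons_of_mem _ hq))
    rw [List.map_cons, List.prod_cons, Equiv.Perm.mul_apply]
    set w := (l.map fun p => (G1_hom (L := L) p.1 (Multiplicative.ofAdd (1 : ZMod n))) ^ p.2).prod
      (G1_e (J := J) (n := n) (L := L)) with hw
    have hfst : CoprodI.Word.fstIdx w.1 ≠ some p.1 := by
      unfold CoprodI.Word.fstIdx
      rw [ih']
      cases l with
      | nil => simp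
      | cons q l =>
        simp only [List.map_cons, List.head?_cons, Option.map_some, ne_eq, Option.some.injEq]
        intro h
        rw [List.isChain_cons_cons] at hc
        exact hc.1 h.symm
    have htail : (CoprodI.Word.equivPair p.1 w.1).tail.toList.length < L := by
      rw [CoprodI.Word.equivPair_eq_of_fstIdx_ne hfst]
      show w.1.toList.length < L
      rw [ih', List.length_map]
      exact hl'
    have hne := G1_ne (n := n) p.2 (hk p List.mem_cons_self).1 (hk p List.mem_cons_self).2
    rw [← map_pow, G1_hom_apply, G1_act_pos p.1 _ w htail,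
      ← CoprodI.Word.cons_eq_smul (h1 := hfst) (h2 := hne)]
    show _ :: w.1.toList = _
    rw [ih', List.map_cons]

end

theorem exists_group (J : Type) [Fintype J] [DecidableEq J] (n : ℕ) (hn : 0 < n) (L : ℕ) :
    ∃ (Γ : Type) (_ : Group Γ) (_ : Fintype Γ) (_ : DecidableEq Γ) (g : J → Γ),
      (∀ j, g j ^ n = 1) ∧
      ∀ l : List (J × ℕ), l ≠ [] → l.length ≤ L → l.IsChain (fun p q => p.1 ≠ q.1) →
        (∀ p ∈ l, 0 < p.2 ∧ p.2 < n) → (l.map fun p => g p.1 ^ p.2).prod ≠ 1 := by
  classical
  have hn' : NeZero n := ⟨hn.ne'⟩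
  have hfin : Finite (G1_F J n L) := by
    have h1 : {l : List (Σ j : J, G1_M J n j) | l.length ≤ L}.Finite :=
      List.finite_length_le _ _
    have h2 : Finite {l : List (Σ j : J, G1_M J n j) // l.length ≤ L} := h1.to_subtype
    refine Finite.of_injective
      (fun w : G1_F J n L => (⟨w.1.toList, w.2⟩ :
        {l : List (Σ j : J, G1_M J n j) // l.length ≤ L})) ?_
    intro a b hab
    apply Subtype.ext
    exact CoprodI.Word.ext (congrArg Subtype.val hab)
  refine ⟨Equiv.Perm (G1_F J n L), inferInstance, Fintype.ofFinite _, inferInstance,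
    fun j => G1_hom j (Multiplicative.ofAdd (1 : ZMod n)), ?_, ?_⟩
  · intro j
    rw [← map_pow, ← ofAdd_nsmul, nsmul_one, ZMod.natCast_self, ofAdd_zero, map_one]
  · intro l hl0 hl hc hk h1
    have h2 := G1_path (n := n) l hl hc hk
    rw [h1] at h2
    have h3 : ([] : List (Σ j : J, G1_M J n j)) = _ := h2
    have h4 := congrArg List.length h3
    rw [List.length_map] at h4
    exact hl0 (List.length_eq_zero_iff.1 h4.symm)

end Pool.Agent.QFP
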