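import Pool.Agent.QFP.G1
import Pool.Agent.QFP.C1

/-!
# [G2] Almost free copies of `ℂⁿ` in matrix algebras

Take the group of `G1` and its left regular representation `λ` by permutation matrices indexed by
`Γ` (`(λ g) x y = if x = g * y then 1 else 0`). Then `ntr (λ g) = 0` for `g ≠ 1`. With
`U = λ (g j)`, `U ^ n = 1`, and `ζ = exp (2 π i / n)` put
`Θ j f = ∑_{k < n} fhat k • U ^ k`, where `fhat k = n⁻¹ ∑ s, f s * ζ ^ (-(s k))`.
Equivalently `Θ j f = ∑ s, f s • E s` with the mutually orthogonal projections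
`E s = n⁻¹ ∑_{k < n} ζ ^ (-(s k)) • U ^ k`, `∑ s, E s = 1`; so `Θ j` is a unital ⋆-homomorphism.
`ntr (U ^ k) = 0` for `0 < k < n` (apply `G1` with `L ≥ 1` to the one letter word), so
`ntr (Θ j f) = fhat 0`. If `∑ s, f s = 0` then `fhat 0 = 0`, and a product of such elements with
alternating indices is a combination of alternating products of the `λ (g j) ^ k`, `0 < k < n`.
(Apply `G1` with `L + 1` in place of `L` to have the one letter words as well.)
-/

set_option autoImplicit false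

namespace Pool.Agent.QFP

open scoped Matrix.Norms.L2Operator

section G2

variable {Γ : Type} [Group Γ] [Fintype Γ] [DecidableEq Γ]

set_option linter.unusedSectionVars false

/-- the left regular representation -/
noncomputable def G2_lam (g : Γ) : Matrix Γ Γ ℂ := Matrix.of fun x y => if x = g * y then 1 else 0

theorem G2_lam_apply (g x y : Γ) : G2_lam g x y = if x = g * y then 1 else 0 := rfl

theorem G2_lam_one : G2_lam (1 : Γ) = 1 := by
  ext x y
  rw [G2_lam_apply, one_mul, Matrix.one_apply]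

theorem G2_lam_mul (g h : Γ) : G2_lam (g * h) = G2_lam g * G2_lam h := by
  ext x y
  rw [Matrix.mul_apply, Finset.sum_eq_single (h * y)]
  · rw [G2_lam_apply, G2_lam_apply, G2_lam_apply, if_pos rfl, mul_one, mul_assoc]
  · intro z _ hz
    rw [G2_lam_apply h z y, if_neg hz, mul_zero]
  · intro hh
    exact absurd (Finset.mem_univ _) hh

theorem G2_lam_star (g : Γ) : star (G2_lam g) = G2_lam g⁻¹ := by
  ext x y
  rw [Matrix.star_apply, G2_lam_apply, G2_lam_apply]
  by_cases h : y = g * x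
  · rw [if_pos h, if_pos (by rw [h, inv_mul_cancel_left]), star_one]
  · rw [if_neg h, if_neg (fun h' => h (by rw [h', mul_inv_cancel_left])), star_zero]

theorem G2_lam_pow (g : Γ) (k : ℕ) : G2_lam g ^ k = G2_lam (g ^ k) := by
  induction k with
  | zero => rw [pow_zero, pow_zero, G2_lam_one]
  | succ k ih => rw [pow_succ, pow_succ, ih, G2_lam_mul]

theorem G2_ntr_ne {g : Γ} (h : g ≠ 1) : ntr (G2_lam g) = 0 := by
  rw [ntr_apply, Matrix.trace, Finset.sum_eq_zero, mul_zero]
  intro x _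
  rw [Matrix.diag_apply, G2_lam_apply, if_neg]
  intro h'
  exact h (by
    have h2 : g * x = 1 * x := by rw [one_mul]; exact h'.symm
    exact mul_right_cancel h2)

theorem G2_ntr_one : ntr (G2_lam (1 : Γ)) = 1 := by
  have : Nonempty Γ := ⟨1⟩
  rw [G2_lam_one]
  exact ntr_trAlg.one

theorem G2_root_sum {ω : ℂ} {n : ℕ} (h1 : ω ^ n = 1) (h : ω ≠ 1) :
    ∑ k ∈ Finset.range n, ω ^ k = 0 := by
  have h2 := mul_geom_sum ω n
  rw [h1, sub_self] at h2
  exact (mul_eq_zero.1 h2).resolve_left (sub_ne_zero.2 h)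

/-- the spectral projections of a unitary of finite order -/
noncomputable def G2_E (n : ℕ) (ζ : ℂ) (U : Matrix Γ Γ ℂ) (s : ℕ) : Matrix Γ Γ ℂ :=
  (n : ℂ)⁻¹ • ∑ k ∈ Finset.range n, ((ζ ^ s)⁻¹) ^ k • U ^ k

variable {n : ℕ} (hn : 0 < n) {ζ : ℂ} (hζ : IsPrimitiveRoot ζ n) {U : Matrix Γ Γ ℂ} (hU : U ^ n = 1)

theorem G2_E_eq (s : ℕ) : G2_E n ζ U s = (n : ℂ)⁻¹ • ∑ k ∈ Finset.range n, ((ζ ^ s)⁻¹ • U) ^ k := by
  unfold G2_E
  congr 1
  exact Finset.sum_congr rfl (fun k _ => (smul_pow _ _ _).symm)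

include hn hζ in
theorem G2_zeta_ne (s : ℕ) : ζ ^ s ≠ 0 := pow_ne_zero s (hζ.ne_zero hn.ne')

include hζ hU in
theorem G2_V_pow (s : ℕ) : ((ζ ^ s)⁻¹ • U) ^ n = 1 := by
  rw [smul_pow, hU, inv_pow, ← pow_mul, mul_comm, pow_mul, hζ.pow_eq_one, one_pow, inv_one, one_smul]

include hn hζ hU in
theorem G2_E_mul_U (s : ℕ) : G2_E n ζ U s * U = ζ ^ s • G2_E n ζ U s := by
  have h1 := geom_sum_mul ((ζ ^ s)⁻¹ • U) n
  rw [G2_V_pow hζ hU, sub_self, mul_sub, mul_one, sub_eq_zero, mul_smul_comm] at h1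
  rw [G2_E_eq, smul_mul_assoc]
  rw [smul_comm (ζ ^ s)]
  congr 1
  conv_rhs => rw [← h1]
  rw [smul_smul, mul_inv_cancel₀ (G2_zeta_ne hn hζ s), one_smul]

include hn hζ hU in
theorem G2_U_mul_E (s : ℕ) : U * G2_E n ζ U s = ζ ^ s • G2_E n ζ U s := by
  have h1 := mul_geom_sum ((ζ ^ s)⁻¹ • U) n
  rw [G2_V_pow hζ hU, sub_self, sub_mul, one_mul, sub_eq_zero, smul_mul_assoc] at h1
  rw [G2_E_eq, mul_smul_comm]
  rw [smul_comm (ζ ^ s)]
  congr 1
  conv_rhs => rw [← h1]
  rw [smul_smul, mul_inv_cancel₀ (G2_zeta_ne hn hζ s), one_smul]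

theorem G2_mul_pow {X : Matrix Γ Γ ℂ} {z : ℂ} (h : X * U = z • X) (k : ℕ) : X * U ^ k = z ^ k • X := by
  induction k with
  | zero => rw [pow_zero, pow_zero, mul_one, one_smul]
  | succ k ih => rw [pow_succ, ← mul_assoc, ih, smul_mul_assoc, h, smul_smul, pow_succ]

include hn hζ in
theorem G2_coef (s s' : Fin n) :
    (n : ℂ)⁻¹ * ∑ k ∈ Finset.range n, ((ζ ^ (s' : ℕ))⁻¹ * ζ ^ (s : ℕ)) ^ k = if s = s' then 1 else 0 := by
  have hn0 : (n : ℂ) ≠ 0 := Nat.cast_ne_zero.2 hn.ne'
  by_cases h : s = s'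
  · subst h
    rw [if_pos rfl, inv_mul_cancel₀ (G2_zeta_ne hn hζ s)]
    simp only [one_pow, Finset.sum_const, Finset.card_range, nsmul_eq_mul, mul_one]
    exact inv_mul_cancel₀ hn0
  · rw [if_neg h, G2_root_sum, mul_zero]
    · rw [mul_pow, inv_pow, ← pow_mul, ← pow_mul, mul_comm _ n, mul_comm _ n, pow_mul, pow_mul,
        hζ.pow_eq_one, one_pow, one_pow, inv_one, one_mul]
    · intro h1
      apply h
      have h2 : ζ ^ (s : ℕ) = ζ ^ (s' : ℕ) := by
        rw [inv_mul_eq_one₀ (G2_zeta_ne hn hζ s')] at h1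
        exact h1.symm
      exact Fin.ext (hζ.pow_inj s.2 s'.2 h2)

include hn hζ in
theorem G2_mul_E {X : Matrix Γ Γ ℂ} (s s' : Fin n) (h : X * U = ζ ^ (s : ℕ) • X) :
    X * G2_E n ζ U s' = if s = s' then X else 0 := by
  unfold G2_E
  rw [mul_smul_comm, Finset.mul_sum]
  have h1 : ∀ k ∈ Finset.range n, X * (((ζ ^ (s' : ℕ))⁻¹) ^ k • U ^ k) =
      (((ζ ^ (s' : ℕ))⁻¹ * ζ ^ (s : ℕ)) ^ k) • X := by
    intro k _
    rw [mul_smul_comm, G2_mul_pow h, smul_smul, mul_pow]
  rw [Finset.sum_congr rfl h1, ← Finset.sum_smul, smul_smul, G2_coef hn hζ]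
  split_ifs
  · exact one_smul _ _
  · exact zero_smul _ _

include hn hζ hU in
theorem G2_star_E (hU' : star U * U = 1) (s : Fin n) : star (G2_E n ζ U s) = G2_E n ζ U s := by
  have h0 := G2_zeta_ne hn hζ s
  have hnorm : ‖ζ ^ (s : ℕ)‖ = 1 := by
    rw [norm_pow, Complex.norm_eq_one_of_pow_eq_one hζ.pow_eq_one hn.ne', one_pow]
  have hst : star (ζ ^ (s : ℕ)) = (ζ ^ (s : ℕ))⁻¹ := (Complex.inv_eq_conj hnorm).symm
  have h1 : star (G2_E n ζ U s) * U = ζ ^ (s : ℕ) • star (G2_E n ζ U s) := by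
    have h2 := congrArg star (G2_U_mul_E hn hζ hU s)
    rw [star_mul, star_smul, hst] at h2
    have h3 : star (G2_E n ζ U s) = (ζ ^ (s : ℕ))⁻¹ • (star (G2_E n ζ U s) * U) := by
      rw [← smul_mul_assoc, ← h2, mul_assoc, hU', mul_one]
    conv_rhs => rw [h3]
    rw [smul_smul, mul_inv_cancel₀ h0, one_smul]
  have h4 := G2_mul_E hn hζ (X := star (G2_E n ζ U s)) s s h1
  rw [if_pos rfl] at h4
  have h5 := congrArg star h4
  rw [star_mul, star_star] at h5
  exact h4.symm.trans h5

include hn hζ in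
theorem G2_sum_E : ∑ s : Fin n, G2_E n ζ U s = 1 := by
  have hn0 : (n : ℂ) ≠ 0 := Nat.cast_ne_zero.2 hn.ne'
  unfold G2_E
  rw [← Finset.smul_sum, Finset.sum_comm]
  have h1 : ∀ k ∈ Finset.range n, ∑ s : Fin n, ((ζ ^ (s : ℕ))⁻¹) ^ k • U ^ k =
      (if k = 0 then (n : ℂ) else 0) • U ^ k := by
    intro k hk
    rw [Finset.mem_range] at hk
    rw [← Finset.sum_smul]
    congr 1
    have h2 : ∀ s : Fin n, ((ζ ^ (s : ℕ))⁻¹) ^ k = ((ζ ^ k)⁻¹) ^ (s : ℕ) := by
      intro s
      rw [inv_pow, inv_pow, ← pow_mul, ← pow_mul, mul_comm]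
    rw [Finset.sum_congr rfl (fun s _ => h2 s), Fin.sum_univ_eq_sum_range (fun s => ((ζ ^ k)⁻¹) ^ s)]
    by_cases hk0 : k = 0
    · subst hk0
      rw [if_pos rfl, pow_zero, inv_one]
      simp
    · rw [if_neg hk0]
      apply G2_root_sum
      · rw [inv_pow, ← pow_mul, mul_comm, pow_mul, hζ.pow_eq_one, one_pow, inv_one]
      · intro h3
        rw [inv_eq_one] at h3
        exact hζ.pow_ne_one_of_pos_of_lt hk0 hk h3
  rw [Finset.sum_congr rfl h1, Finset.sum_eq_single 0]
  · rw [if_pos rfl, smul_smul, inv_mul_cancel₀ hn0, one_smul, pow_zero]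
  · intro k _ hk
    rw [if_neg hk, zero_smul]
  · intro h2
    exact absurd (Finset.mem_range.2 hn) h2

/-- the homomorphism given by orthogonal projections -/
noncomputable def G2_theta (E : Fin n → Matrix Γ Γ ℂ) (h1 : ∑ s, E s = 1)
    (h2 : ∀ s s', E s * E s' = if s = s' then E s else 0) (h3 : ∀ s, star (E s) = E s) :
    (Fin n → ℂ) →⋆ₐ[ℂ] Matrix Γ Γ ℂ where
  toFun f := ∑ s, f s • E s
  map_one' := by
    simp only [Pi.one_apply, one_smul]
    exact h1
  map_mul' f g := by
    rw [Finset.sum_mul]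
    refine Finset.sum_congr rfl (fun s _ => ?_)
    rw [Finset.mul_sum, Finset.sum_eq_single s]
    · rw [smul_mul_smul_comm, h2, if_pos rfl, Pi.mul_apply]
    · intro s' _ hs'
      rw [smul_mul_smul_comm, h2, if_neg (Ne.symm hs'), smul_zero]
    · intro h
      exact absurd (Finset.mem_univ _) h
  map_zero' := by
    simp only [Pi.zero_apply, zero_smul, Finset.sum_const_zero]
  map_add' f g := by
    simp only [Pi.add_apply, add_smul, Finset.sum_add_distrib]
  commutes' r := by
    have h4 : ∀ s : Fin n, (algebraMap ℂ (Fin n → ℂ) r) s = r := fun s => rfl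
    simp only [h4]
    rw [← Finset.smul_sum, h1, Algebra.algebraMap_eq_smul_one]
  map_star' f := by
    rw [star_sum]
    refine Finset.sum_congr rfl (fun s _ => ?_)
    rw [star_smul, h3, Pi.star_apply]

theorem G2_theta_apply (E : Fin n → Matrix Γ Γ ℂ) (h1 : ∑ s, E s = 1)
    (h2 : ∀ s s', E s * E s' = if s = s' then E s else 0) (h3 : ∀ s, star (E s) = E s) (f : Fin n → ℂ) :
    G2_theta E h1 h2 h3 f = ∑ s, f s • E s := rfl

theorem G2_fourier (f : Fin n → ℂ) : ∑ s : Fin n, f s • G2_E n ζ U s =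
    ∑ k ∈ Finset.range n, ((n : ℂ)⁻¹ * ∑ s : Fin n, f s * ((ζ ^ (s : ℕ))⁻¹) ^ k) • U ^ k := by
  unfold G2_E
  have h1 : ∀ s : Fin n, f s • (n : ℂ)⁻¹ • ∑ k ∈ Finset.range n, ((ζ ^ (s : ℕ))⁻¹) ^ k • U ^ k =
      ∑ k ∈ Finset.range n, ((n : ℂ)⁻¹ * (f s * ((ζ ^ (s : ℕ))⁻¹) ^ k)) • U ^ k := by
    intro s
    rw [smul_smul, Finset.smul_sum]
    refine Finset.sum_congr rfl (fun k _ => ?_)
    rw [smul_smul]
    congr 1
    ring
  rw [Finset.sum_congr rfl (fun s _ => h1 s), Finset.sum_comm]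
  refine Finset.sum_congr rfl (fun k _ => ?_)
  rw [← Finset.sum_smul, Finset.mul_sum]

end G2

/-- the words over the indices of `l` -/
def G2_span {Γ J : Type} [Group Γ] [Fintype Γ] [DecidableEq Γ] (n : ℕ) (g : J → Γ)
    (js : List J) : Submodule ℂ (Matrix Γ Γ ℂ) :=
  Submodule.span ℂ {x | ∃ w : List (J × ℕ), w.map Prod.fst = js ∧ (∀ p ∈ w, 0 < p.2 ∧ p.2 < n) ∧
    x = G2_lam (w.map fun p => g p.1 ^ p.2).prod}

theorem exists_theta (J : Type) [Fintype J] [DecidableEq J] (n : ℕ) (hn : 0 < n) (L : ℕ) :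
    ∃ (Γ : Type) (_ : Fintype Γ) (_ : DecidableEq Γ) (_ : Nonempty Γ)
      (Θ : J → ((Fin n → ℂ) →⋆ₐ[ℂ] Matrix Γ Γ ℂ)),
      (∀ j f, ntr (Θ j f) = (n : ℂ)⁻¹ * ∑ s, f s) ∧
      ∀ l : List (J × (Fin n → ℂ)), l ≠ [] → l.length ≤ L → l.IsChain (fun p q => p.1 ≠ q.1) →
        (∀ p ∈ l, ∑ s, p.2 s = 0) → ntr (l.map fun p => Θ p.1 p.2).prod = 0 := by
  obtain ⟨Γ, hG, hF, hD, g, hg, hfree⟩ := exists_group J n hn (L + 1)
  have hζ := Complex.isPrimitiveRoot_exp n hn.ne'
  set ζ := Complex.exp (2 * Real.pi * Complex.I / n) with hζdef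
  have hU : ∀ j, G2_lam (g j) ^ n = 1 := fun j => by rw [G2_lam_pow, hg, G2_lam_one]
  have hU' : ∀ j, star (G2_lam (g j)) * G2_lam (g j) = 1 := fun j => by
    rw [G2_lam_star, ← G2_lam_mul, inv_mul_cancel, G2_lam_one]
  have h2 : ∀ j, ∀ s s' : Fin n, G2_E n ζ (G2_lam (g j)) s * G2_E n ζ (G2_lam (g j)) s' =
      if s = s' then G2_E n ζ (G2_lam (g j)) s else 0 := fun j s s' =>
    G2_mul_E hn hζ s s' (G2_E_mul_U hn hζ (hU j) s)
  obtain ⟨Θ, htheta⟩ : ∃ Θ : J → ((Fin n → ℂ) →⋆ₐ[ℂ] Matrix Γ Γ ℂ), ∀ j f, Θ j f =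
      ∑ k ∈ Finset.range n, ((n : ℂ)⁻¹ * ∑ s : Fin n, f s * ((ζ ^ (s : ℕ))⁻¹) ^ k) •
        G2_lam (g j) ^ k := by
    refine ⟨fun j => G2_theta (fun s : Fin n => G2_E n ζ (G2_lam (g j)) s) (G2_sum_E hn hζ) (h2 j)
      (G2_star_E hn hζ (hU j) (hU' j)), ?_⟩
    intro j f
    rw [G2_theta_apply]
    exact G2_fourier f
  refine ⟨Γ, hF, hD, ⟨1⟩, Θ, ?_, ?_⟩
  · intro j f
    rw [htheta, map_sum, Finset.sum_eq_single 0]
    · rw [map_smul, pow_zero, ← G2_lam_one, G2_ntr_one, smul_eq_mul, mul_one]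
      simp only [pow_zero, mul_one]
    · intro k hk hk0
      rw [Finset.mem_range] at hk
      have h3 := hfree [(j, k)] (by simp) (by simp) (List.isChain_singleton _) (by
        intro p hp
        rw [List.mem_singleton] at hp
        subst hp
        exact ⟨Nat.pos_of_ne_zero hk0, hk⟩)
      simp only [List.map_cons, List.map_nil, List.prod_cons, List.prod_nil, mul_one] at h3
      rw [map_smul, G2_lam_pow, G2_ntr_ne h3, smul_zero]
    · intro h3
      exact absurd (Finset.mem_range.2 hn) h3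
  · have key : ∀ l : List (J × (Fin n → ℂ)), (∀ p ∈ l, ∑ s, p.2 s = 0) →
        (l.map fun p => Θ p.1 p.2).prod ∈ G2_span n g (l.map Prod.fst) := by
      intro l
      induction l with
      | nil =>
        intro _
        refine Submodule.subset_span ⟨[], rfl, ?_, ?_⟩
        · intro p hp
          exact absurd hp List.not_mem_nil
        · simp only [List.map_nil, List.prod_nil]
          exact G2_lam_one.symm
      | cons p l ih =>
        intro hl
        have ih' := ih (fun q hq => hl q (List.mem_cons_of_mem p hq))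
        have hp := hl p List.mem_cons_self
        simp only [List.map_cons, List.prod_cons]
        rw [htheta, Finset.sum_mul]
        refine Submodule.sum_mem _ (fun k hk => ?_)
        rw [Finset.mem_range] at hk
        rw [smul_mul_assoc]
        by_cases hk0 : k = 0
        · subst hk0
          simp only [pow_zero, mul_one]
          rw [hp, mul_zero, zero_smul]
          exact Submodule.zero_mem _
        · refine Submodule.smul_mem _ _ ?_
          have hmap : ∀ x ∈ G2_span n g (l.map Prod.fst), G2_lam (g p.1) ^ k * x ∈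
              G2_span n g (p.1 :: l.map Prod.fst) := by
            intro x hx
            unfold G2_span at hx
            induction hx using Submodule.span_induction with
            | mem x hx =>
              obtain ⟨w, hw1, hw2, rfl⟩ := hx
              refine Submodule.subset_span ⟨(p.1, k) :: w, ?_, ?_, ?_⟩
              · rw [List.map_cons, hw1]
              · intro q hq
                rcases List.mem_cons.1 hq with rfl | hq
                · exact ⟨Nat.pos_of_ne_zero hk0, hk⟩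
                · exact hw2 q hq
              · rw [List.map_cons, List.prod_cons, G2_lam_mul, G2_lam_pow]
            | zero =>
              rw [mul_zero]
              exact Submodule.zero_mem _
            | add x y _ _ hx hy =>
              rw [mul_add]
              exact Submodule.add_mem _ hx hy
            | smul c x _ hx =>
              rw [mul_smul_comm]
              exact Submodule.smul_mem _ c hx
          exact hmap _ ih'
    intro l hl0 hlL hlc hl
    have hmem := key l hl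
    have hspan : ∀ x ∈ G2_span n g (l.map Prod.fst), ntr x = 0 := by
      intro x hx
      unfold G2_span at hx
      induction hx using Submodule.span_induction with
      | mem x hx =>
        obtain ⟨w, hw1, hw2, rfl⟩ := hx
        have hlen : w.length = l.length := by
          have h3 := congrArg List.length hw1
          rwa [List.length_map, List.length_map] at h3
        apply G2_ntr_ne
        apply hfree w
        · rintro rfl
          apply hl0
          rw [List.length_nil] at hlen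
          exact List.length_eq_zero_iff.1 hlen.symm
        · omega
        · have h3 : (l.map Prod.fst).IsChain (fun a b => a ≠ b) := (List.isChain_map Prod.fst).2 hlc
          rw [← hw1] at h3
          exact (List.isChain_map Prod.fst).1 h3
        · exact hw2
      | zero => exact map_zero _
      | add x y _ _ hx hy => rw [map_add, hx, hy, add_zero]
      | smul c x _ hx => rw [map_smul, hx, smul_zero]
    exact hspan _ hmem

end Pool.Agent.QFP
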