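import Pool.Agent.QFP.K4
import Pool.Agent.QFP.W1
import Pool.Agent.QFP.S1
import Pool.Agent.QFP.T4
import Pool.Agent.QFP.H1
import Pool.Agent.QFP.H2x

/-!
# [H2y] Graded algebras over hyperlinear groups

Letters `S = Σ g : G, V g`, `mul (g, a) (h, b) = (g h, a b)`, `st (g, a) = (g⁻¹, a*)`,
`isB (g, a) = (g = 1)`, `isC (g, a) = (g ≠ 1)`, `R (g, a) = ‖a‖`, `T (g, a) = τ a`, `E = Alg M`,
`c j (g, a) = ι j a`. Index set `Λ = Finset (Alg A) × Finset G × ℕ` with `atTop`; for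
`α = (F, F', m)` take microstates `X : Alg A → Matrix (Fin ν)` of `F` for `m` and
`ε = 1 / (m + 1)` (`ConnesEmb A`), `ψ : G → Matrix (Fin k)` from `IsHyperlinear` for `F'` and
`1 / (m + 1)`, and `w : Fin N → Matrix (Fin k)` from `H1`;
`x α (g, a) s = X a ⊗ (w s * ψ g * star (w s))` (`Matrix.kroneckerMap`), `κ α = Fin ν × Fin k`.
* `‖x α (g, a) s‖ ≤ ‖X a‖ * 1` (`norm_kron_le`, unitaries have norm at most 1).
* `tpi (x α (g, a)) = ntr (X a) * ntr (ψ g)`: for `g = 1` it tends to `τ a`; for `g ≠ 1` it tends to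
  `0 = τ a` (`Vtr`), as `‖ntr (X a)‖ ≤ ‖a‖`.
* `xmul`: `X (ab) ⊗ wψ(gh)w* - X a X b ⊗ wψ(g)ψ(h)w* = (X (ab) - X a X b) ⊗ wψ(gh)w* +
  X a X b ⊗ w(ψ(gh) - ψ(g)ψ(h))w*`, whose 2-norm is at most
  `n2 (X (ab) - X a X b) + ‖a‖ ‖b‖ n2 (ψ(gh) - ψ(g)ψ(h))` (`words_mul`, `n2` of a Kronecker
  product is the product).
* `xst`: similarly `n2 (ψ g⁻¹ - star (ψ g)) = n2 (ψ g * ψ g⁻¹ - 1)`, small for `g, g⁻¹ ∈ F'`.
* `xB`: `ψ 1 = 1`, so `x α (1, a) s = X a ⊗ 1`.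
* `xC`: the average is `X a ⊗ (ntr (ψ g) • 1)`.
* `hdec`: `isB` or `isC`.
* `cfree`: for `a ∈ V g`, `g ≠ 1`, `Perp A B τ a`: for `b ∈ B`, `b ∈ V 1`, `a * b ∈ V (g * 1)`.
`tuple_model_any` gives models for the letters `(j, (g, a))`. Density: `density_of_generates` for the
`ι j a` in `M` and for the homogeneous elements in `A` (`Vgen`), and `density_trans`. Then
`connesEmb_of_model`.
-/

set_option autoImplicit false

namespace Pool.Agent.QFP

open Filter Topology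
open scoped Matrix.Norms.L2Operator

universe u v

theorem connesEmb_of_graded {H : Type*} [NormedAddCommGroup H] [InnerProductSpace ℂ H]
    [CompleteSpace H] {A B : VonNeumannAlgebra H} {τ : Alg A →ₗ[ℂ] ℂ} (hτ : IsTrace A τ)
    (hA : ConnesEmb A τ) {G : Type*} [Group G] (hG : IsHyperlinear G)
    (V : G → Submodule ℂ (Alg A))
    (V1 : ∀ a : Alg A, a ∈ V 1 ↔ (a : H →L[ℂ] H) ∈ B)
    (Vmul : ∀ g h a b, a ∈ V g → b ∈ V h → a * b ∈ V (g * h))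
    (Vstar : ∀ g a, a ∈ V g → star a ∈ V g⁻¹)
    (Vtr : ∀ g a, g ≠ 1 → a ∈ V g → τ a = 0)
    (Vgen : (A : Set (H →L[ℂ] H)) ⊆ Set.centralizer (Set.centralizer
      {x | ∃ g, ∃ a ∈ V g, x = ((a : Alg A) : H →L[ℂ] H)}))
    {K : Type*} [NormedAddCommGroup K] [InnerProductSpace ℂ K] [CompleteSpace K]
    {M : VonNeumannAlgebra K} {φ : Alg M →ₗ[ℂ] ℂ} (hφ : IsTrace M φ)
    {J : Type*} {ι : J → Alg A →⋆ₐ[ℂ] Alg M} (hι : IsFreePower A B τ M φ ι) :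
    ConnesEmb M φ := by
  classical
  obtain ⟨Λ, ℱ, hne, n, hn, ν, hν, x, x1, x2, x3, x4, x5, x6⟩ :=
    graded_models hτ hA hG V Vmul Vstar Vtr
  have i1 : ∀ α, Nonempty (Fin (ν α)) := fun α => ⟨⟨0, hν α⟩⟩
  have hperp : ∀ (g : G) (a : Alg A), g ≠ 1 → a ∈ V g → Perp A B τ a := by
    intro g a hg ha b hb
    have h1 := Vmul g 1 a b ha ((V1 b).2 hb)
    rw [mul_one] at h1
    exact Vtr g _ hg h1
  have hV1 : ∀ (g : G) (a : Alg A), g = 1 → a ∈ V g → a ∈ V 1 := by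
    rintro g a rfl h
    exact h
  have Hmod := tuple_model_any (S := Σ g : G, V g) (J := J)
    (fun a b => ⟨a.1 * b.1, ⟨(a.2 : Alg A) * (b.2 : Alg A), Vmul a.1 b.1 _ _ a.2.2 b.2.2⟩⟩)
    (fun a => ⟨a.1⁻¹, ⟨star (a.2 : Alg A), Vstar a.1 _ a.2.2⟩⟩)
    (fun a => a.1 = 1) (fun a => a.1 ≠ 1) (fun a => ‖(a.2 : Alg A)‖) (fun a => τ (a.2 : Alg A))
    φ hφ.trAlg (fun j a => ι j (a.2 : Alg A))
    (fun j a b => map_mul (ι j) _ _) (fun j a => map_star (ι j) _)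
    (fun i j b hb => hι.agree i j _ ((V1 _).1 (hV1 b.1 _ hb b.2.2)))
    (fun j a => hι.trace_eq j _)
    (by
      intro l hl hch hC
      have h1 := hι.free (l.map fun p => (p.1, (p.2.2 : Alg A))) (by simpa using hl)
        (by
          rw [List.isChain_map]
          exact hch)
        (by
          intro p hp
          obtain ⟨q, hq, rfl⟩ := List.mem_map.1 hp
          exact hperp q.2.1 _ (hC q hq) q.2.2.2)
      rw [List.map_map] at h1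
      exact h1)
    ℱ n hn (fun α => Fin (ν α)) x x1
    (fun a b => x2 a.1 b.1 a.2 b.2) (fun a => x3 a.1 a.2) x4
    (fun b hb => Filter.Eventually.of_forall fun α s s' => x5 b hb α s s')
    (fun a ha => x6 a ha)
    (by
      intro a
      by_cases h : a.1 = 1
      · exact Or.inl h
      · exact Or.inr (Or.inl h))
  have e : {x : K →L[ℂ] K | ∃ k : J × Alg A, x = ((ι k.1 k.2 : Alg M) : K →L[ℂ] K)} =
      {x | ∃ j a, x = ((ι j a : Alg M) : K →L[ℂ] K)} := by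
    ext z
    constructor
    · rintro ⟨k, hk⟩
      exact ⟨k.1, k.2, hk⟩
    · rintro ⟨j, a, h⟩
      exact ⟨(j, a), h⟩
  have e2 : {x : H →L[ℂ] H | ∃ k : Σ g : G, V g, x = ((k.2 : Alg A) : H →L[ℂ] H)} =
      {x | ∃ g, ∃ a ∈ V g, x = ((a : Alg A) : H →L[ℂ] H)} := by
    ext z
    constructor
    · rintro ⟨k, hk⟩
      exact ⟨k.1, k.2, k.2.2, hk⟩
    · rintro ⟨g, a, ha, h⟩
      exact ⟨⟨g, ⟨a, ha⟩⟩, h⟩
  refine connesEmb_of_model hφ (κ := J × (Σ g : G, V g)) (fun p => ι p.1 (p.2.2 : Alg A))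
    (fun p => ‖(p.2.2 : Alg A)‖)
    (fun p => NonUnitalStarAlgHom.norm_apply_le (ι p.1) (p.2.2 : Alg A)) ?_ Hmod
  intro y δ hδ
  refine density_trans hτ.trAlg hφ.trAlg ι hι.trace_eq (fun a : Σ g : G, V g => (a.2 : Alg A))
    ?_ ?_ y δ hδ
  · intro z δ' hδ'
    refine density_of_generates hτ _ ?_ z δ' hδ'
    rw [e2]
    exact Vgen
  · intro z δ' hδ'
    refine density_of_generates hφ (fun p : J × Alg A => ι p.1 p.2) ?_ z δ' hδ'
    rw [e, ← hι.generates]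

end Pool.Agent.QFP
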