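import Pool.Agent.QFP.H2
import Pool.Agent.QFP.L5

/-!
# [H3] Regular irreducible inclusions

`B ⊆ A` with `B' ∩ A = ℂ`, `A` generated by the normalising unitaries `𝒩 = N_A(B)` of `B`, and
`G = 𝒩 / U(B)` hyperlinear (`q : 𝒩 → G` onto with kernel `𝒩 ∩ B = U(B)`). Apply `connesEmb_of_graded`
(`H2y`) to `V g = {a : Alg A | ∃ u : 𝒩, q u = g ∧ a * star u ∈ B}`; for every `u` with `q u = g`,
`V g = B u` (if `q u = q u'` then `u' * star u ∈ B`).
* submodule: fix one `u` with `q u = g` (`q` is onto); `a ∈ V g ↔ a * star u ∈ B`.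
* `V 1 = B` (take `u = 1`).
* `(b u) (b' u') = b (u b' u*) (u u')`, `(b u)* = (u* b* u) u*`.
* `τ = 0` on `V g` for `g ≠ 1`: let `u ∈ 𝒩`, `q u = g ≠ 1`, so `u ∉ B`. Let `c ∈ B` with `u - c`
  orthogonal to `B` (`exists_condexp`, `L5`; `c = E_B(u)`). For `b ∈ B`: `u * b = (u b u*) * u`, and
  `u * b - c * b`, `(u b u*) * u - (u b u*) * c` are orthogonal to `B`, so
  `c * b - (u b u*) * c ∈ B` is orthogonal to `B`, hence `0` (faithfulness: take the adjoint as test
  element). So `c * b = (u b u*) * c`, hence `star u * c * b = b * star u * c`... precisely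
  `(star u * c) * b = star u * (u b u*) * c = b * (star u * c)`: `star u * c ∈ B' ∩ A = ℂ`,
  `star u * c = z`, `c = z u`; if `z ≠ 0` then `u = z⁻¹ c ∈ B`, contradiction. So `c = 0`, and
  `τ (b * u) = τ (u * b) = 0` for `b ∈ B`.
* `Vgen`: every normalising unitary is in some `V g`.
-/

set_option autoImplicit false

namespace Pool.Agent.QFP

/-- The normaliser `N_A(B)` of `B` in the unitary group of `A`. -/
def Normaliser {H : Type*} [NormedAddCommGroup H] [InnerProductSpace ℂ H] [CompleteSpace H]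
    (A B : VonNeumannAlgebra H) : Subgroup (unitary (Alg A)) where
  carrier := {u | ∀ b : Alg A, (b : H →L[ℂ] H) ∈ B →
    (((u : Alg A) * b * star (u : Alg A) : Alg A) : H →L[ℂ] H) ∈ B ∧
    ((star (u : Alg A) * b * (u : Alg A) : Alg A) : H →L[ℂ] H) ∈ B}
  mul_mem' := by
    intro u v hu hv b hb
    have h1 := (hu _ (hv b hb).1).1
    have h2 := (hv _ (hu b hb).2).2
    constructor
    · simpa [mul_assoc] using h1
    · simpa [mul_assoc] using h2
  one_mem' := by
    intro b hb
    simpa using hb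
  inv_mem' := by
    intro u hu b hb
    have h := hu b hb
    constructor
    · change ((star (u : Alg A) * b * star (star (u : Alg A)) : Alg A) : H →L[ℂ] H) ∈ B
      rw [star_star]
      exact h.2
    · change ((star (star (u : Alg A)) * b * star (u : Alg A) : Alg A) : H →L[ℂ] H) ∈ B
      rw [star_star]
      exact h.1

theorem connesEmb_of_regular {H : Type*} [NormedAddCommGroup H] [InnerProductSpace ℂ H]
    [CompleteSpace H] {A B : VonNeumannAlgebra H} (hBA : ∀ x : H →L[ℂ] H, x ∈ B → x ∈ A)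
    {τ : Alg A →ₗ[ℂ] ℂ} (hτ : IsTrace A τ) (hA : ConnesEmb A τ)
    (hirr : ∀ a : Alg A, (∀ b : Alg A, (b : H →L[ℂ] H) ∈ B → a * b = b * a) →
      ∃ z : ℂ, a = z • (1 : Alg A))
    (hreg : (A : Set (H →L[ℂ] H)) ⊆ Set.centralizer (Set.centralizer
      {x | ∃ u ∈ Normaliser A B, x = ((u : Alg A) : H →L[ℂ] H)}))
    {G : Type*} [Group G] (hG : IsHyperlinear G) (q : Normaliser A B →* G)
    (hq : Function.Surjective q)
    (hker : ∀ u : Normaliser A B, q u = 1 ↔ (((u : unitary (Alg A)) : Alg A) : H →L[ℂ] H) ∈ B)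
    {K : Type*} [NormedAddCommGroup K] [InnerProductSpace ℂ K] [CompleteSpace K]
    {M : VonNeumannAlgebra K} {φ : Alg M →ₗ[ℂ] ℂ} (hφ : IsTrace M φ)
    {J : Type*} {ι : J → Alg A →⋆ₐ[ℂ] Alg M} (hι : IsFreePower A B τ M φ ι) :
    ConnesEmb M φ := by
  classical
  have Bmul : ∀ a b : Alg A, (a : H →L[ℂ] H) ∈ B → (b : H →L[ℂ] H) ∈ B →
      ((a * b : Alg A) : H →L[ℂ] H) ∈ B := fun a b ha hb => mul_mem ha hb
  have Bstar : ∀ a : Alg A, (a : H →L[ℂ] H) ∈ B → ((star a : Alg A) : H →L[ℂ] H) ∈ B :=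
    fun a ha => star_mem ha
  have Bone : ((1 : Alg A) : H →L[ℂ] H) ∈ B := one_mem B
  have Bsmul : ∀ (z : ℂ) (a : Alg A), (a : H →L[ℂ] H) ∈ B → ((z • a : Alg A) : H →L[ℂ] H) ∈ B :=
    fun z a ha => B.toStarSubalgebra.smul_mem ha z
  have Badd : ∀ a b : Alg A, (a : H →L[ℂ] H) ∈ B → (b : H →L[ℂ] H) ∈ B →
      ((a + b : Alg A) : H →L[ℂ] H) ∈ B := fun a b ha hb => add_mem ha hb
  have Bsub : ∀ a b : Alg A, (a : H →L[ℂ] H) ∈ B → (b : H →L[ℂ] H) ∈ B →
      ((a - b : Alg A) : H →L[ℂ] H) ∈ B := fun a b ha hb => sub_mem ha hb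
  let U : Normaliser A B → Alg A := fun u => ((u : unitary (Alg A)) : Alg A)
  have U1 : U 1 = 1 := rfl
  have Umul : ∀ u v, U (u * v) = U u * U v := fun u v => rfl
  have Uinv : ∀ u, U u⁻¹ = star (U u) := fun u => rfl
  have Uus : ∀ u, U u * star (U u) = 1 := fun u => Unitary.mul_star_self_of_mem (u.1.2)
  have Usu : ∀ u, star (U u) * U u = 1 := fun u => Unitary.star_mul_self_of_mem (u.1.2)
  have Un1 : ∀ u (b : Alg A), (b : H →L[ℂ] H) ∈ B → ((U u * b * star (U u) : Alg A) : H →L[ℂ] H) ∈ B :=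
    fun u b hb => (u.2 b hb).1
  have Un2 : ∀ u (b : Alg A), (b : H →L[ℂ] H) ∈ B → ((star (U u) * b * U u : Alg A) : H →L[ℂ] H) ∈ B :=
    fun u b hb => (u.2 b hb).2
  have Uker : ∀ u, q u = 1 ↔ ((U u : Alg A) : H →L[ℂ] H) ∈ B := hker
  -- change of representative
  have Urep : ∀ (u v : Normaliser A B) (a : Alg A), q u = q v →
      ((a * star (U u) : Alg A) : H →L[ℂ] H) ∈ B → ((a * star (U v) : Alg A) : H →L[ℂ] H) ∈ B := by
    intro u v a huv ha
    have h1 : ((U (u * v⁻¹) : Alg A) : H →L[ℂ] H) ∈ B := by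
      rw [← Uker, map_mul, map_inv, huv, mul_inv_cancel]
    have h2 := Bmul _ _ ha h1
    have e : a * star (U u) * U (u * v⁻¹) = a * star (U v) := by
      rw [Umul, Uinv, mul_assoc, ← mul_assoc (star (U u)), Usu, one_mul]
    rwa [e] at h2
  choose s hs using hq
  let V : G → Submodule ℂ (Alg A) := fun g =>
    { carrier := {a | ((a * star (U (s g)) : Alg A) : H →L[ℂ] H) ∈ B}
      add_mem' := by
        intro a b ha hb
        have h := Badd _ _ ha hb
        rw [← add_mul] at h
        exact h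
      zero_mem' := by
        change ((0 * star (U (s g)) : Alg A) : H →L[ℂ] H) ∈ B
        rw [zero_mul]
        exact zero_mem B
      smul_mem' := by
        intro z a ha
        have h := Bsmul z _ ha
        rw [← smul_mul_assoc] at h
        exact h }
  have memV : ∀ g a, a ∈ V g ↔ ((a * star (U (s g)) : Alg A) : H →L[ℂ] H) ∈ B :=
    fun g a => Iff.rfl
  have memV' : ∀ g a u, q u = g →
      (a ∈ V g ↔ ((a * star (U u) : Alg A) : H →L[ℂ] H) ∈ B) := by
    intro g a u hu
    rw [memV]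
    exact ⟨Urep _ _ a ((hs g).trans hu.symm), Urep _ _ a (hu.trans (hs g).symm)⟩
  have V1 : ∀ a : Alg A, a ∈ V 1 ↔ (a : H →L[ℂ] H) ∈ B := by
    intro a
    rw [memV' 1 a 1 (map_one q), U1, star_one, mul_one]
  have Vmul : ∀ g h a b, a ∈ V g → b ∈ V h → a * b ∈ V (g * h) := by
    intro g h a b ha hb
    rw [memV' (g * h) (a * b) (s g * s h) (by rw [map_mul, hs, hs])]
    have h1 := Bmul _ _ ((memV g a).1 ha) (Un1 (s g) _ ((memV h b).1 hb))
    have e : a * star (U (s g)) * (U (s g) * (b * star (U (s h))) * star (U (s g))) =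
        a * b * star (U (s g * s h)) := by
      rw [Umul, star_mul]
      calc a * star (U (s g)) * (U (s g) * (b * star (U (s h))) * star (U (s g)))
          = a * (star (U (s g)) * U (s g)) * (b * star (U (s h))) * star (U (s g)) := by
            simp only [mul_assoc]
        _ = a * b * (star (U (s h)) * star (U (s g))) := by
            rw [Usu, mul_one]
            simp only [mul_assoc]
    rwa [e] at h1
  have Vstar : ∀ g a, a ∈ V g → star a ∈ V g⁻¹ := by
    intro g a ha
    rw [memV' g⁻¹ (star a) (s g)⁻¹ (by rw [map_inv, hs])]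
    have h1 := Bstar _ (Un2 (s g) _ ((memV g a).1 ha))
    have e : star (star (U (s g)) * (a * star (U (s g))) * U (s g)) =
        star a * star (U (s g)⁻¹) := by
      rw [Uinv, star_star]
      have e1 : star (U (s g)) * (a * star (U (s g))) * U (s g) = star (U (s g)) * a := by
        rw [mul_assoc, mul_assoc, Usu, mul_one]
      rw [e1, star_mul, star_star]
    rwa [e] at h1
  have UVself : ∀ u, U u ∈ V (q u) := by
    intro u
    rw [memV' (q u) (U u) u rfl, Uus]
    exact Bone
  -- orthogonality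
  have Uperp : ∀ u, q u ≠ 1 → Perp A B τ (U u) := by
    intro u hu
    obtain ⟨c, hc, hperp⟩ := exists_condexp hBA hτ (U u)
    have key : ∀ b : Alg A, (b : H →L[ℂ] H) ∈ B → c * b = (U u * b * star (U u)) * c := by
      intro b hb
      have hb' := Un1 u b hb
      have hd : ((c * b - (U u * b * star (U u)) * c : Alg A) : H →L[ℂ] H) ∈ B :=
        Bsub _ _ (Bmul _ _ hc hb) (Bmul _ _ hb' hc)
      have hz : ∀ e : Alg A, (e : H →L[ℂ] H) ∈ B →
          τ ((c * b - (U u * b * star (U u)) * c) * e) = 0 := by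
        intro e he
        have h1 := hperp (b * e) (Bmul _ _ hb he)
        have h2 := hperp (e * (U u * b * star (U u))) (Bmul _ _ he hb')
        rw [sub_mul, map_sub, sub_eq_zero] at h1 h2
        rw [sub_mul, map_sub, sub_eq_zero]
        have e1 : τ (U u * (e * (U u * b * star (U u)))) = τ (U u * (b * e)) := by
          rw [← mul_assoc, hτ.tracial]
          congr 1
          calc U u * b * star (U u) * (U u * e)
              = U u * b * (star (U u) * U u) * e := by simp only [mul_assoc]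
            _ = U u * (b * e) := by rw [Usu, mul_one, mul_assoc]
        have e2 : τ ((U u * b * star (U u)) * c * e) = τ (c * (e * (U u * b * star (U u)))) := by
          rw [mul_assoc, hτ.tracial, mul_assoc]
        rw [e2, ← h2, e1, h1, mul_assoc]
      have h3 := hz (star (c * b - (U u * b * star (U u)) * c)) (Bstar _ hd)
      rw [hτ.tracial] at h3
      exact sub_eq_zero.1 (hτ.faithful _ h3)
    obtain ⟨z, hz⟩ := hirr (star (U u) * c) (by
      intro b hb
      rw [mul_assoc, key b hb]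
      calc star (U u) * (U u * b * star (U u) * c)
          = (star (U u) * U u) * (b * (star (U u) * c)) := by simp only [mul_assoc]
        _ = b * (star (U u) * c) := by rw [Usu, one_mul])
    have hcz : c = z • U u := by
      calc c = (U u * star (U u)) * c := by rw [Uus, one_mul]
        _ = U u * (star (U u) * c) := by rw [mul_assoc]
        _ = z • U u := by rw [hz, mul_smul_comm, mul_one]
    have hz0 : z = 0 := by
      by_contra h0
      refine hu ((Uker u).2 ?_)
      have h4 := Bsmul z⁻¹ _ hc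
      rwa [hcz, smul_smul, inv_mul_cancel₀ h0, one_smul] at h4
    rw [hz0, zero_smul] at hcz
    rw [hcz, sub_zero] at hperp
    exact hperp
  have Vtr : ∀ g a, g ≠ 1 → a ∈ V g → τ a = 0 := by
    intro g a hg ha
    have h1 := Uperp (s g) (by rw [hs]; exact hg) _ ((memV g a).1 ha)
    rw [hτ.tracial, mul_assoc, Usu, mul_one] at h1
    exact h1
  refine connesEmb_of_graded hτ hA hG V V1 Vmul Vstar Vtr ?_ hφ hι
  refine hreg.trans (Set.centralizer_subset (Set.centralizer_subset ?_))
  rintro x ⟨u, hu, rfl⟩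
  exact ⟨q ⟨u, hu⟩, U ⟨u, hu⟩, UVself _, rfl⟩

end Pool.Agent.QFP
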