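import Pool.Agent.QFP.StEq
import Pool.Agent.QFP.H2

/-!
# QWEP of amalgamated free products of algebras graded by hyperlinear groups

All definitions are in `Pool/Agent/QFP/St.lean`. QWEP is expressed by Connes embeddability
(`ConnesEmbeddable`: matricial microstates), which is equivalent to it for finite von Neumann algebras
with a faithful normal tracial state (Kirchberg).
-/

set_option autoImplicit false

namespace Pool.Agent.Results.MP_f0269b_an.HyperlinearGradings

open Pool.Agent.QFP Pool.Agent.QFP.St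

universe u v w y

/-- Let `B ⊆ A` be finite von Neumann algebras, `A` with a faithful normal tracial state and Connes
embeddable, `G` a hyperlinear group, and let `M` be an amalgamated free power of `A` over `B` (any index
set `J`; `J = Fin 2` is `∗_B A`). Suppose `A` is graded by `G` with `B` as component of degree `1`: there
are subspaces `V g ⊆ A`, `g ∈ G`, with `V 1 = B`, `V g V h ⊆ V (g h)`, `(V g)* ⊆ V g⁻¹`, `τ = 0` on `V g`
for `g ≠ 1`, which together generate `A` as a von Neumann algebra. Then `M` is Connes embeddable. -/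
theorem result {H : Type u} [NormedAddCommGroup H] [InnerProductSpace ℂ H] [CompleteSpace H]
    (A : TracialVN H) (B : VonNeumannAlgebra H) (hA : ConnesEmbeddable A)
    {G : Type y} [Group G] (hG : Hyperlinear G) (V : G → Submodule ℂ (H →L[ℂ] H))
    (hVA : ∀ g, ∀ a ∈ V g, a ∈ A.N) (V1 : ∀ a, a ∈ V 1 ↔ a ∈ B)
    (Vmul : ∀ g h, ∀ a ∈ V g, ∀ b ∈ V h, a * b ∈ V (g * h))
    (Vstar : ∀ g, ∀ a ∈ V g, star a ∈ V g⁻¹)
    (Vtr : ∀ g, g ≠ 1 → ∀ a ∈ V g, A.tr a = 0)
    (Vgen : (A.N : Set (H →L[ℂ] H)) ⊆ Set.centralizer (Set.centralizer {a | ∃ g, a ∈ V g}))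
    {K : Type v} [NormedAddCommGroup K] [InnerProductSpace ℂ K] [CompleteSpace K]
    (M : TracialVN K) {J : Type w} (ι : J → (H →L[ℂ] H) → (K →L[ℂ] K))
    (hι : IsAmalgamatedPower A B M ι) :
    ConnesEmbeddable M := by
  have hBA : ∀ x : H →L[ℂ] H, x ∈ B → x ∈ A.N := fun x hx => hVA 1 x ((V1 x).2 hx)
  let V' : G → Submodule ℂ (Alg A.N) := fun g =>
    { carrier := {a | (a : H →L[ℂ] H) ∈ V g}
      add_mem' := fun {a b} ha hb => (V g).add_mem ha hb
      zero_mem' := (V g).zero_mem
      smul_mem' := fun z a ha => (V g).smul_mem z ha }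
  refine (connesEmb_iff M).2 (connesEmb_of_graded (stLin_isTrace A) ((connesEmb_iff A).1 hA)
    (isHyperlinear_of_st hG) V' (fun a => V1 a) (fun g h a b ha hb => Vmul g h a ha b hb)
    (fun g a ha => Vstar g a ha) (fun g a hg ha => Vtr g hg a ha) ?_ (stLin_isTrace M)
    (isFreePower_of_st hBA hι))
  refine Vgen.trans (Set.centralizer_subset (Set.centralizer_subset ?_))
  rintro a ⟨g, ha⟩
  exact ⟨g, ⟨a, hVA g a ha⟩, ha, rfl⟩

end Pool.Agent.Results.MP_f0269b_an.HyperlinearGradings
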