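import Pool.Agent.QFP.B3

/-!
# [K1x] Replacing a factor

Abstract form of: the joint moments of a family which is free with amalgamation over `B` are
determined by the moments of each member. `S` is a set of letters with a multiplication `mul`;
`isB` are the letters in `B`, `isC` the centred ones. `Y α j a` is the model of the letter `a` in
the `j`-th copy, `μ l` the joint moment of the list `l` of pairs `(j, a)` in the free product.

Proof. Strong induction on `(length of l, number of letters of l which are not isC)`
(lexicographic).
* `l = []`: `h0`.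
* If two neighbours have the same index, `l = l₁ ++ (j, a) :: (j, b) :: l₂`: `hmulμ`, and on the side
  of `Y` replace `Y j a * Y j b` by `Y j (mul a b)` (the difference of the two products of matrices
  tends to `0` in 2-norm: `n2_mul_left`, `n2_mul_right`, `norm_le_n2`, the other factors are
  bounded by `R`); the list `l₁ ++ (j, mul a b) :: l₂` is shorter.
* Otherwise `l` is a chain. If all letters are `isC`: `hfree`. Otherwise
  `l = l₁ ++ (j, a) :: l₂` with `a` not `isC`.
  - If `isB a` and `l₁ = l₂ = []`: `h1`. If `isB a` and `l` has another letter: change the index `j`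
    to the index of a neighbour (`hBY`, `hBμ`), then the two neighbours can be merged as above.
  - If `a` decomposes as `c + b`: `t (prod of l)` is, up to a term tending to `0`, the sum of the
    traces for the lists with `a` replaced by `c` and by `b`, and the same holds for `μ`. The list
    with `c` has the same length and fewer letters which are not `isC` (induction); the list
    with `b` is treated by the previous item (which only uses shorter lists).
-/

set_option autoImplicit false

namespace Pool.Agent.QFP

open Filter Topology

/-- Replacing one factor of a product by an asymptotically equal one. -/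
theorem tendsto_replace {Λ : Type*} {ℱ : Filter Λ} {D : Λ → Type*} [∀ α, CStarAlgebra (D α)]
    {t : ∀ α, D α →ₗ[ℂ] ℂ} (ht : ∀ α, TrAlg (t α)) (u z z' v : ∀ α, D α) (C : ℝ)
    (hu : ∀ α, ‖u α‖ ≤ C) (hv : ∀ α, ‖v α‖ ≤ C)
    (hz : Tendsto (fun α => n2 (t α) (z α - z' α)) ℱ (𝓝 0)) (c : ℂ)
    (h : Tendsto (fun α => t α (u α * z' α * v α)) ℱ (𝓝 c)) :
    Tendsto (fun α => t α (u α * z α * v α)) ℱ (𝓝 c) := by
  have h1 : ∀ α, t α (u α * z α * v α) = t α (u α * z' α * v α) +
      t α (u α * (z α - z' α) * v α) := by
    intro α
    rw [← map_add]
    congr 1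
    noncomm_ring
  have h2 : Tendsto (fun α => t α (u α * (z α - z' α) * v α)) ℱ (𝓝 0) := by
    have h3 : ∀ α, ‖t α (u α * (z α - z' α) * v α)‖ ≤ (C * C) * n2 (t α) (z α - z' α) := by
      intro α
      have h4 := (ht α).norm_le_n2 (u α * (z α - z' α) * v α)
      have h5 := (ht α).n2_mul_right (v α) (u α * (z α - z' α))
      have h6 := (ht α).n2_mul_left (u α) (z α - z' α)
      have h7 := n2_nonneg (t α) (z α - z' α)
      have hC : 0 ≤ C := (norm_nonneg _).trans (hu α)
      have h8 : ‖u α‖ * n2 (t α) (z α - z' α) ≤ C * n2 (t α) (z α - z' α) :=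
        mul_le_mul_of_nonneg_right (hu α) h7
      calc ‖t α (u α * (z α - z' α) * v α)‖ ≤ n2 (t α) (u α * (z α - z' α)) * ‖v α‖ := h4.trans h5
        _ ≤ (C * n2 (t α) (z α - z' α)) * C :=
          mul_le_mul (h6.trans h8) (hv α) (norm_nonneg _) (mul_nonneg hC h7)
        _ = (C * C) * n2 (t α) (z α - z' α) := by ring
    refine squeeze_zero_norm h3 ?_
    have h9 := hz.const_mul (C * C)
    rwa [mul_zero] at h9
  have h10 := h.add h2
  rw [add_zero] at h10
  exact h10.congr fun α => (h1 α).symm

end Pool.Agent.QFP
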