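import Pool.Agent.QFP.B3
import Pool.Agent.QFP.K1x

/-!
# [K1y] Asymptotic freeness determines all joint moments

Abstract form of: the joint moments of a family which is free with amalgamation over `B` are
determined by the moments of each member. `S` is a set of letters with a multiplication `mul`;
`isB` are the letters in `B`, `isC` the centred ones. `Y α j a` is the model of the letter `a` in
the `j`-th copy, `μ l` the joint moment of the list `l` of pairs `(j, a)` in the free product.

Proof. Strong induction on `(length of l, number of letters of l which are not isC)`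
(lexicographic).
* `l = []`: `h0`.
* If two neighbours have the same index, `l = l₁ ++ (j, a) :: (j, b) :: l₂`: `hmulμ`, and on the side
  of `Y` replace `Y j a * Y j b` by `Y j (mul a b)` (the difference of the two products of matrices
  tends to `0` in 2-norm: `n2_mul_left`, `n2_mul_right`, `norm_le_n2`, the other factors are
  bounded by `R`); the list `l₁ ++ (j, mul a b) :: l₂` is shorter.
* Otherwise `l` is a chain. If all letters are `isC`: `hfree`. Otherwise
  `l = l₁ ++ (j, a) :: l₂` with `a` not `isC`.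
  - If `isB a` and `l₁ = l₂ = []`: `h1`. If `isB a` and `l` has another letter: change the index `j`
    to the index of a neighbour (`hBY`, `hBμ`), then the two neighbours can be merged as above.
  - If `a` decomposes as `c + b`: `t (prod of l)` is, up to a term tending to `0`, the sum of the
    traces for the lists with `a` replaced by `c` and by `b`, and the same holds for `μ`. The list
    with `c` has the same length and fewer letters which are not `isC` (induction); the list
    with `b` is treated by the previous item (which only uses shorter lists).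
-/

set_option autoImplicit false

namespace Pool.Agent.QFP

open Filter Topology

theorem K1y_not_chain {α : Type*} (r : α → α → Prop) (l : List α) (h : ¬ l.IsChain r) :
    ∃ l₁ x y l₂, l = l₁ ++ x :: y :: l₂ ∧ ¬ r x y := by
  induction l with
  | nil => exact absurd List.IsChain.nil h
  | cons a l ih =>
    cases l with
    | nil => exact absurd (List.IsChain.singleton a) h
    | cons b l =>
      by_cases hab : r a b
      · have h2 : ¬ (b :: l).IsChain r := fun h3 => h (List.IsChain.cons_cons hab h3)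
        obtain ⟨l₁, x, y, l₂, h4, h5⟩ := ih h2
        exact ⟨a :: l₁, x, y, l₂, by rw [h4]; rfl, h5⟩
      · exact ⟨[], a, b, l, rfl, hab⟩

theorem K1y_bound {S J : Type*} (R : S → ℝ) (l : List (J × S)) :
    ∃ C : ℝ, 1 ≤ C ∧ ∀ p ∈ l, R p.2 ≤ C := by
  induction l with
  | nil => exact ⟨1, le_refl _, fun p hp => absurd hp List.not_mem_nil⟩
  | cons a l ih =>
    obtain ⟨C, h1, h2⟩ := ih
    refine ⟨max C (R a.2), le_trans h1 (le_max_left _ _), ?_⟩
    intro p hp
    rcases List.mem_cons.1 hp with rfl | hp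
    · exact le_max_right _ _
    · exact le_trans (h2 p hp) (le_max_left _ _)

theorem K1y_prod_bound {S J Λ : Type*} {D : Λ → Type*} [∀ α, CStarAlgebra (D α)]
    (R : S → ℝ) (Y : ∀ α, J → S → D α) (hR : ∀ α j a, ‖Y α j a‖ ≤ R a) (l : List (J × S)) :
    ∃ C : ℝ, ∀ α, ‖(l.map fun p => Y α p.1 p.2).prod‖ ≤ C := by
  obtain ⟨C, h1, h2⟩ := K1y_bound R l
  refine ⟨C ^ l.length, fun α => ?_⟩
  have h := norm_prod_le C h1 (l.map fun p => Y α p.1 p.2) (by
    intro x hx
    obtain ⟨p, hp, rfl⟩ := List.mem_map.1 hx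
    exact le_trans (hR α p.1 p.2) (h2 p hp))
  simpa using h

theorem K1y_replace {S J Λ : Type*} {ℱ : Filter Λ} {D : Λ → Type*} [∀ α, CStarAlgebra (D α)]
    {t : ∀ α, D α →ₗ[ℂ] ℂ} (ht : ∀ α, TrAlg (t α)) (R : S → ℝ) (Y : ∀ α, J → S → D α)
    (hR : ∀ α j a, ‖Y α j a‖ ≤ R a) (l₁ l₂ : List (J × S)) (z z' : ∀ α, D α)
    (hz : Tendsto (fun α => n2 (t α) (z α - z' α)) ℱ (𝓝 0)) (c : ℂ)
    (h : Tendsto (fun α => t α ((l₁.map fun p => Y α p.1 p.2).prod * z' α *
      (l₂.map fun p => Y α p.1 p.2).prod)) ℱ (𝓝 c)) :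
    Tendsto (fun α => t α ((l₁.map fun p => Y α p.1 p.2).prod * z α *
      (l₂.map fun p => Y α p.1 p.2).prod)) ℱ (𝓝 c) := by
  obtain ⟨C₁, h1⟩ := K1y_prod_bound R Y hR l₁
  obtain ⟨C₂, h2⟩ := K1y_prod_bound R Y hR l₂
  exact tendsto_replace ht (fun α => (l₁.map fun p => Y α p.1 p.2).prod) z z'
    (fun α => (l₂.map fun p => Y α p.1 p.2).prod) (max C₁ C₂)
    (fun α => le_trans (h1 α) (le_max_left _ _)) (fun α => le_trans (h2 α) (le_max_right _ _)) hz c h

theorem free_moments {S J Λ : Type*} (ℱ : Filter Λ) {D : Λ → Type*} [∀ α, CStarAlgebra (D α)]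
    (t : ∀ α, D α →ₗ[ℂ] ℂ) (ht : ∀ α, TrAlg (t α)) (mul : S → S → S) (isB isC : S → Prop)
    (R : S → ℝ) (Y : ∀ α, J → S → D α) (μ : List (J × S) → ℂ)
    (hR : ∀ α j a, ‖Y α j a‖ ≤ R a)
    (hmulY : ∀ j a b,
      Tendsto (fun α => n2 (t α) (Y α j (mul a b) - Y α j a * Y α j b)) ℱ (𝓝 0))
    (hmulμ : ∀ l₁ l₂ j a b, μ (l₁ ++ (j, a) :: (j, b) :: l₂) = μ (l₁ ++ (j, mul a b) :: l₂))
    (hBY : ∀ i j b, isB b → Tendsto (fun α => n2 (t α) (Y α i b - Y α j b)) ℱ (𝓝 0))
    (hBμ : ∀ l₁ l₂ i j b, isB b → μ (l₁ ++ (i, b) :: l₂) = μ (l₁ ++ (j, b) :: l₂))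
    (hdec : ∀ a, isB a ∨ isC a ∨ ∃ c b, isC c ∧ isB b ∧
      (∀ j, Tendsto (fun α => n2 (t α) (Y α j a - (Y α j c + Y α j b))) ℱ (𝓝 0)) ∧
      ∀ l₁ l₂ j, μ (l₁ ++ (j, a) :: l₂) = μ (l₁ ++ (j, c) :: l₂) + μ (l₁ ++ (j, b) :: l₂))
    (h0 : μ [] = 1)
    (h1 : ∀ j a, Tendsto (fun α => t α (Y α j a)) ℱ (𝓝 (μ [(j, a)])))
    (hfree : ∀ l : List (J × S), l ≠ [] → l.IsChain (fun p q => p.1 ≠ q.1) →
      (∀ p ∈ l, isC p.2) →
      Tendsto (fun α => t α (l.map fun p => Y α p.1 p.2).prod) ℱ (𝓝 0) ∧ μ l = 0)
    (l : List (J × S)) :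
    Tendsto (fun α => t α (l.map fun p => Y α p.1 p.2).prod) ℱ (𝓝 (μ l)) := by
  classical
  have key : ∀ (l₁ l₂ : List (J × S)) (p : J × S) α,
      ((l₁ ++ p :: l₂).map fun p => Y α p.1 p.2).prod =
        (l₁.map fun p => Y α p.1 p.2).prod * Y α p.1 p.2 * (l₂.map fun p => Y α p.1 p.2).prod := by
    intro l₁ l₂ p α
    simp [mul_assoc]
  have key2 : ∀ (l₁ l₂ : List (J × S)) (p q : J × S) α,
      ((l₁ ++ p :: q :: l₂).map fun p => Y α p.1 p.2).prod =
        (l₁.map fun p => Y α p.1 p.2).prod * (Y α p.1 p.2 * Y α q.1 q.2) *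
          (l₂.map fun p => Y α p.1 p.2).prod := by
    intro l₁ l₂ p q α
    simp [mul_assoc]
  -- the property
  let P : List (J × S) → Prop := fun l =>
    Tendsto (fun α => t α (l.map fun p => Y α p.1 p.2).prod) ℱ (𝓝 (μ l))
  have merge : ∀ l₁ l₂ j a b, P (l₁ ++ (j, mul a b) :: l₂) → P (l₁ ++ (j, a) :: (j, b) :: l₂) := by
    intro l₁ l₂ j a b h
    change Tendsto _ _ _ at h
    change Tendsto _ _ _
    simp only [key] at h
    simp only [key2]
    rw [hmulμ]
    refine K1y_replace ht R Y hR l₁ l₂ (fun α => Y α j a * Y α j b) (fun α => Y α j (mul a b)) ?_ _ h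
    refine (hmulY j a b).congr fun α => ?_
    exact (ht α).n2_sub_comm _ _
  have swap : ∀ l₁ l₂ i j b, isB b → P (l₁ ++ (j, b) :: l₂) → P (l₁ ++ (i, b) :: l₂) := by
    intro l₁ l₂ i j b hb h
    change Tendsto _ _ _ at h
    change Tendsto _ _ _
    simp only [key] at h ⊢
    rw [hBμ l₁ l₂ i j b hb]
    exact K1y_replace ht R Y hR l₁ l₂ (fun α => Y α i b) (fun α => Y α j b) (hBY i j b hb) _ h
  have split : ∀ l₁ l₂ j a c b,
      Tendsto (fun α => n2 (t α) (Y α j a - (Y α j c + Y α j b))) ℱ (𝓝 0) →
      μ (l₁ ++ (j, a) :: l₂) = μ (l₁ ++ (j, c) :: l₂) + μ (l₁ ++ (j, b) :: l₂) →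
      P (l₁ ++ (j, c) :: l₂) → P (l₁ ++ (j, b) :: l₂) → P (l₁ ++ (j, a) :: l₂) := by
    intro l₁ l₂ j a c b h1 h2 h3 h4
    change Tendsto _ _ _ at h3
    change Tendsto _ _ _ at h4
    change Tendsto _ _ _
    simp only [key] at h3 h4 ⊢
    rw [h2]
    refine K1y_replace ht R Y hR l₁ l₂ (fun α => Y α j a) (fun α => Y α j c + Y α j b) h1 _ ?_
    refine (h3.add h4).congr fun α => ?_
    rw [← map_add]
    congr 1
    rw [mul_add, add_mul]
  have Bcase : ∀ n, (∀ l : List (J × S), l.length < n → P l) → ∀ l₁ l₂ i b, isB b →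
      (l₁ ++ (i, b) :: l₂).length = n → P (l₁ ++ (i, b) :: l₂) := by
    intro n ih l₁ l₂ i b hb hn
    cases l₂ with
    | cons p l₂ =>
      obtain ⟨j, c⟩ := p
      refine swap _ _ i j b hb (merge _ _ _ _ _ (ih _ ?_))
      simp at hn ⊢
      omega
    | nil =>
      rcases List.eq_nil_or_concat l₁ with rfl | ⟨l₁', p, rfl⟩
      · change Tendsto _ _ _
        simpa using h1 i b
      · obtain ⟨j, c⟩ := p
        have e : ∀ k, l₁'.concat (j, c) ++ (k, b) :: [] = l₁' ++ (j, c) :: (k, b) :: [] := by
          intro k; simp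
        refine swap _ _ i j b hb ?_
        rw [e]
        refine merge _ _ _ _ _ (ih _ ?_)
        simp at hn ⊢
        omega
  have main : ∀ n, ∀ l : List (J × S), l.length = n → P l := by
    intro n
    induction n using Nat.strong_induction_on with
    | _ n ih =>
      have ih' : ∀ l : List (J × S), l.length < n → P l := fun l hl => ih _ hl l rfl
      have inner : ∀ k, ∀ l : List (J × S), l.length = n →
          l.countP (fun p => decide (¬ isC p.2)) = k → P l := by
        intro k
        induction k using Nat.strong_induction_on with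
        | _ k ihk =>
          intro l hn hk
          by_cases hch : l.IsChain (fun p q => p.1 ≠ q.1)
          · by_cases hC : ∀ p ∈ l, isC p.2
            · by_cases hnil : l = []
              · subst hnil
                change Tendsto _ _ _
                simp only [List.map_nil, List.prod_nil]
                rw [h0]
                simp only [(ht _).one]
                exact tendsto_const_nhds
              · have h := hfree l hnil hch hC
                change Tendsto _ _ _
                rw [h.2]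
                exact h.1
            · push Not at hC
              obtain ⟨p, hp, hpC⟩ := hC
              obtain ⟨l₁, l₂, rfl⟩ := List.append_of_mem hp
              obtain ⟨j, a⟩ := p
              rcases hdec a with hB | hC | ⟨c, b, hc, hb, hY, hμ⟩
              · exact Bcase n ih' l₁ l₂ j a hB hn
              · exact absurd hC hpC
              · refine split l₁ l₂ j a c b (hY j) (hμ l₁ l₂ j) ?_
                  (Bcase n ih' l₁ l₂ j b hb (by simpa using hn))
                refine ihk _ ?_ (l₁ ++ (j, c) :: l₂) (by simpa using hn) rfl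
                rw [← hk]
                simp only [List.countP_append, List.countP_cons]
                simp [hc, hpC]
          · obtain ⟨l₁, x, y, l₂, rfl, hxy⟩ := K1y_not_chain _ l hch
            obtain ⟨j, a⟩ := x
            obtain ⟨j', b⟩ := y
            have : j = j' := by simpa using hxy
            subst this
            refine merge _ _ _ _ _ (ih' _ ?_)
            simp at hn ⊢
            omega
      intro l hl
      exact inner _ l hl rfl
  exact main _ l rfl

end Pool.Agent.QFP
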