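import Pool.Agent.QFP.B3
import Pool.Agent.QFP.C2

/-!
# [K2] Alternating products of families with small averages

`Φ j` (`j ∈ J`) as in the conclusion of `G3`: unital ⋆-homomorphisms into one matrix algebra, with
`ntr ∘ Φ j = tpi`, such that alternating products of length at most `L` of elements with `∑ s, = 0`
have trace `0`. Put `y a = x a - (constant family with the value avg (x a))`, where
`avg (x a) = n⁻¹ ∑ s, x a s`. Then `∑ s, y a s = 0`, so the trace of the alternating product of the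
`Φ j (y a)` is `0`. Moreover `‖x a‖ ≤ R`, `‖y a‖ ≤ 2 R` (sup norm) and
`n2 tpi (x a - y a) = n2 ntr (avg (x a)) ≤ δ` (`n2_tpi_const`), `Φ j` is contractive
(`NonUnitalStarAlgHom.norm_apply_le` or `StarAlgHom.norm_apply_le`) and preserves the 2-norm
(`Φ j (x* x)`). Apply `TrAlg.prod_close` with the bound `2 R`, and `norm_le_n2`.
-/

set_option autoImplicit false

namespace Pool.Agent.QFP

open scoped Matrix.Norms.L2Operator

theorem alt_small {S J : Type*} (n : ℕ) (hn : 0 < n) (κ ρ : Type) [Fintype κ] [DecidableEq κ]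
    [Nonempty κ] [Fintype ρ] [DecidableEq ρ] [Nonempty ρ] (L : ℕ)
    (Φ : J → ((Fin n → Matrix κ κ ℂ) →⋆ₐ[ℂ] Matrix ρ ρ ℂ))
    (htr : ∀ j x, ntr (Φ j x) = tpi n κ x)
    (hfree : ∀ l : List (J × (Fin n → Matrix κ κ ℂ)), l ≠ [] → l.length ≤ L →
        l.IsChain (fun p q => p.1 ≠ q.1) → (∀ p ∈ l, ∑ s, p.2 s = 0) →
        ntr (l.map fun p => Φ p.1 p.2).prod = 0)
    (x : S → Fin n → Matrix κ κ ℂ) (l : List (J × S)) (hl : l ≠ []) (hL : l.length ≤ L)
    (hc : l.IsChain (fun p q => p.1 ≠ q.1)) (R : ℝ) (hR : 1 ≤ R) (δ : ℝ) (hδ : 0 ≤ δ)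
    (hx : ∀ p ∈ l, (∀ s, ‖x p.2 s‖ ≤ R) ∧ n2 ntr ((n : ℂ)⁻¹ • ∑ s, x p.2 s) ≤ δ) :
    ‖ntr (l.map fun p => Φ p.1 (x p.2)).prod‖ ≤ l.length * (2 * R) ^ l.length * δ := by
  have hR0 : 0 ≤ R := by linarith
  have hnC : (n : ℂ) ≠ 0 := by exact_mod_cast hn.ne'
  have hnR : (n : ℝ) ≠ 0 := by exact_mod_cast hn.ne'
  let av : S → Matrix κ κ ℂ := fun a => (n : ℂ)⁻¹ • ∑ s, x a s
  let y : S → Fin n → Matrix κ κ ℂ := fun a => x a - fun _ => av a
  have hy0 : ∀ a, ∑ s, y a s = 0 := by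
    intro a
    simp only [y, Pi.sub_apply, Finset.sum_sub_distrib, Finset.sum_const, Finset.card_univ,
      Fintype.card_fin]
    rw [← Nat.cast_smul_eq_nsmul ℂ, smul_smul, mul_inv_cancel₀ hnC, one_smul, sub_self]
  have hxn : ∀ p ∈ l, ‖x p.2‖ ≤ R := fun p hp =>
    (pi_norm_le_iff_of_nonneg hR0).2 (hx p hp).1
  have hav : ∀ p ∈ l, ‖av p.2‖ ≤ R := by
    intro p hp
    have h1 : ‖∑ s, x p.2 s‖ ≤ n * R := by
      have h2 := norm_sum_le Finset.univ (fun s => x p.2 s)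
      have h3 : ∑ s : Fin n, ‖x p.2 s‖ ≤ ∑ _s : Fin n, R :=
        Finset.sum_le_sum fun s _ => (hx p hp).1 s
      rw [Finset.sum_const, Finset.card_univ, Fintype.card_fin, nsmul_eq_mul] at h3
      exact h2.trans h3
    show ‖(n : ℂ)⁻¹ • ∑ s, x p.2 s‖ ≤ R
    rw [norm_smul, norm_inv, Complex.norm_natCast]
    calc (n : ℝ)⁻¹ * ‖∑ s, x p.2 s‖ ≤ (n : ℝ)⁻¹ * (n * R) :=
          mul_le_mul_of_nonneg_left h1 (inv_nonneg.2 (Nat.cast_nonneg n))
      _ = R := by field_simp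
  have hyn : ∀ p ∈ l, ‖y p.2‖ ≤ 2 * R := by
    intro p hp
    have h1 : ‖(fun _ : Fin n => av p.2)‖ ≤ R :=
      (pi_norm_le_iff_of_nonneg hR0).2 fun _ => hav p hp
    have h2 : ‖y p.2‖ ≤ ‖x p.2‖ + ‖(fun _ : Fin n => av p.2)‖ := norm_sub_le _ _
    have h3 := hxn p hp
    linarith
  have hΦn : ∀ j z, ‖Φ j z‖ ≤ ‖z‖ := fun j z => NonUnitalStarAlgHom.norm_apply_le (Φ j) z
  have hΦ2 : ∀ j z, n2 ntr (Φ j z) = n2 (tpi n κ) z := by
    intro j z
    unfold n2
    rw [← map_star, ← map_mul, htr]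
  have hfr : ntr ((l.map fun p => (p.1, y p.2)).map fun p => Φ p.1 p.2).prod = 0 := by
    apply hfree
    · intro h
      exact hl (List.map_eq_nil_iff.1 h)
    · rw [List.length_map]
      exact hL
    · rw [List.isChain_map]
      exact hc
    · intro p hp
      obtain ⟨q, _, rfl⟩ := List.mem_map.1 hp
      exact hy0 q.2
  rw [List.map_map] at hfr
  have hcl := (ntr_trAlg (ι := ρ)).prod_close (2 * R) δ (by linarith) hδ
    (l.map fun p => (Φ p.1 (x p.2), Φ p.1 (y p.2))) (by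
      intro q hq
      obtain ⟨p, hp, rfl⟩ := List.mem_map.1 hq
      refine ⟨?_, ?_, ?_⟩
      · exact (hΦn _ _).trans ((hxn p hp).trans (by linarith))
      · exact (hΦn _ _).trans (hyn p hp)
      · have h1 : Φ p.1 (x p.2) - Φ p.1 (y p.2) = Φ p.1 (fun _ => av p.2) := by
          rw [← map_sub]
          congr 1
          funext s
          simp [y]
        show n2 ntr (Φ p.1 (x p.2) - Φ p.1 (y p.2)) ≤ δ
        rw [h1, hΦ2, n2_tpi_const n hn]
        exact (hx p hp).2)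
  rw [List.map_map, List.map_map, List.length_map] at hcl
  have h5 := ((ntr_trAlg (ι := ρ)).norm_le_n2 _).trans hcl
  rw [map_sub] at h5
  have h6 : ntr (l.map (Prod.snd ∘ fun p => (Φ p.1 (x p.2), Φ p.1 (y p.2)))).prod = 0 := hfr
  rw [h6, sub_zero] at h5
  exact h5

end Pool.Agent.QFP
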