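import Pool.Agent.QFP.K1
import Pool.Agent.QFP.K2

/-!
# [K3] Joint moments of the models of a free power

The letters `S` have a multiplication `mul` and an involution `st`; `c j : S → E` (`j ∈ J`) are the
copies in the free power `(E, φ)` and `x α : S → (Fin (n α) → Matrix (κ α) (κ α) ℂ)` are the models.
Given for each `α` and `L` the homomorphisms `Φ α L j` (from `G3`), the elements
`Φ α L j (x α a)` have, along `ℱ ×ˢ atTop`, the joint ⋆-moments of the `c j a`.

Proof. Apply `free_moments` (`K1`) with the index set `Λ × ℕ`, the filter `ℱ ×ˢ atTop`,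
`D (α, L) = Matrix (ρ α L) (ρ α L) ℂ`, `t = ntr`, `Y (α, L) j a = Φ α L j (x α a)`, and
`μ l = φ (l.map fun p => c p.1 p.2).prod`.
* `hR`: `Φ` is contractive, `‖x α a‖ ≤ R a` (sup norm; `R a ≥ 0`).
* `hmulY`, `h1`, `hdec`: `Φ` preserves sums, products and the 2-norm, and `xmul`, `xtr`, `xdec`
  (composed with `Prod.fst`, `tendsto_fst`).
* `hBY`: by `xB` eventually `x α b` is a constant family, and `Φ α L i`, `Φ α L j` agree on it.
* `hfree`: `K2` (eventually `l.length ≤ L`; `R := max 1 (sum of the R p.2)`, `δ :=` the sum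
  over `p ∈ l` of `n2 ntr (avg (x α p.2))`, which tends to `0`).
For a word `w` with stars: replace each letter `((j, a), true)`, standing for `star (Φ j (x a))`,
by `(j, st a)` (`xst`, `word_close`/`prod_close`), and on the other side use `cst`. The list of
letters is `w.map fun p => (p.1.1, if p.2 then st p.1.2 else p.1.2)`.
-/

set_option autoImplicit false

namespace Pool.Agent.QFP

open Filter Topology
open scoped Matrix.Norms.L2Operator

theorem K3_n2 {D D' : Type*} [CStarAlgebra D] [CStarAlgebra D'] {t : D →ₗ[ℂ] ℂ}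
    {t' : D' →ₗ[ℂ] ℂ} (Ψ : D →⋆ₐ[ℂ] D') (hΨ : ∀ x, t' (Ψ x) = t x) (x : D) :
    n2 t' (Ψ x) = n2 t x := by
  unfold n2
  rw [← map_star, ← map_mul, hΨ]

theorem K3_norm {D D' : Type*} [CStarAlgebra D] [CStarAlgebra D'] (Ψ : D →⋆ₐ[ℂ] D') (x : D) :
    ‖Ψ x‖ ≤ ‖x‖ := NonUnitalStarAlgHom.norm_apply_le Ψ x

theorem K3_sum_zero {ι α : Type*} {ℱ : Filter α} (f : ι → α → ℝ) (l : List ι)
    (h : ∀ i ∈ l, Tendsto (f i) ℱ (𝓝 0)) :
    Tendsto (fun b => (l.map fun c => f c b).sum) ℱ (𝓝 0) := by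
  have := tendsto_list_sum (f := f) (x := ℱ) (a := fun _ => (0 : ℝ)) l h
  simpa using this

theorem K3_le_sum {ι : Type*} (f : ι → ℝ) (l : List ι) (h : ∀ i, 0 ≤ f i) (i : ι) (hi : i ∈ l) :
    f i ≤ (l.map f).sum := by
  induction l with
  | nil => exact absurd hi List.not_mem_nil
  | cons a l ih =>
    simp only [List.map_cons, List.sum_cons]
    have h2 : 0 ≤ (l.map f).sum := List.sum_nonneg (by
      intro y hy
      obtain ⟨j, _, rfl⟩ := List.mem_map.1 hy
      exact h j)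
    rcases List.mem_cons.1 hi with rfl | hi
    · linarith
    · have := ih hi
      have := h a
      linarith

theorem K3_sum_nonneg {ι : Type*} (f : ι → ℝ) (l : List ι) (h : ∀ i, 0 ≤ f i) :
    0 ≤ (l.map f).sum := List.sum_nonneg (by
      intro y hy
      obtain ⟨j, _, rfl⟩ := List.mem_map.1 hy
      exact h j)

theorem model_moments {S : Type*} {J : Type} (mul : S → S → S) (st : S → S)
    (isB isC : S → Prop) (R : S → ℝ) (T : S → ℂ)
    {E : Type*} [CStarAlgebra E] (φ : E →ₗ[ℂ] ℂ) (hφ : TrAlg φ) (c : J → S → E)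
    (cmul : ∀ j a b, c j (mul a b) = c j a * c j b)
    (cst : ∀ j a, c j (st a) = star (c j a))
    (cB : ∀ i j b, isB b → c i b = c j b)
    (ctr : ∀ j a, φ (c j a) = T a)
    (cfree : ∀ l : List (J × S), l ≠ [] → l.IsChain (fun p q => p.1 ≠ q.1) →
      (∀ p ∈ l, isC p.2) → φ (l.map fun p => c p.1 p.2).prod = 0)
    {Λ : Type*} (ℱ : Filter Λ) (n : Λ → ℕ) (hn : ∀ α, 0 < n α)
    (κ : Λ → Type) [∀ α, Fintype (κ α)] [∀ α, DecidableEq (κ α)] [∀ α, Nonempty (κ α)]
    (x : ∀ α, S → Fin (n α) → Matrix (κ α) (κ α) ℂ)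
    (xR : ∀ α a s, ‖x α a s‖ ≤ R a)
    (xmul : ∀ a b, Tendsto (fun α => n2 (tpi (n α) (κ α)) (x α (mul a b) - x α a * x α b)) ℱ (𝓝 0))
    (xst : ∀ a, Tendsto (fun α => n2 (tpi (n α) (κ α)) (x α (st a) - star (x α a))) ℱ (𝓝 0))
    (xtr : ∀ a, Tendsto (fun α => tpi (n α) (κ α) (x α a)) ℱ (𝓝 (T a)))
    (xB : ∀ b, isB b → ∀ᶠ α in ℱ, ∀ s s', x α b s = x α b s')
    (xC : ∀ a, isC a → Tendsto (fun α => n2 ntr ((n α : ℂ)⁻¹ • ∑ s, x α a s)) ℱ (𝓝 0))
    (hdec : ∀ a, isB a ∨ isC a ∨ ∃ a0 b, isC a0 ∧ isB b ∧ (∀ j, c j a = c j a0 + c j b) ∧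
      Tendsto (fun α => n2 (tpi (n α) (κ α)) (x α a - (x α a0 + x α b))) ℱ (𝓝 0))
    (ρ : Λ → ℕ → Type) [∀ α L, Fintype (ρ α L)] [∀ α L, DecidableEq (ρ α L)]
    [∀ α L, Nonempty (ρ α L)]
    (Φ : ∀ α L, J → ((Fin (n α) → Matrix (κ α) (κ α) ℂ) →⋆ₐ[ℂ] Matrix (ρ α L) (ρ α L) ℂ))
    (Φtr : ∀ α L j y, ntr (Φ α L j y) = tpi (n α) (κ α) y)
    (Φc : ∀ α L i j y, Φ α L i (fun _ => y) = Φ α L j (fun _ => y))
    (Φfree : ∀ α L (l : List (J × (Fin (n α) → Matrix (κ α) (κ α) ℂ))), l ≠ [] → l.length ≤ L →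
        l.IsChain (fun p q => p.1 ≠ q.1) → (∀ p ∈ l, ∑ s, p.2 s = 0) →
        ntr (l.map fun p => Φ α L p.1 p.2).prod = 0)
    (w : List ((J × S) × Bool)) :
    Tendsto (fun q : Λ × ℕ => ntr (wordEval (fun p : J × S => Φ q.1 q.2 p.1 (x q.1 p.2)) w))
      (ℱ ×ˢ atTop) (𝓝 (φ (wordEval (fun p : J × S => c p.1 p.2) w))) := by
  classical
  -- the models
  let Y : ∀ q : Λ × ℕ, J → S → Matrix (ρ q.1 q.2) (ρ q.1 q.2) ℂ :=
    fun q j a => Φ q.1 q.2 j (x q.1 a)
  have hY : ∀ q j a, Y q j a = Φ q.1 q.2 j (x q.1 a) := fun _ _ _ => rfl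
  have ht : ∀ q : Λ × ℕ, TrAlg (ntr : Matrix (ρ q.1 q.2) (ρ q.1 q.2) ℂ →ₗ[ℂ] ℂ) :=
    fun q => ntr_trAlg
  have hR0 : ∀ (α : Λ) a, 0 ≤ R a := fun α a =>
    le_trans (norm_nonneg _) (xR α a ⟨0, hn α⟩)
  have hxR : ∀ α a, ‖x α a‖ ≤ R a := fun α a =>
    (pi_norm_le_iff_of_nonneg (hR0 α a)).2 (xR α a)
  have hR : ∀ (q : Λ × ℕ) j a, ‖Y q j a‖ ≤ R a := fun q j a =>
    le_trans (K3_norm _ _) (hxR q.1 a)
  have hn2 : ∀ (q : Λ × ℕ) j y, n2 ntr (Φ q.1 q.2 j y) = n2 (tpi (n q.1) (κ q.1)) y :=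
    fun q j y => K3_n2 (Φ q.1 q.2 j) (Φtr q.1 q.2 j) y
  have hst : ∀ (q : Λ × ℕ) j a, n2 ntr (Y q j (st a) - star (Y q j a)) =
      n2 (tpi (n q.1) (κ q.1)) (x q.1 (st a) - star (x q.1 a)) := by
    intro q j a
    rw [hY, hY, ← map_star, ← map_sub, hn2]
  have free := free_moments (ℱ ×ˢ (atTop : Filter ℕ))
    (D := fun q : Λ × ℕ => Matrix (ρ q.1 q.2) (ρ q.1 q.2) ℂ) (fun q => ntr) ht mul isB isC R Y
    (fun l : List (J × S) => φ (l.map fun p => c p.1 p.2).prod) hR
    (by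
      intro j a b
      have h : (fun q : Λ × ℕ => n2 ntr (Y q j (mul a b) - Y q j a * Y q j b)) =
          fun q : Λ × ℕ => n2 (tpi (n q.1) (κ q.1)) (x q.1 (mul a b) - x q.1 a * x q.1 b) := by
        funext q
        rw [hY, hY, hY, ← map_mul, ← map_sub, hn2]
      rw [h]
      exact (xmul a b).comp tendsto_fst)
    (by
      intro l₁ l₂ j a b
      simp [cmul, mul_assoc])
    (by
      intro i j b hb
      have h : ∀ᶠ q : Λ × ℕ in ℱ ×ˢ (atTop : Filter ℕ), n2 ntr (Y q i b - Y q j b) = 0 := by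
        refine (tendsto_fst.eventually (xB b hb)).mono fun q hq => ?_
        have e : x q.1 b = fun _ => x q.1 b ⟨0, hn q.1⟩ := by
          funext s
          exact hq s _
        rw [hY, hY, e, Φc q.1 q.2 i j, sub_self]
        exact (ht q).n2_zero
      exact tendsto_const_nhds.congr' (h.mono fun q hq => hq.symm))
    (by
      intro l₁ l₂ i j b hb
      simp [cB i j b hb])
    (by
      intro a
      rcases hdec a with h | h | ⟨a0, b, h1, h2, h3, h4⟩
      · exact Or.inl h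
      · exact Or.inr (Or.inl h)
      · refine Or.inr (Or.inr ⟨a0, b, h1, h2, ?_, ?_⟩)
        · intro j
          have h : (fun q : Λ × ℕ => n2 ntr (Y q j a - (Y q j a0 + Y q j b))) =
              fun q : Λ × ℕ => n2 (tpi (n q.1) (κ q.1)) (x q.1 a - (x q.1 a0 + x q.1 b)) := by
            funext q
            rw [hY, hY, hY, ← map_add, ← map_sub, hn2]
          rw [h]
          exact h4.comp tendsto_fst
        · intro l₁ l₂ j
          rw [← map_add]
          congr 1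
          simp only [List.map_append, List.map_cons, List.prod_append, List.prod_cons, h3]
          rw [add_mul, mul_add])
    (by simpa using hφ.one)
    (by
      intro j a
      have h : (fun q : Λ × ℕ => ntr (Y q j a)) = fun q : Λ × ℕ => tpi (n q.1) (κ q.1) (x q.1 a) := by
        funext q
        rw [hY, Φtr]
      rw [h]
      have h2 : φ (List.map (fun p : J × S => c p.1 p.2) [(j, a)]).prod = T a := by simp [ctr]
      rw [h2]
      exact (xtr a).comp tendsto_fst)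
    (by
      intro l hl hch hC
      refine ⟨?_, cfree l hl hch hC⟩
      obtain ⟨R', hR1, hR2⟩ := K1y_bound R l
      have hb : ∀ᶠ q : Λ × ℕ in ℱ ×ˢ (atTop : Filter ℕ),
          ‖ntr (l.map fun p => Y q p.1 p.2).prod‖ ≤ l.length * (2 * R') ^ l.length *
            (l.map fun p => n2 ntr ((n q.1 : ℂ)⁻¹ • ∑ s, x q.1 p.2 s)).sum := by
        refine (tendsto_snd.eventually (eventually_ge_atTop l.length)).mono fun q hq => ?_
        refine alt_small (n q.1) (hn q.1) (κ q.1) (ρ q.1 q.2) q.2 (Φ q.1 q.2) (Φtr q.1 q.2)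
          (Φfree q.1 q.2) (x q.1) l hl hq hch R' hR1 _ ?_ ?_
        · exact K3_sum_nonneg _ _ fun p => n2_nonneg _ _
        · intro p hp
          refine ⟨fun s => le_trans (xR q.1 p.2 s) (hR2 p hp), ?_⟩
          exact K3_le_sum (fun p : J × S => n2 ntr ((n q.1 : ℂ)⁻¹ • ∑ s, x q.1 p.2 s)) l
            (fun p => n2_nonneg _ _) p hp
      refine squeeze_zero_norm' hb ?_
      have h0 : Tendsto (fun q : Λ × ℕ =>
          (l.map fun p => n2 ntr ((n q.1 : ℂ)⁻¹ • ∑ s, x q.1 p.2 s)).sum)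
          (ℱ ×ˢ (atTop : Filter ℕ)) (𝓝 0) :=
        K3_sum_zero (fun (p : J × S) (q : Λ × ℕ) => n2 ntr ((n q.1 : ℂ)⁻¹ • ∑ s, x q.1 p.2 s)) l
          (fun p hp => (xC p.2 (hC p hp)).comp tendsto_fst)
      simpa using h0.const_mul ((l.length : ℝ) * (2 * R') ^ l.length))
  -- words with stars
  let lw : List (J × S) := w.map fun p => (p.1.1, if p.2 then st p.1.2 else p.1.2)
  have h1 := free lw
  have hμ : φ (lw.map fun p => c p.1 p.2).prod = φ (wordEval (fun p : J × S => c p.1 p.2) w) := by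
    congr 1
    unfold wordEval
    congr 1
    simp only [lw, List.map_map]
    refine List.map_congr_left fun p _ => ?_
    by_cases hp : p.2 <;> simp [hp, cst]
  rw [hμ] at h1
  obtain ⟨R', hR1, hR2⟩ := K1y_bound R (w.map fun p => p.1)
  obtain ⟨R'', hR3, hR4⟩ := K1y_bound R lw
  have hclose : ∀ q : Λ × ℕ,
      n2 ntr (wordEval (fun p : J × S => Φ q.1 q.2 p.1 (x q.1 p.2)) w -
        (lw.map fun p => Y q p.1 p.2).prod) ≤
        w.length * (max R' R'') ^ w.length *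
          (w.map fun p => n2 (tpi (n q.1) (κ q.1))
            (x q.1 (st p.1.2) - star (x q.1 p.1.2))).sum := by
    intro q
    have h := (ht q).prod_close (max R' R'')
      (w.map fun p => n2 (tpi (n q.1) (κ q.1)) (x q.1 (st p.1.2) - star (x q.1 p.1.2))).sum
      (le_trans hR1 (le_max_left _ _)) (K3_sum_nonneg _ _ fun p => n2_nonneg _ _)
      (w.map fun p => ((if p.2 then star (Y q p.1.1 p.1.2) else Y q p.1.1 p.1.2),
        Y q p.1.1 (if p.2 then st p.1.2 else p.1.2)))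
      (by
        intro r hr
        obtain ⟨p, hp, rfl⟩ := List.mem_map.1 hr
        have hb1 : ‖Y q p.1.1 p.1.2‖ ≤ max R' R'' :=
          le_trans (hR q _ _) (le_trans (hR2 p.1 (List.mem_map.2 ⟨p, hp, rfl⟩)) (le_max_left _ _))
        have hb2 : ‖Y q p.1.1 (if p.2 then st p.1.2 else p.1.2)‖ ≤ max R' R'' :=
          le_trans (hR q _ _) (le_trans (hR4 (p.1.1, if p.2 then st p.1.2 else p.1.2)
            (List.mem_map.2 ⟨p, hp, rfl⟩)) (le_max_right _ _))
        refine ⟨?_, hb2, ?_⟩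
        · by_cases hp2 : p.2
          · simpa [hp2] using hb1
          · simpa [hp2] using hb1
        · have hle := K3_le_sum (fun p : (J × S) × Bool => n2 (tpi (n q.1) (κ q.1))
            (x q.1 (st p.1.2) - star (x q.1 p.1.2))) w (fun p => n2_nonneg _ _) p hp
          by_cases hp2 : p.2
          · simp only [hp2, if_true]
            rw [(ht q).n2_sub_comm, hst]
            exact hle
          · simp only [hp2, if_false, sub_self, Bool.false_eq_true]
            rw [(ht q).n2_zero]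
            exact le_trans (n2_nonneg _ _) hle)
    have e1 : wordEval (fun p : J × S => Φ q.1 q.2 p.1 (x q.1 p.2)) w =
        ((w.map fun p => ((if p.2 then star (Y q p.1.1 p.1.2) else Y q p.1.1 p.1.2),
          Y q p.1.1 (if p.2 then st p.1.2 else p.1.2))).map Prod.fst).prod := by
      unfold wordEval
      rw [List.map_map]
      rfl
    have e2 : (lw.map fun p => Y q p.1 p.2).prod =
        ((w.map fun p => ((if p.2 then star (Y q p.1.1 p.1.2) else Y q p.1.1 p.1.2),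
          Y q p.1.1 (if p.2 then st p.1.2 else p.1.2))).map Prod.snd).prod := by
      simp only [lw, List.map_map]
      rfl
    rw [e1, e2]
    simpa using h
  have hsum : Tendsto (fun q : Λ × ℕ => (w.length : ℝ) * (max R' R'') ^ w.length *
      (w.map fun p => n2 (tpi (n q.1) (κ q.1)) (x q.1 (st p.1.2) - star (x q.1 p.1.2))).sum)
      (ℱ ×ˢ (atTop : Filter ℕ)) (𝓝 0) := by
    have h0 : Tendsto (fun q : Λ × ℕ =>
        (w.map fun p => n2 (tpi (n q.1) (κ q.1)) (x q.1 (st p.1.2) - star (x q.1 p.1.2))).sum)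
        (ℱ ×ˢ (atTop : Filter ℕ)) (𝓝 0) :=
      K3_sum_zero (fun (p : (J × S) × Bool) (q : Λ × ℕ) => n2 (tpi (n q.1) (κ q.1))
        (x q.1 (st p.1.2) - star (x q.1 p.1.2))) w
        (fun p _ => (xst p.1.2).comp tendsto_fst)
    simpa using h0.const_mul ((w.length : ℝ) * (max R' R'') ^ w.length)
  have hdiff : Tendsto (fun q : Λ × ℕ =>
      ntr (wordEval (fun p : J × S => Φ q.1 q.2 p.1 (x q.1 p.2)) w) -
        ntr (lw.map fun p => Y q p.1 p.2).prod) (ℱ ×ˢ (atTop : Filter ℕ)) (𝓝 0) := by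
    refine squeeze_zero_norm (fun q => ?_) hsum
    rw [← map_sub]
    exact le_trans ((ht q).norm_le_n2 _) (hclose q)
  have := hdiff.add h1
  simpa using this

end Pool.Agent.QFP
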