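import Pool.Agent.QFP.D1

/-!
# [L1x] Density of the commutant orbit
-/

set_option autoImplicit false

namespace Pool.Agent.QFP

open Filter Topology
open scoped InnerProductSpace

variable {H : Type*} [NormedAddCommGroup H] [InnerProductSpace ℂ H] [CompleteSpace H]

/-- Operator norm balls are complete in the 2-norm. -/
def BallComplete {D : Type*} [CStarAlgebra D] (t : D →ₗ[ℂ] ℂ) : Prop :=
  ∀ (r : ℝ) (u : ℕ → D), (∀ k, ‖u k‖ ≤ r) →
    (∀ ε : ℝ, 0 < ε → ∃ N : ℕ, ∀ k, N ≤ k → ∀ l, N ≤ l → n2 t (u k - u l) < ε) →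
    ∃ y : D, ‖y‖ ≤ r ∧ Tendsto (fun k => n2 t (u k - y)) atTop (𝓝 0)

/-- If the vectors `ξ i` are separating for `N` then the vectors `a' (ξ i)`, `a' ∈ N'`, span a dense
subspace: the projection `p` onto the closure of the span commutes with `N'` (which is a ⋆-algebra),
so `p ∈ N'' = N`, and `(1 - p) (ξ i) = 0`, so `1 - p = 0`. (Compare `proj_comm` in `Amp`.) -/
theorem dense_commutant (N : VonNeumannAlgebra H) (ξ : ℕ → H)
    (hξ : ∀ x : H →L[ℂ] H, x ∈ N → (∀ i, x (ξ i) = 0) → x = 0) :
    (Submodule.span ℂ {v : H | ∃ a ∈ N.commutant, ∃ i, v = a (ξ i)}).topologicalClosure = ⊤ := by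
  set S : Submodule ℂ H := Submodule.span ℂ {v : H | ∃ a ∈ N.commutant, ∃ i, v = a (ξ i)} with hS
  set V := S.topologicalClosure with hV
  have hVc : IsClosed (V : Set H) := S.isClosed_topologicalClosure
  have hcV : CompleteSpace V := hVc.completeSpace_coe
  have hinv : ∀ a ∈ N.commutant, ∀ v ∈ V, a v ∈ V := by
    intro a ha v hv
    have hmaps : Set.MapsTo a (S : Set H) (S : Set H) := by
      intro w hw
      have h1 : S.map a.toLinearMap ≤ S := by
        rw [hS, Submodule.map_span_le]
        rintro _ ⟨b, hb, i, rfl⟩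
        exact Submodule.subset_span ⟨a * b, mul_mem ha hb, i, rfl⟩
      exact h1 ⟨w, hw, rfl⟩
    exact hmaps.closure a.continuous hv
  have hcomm : ∀ a ∈ N.commutant, ∀ η, V.starProjection (a η) = a (V.starProjection η) := by
    intro a ha η
    apply Submodule.eq_starProjection_of_mem_of_inner_eq_zero
    · exact hinv a ha _ (V.starProjection_apply_mem η)
    · intro w hw
      rw [← map_sub, ← ContinuousLinearMap.adjoint_inner_right,
        ← ContinuousLinearMap.star_eq_adjoint]
      exact V.starProjection_inner_eq_zero η _ (hinv (star a) (star_mem ha) w hw)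
  have hpN : V.starProjection ∈ N := by
    rw [← N.commutant_commutant, VonNeumannAlgebra.mem_commutant_iff]
    intro a ha
    refine ContinuousLinearMap.ext fun v => ?_
    exact (hcomm a ha v).symm
  have hξV : ∀ i, ξ i ∈ V := fun i =>
    S.le_topologicalClosure (Submodule.subset_span ⟨1, one_mem _, i, rfl⟩)
  have h1 : (1 : H →L[ℂ] H) - V.starProjection = 0 := by
    apply hξ _ (sub_mem (one_mem _) hpN)
    intro i
    show ξ i - V.starProjection (ξ i) = 0
    rw [Submodule.starProjection_eq_self_iff.2 (hξV i), sub_self]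
  rw [eq_top_iff]
  intro v _
  have h2 := congrArg (fun T : H →L[ℂ] H => T v) h1
  have h3 : v - V.starProjection v = 0 := h2
  rw [sub_eq_zero] at h3
  rw [h3]
  exact V.starProjection_apply_mem v

end Pool.Agent.QFP
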