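import Pool.Agent.QFP.D1
import Pool.Agent.QFP.L1x

/-!
# [L1y] Pointwise limits
-/

set_option autoImplicit false

namespace Pool.Agent.QFP

open Filter Topology
open scoped InnerProductSpace

variable {H : Type*} [NormedAddCommGroup H] [InnerProductSpace ℂ H] [CompleteSpace H]

/-- A bounded sequence of operators which converges pointwise on a set with dense span converges
pointwise everywhere to an operator with the same bound (`continuousLinearMapOfTendsto`). -/
theorem exists_limit (u : ℕ → H →L[ℂ] H) (r : ℝ) (hu : ∀ k, ‖u k‖ ≤ r) (S : Set H)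
    (hS : (Submodule.span ℂ S).topologicalClosure = ⊤)
    (hc : ∀ v ∈ S, ∃ z, Tendsto (fun k => u k v) atTop (𝓝 z)) :
    ∃ y : H →L[ℂ] H, ‖y‖ ≤ r ∧ ∀ v, Tendsto (fun k => u k v) atTop (𝓝 (y v)) := by
  have hr : 0 ≤ r := (norm_nonneg _).trans (hu 0)
  have hub : ∀ k v, ‖u k v‖ ≤ r * ‖v‖ := fun k v =>
    ((u k).le_opNorm v).trans (mul_le_mul_of_nonneg_right (hu k) (norm_nonneg v))
  let W : Submodule ℂ H :=
    { carrier := {v | ∃ z, Tendsto (fun k => u k v) atTop (𝓝 z)}
      add_mem' := by
        rintro a b ⟨z, hz⟩ ⟨z', hz'⟩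
        refine ⟨z + z', ?_⟩
        refine (hz.add hz').congr fun k => ?_
        rw [map_add]
      zero_mem' := by
        refine ⟨0, ?_⟩
        simp only [map_zero]
        exact tendsto_const_nhds
      smul_mem' := by
        rintro c a ⟨z, hz⟩
        refine ⟨c • z, ?_⟩
        refine (hz.const_smul c).congr fun k => ?_
        rw [map_smul] }
  have hSW : Submodule.span ℂ S ≤ W := Submodule.span_le.2 fun v hv => hc v hv
  have hall : ∀ v, ∃ z, Tendsto (fun k => u k v) atTop (𝓝 z) := by
    intro v
    apply cauchySeq_tendsto_of_complete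
    rw [Metric.cauchySeq_iff']
    intro ε hε
    have hv : v ∈ (Submodule.span ℂ S).topologicalClosure := by
      rw [hS]
      exact Submodule.mem_top
    have hv2 : v ∈ closure ((Submodule.span ℂ S : Submodule ℂ H) : Set H) := hv
    obtain ⟨v', hv', hd⟩ := Metric.mem_closure_iff.1 hv2 (ε / (3 * (r + 1))) (by positivity)
    obtain ⟨z, hz⟩ := hSW hv'
    obtain ⟨N, hN⟩ := Metric.cauchySeq_iff'.1 hz.cauchySeq (ε / 3) (by positivity)
    refine ⟨N, fun n hn => ?_⟩
    have h1 := hN n hn
    rw [dist_eq_norm] at h1 hd ⊢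
    have h2 : u n v - u N v = (u n (v - v')) + (u n v' - u N v') - u N (v - v') := by
      rw [map_sub, map_sub]
      abel
    have h3 : r * ‖v - v'‖ ≤ ε / 3 := by
      have h4 : ‖v - v'‖ * (3 * (r + 1)) < ε := (lt_div_iff₀ (by positivity)).1 hd
      have h5 := norm_nonneg (v - v')
      nlinarith
    have h4 := norm_sub_le (u n (v - v') + (u n v' - u N v')) (u N (v - v'))
    have h5 := norm_add_le (u n (v - v')) (u n v' - u N v')
    have h6 := hub n (v - v')
    have h7 := hub N (v - v')
    rw [h2]
    linarith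
  choose g hg using hall
  let y0 : H →ₗ[ℂ] H :=
    { toFun := g
      map_add' := by
        intro a b
        refine tendsto_nhds_unique (hg (a + b)) ?_
        refine ((hg a).add (hg b)).congr fun k => ?_
        rw [map_add]
      map_smul' := by
        intro c a
        refine tendsto_nhds_unique (hg (c • a)) ?_
        refine ((hg a).const_smul c).congr fun k => ?_
        rw [map_smul] }
  have hyb : ∀ v, ‖y0 v‖ ≤ r * ‖v‖ := fun v =>
    le_of_tendsto (hg v).norm (Filter.Eventually.of_forall fun k => hub k v)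
  refine ⟨y0.mkContinuous r hyb, LinearMap.mkContinuous_norm_le y0 hr hyb, fun v => ?_⟩
  exact hg v

end Pool.Agent.QFP
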