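import Pool.Agent.QFP.D1
import Pool.Agent.QFP.L1y

/-!
# [L1z] The ball is complete in the 2-norm
-/

set_option autoImplicit false

namespace Pool.Agent.QFP

open Filter Topology
open scoped InnerProductSpace

variable {H : Type*} [NormedAddCommGroup H] [InnerProductSpace ℂ H] [CompleteSpace H]

/-- Let `ξ` be from `IsTrace.exists_n2`. `u k (ξ i)` is Cauchy for every `i`, hence
`u k (a' (ξ i)) = a' (u k (ξ i))` converges for `a' ∈ N'`; `dense_commutant`, `exists_limit` give the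
limit `y`, which commutes with `N'`, so `y ∈ N`
(`VonNeumannAlgebra.commutant_commutant`). For finite `I`,
`∑_{i ∈ I} ‖(u k - y) (ξ i)‖ ^ 2 = lim_l ∑_{i ∈ I} ‖(u k - u l) (ξ i)‖ ^ 2 ≤ ε ^ 2`. -/
theorem IsTrace.ballComplete {N : VonNeumannAlgebra H} {τ : Alg N →ₗ[ℂ] ℂ} (h : IsTrace N τ) :
    BallComplete τ := by
  intro r u hu hcau
  obtain ⟨ξ, hξ, hτ, hsum, hn2⟩ := h.exists_n2
  set U : ℕ → H →L[ℂ] H := fun k => ((u k : Alg N) : H →L[ℂ] H) with hU
  have hUn : ∀ k, ‖U k‖ ≤ r := hu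
  have hsub : ∀ k l, (((u k - u l : Alg N)) : H →L[ℂ] H) = U k - U l := fun k l => rfl
  have hpt : ∀ k l i, ‖(U k - U l) (ξ i)‖ ≤ n2 τ (u k - u l) := by
    intro k l i
    have h1 : ‖(U k - U l) (ξ i)‖ ^ 2 ≤ n2 τ (u k - u l) ^ 2 := by
      rw [hn2, hsub]
      exact (hsum (U k - U l)).le_tsum i (fun j _ => sq_nonneg _)
    exact (pow_le_pow_iff_left₀ (norm_nonneg _) (n2_nonneg _ _) two_ne_zero).1 h1
  have hconv : ∀ i, ∃ z, Tendsto (fun k => U k (ξ i)) atTop (𝓝 z) := by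
    intro i
    apply cauchySeq_tendsto_of_complete
    rw [Metric.cauchySeq_iff]
    intro ε hε
    obtain ⟨K, hK⟩ := hcau ε hε
    refine ⟨K, fun m hm n hn => ?_⟩
    rw [dist_eq_norm, ← sub_apply]
    exact (hpt m n i).trans_lt (hK m hm n hn)
  have hsep : ∀ x : H →L[ℂ] H, x ∈ N → (∀ i, x (ξ i) = 0) → x = 0 := by
    intro x hx hx0
    have h1 : n2 τ (⟨x, hx⟩ : Alg N) ^ 2 = 0 := by
      rw [hn2]
      have h2 : ∀ i, ‖(((⟨x, hx⟩ : Alg N) : Alg N) : H →L[ℂ] H) (ξ i)‖ ^ 2 = 0 := by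
        intro i
        show ‖x (ξ i)‖ ^ 2 = 0
        rw [hx0 i, norm_zero]
        norm_num
      rw [tsum_congr h2, tsum_zero]
    have h3 : (⟨x, hx⟩ : Alg N) = 0 := h.eq_zero_of_n2 _ (pow_eq_zero_iff two_ne_zero |>.1 h1)
    exact congrArg Subtype.val h3
  have hcomU : ∀ k, ∀ a ∈ N.commutant, ∀ v, U k (a v) = a (U k v) := by
    intro k a ha v
    have h1 := VonNeumannAlgebra.mem_commutant_iff.1 ha (U k) (u k).2
    exact congrArg (fun T : H →L[ℂ] H => T v) h1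
  obtain ⟨y, hy, hyv⟩ := exists_limit U r hUn _ (dense_commutant N ξ hsep) (by
    rintro v ⟨a, ha, i, rfl⟩
    obtain ⟨z, hz⟩ := hconv i
    refine ⟨a z, ?_⟩
    have h1 := (a.continuous.tendsto z).comp hz
    refine h1.congr fun k => ?_
    exact (hcomU k a ha (ξ i)).symm)
  have hyN : y ∈ N := by
    rw [← N.commutant_commutant, VonNeumannAlgebra.mem_commutant_iff]
    intro a ha
    refine ContinuousLinearMap.ext fun v => ?_
    show a (y v) = y (a v)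
    refine tendsto_nhds_unique ((a.continuous.tendsto _).comp (hyv v)) ?_
    refine (hyv (a v)).congr fun k => ?_
    exact hcomU k a ha v
  refine ⟨⟨y, hyN⟩, hy, ?_⟩
  rw [Metric.tendsto_atTop]
  intro ε hε
  obtain ⟨K, hK⟩ := hcau (ε / 2) (by linarith)
  refine ⟨K, fun k hk => ?_⟩
  rw [Real.dist_eq, sub_zero, abs_of_nonneg (n2_nonneg _ _)]
  have h1 : n2 τ (u k - ⟨y, hyN⟩) ^ 2 ≤ (ε / 2) ^ 2 := by
    rw [hn2]
    have h2 : ∀ i, (((u k - (⟨y, hyN⟩ : Alg N) : Alg N)) : H →L[ℂ] H) (ξ i) = (U k - y) (ξ i) :=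
      fun i => rfl
    rw [tsum_congr fun i => by rw [h2 i]]
    refine (hsum (U k - y)).tsum_le_of_sum_le ?_
    intro I
    have h3 : Tendsto (fun l => ∑ i ∈ I, ‖(U k - U l) (ξ i)‖ ^ 2) atTop
        (𝓝 (∑ i ∈ I, ‖(U k - y) (ξ i)‖ ^ 2)) := by
      refine tendsto_finsetSum _ fun i _ => ?_
      have h4 : Tendsto (fun l => (U k - U l) (ξ i)) atTop (𝓝 ((U k - y) (ξ i))) := by
        simp only [sub_apply]
        exact tendsto_const_nhds.sub (hyv (ξ i))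
      exact h4.norm.pow 2
    refine le_of_tendsto h3 ?_
    filter_upwards [eventually_ge_atTop K] with l hl
    have h5 : ∑ i ∈ I, ‖(U k - U l) (ξ i)‖ ^ 2 ≤ n2 τ (u k - u l) ^ 2 := by
      rw [hn2]
      exact (hsum (U k - U l)).sum_le_tsum I (fun i _ => sq_nonneg _)
    have h6 := hK k hk l hl
    exact h5.trans (pow_le_pow_left₀ (n2_nonneg _ _) h6.le 2)
  have h7 := (pow_le_pow_iff_left₀ (n2_nonneg _ _) (by linarith : (0 : ℝ) ≤ ε / 2) two_ne_zero).1 h1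
  linarith

end Pool.Agent.QFP
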