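import Pool.Agent.QFP.L1

/-!
# [L4x] Nearest point in the ball

`Ψ : D0 → D` is a trace preserving ⋆-homomorphism of tracial C*-algebras and the balls of `D0`
are complete in 2-norm. Then every `a : D` has an orthogonal projection in `Ψ(D0)`.
Notation: `⟨x, y⟩ = re t (star x * y)`.
-/

set_option autoImplicit false

namespace Pool.Agent.QFP

open Filter Topology

variable {D0 D : Type*} [CStarAlgebra D0] [CStarAlgebra D] {t0 : D0 →ₗ[ℂ] ℂ} {t : D →ₗ[ℂ] ℂ}

theorem L4x_expand {t : D →ₗ[ℂ] ℂ} (h : TrAlg t) (z w : D) (s : ℝ) :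
    n2 t (z - (s : ℂ) • w) ^ 2 =
      n2 t z ^ 2 - 2 * s * (t (star w * z)).re + s ^ 2 * n2 t w ^ 2 := by
  have hc : t (star z * w) = starRingEnd ℂ (t (star w * z)) := by
    rw [← h.map_star, star_mul, star_star]
  have h1 : t (star (z - (s : ℂ) • w) * (z - (s : ℂ) • w)) =
      t (star z * z) - (s : ℂ) * t (star z * w) - (s : ℂ) * t (star w * z) +
        (s : ℂ) * ((s : ℂ) * t (star w * w)) := by
    have hs : star (s : ℂ) = (s : ℂ) := Complex.conj_ofReal s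
    rw [star_sub, star_smul, hs, sub_mul, mul_sub, mul_sub, smul_mul_assoc, smul_mul_assoc,
      mul_smul_comm, mul_smul_comm, map_sub, map_sub, map_sub, map_smul, map_smul, map_smul,
      map_smul, smul_eq_mul, smul_eq_mul, smul_eq_mul, smul_eq_mul]
    ring
  rw [h.n2_sq, h.n2_sq, h.n2_sq, h1, hc]
  simp only [Complex.add_re, Complex.sub_re, Complex.re_ofReal_mul, Complex.conj_re]
  ring

/-- The ball of radius `r` in `D0` has a nearest point `b` to `a`; the variational inequality.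
Minimising sequence + parallelogram law + `BallComplete`; then compare `b` with
`(1 - s) b + s y`, `0 < s ≤ 1`, and let `s → 0`. -/
theorem exists_nearest (h0 : TrAlg t0) (h : TrAlg t) (hc : BallComplete t0) (Ψ : D0 →⋆ₐ[ℂ] D)
    (hΨ : ∀ x, t (Ψ x) = t0 x) (a : D) (r : ℝ) (hr : 0 ≤ r) :
    ∃ b : D0, ‖b‖ ≤ r ∧ ∀ y : D0, ‖y‖ ≤ r →
      (t (star (Ψ (y - b)) * (a - Ψ b))).re ≤ 0 := by
  set f : D0 → ℝ := fun y => n2 t (a - Ψ y) ^ 2 with hf
  set S : Set ℝ := f '' {y | ‖y‖ ≤ r} with hS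
  have hne : S.Nonempty := ⟨f 0, 0, by
    show ‖(0 : D0)‖ ≤ r
    rw [norm_zero]
    exact hr, rfl⟩
  have hbd : BddBelow S := ⟨0, by
    rintro _ ⟨y, _, rfl⟩
    exact sq_nonneg _⟩
  set m := sInf S with hm
  have hmle : ∀ y : D0, ‖y‖ ≤ r → m ≤ f y := fun y hy => csInf_le hbd ⟨y, hy, rfl⟩
  have hex : ∀ k : ℕ, ∃ y : D0, ‖y‖ ≤ r ∧ f y < m + 1 / ((k : ℝ) + 1) := by
    intro k
    have h1 : m < m + 1 / ((k : ℝ) + 1) := by
      have : (0 : ℝ) < 1 / ((k : ℝ) + 1) := by positivity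
      linarith
    obtain ⟨_, ⟨y, hy, rfl⟩, h2⟩ := exists_lt_of_csInf_lt hne h1
    exact ⟨y, hy, h2⟩
  choose u hu hfu using hex
  have hpar : ∀ k l, n2 t0 (u k - u l) ^ 2 ≤ 2 * f (u k) + 2 * f (u l) - 4 * m := by
    intro k l
    have h1 := h.parallelogram (a - Ψ (u k)) (a - Ψ (u l))
    have h2 : (a - Ψ (u k)) - (a - Ψ (u l)) = Ψ (u l - u k) := by
      rw [map_sub]
      abel
    have h3 : (a - Ψ (u k)) + (a - Ψ (u l)) =
        (2 : ℂ) • (a - Ψ ((1 / 2 : ℂ) • (u k + u l))) := by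
      rw [map_smul, smul_sub, smul_smul, map_add]
      have : (2 : ℂ) * (1 / 2) = 1 := by norm_num
      rw [this, one_smul, two_smul]
      abel
    have h4 : n2 t ((2 : ℂ) • (a - Ψ ((1 / 2 : ℂ) • (u k + u l)))) ^ 2 =
        4 * f ((1 / 2 : ℂ) • (u k + u l)) := by
      rw [h.n2_smul, mul_pow]
      have : ‖(2 : ℂ)‖ ^ 2 = 4 := by norm_num
      rw [this]
    have h5 : ‖(1 / 2 : ℂ) • (u k + u l)‖ ≤ r := by
      rw [norm_smul]
      have h6 := norm_add_le (u k) (u l)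
      have h7 := hu k
      have h8 := hu l
      have h9 : ‖(1 / 2 : ℂ)‖ = 1 / 2 := by norm_num
      rw [h9]
      linarith
    have h6 := hmle _ h5
    rw [h2, h3, h4, n2_map Ψ hΨ, h0.n2_sub_comm] at h1
    have h7 : f (u k) = n2 t (a - Ψ (u k)) ^ 2 := rfl
    have h8 : f (u l) = n2 t (a - Ψ (u l)) ^ 2 := rfl
    rw [h7, h8]
    linarith
  have hcau : ∀ ε : ℝ, 0 < ε → ∃ N : ℕ, ∀ k, N ≤ k → ∀ l, N ≤ l → n2 t0 (u k - u l) < ε := by
    intro ε hε
    obtain ⟨N, hN⟩ := exists_nat_gt (4 / ε ^ 2)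
    refine ⟨N, fun k hk l hl => ?_⟩
    have hNpos : (0 : ℝ) < N + 1 := by positivity
    have h1 : ∀ j : ℕ, N ≤ j → 1 / ((j : ℝ) + 1) ≤ 1 / ((N : ℝ) + 1) := by
      intro j hj
      apply one_div_le_one_div_of_le hNpos
      have : (N : ℝ) ≤ j := by exact_mod_cast hj
      linarith
    have h2 := hpar k l
    have h3 := hfu k
    have h4 := hfu l
    have h5 := h1 k hk
    have h6 := h1 l hl
    have h7 : 4 * (1 / ((N : ℝ) + 1)) < ε ^ 2 := by
      rw [mul_one_div, div_lt_iff₀ hNpos]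
      rw [div_lt_iff₀ (by positivity)] at hN
      nlinarith [sq_nonneg ε, pow_pos hε 2]
    have h8 : n2 t0 (u k - u l) ^ 2 < ε ^ 2 := by linarith
    exact lt_of_pow_lt_pow_left₀ 2 hε.le h8
  obtain ⟨b, hb, hlim⟩ := hc r u hu hcau
  have hfb : f b ≤ m := by
    have h1 : ∀ k, n2 t (a - Ψ b) ≤ n2 t (a - Ψ (u k)) + n2 t0 (u k - b) := by
      intro k
      have h2 := h.n2_sub_le a (Ψ (u k)) (Ψ b)
      rw [← map_sub, n2_map Ψ hΨ] at h2
      exact h2
    have h2 : ∀ k, n2 t (a - Ψ (u k)) ≤ Real.sqrt (m + 1 / ((k : ℝ) + 1)) := by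
      intro k
      apply Real.le_sqrt_of_sq_le
      exact (hfu k).le
    have h3 : Tendsto (fun k : ℕ => Real.sqrt (m + 1 / ((k : ℝ) + 1)) + n2 t0 (u k - b)) atTop
        (𝓝 (Real.sqrt (m + 0) + 0)) := by
      refine Tendsto.add ?_ hlim
      exact (Real.continuous_sqrt.tendsto _).comp
        (tendsto_const_nhds.add tendsto_one_div_add_atTop_nhds_zero_nat)
    have h4 : n2 t (a - Ψ b) ≤ Real.sqrt (m + 0) + 0 :=
      ge_of_tendsto h3 (Filter.Eventually.of_forall fun k =>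
        (h1 k).trans (add_le_add (h2 k) le_rfl))
    rw [add_zero, add_zero] at h4
    have hm0 : 0 ≤ m := Real.sInf_nonneg (by
      rintro _ ⟨y, _, rfl⟩
      exact sq_nonneg _)
    calc f b = n2 t (a - Ψ b) ^ 2 := rfl
      _ ≤ Real.sqrt m ^ 2 := pow_le_pow_left₀ (n2_nonneg _ _) h4 2
      _ = m := Real.sq_sqrt hm0
  refine ⟨b, hb, fun y hy => ?_⟩
  set w := Ψ (y - b) with hw
  have hkey : ∀ s : ℝ, 0 < s → s ≤ 1 →
      2 * (t (star w * (a - Ψ b))).re ≤ s * n2 t w ^ 2 := by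
    intro s hs hs1
    have h1 : ‖b + (s : ℂ) • (y - b)‖ ≤ r := by
      have h2 : b + (s : ℂ) • (y - b) = ((1 - s : ℝ) : ℂ) • b + (s : ℂ) • y := by
        push_cast
        rw [smul_sub, sub_smul, one_smul]
        abel
      rw [h2]
      have h3 := norm_add_le (((1 - s : ℝ) : ℂ) • b) ((s : ℂ) • y)
      rw [norm_smul, norm_smul, Complex.norm_real, Complex.norm_real, Real.norm_eq_abs,
        Real.norm_eq_abs, abs_of_nonneg (by linarith : (0 : ℝ) ≤ 1 - s), abs_of_pos hs] at h3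
      nlinarith
    have h4 := hfb.trans (hmle _ h1)
    have h5 : f (b + (s : ℂ) • (y - b)) = n2 t ((a - Ψ b) - (s : ℂ) • w) ^ 2 := by
      show n2 t (a - Ψ (b + (s : ℂ) • (y - b))) ^ 2 = _
      congr 2
      rw [map_add, map_smul, hw]
      abel
    rw [h5, L4x_expand h] at h4
    have h6 : f b = n2 t (a - Ψ b) ^ 2 := rfl
    rw [h6] at h4
    have h7 : s * (2 * (t (star w * (a - Ψ b))).re) ≤ s * (s * n2 t w ^ 2) := by nlinarith
    exact le_of_mul_le_mul_left h7 hs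
  by_contra hcon
  push Not at hcon
  set q := (t (star w * (a - Ψ b))).re with hq
  have hn := sq_nonneg (n2 t w)
  have hs0 : 0 < min 1 (q / (n2 t w ^ 2 + 1)) := lt_min one_pos (by positivity)
  have h1 := hkey _ hs0 (min_le_left _ _)
  have h2 : min 1 (q / (n2 t w ^ 2 + 1)) * n2 t w ^ 2 ≤ q := by
    have h3 := min_le_right 1 (q / (n2 t w ^ 2 + 1))
    have h4 : q / (n2 t w ^ 2 + 1) * n2 t w ^ 2 ≤ q := by
      rw [div_mul_eq_mul_div, div_le_iff₀ (by positivity)]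
      nlinarith
    exact (mul_le_mul_of_nonneg_right h3 hn).trans h4
  linarith

end Pool.Agent.QFP
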