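import Pool.Agent.QFP.L1
import Pool.Agent.QFP.L4x

/-!
# [L4y] Approximate polar decomposition

`Ψ : D0 → D` is a trace preserving ⋆-homomorphism of tracial C*-algebras and the balls of `D0`
are complete in 2-norm. Then every `a : D` has an orthogonal projection in `Ψ(D0)`.
Notation: `⟨x, y⟩ = re t (star x * y)`.
-/

set_option autoImplicit false

namespace Pool.Agent.QFP

open Filter Topology

variable {D0 D : Type*} [CStarAlgebra D0] [CStarAlgebra D] {t0 : D0 →ₗ[ℂ] ℂ} {t : D →ₗ[ℂ] ℂ}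

/-- the functional calculus part: `u = x * qi`, `q = p * p` -/
theorem L4y_cfc {D0 : Type*} [CStarAlgebra D0] (x : D0) (δ : ℝ) (hδ : 0 < δ) :
    ∃ u p qi : D0, ‖u‖ ≤ 1 ∧ IsSelfAdjoint p ∧ x = u * (p * p) ∧
      star u * x = qi ∧ ‖p * p - qi‖ ≤ Real.sqrt δ := by
  set m := star x * x with hm
  have hsa : IsSelfAdjoint m := IsSelfAdjoint.star_mul_self x
  have hpos : ∀ s ∈ spectrum ℝ m, 0 ≤ s := spectrum_star_mul_self_nonneg
  set w : ℝ → ℝ := fun s => max s 0 + δ with hw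
  have hw0 : ∀ s, 0 < w s := fun s => by
    have : 0 ≤ max s 0 := le_max_right _ _
    simp only [hw]
    linarith
  have hwc : Continuous w := (continuous_id.max continuous_const).add continuous_const
  have hwc2 : Continuous (fun s => Real.sqrt (w s)) := hwc.sqrt
  have hsq0 : ∀ s, 0 < Real.sqrt (w s) := fun s => Real.sqrt_pos.2 (hw0 s)
  have hwc3 : Continuous (fun s => Real.sqrt (Real.sqrt (w s))) := hwc2.sqrt
  have hwc4 : Continuous (fun s => (Real.sqrt (w s))⁻¹) := hwc2.inv₀ fun s => (hsq0 s).ne'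
  set qq := cfc (fun s => (Real.sqrt (w s))⁻¹) m with hqq
  set p := cfc (fun s => Real.sqrt (Real.sqrt (w s))) m with hp
  have hqsa : IsSelfAdjoint qq := cfc_predicate _ m
  have hpsa : IsSelfAdjoint p := cfc_predicate _ m
  have hid : cfc (fun s : ℝ => s) m = m := cfc_id' ℝ m
  have hpp : p * p = cfc (fun s => Real.sqrt (w s)) m := by
    rw [hp, ← cfc_mul _ _ m hwc3.continuousOn hwc3.continuousOn]
    refine cfc_congr fun s _ => ?_
    exact Real.mul_self_sqrt (Real.sqrt_nonneg _)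
  have hqm : qq * m = cfc (fun s => (Real.sqrt (w s))⁻¹ * s) m := by
    rw [cfc_mul (fun s => (Real.sqrt (w s))⁻¹) (fun s => s) m hwc4.continuousOn
      continuous_id.continuousOn, hid]
  refine ⟨x * qq, p, qq * m, ?_, hpsa, ?_, ?_, ?_⟩
  · have h1 : star (x * qq) * (x * qq) =
        cfc (fun s => (Real.sqrt (w s))⁻¹ * s * (Real.sqrt (w s))⁻¹) m := by
      rw [cfc_mul (fun s => (Real.sqrt (w s))⁻¹ * s) (fun s => (Real.sqrt (w s))⁻¹) m
        (hwc4.mul continuous_id).continuousOn hwc4.continuousOn, ← hqm, star_mul, hqsa.star_eq, hm]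
      simp only [mul_assoc]
      rfl
    have h2 : ‖star (x * qq) * (x * qq)‖ ≤ 1 := by
      rw [h1]
      refine norm_cfc_le zero_le_one fun s hs => ?_
      have h3 : 0 ≤ s := hpos s hs
      have h4 : w s = s + δ := by
        simp only [hw]
        rw [max_eq_left h3]
      have h5 : (Real.sqrt (w s))⁻¹ * s * (Real.sqrt (w s))⁻¹ = s / w s := by
        rw [mul_right_comm, ← mul_inv, Real.mul_self_sqrt (hw0 s).le, div_eq_inv_mul]
      rw [h5, Real.norm_eq_abs, abs_of_nonneg (div_nonneg h3 (hw0 s).le), div_le_one (hw0 s), h4]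
      linarith
    rw [CStarRing.norm_star_mul_self] at h2
    nlinarith [norm_nonneg (x * qq)]
  · rw [hpp, mul_assoc, hqq, ← cfc_mul _ _ m hwc4.continuousOn hwc2.continuousOn]
    have h6 : cfc (fun s => (Real.sqrt (w s))⁻¹ * Real.sqrt (w s)) m = 1 := by
      rw [← cfc_const_one ℝ m]
      refine cfc_congr fun s _ => ?_
      exact inv_mul_cancel₀ (hsq0 s).ne'
    rw [h6, mul_one]
  · rw [star_mul, hqsa.star_eq, mul_assoc]
  · rw [hpp, hqm, ← cfc_sub (fun s => Real.sqrt (w s)) (fun s => (Real.sqrt (w s))⁻¹ * s) m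
      hwc2.continuousOn (hwc4.mul continuous_id).continuousOn]
    refine norm_cfc_le (Real.sqrt_nonneg _) fun s hs => ?_
    have h3 : 0 ≤ s := hpos s hs
    have h4 : w s = s + δ := by
      simp only [hw]
      rw [max_eq_left h3]
    have h7 : Real.sqrt (w s) - (Real.sqrt (w s))⁻¹ * s = δ / Real.sqrt (w s) := by
      have h8 : Real.sqrt (w s) * Real.sqrt (w s) = s + δ := by
        rw [Real.mul_self_sqrt (hw0 s).le, h4]
      have h9 := (hsq0 s).ne'
      field_simp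
      linear_combination h8
    rw [h7, Real.norm_eq_abs, abs_of_nonneg (div_nonneg hδ.le (hsq0 s).le), div_le_iff₀ (hsq0 s)]
    have h10 : Real.sqrt δ ≤ Real.sqrt (w s) := Real.sqrt_le_sqrt (by rw [h4]; linarith)
    calc δ = Real.sqrt δ * Real.sqrt δ := (Real.mul_self_sqrt hδ.le).symm
      _ ≤ Real.sqrt δ * Real.sqrt (w s) := mul_le_mul_of_nonneg_left h10 (Real.sqrt_nonneg _)

/-- Approximate polar decomposition. Put `q = cfc (fun s => √(s + δ)) (star x * x)`,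
`q⁻¹ = cfc (fun s => 1 / √(s + δ)) (star x * x)`, `u = x * q⁻¹`. Then `‖u‖ ≤ 1`
(`star u * u = cfc (s / (s + δ))`), `x = u * q`, `t0 (star u * x) = t0 (cfc (s / √(s + δ)))` is
real and `re t0 q ≤ re t0 (star u * x) + √δ` (`√(s + δ) - s / √(s + δ) = δ / √(s + δ) ≤ √δ`,
`TrAlg.norm_le`). With `p = cfc (fun s => (s + δ) ^ (1/4)) (star x * x)`, `q = p * p`, `p` selfadjoint,
`|t (star c * Ψ (u * q))| = |t (star (c * Ψ p ... )|`: precisely
`t (star c * Ψ u * Ψ p * Ψ p) = t (Ψ p * (star c * Ψ u * Ψ p))` and Cauchy-Schwarz with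
`n2_mul_left` bound it by `n2 t (Ψ p) * (‖c‖ * ‖u‖ * n2 t (Ψ p)) ≤ ‖c‖ * re t0 q`. -/
theorem exists_polar (h0 : TrAlg t0) (h : TrAlg t) (Ψ : D0 →⋆ₐ[ℂ] D)
    (hΨ : ∀ x, t (Ψ x) = t0 x) (x : D0) (δ : ℝ) (hδ : 0 < δ) :
    ∃ u : D0, ‖u‖ ≤ 1 ∧ ∀ c : D,
      ‖t (star c * Ψ x)‖ ≤ ‖c‖ * ((t0 (star u * x)).re + Real.sqrt δ) := by
  obtain ⟨u, p, qi, hu, hp, hx, hux, hq⟩ := L4y_cfc x δ hδ
  refine ⟨u, hu, fun c => ?_⟩
  have h1 : (t0 (p * p)).re ≤ (t0 (star u * x)).re + Real.sqrt δ := by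
    have h2 : (t0 (p * p - qi)).re ≤ Real.sqrt δ :=
      ((Complex.re_le_norm _).trans (h0.norm_le _)).trans hq
    rw [map_sub, Complex.sub_re] at h2
    rw [hux]
    linarith
  refine le_trans ?_ (mul_le_mul_of_nonneg_left h1 (norm_nonneg c))
  have h3 : star (Ψ p) = Ψ p := by
    rw [← map_star, hp.star_eq]
  have h4 : t (star c * Ψ x) = t (star (Ψ p) * (star c * Ψ u * Ψ p)) := by
    have h7 : Ψ x = Ψ u * (Ψ p * Ψ p) := by
      rw [hx, map_mul, map_mul]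
    rw [h3, h.comm (Ψ p), h7]
    simp only [mul_assoc]
  have h5 : n2 t (Ψ p) ^ 2 = (t0 (p * p)).re := by
    rw [h.n2_sq, h3, ← map_mul, hΨ]
  have h6 : ‖star c * Ψ u‖ ≤ ‖c‖ := by
    calc ‖star c * Ψ u‖ ≤ ‖star c‖ * ‖Ψ u‖ := norm_mul_le _ _
      _ ≤ ‖c‖ * 1 := by
        rw [norm_star]
        exact mul_le_mul_of_nonneg_left ((NonUnitalStarAlgHom.norm_apply_le Ψ u).trans hu)
          (norm_nonneg c)
      _ = ‖c‖ := mul_one _
  rw [h4]
  calc ‖t (star (Ψ p) * (star c * Ψ u * Ψ p))‖ ≤ n2 t (Ψ p) * n2 t (star c * Ψ u * Ψ p) :=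
        h.cs _ _
    _ ≤ n2 t (Ψ p) * (‖star c * Ψ u‖ * n2 t (Ψ p)) :=
        mul_le_mul_of_nonneg_left (h.n2_mul_left _ _) (n2_nonneg _ _)
    _ ≤ n2 t (Ψ p) * (‖c‖ * n2 t (Ψ p)) :=
        mul_le_mul_of_nonneg_left (mul_le_mul_of_nonneg_right h6 (n2_nonneg _ _)) (n2_nonneg _ _)
    _ = ‖c‖ * n2 t (Ψ p) ^ 2 := by ring
    _ = ‖c‖ * (t0 (p * p)).re := by rw [h5]

end Pool.Agent.QFP
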