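import Pool.Agent.QFP.L1
import Pool.Agent.QFP.L4y

/-!
# [L4z] Almost minimisers

`Ψ : D0 → D` is a trace preserving ⋆-homomorphism of tracial C*-algebras and the balls of `D0`
are complete in 2-norm. Then every `a : D` has an orthogonal projection in `Ψ(D0)`.
Notation: `⟨x, y⟩ = re t (star x * y)`.
-/

set_option autoImplicit false

namespace Pool.Agent.QFP

open Filter Topology

variable {D0 D : Type*} [CStarAlgebra D0] [CStarAlgebra D] {t0 : D0 →ₗ[ℂ] ℂ} {t : D →ₗ[ℂ] ℂ}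

theorem L4z_expand (h : TrAlg t) (w v : D) (s : ℝ) :
    n2 t (w - ((s : ℂ) * t (star v * w)) • v) ^ 2 = n2 t w ^ 2 - 2 * s * ‖t (star v * w)‖ ^ 2 +
      s ^ 2 * ‖t (star v * w)‖ ^ 2 * n2 t v ^ 2 := by
  obtain ⟨α, hα⟩ : ∃ α, α = t (star v * w) := ⟨_, rfl⟩
  obtain ⟨c, hc⟩ : ∃ c : ℂ, c = (s : ℂ) * α := ⟨_, rfl⟩
  have h1 : t (star w * v) = star α := by
    have e : star w * v = star (star v * w) := by rw [star_mul, star_star]
    rw [e, h.map_star, ← hα]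
    rfl
  have h2 : c * star α = ((s * ‖α‖ ^ 2 : ℝ) : ℂ) := by
    rw [hc, mul_assoc]
    have e : α * star α = ((‖α‖ ^ 2 : ℝ) : ℂ) := by
      have e1 := Complex.mul_conj α
      rw [Complex.normSq_eq_norm_sq] at e1
      exact e1
    rw [e]
    push_cast
    ring
  have h3 : star c * α = ((s * ‖α‖ ^ 2 : ℝ) : ℂ) := by
    have e := congrArg star h2
    rw [star_mul, star_star] at e
    rw [mul_comm, e]
    exact Complex.conj_ofReal _
  have h4 : star c * c = ((s ^ 2 * ‖α‖ ^ 2 : ℝ) : ℂ) := by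
    have e : star c * c = s * (star c * α) := by
      rw [hc]
      ring
    rw [e, h3]
    push_cast
    ring
  rw [← hα, ← hc]
  have e : star (w - c • v) * (w - c • v) = star w * w - c • (star w * v) - star c • (star v * w) +
      (star c * c) • (star v * v) := by
    rw [star_sub, star_smul, sub_mul, mul_sub, mul_sub, smul_mul_assoc, smul_mul_assoc,
      mul_smul_comm, mul_smul_comm, smul_smul]
    abel
  rw [h.n2_sq, e, map_add, map_sub, map_sub, map_smul, map_smul, map_smul, h1, ← hα, smul_eq_mul,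
    smul_eq_mul, smul_eq_mul, h2, h3, h4, h.apply_sq, h.apply_sq, ← Complex.ofReal_mul,
    ← Complex.ofReal_sub, ← Complex.ofReal_sub, ← Complex.ofReal_add, Complex.ofReal_re]
  ring

/-- Almost minimisers: for every `η > 0` there is `x : D0` with
`‖t (star (Ψ y) * (z - Ψ x))‖ ≤ η * n2 t0 y` for all `y`, and `n2 t0 x ≤ n2 t z + η`.
Take `x` with `n2 t (z - Ψ x) ^ 2 ≤ (inf over D0) + η ^ 2`, then
`n2 t (z - Ψ x - c • Ψ y) ^ 2 ≥ inf` for all complex `c`. For the second claim: by the first one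
for `y = x`, `n2 t0 x ^ 2 = re t (star (Ψ x) * Ψ x) ≤ re t (star (Ψ x) * z) + η * n2 t0 x`
`≤ n2 t0 x * (n2 t z + η)`. -/
theorem exists_almost_proj (h0 : TrAlg t0) (h : TrAlg t) (Ψ : D0 →⋆ₐ[ℂ] D)
    (hΨ : ∀ x, t (Ψ x) = t0 x) (z : D) (η : ℝ) (hη : 0 < η) :
    ∃ x : D0, (∀ y : D0, ‖t (star (Ψ y) * (z - Ψ x))‖ ≤ η * n2 t0 y) ∧
      n2 t0 x ≤ n2 t z + η := by
  set S : Set ℝ := {r | ∃ x : D0, r = n2 t (z - Ψ x) ^ 2} with hS
  have hSne : S.Nonempty := ⟨_, 0, rfl⟩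
  have hSbd : BddBelow S := ⟨0, by
    rintro r ⟨x, rfl⟩
    exact sq_nonneg _⟩
  have hlt : sInf S < sInf S + η ^ 2 := by
    have : 0 < η ^ 2 := by positivity
    linarith
  obtain ⟨r, ⟨x, rfl⟩, hr⟩ := exists_lt_of_csInf_lt hSne hlt
  have hinf : ∀ x' : D0, sInf S ≤ n2 t (z - Ψ x') ^ 2 := fun x' => csInf_le hSbd ⟨x', rfl⟩
  have hmap : ∀ y : D0, n2 t (Ψ y) = n2 t0 y := fun y => n2_map Ψ hΨ y
  have key : ∀ y : D0, ‖t (star (Ψ y) * (z - Ψ x))‖ ≤ η * n2 t0 y := by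
    intro y
    have hy0 := n2_nonneg t0 y
    have hcs := h.cs (Ψ y) (z - Ψ x)
    rw [hmap] at hcs
    rcases hy0.eq_or_lt with h1 | h1
    · rw [← h1, zero_mul] at hcs
      rw [← h1, mul_zero]
      exact hcs
    · have h2 := L4z_expand h (z - Ψ x) (Ψ y) (1 / n2 t0 y ^ 2)
      have h3 : z - Ψ x - (((1 / n2 t0 y ^ 2 : ℝ) : ℂ) * t (star (Ψ y) * (z - Ψ x))) • Ψ y =
          z - Ψ (x + (((1 / n2 t0 y ^ 2 : ℝ) : ℂ) * t (star (Ψ y) * (z - Ψ x))) • y) := by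
        rw [map_add, map_smul, sub_sub]
      rw [h3, hmap] at h2
      have h4 := hinf (x + (((1 / n2 t0 y ^ 2 : ℝ) : ℂ) * t (star (Ψ y) * (z - Ψ x))) • y)
      rw [h2] at h4
      have h5 : (1 / n2 t0 y ^ 2) ^ 2 * ‖t (star (Ψ y) * (z - Ψ x))‖ ^ 2 * n2 t0 y ^ 2 =
          (1 / n2 t0 y ^ 2) * ‖t (star (Ψ y) * (z - Ψ x))‖ ^ 2 := by
        field_simp
      rw [h5] at h4
      have h6 : (1 / n2 t0 y ^ 2) * ‖t (star (Ψ y) * (z - Ψ x))‖ ^ 2 ≤ η ^ 2 := by linarith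
      have h7 : ‖t (star (Ψ y) * (z - Ψ x))‖ ^ 2 ≤ (η * n2 t0 y) ^ 2 := by
        rw [one_div, inv_mul_le_iff₀ (by positivity)] at h6
        rw [mul_pow, mul_comm]
        exact h6
      exact le_of_sq_le_sq h7 (by positivity)
  refine ⟨x, key, ?_⟩
  have hx0 := n2_nonneg t0 x
  have hz0 := n2_nonneg t z
  rcases hx0.eq_or_lt with h1 | h1
  · rw [← h1]
    linarith
  · have h2 : n2 t0 x ^ 2 = (t (star (Ψ x) * z)).re - (t (star (Ψ x) * (z - Ψ x))).re := by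
      rw [← hmap x, h.n2_sq, mul_sub, map_sub, Complex.sub_re]
      ring
    have h3 := key x
    have h4 := h.cs (Ψ x) z
    rw [hmap] at h4
    have h5 := (Complex.abs_re_le_norm (t (star (Ψ x) * z)))
    have h6 := (Complex.abs_re_le_norm (t (star (Ψ x) * (z - Ψ x))))
    have h7 := (le_abs_self (t (star (Ψ x) * z)).re)
    have h8 := (neg_abs_le (t (star (Ψ x) * (z - Ψ x))).re)
    have h9 : n2 t0 x * n2 t0 x ≤ n2 t0 x * (n2 t z + η) := by nlinarith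
    exact le_of_mul_le_mul_left h9 h1

end Pool.Agent.QFP
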