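import Pool.Agent.QFP.L1
import Pool.Agent.QFP.L4z

/-!
# [L4w] The projection

`Ψ : D0 → D` is a trace preserving ⋆-homomorphism of tracial C*-algebras and the balls of `D0`
are complete in 2-norm. Then every `a : D` has an orthogonal projection in `Ψ(D0)`.
Notation: `⟨x, y⟩ = re t (star x * y)`.
-/

set_option autoImplicit false

namespace Pool.Agent.QFP

open Filter Topology

variable {D0 D : Type*} [CStarAlgebra D0] [CStarAlgebra D] {t0 : D0 →ₗ[ℂ] ℂ} {t : D →ₗ[ℂ] ℂ}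

/-- Let `r = ‖a‖`, `b` the nearest point (`exists_nearest`), `z = a - Ψ b`. Let `0 < η ≤ 1`, `x` from
`exists_almost_proj`, `u` from `exists_polar` (`δ > 0`), `C = n2 t z + 1 ≥ n2 t0 x`. With
`y = r • u`: `r ⟨Ψ u, z⟩ ≤ ⟨Ψ b, z⟩`. Since `|⟨Ψ y, z - Ψ x⟩| ≤ η n2 t0 y`:
`r ⟨u, x⟩ - r η ≤ r ⟨Ψ u, z⟩ ≤ ⟨Ψ b, z⟩ ≤ ⟨b, x⟩ + η r` and
`⟨a, Ψ x⟩ = ⟨b, x⟩ + ⟨z, Ψ x⟩ ≥ ⟨b, x⟩ + n2 t0 x ^ 2 - η C`. By `exists_polar` with `c = a`,
`⟨a, Ψ x⟩ ≤ r ⟨u, x⟩ + r √δ`. So `n2 t0 x ^ 2 ≤ η C + 2 η r + r √δ` for all `δ`, hence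
`n2 t0 x ^ 2 ≤ η (C + 2 r)`. For fixed `y`:
`|t (star (Ψ y) * z)| ≤ η n2 t0 y + n2 t0 y * n2 t0 x → 0` as `η → 0`. -/
theorem exists_proj (h0 : TrAlg t0) (h : TrAlg t) (hc : BallComplete t0) (Ψ : D0 →⋆ₐ[ℂ] D)
    (hΨ : ∀ x, t (Ψ x) = t0 x) (a : D) :
    ∃ b : D0, ∀ y : D0, t (star (Ψ y) * (a - Ψ b)) = 0 := by
  obtain ⟨b, hb, hnear⟩ := exists_nearest h0 h hc Ψ hΨ a ‖a‖ (norm_nonneg a)
  refine ⟨b, fun y => ?_⟩
  set z := a - Ψ b with hz
  set r := ‖a‖ with hr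
  have hr0 : 0 ≤ r := norm_nonneg a
  have hz0 := n2_nonneg t z
  -- the estimate for every `η`
  have key : ∀ η : ℝ, 0 < η → η ≤ 1 → ∃ x : D0,
      (∀ y : D0, ‖t (star (Ψ y) * (z - Ψ x))‖ ≤ η * n2 t0 y) ∧
      n2 t0 x ^ 2 ≤ η * (n2 t z + 1 + 3 * r) := by
    intro η hη hη1
    obtain ⟨x, hx1, hx2⟩ := exists_almost_proj h0 h Ψ hΨ z η hη
    refine ⟨x, hx1, ?_⟩
    obtain ⟨u, hu, hpol⟩ := exists_polar h0 h Ψ hΨ x (η ^ 2) (by positivity)
    rw [Real.sqrt_sq hη.le] at hpol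
    have hinner : ∀ p q : D0, t (star (Ψ p) * Ψ q) = t0 (star p * q) := by
      intro p q
      rw [← map_star, ← map_mul, hΨ]
    -- (1)
    have h1 : ‖(r : ℂ) • u‖ ≤ r := by
      rw [norm_smul, Complex.norm_real, Real.norm_eq_abs, abs_of_nonneg hr0]
      exact mul_le_of_le_one_right hr0 hu
    have h2 := hnear _ h1
    have h3 : t (star (Ψ ((r : ℂ) • u - b)) * z) =
        (r : ℂ) * t (star (Ψ u) * z) - t (star (Ψ b) * z) := by
      have hs : star (r : ℂ) = (r : ℂ) := Complex.conj_ofReal r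
      rw [map_sub, map_smul, star_sub, star_smul, hs, sub_mul, smul_mul_assoc, map_sub, map_smul,
        smul_eq_mul]
    rw [h3, Complex.sub_re, Complex.re_ofReal_mul] at h2
    -- (2)
    have h4 : ∀ p : D0, |(t (star (Ψ p) * z)).re - (t0 (star p * x)).re| ≤ η * n2 t0 p := by
      intro p
      have h5 := hx1 p
      have h6 : t (star (Ψ p) * (z - Ψ x)) = t (star (Ψ p) * z) - t0 (star p * x) := by
        rw [mul_sub, map_sub, hinner]
      rw [h6] at h5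
      have h7 := (Complex.abs_re_le_norm _).trans h5
      rwa [Complex.sub_re] at h7
    have hu2 : n2 t0 u ≤ 1 := (h0.n2_le_norm u).trans hu
    have hb2 : n2 t0 b ≤ r := (h0.n2_le_norm b).trans hb
    have h5 := (abs_le.1 (h4 u)).1
    have h6 := (abs_le.1 (h4 b)).2
    have h7 := (abs_le.1 (h4 x)).1
    have h8 : (t0 (star x * x)).re = n2 t0 x ^ 2 := (h0.n2_sq x).symm
    -- (3)
    have h9 : (t (star a * Ψ x)).re = (t0 (star b * x)).re + (t (star (Ψ x) * z)).re := by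
      have e1 : t (star z * Ψ x) = starRingEnd ℂ (t (star (Ψ x) * z)) := by
        rw [← h.map_star, star_mul, star_star]
      have e2 : star a * Ψ x = star (Ψ b) * Ψ x + star z * Ψ x := by
        rw [hz, star_sub, sub_mul]
        abel
      rw [e2, map_add, hinner, e1, Complex.add_re, Complex.conj_re]
    have h10 := (Complex.re_le_norm _).trans (hpol a)
    rw [h9] at h10
    have h11 : η * n2 t0 u ≤ η := by nlinarith
    have h12 : η * n2 t0 b ≤ η * r := mul_le_mul_of_nonneg_left hb2 hη.le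
    have h13 : n2 t0 x ≤ n2 t z + 1 := by linarith
    have h14 : η * n2 t0 x ≤ η * (n2 t z + 1) := mul_le_mul_of_nonneg_left h13 hη.le
    have h15 : r * ((t0 (star u * x)).re - η) ≤ r * (t (star (Ψ u) * z)).re :=
      mul_le_mul_of_nonneg_left (by linarith) hr0
    rw [h8] at h7
    nlinarith [h2, h5, h6, h7, h10, h11, h12, h14, h15]
  set E := n2 t z + 1 + 3 * r with hE
  have hE0 : 0 ≤ E := by positivity
  have hN := n2_nonneg t0 y
  have hv : ∀ n : ℕ, ‖t (star (Ψ y) * z)‖ ≤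
      n2 t0 y * (1 / ((n : ℝ) + 1) + Real.sqrt (1 / ((n : ℝ) + 1) * E)) := by
    intro n
    have hη : (0 : ℝ) < 1 / ((n : ℝ) + 1) := by positivity
    have hη1 : 1 / ((n : ℝ) + 1) ≤ 1 := by
      rw [div_le_one (by positivity)]
      have : (0 : ℝ) ≤ n := Nat.cast_nonneg n
      linarith
    obtain ⟨x, hx1, hx2⟩ := key _ hη hη1
    have h1 : t (star (Ψ y) * z) = t (star (Ψ y) * (z - Ψ x)) + t0 (star y * x) := by
      have h2 : t0 (star y * x) = t (star (Ψ y) * Ψ x) := by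
        rw [← map_star, ← map_mul, hΨ]
      rw [h2, ← map_add, ← mul_add, sub_add_cancel]
    have h2 := norm_add_le (t (star (Ψ y) * (z - Ψ x))) (t0 (star y * x))
    rw [← h1] at h2
    have h3 := hx1 y
    have h4 := h0.cs y x
    have h5 : n2 t0 x ≤ Real.sqrt (1 / ((n : ℝ) + 1) * E) := Real.le_sqrt_of_sq_le hx2
    have h6 : n2 t0 y * n2 t0 x ≤ n2 t0 y * Real.sqrt (1 / ((n : ℝ) + 1) * E) :=
      mul_le_mul_of_nonneg_left h5 hN
    rw [mul_add]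
    linarith
  have hlim : Tendsto (fun n : ℕ => n2 t0 y *
      (1 / ((n : ℝ) + 1) + Real.sqrt (1 / ((n : ℝ) + 1) * E))) atTop
      (𝓝 (n2 t0 y * (0 + Real.sqrt (0 * E)))) := by
    have h1 : Tendsto (fun n : ℕ => 1 / ((n : ℝ) + 1)) atTop (𝓝 0) :=
      tendsto_one_div_add_atTop_nhds_zero_nat
    exact (h1.add ((Real.continuous_sqrt.tendsto _).comp (h1.mul_const E))).const_mul _
  rw [zero_mul, Real.sqrt_zero, add_zero, mul_zero] at hlim
  have h1 : ‖t (star (Ψ y) * z)‖ ≤ 0 := ge_of_tendsto hlim (Filter.Eventually.of_forall hv)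
  exact norm_le_zero_iff.1 h1

end Pool.Agent.QFP
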