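import Pool.Agent.QFP.N1x

/-!
# [N1y] Noncommutative ⋆-polynomials: products, adjoints, powers, substitution

Inductions on the lists; see `N1x` for the definitions.
-/

set_option autoImplicit false

namespace Pool.Agent.QFP

open scoped ComplexConjugate

variable {κ R : Type*} [Ring R] [StarRing R] [Algebra ℂ R] [StarModule ℂ R] (x : κ → R)

theorem N1y_range {M : Type*} [AddCommMonoid M] (n : ℕ) (f : ℕ → M) :
    ((List.range n).map f).sum = ∑ i ∈ Finset.range n, f i := by
  induction n with
  | zero => simp
  | succ n ih =>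
    rw [List.range_succ, List.map_append, List.sum_append, ih, Finset.sum_range_succ]
    simp

theorem N1y_cons (q : ℂ × List (κ × Bool)) (P : NC κ) :
    ncEval x (q :: P) = q.1 • wordEval x q.2 + ncEval x P := by
  unfold ncEval
  rw [List.map_cons, List.sum_cons]

theorem N1y_mono (p : ℂ × List (κ × Bool)) (Q : NC κ) :
    ncEval x (Q.map fun q => (p.1 * q.1, p.2 ++ q.2)) = (p.1 • wordEval x p.2) * ncEval x Q := by
  induction Q with
  | nil =>
    rw [List.map_nil, ncEval_nil, mul_zero]
  | cons q Q ih =>
    rw [List.map_cons, N1y_cons, N1y_cons, ih, mul_add, wordEval_append]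
    congr 1
    rw [smul_mul_smul_comm]

theorem ncEval_mul (P Q : NC κ) : ncEval x (ncMul P Q) = ncEval x P * ncEval x Q := by
  induction P with
  | nil =>
    show ncEval x [] = _
    rw [ncEval_nil, zero_mul]
  | cons p P ih =>
    have e : ncMul (p :: P) Q = (Q.map fun q => (p.1 * q.1, p.2 ++ q.2)) ++ ncMul P Q := by
      unfold ncMul
      rw [List.flatMap_cons]
    rw [e, ncEval_append, N1y_mono, ih, N1y_cons, add_mul]

theorem ncEval_star (P : NC κ) : ncEval x (ncStar P) = star (ncEval x P) := by
  induction P with
  | nil =>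
    show ncEval x [] = _
    rw [ncEval_nil, star_zero]
  | cons p P ih =>
    have e : ncStar (p :: P) = (conj p.1, (p.2.map fun l => (l.1, !l.2)).reverse) :: ncStar P := rfl
    rw [e, N1y_cons, N1y_cons, ih, star_add, star_smul, wordEval_star]
    rfl

theorem ncEval_pow (P : NC κ) (k : ℕ) : ncEval x (ncPow P k) = ncEval x P ^ k := by
  induction k with
  | zero => rw [pow_zero]; exact ncEval_one x
  | succ k ih =>
    show ncEval x (ncMul (ncPow P k) P) = _
    rw [ncEval_mul, ih, pow_succ]

theorem ncEval_poly (p : Polynomial ℂ) (P : NC κ) :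
    ncEval x (ncPoly p P) = Polynomial.aeval (ncEval x P) p := by
  have key : ∀ l : List ℕ, ncEval x (l.flatMap fun k => ncSmul (p.coeff k) (ncPow P k)) =
      (l.map fun k => p.coeff k • ncEval x P ^ k).sum := by
    intro l
    induction l with
    | nil => rfl
    | cons k l ih =>
      rw [List.flatMap_cons, ncEval_append, ih, ncEval_smul, ncEval_pow, List.map_cons, List.sum_cons]
  unfold ncPoly
  rw [key, Polynomial.aeval_eq_sum_range, N1y_range]

theorem ncEval_subst {S : Type*} (P : S → NC κ) (w : List (S × Bool)) :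
    ncEval x (ncSubst P w) = wordEval (fun s => ncEval x (P s)) w := by
  induction w with
  | nil => exact ncEval_one x
  | cons l w ih =>
    have e : ncSubst P (l :: w) = ncMul (if l.2 then ncStar (P l.1) else P l.1) (ncSubst P w) := rfl
    have e2 : wordEval (fun s => ncEval x (P s)) (l :: w) =
        (if l.2 then star (ncEval x (P l.1)) else ncEval x (P l.1)) * wordEval (fun s => ncEval x (P s)) w := by
      unfold wordEval
      rw [List.map_cons, List.prod_cons]
    rw [e, ncEval_mul, ih, e2]
    congr 1
    split_ifs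
    · exact ncEval_star x _
    · rfl

/-- ⋆-homomorphisms commute with evaluation. -/
theorem map_ncEval {R' : Type*} [Ring R'] [StarRing R'] [Algebra ℂ R'] (Ψ : R →⋆ₐ[ℂ] R')
    (P : NC κ) : Ψ (ncEval x P) = ncEval (fun k => Ψ (x k)) P := by
  unfold ncEval
  rw [map_list_sum, List.map_map]
  congr 1
  refine List.map_congr_left fun p _ => ?_
  show Ψ (p.1 • wordEval x p.2) = p.1 • wordEval (fun k => Ψ (x k)) p.2
  rw [map_smul]
  congr 1
  unfold wordEval
  rw [map_list_prod, List.map_map]
  congr 1
  refine List.map_congr_left fun q _ => ?_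
  show Ψ (if q.2 then star (x q.1) else x q.1) = _
  split_ifs
  · exact map_star Ψ _
  · rfl

end Pool.Agent.QFP
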