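import Pool.Agent.QFP.Defs

/-!
# [N1x] Noncommutative ⋆-polynomials as lists of monomials

`NC κ`: lists of pairs (coefficient, word). The operations are defined on lists; `ncEval_*` says
that they are compatible with the evaluation in any complex ⋆-algebra (of any universe).
-/

set_option autoImplicit false

namespace Pool.Agent.QFP

open scoped ComplexConjugate

/-- Noncommutative ⋆-polynomials in the variables `κ`. -/
abbrev NC (κ : Type*) := List (ℂ × List (κ × Bool))

section defs

variable {κ : Type*}

/-- Evaluation of a noncommutative ⋆-polynomial. -/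
def ncEval {R κ : Type*} [Ring R] [StarRing R] [Algebra ℂ R] (x : κ → R) (P : NC κ) : R :=
  (P.map fun q => q.1 • wordEval x q.2).sum

/-- The unit. -/
def ncOne : NC κ := [(1, [])]

/-- The variable `k`. -/
def ncVar (k : κ) : NC κ := [(1, [(k, false)])]

/-- Product. -/
def ncMul (P Q : NC κ) : NC κ := P.flatMap fun p => Q.map fun q => (p.1 * q.1, p.2 ++ q.2)

/-- Adjoint. -/
def ncStar (P : NC κ) : NC κ :=
  P.map fun p => (conj p.1, (p.2.map fun l => (l.1, !l.2)).reverse)

/-- Scalar multiples. -/
def ncSmul (c : ℂ) (P : NC κ) : NC κ := P.map fun p => (c * p.1, p.2)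

/-- Powers. -/
def ncPow (P : NC κ) : ℕ → NC κ
  | 0 => ncOne
  | k + 1 => ncMul (ncPow P k) P

/-- The value of a polynomial in one variable. -/
noncomputable def ncPoly (p : Polynomial ℂ) (P : NC κ) : NC κ :=
  (List.range (p.natDegree + 1)).flatMap fun k => ncSmul (p.coeff k) (ncPow P k)

/-- Substitution of noncommutative ⋆-polynomials `P s` for the letters of a word. -/
def ncSubst {S : Type*} (P : S → NC κ) (w : List (S × Bool)) : NC κ :=
  w.foldr (fun l Q => ncMul (if l.2 then ncStar (P l.1) else P l.1) Q) ncOne

/-- A bound for the norm of the value at `x` with `‖x k‖ ≤ R k`. -/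
noncomputable def ncBound (R : κ → ℝ) (P : NC κ) : ℝ :=
  (P.map fun q => ‖q.1‖ * (q.2.map fun l => R l.1).prod).sum

end defs

variable {κ R : Type*} [Ring R] [StarRing R] [Algebra ℂ R] [StarModule ℂ R] (x : κ → R)

theorem wordEval_nil : wordEval x [] = 1 := by
  rfl

theorem wordEval_append (v w : List (κ × Bool)) :
    wordEval x (v ++ w) = wordEval x v * wordEval x w := by
  unfold wordEval
  rw [List.map_append, List.prod_append]

theorem wordEval_star (w : List (κ × Bool)) :
    wordEval x (w.map fun l => (l.1, !l.2)).reverse = star (wordEval x w) := by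
  induction w with
  | nil =>
    rw [List.map_nil, List.reverse_nil, wordEval_nil, star_one]
  | cons l w ih =>
    rw [List.map_cons, List.reverse_cons, wordEval_append, ih]
    have e1 : wordEval x [(l.1, !l.2)] = star (if l.2 then star (x l.1) else x l.1) := by
      unfold wordEval
      rw [List.map_singleton, List.prod_singleton]
      rcases h : l.2 with _ | _ <;> simp [h]
    have e2 : wordEval x (l :: w) = (if l.2 then star (x l.1) else x l.1) * wordEval x w := by
      unfold wordEval
      rw [List.map_cons, List.prod_cons]
    rw [e1, e2, star_mul]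

theorem ncEval_nil : ncEval x [] = 0 := by
  rfl

theorem ncEval_one : ncEval x ncOne = 1 := by
  unfold ncEval ncOne
  rw [List.map_singleton, List.sum_singleton, wordEval_nil, one_smul]

theorem ncEval_var (k : κ) : ncEval x (ncVar k) = x k := by
  unfold ncEval ncVar wordEval
  simp

/-- Addition is `++`. -/
theorem ncEval_append (P Q : NC κ) : ncEval x (P ++ Q) = ncEval x P + ncEval x Q := by
  unfold ncEval
  rw [List.map_append, List.sum_append]

theorem ncEval_smul (c : ℂ) (P : NC κ) : ncEval x (ncSmul c P) = c • ncEval x P := by
  unfold ncEval ncSmul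
  rw [List.map_map, List.smul_sum, List.map_map]
  congr 1
  refine List.map_congr_left fun p _ => ?_
  show (c * p.1) • wordEval x p.2 = c • (p.1 • wordEval x p.2)
  rw [mul_smul]

end Pool.Agent.QFP
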