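import Pool.Agent.QFP.StEq
import Pool.Agent.QFP.H3

/-!
# QWEP of amalgamated free products: regular irreducible inclusions

All definitions are in `Pool/Agent/QFP/St.lean`. QWEP is expressed by Connes embeddability
(`ConnesEmbeddable`: matricial microstates), which is equivalent to it for finite von Neumann algebras
with a faithful normal tracial state (Kirchberg).
-/

set_option autoImplicit false

namespace Pool.Agent.QFP.RegularInclusions

open Pool.Agent.QFP Pool.Agent.QFP.St

universe u v w y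

/-- Let `B ⊆ A` be finite von Neumann algebras, `A` with a faithful normal tracial state and Connes
embeddable, `B' ∩ A = ℂ`, `A` generated by the normaliser `N_A(B)` of `B`, and `N_A(B) / U(B)`
isomorphic to a hyperlinear group `G` (by `q : N_A(B) → G`, a homomorphism onto `G` with kernel `U(B)`).
Then every amalgamated free power of `A` over `B` (any index set `J`; `J = Fin 2` is `∗_B A`) is Connes
embeddable. -/
theorem result {H : Type u} [NormedAddCommGroup H] [InnerProductSpace ℂ H] [CompleteSpace H]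
    (A : TracialVN H) (B : VonNeumannAlgebra H) (hBA : ∀ x ∈ B, x ∈ A.N)
    (hA : ConnesEmbeddable A)
    (hirr : ∀ a ∈ A.N, (∀ b ∈ B, a * b = b * a) → ∃ z : ℂ, a = z • (1 : H →L[ℂ] H))
    (hreg : (A.N : Set (H →L[ℂ] H)) ⊆ Set.centralizer (Set.centralizer {u | IsNormaliser A B u}))
    {G : Type y} [Group G] (hG : Hyperlinear G) (q : (H →L[ℂ] H) → G)
    (hqm : ∀ u v, IsNormaliser A B u → IsNormaliser A B v → q (u * v) = q u * q v)
    (hqs : ∀ g : G, ∃ u, IsNormaliser A B u ∧ q u = g)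
    (hqk : ∀ u, IsNormaliser A B u → (q u = 1 ↔ u ∈ B))
    {K : Type v} [NormedAddCommGroup K] [InnerProductSpace ℂ K] [CompleteSpace K]
    (M : TracialVN K) {J : Type w} (ι : J → (H →L[ℂ] H) → (K →L[ℂ] K))
    (hι : IsAmalgamatedPower A B M ι) :
    ConnesEmbeddable M := by
  have hN : ∀ u : Normaliser A.N B,
      IsNormaliser A B (((u : unitary (Alg A.N)) : Alg A.N) : H →L[ℂ] H) := by
    intro u
    refine ⟨(u : unitary (Alg A.N)).1.2, ?_, ?_, ?_, ?_⟩
    · exact congrArg Subtype.val (Unitary.mul_star_self_of_mem (u : unitary (Alg A.N)).2)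
    · exact congrArg Subtype.val (Unitary.star_mul_self_of_mem (u : unitary (Alg A.N)).2)
    · intro b hb
      exact (u.2 ⟨b, hBA b hb⟩ hb).1
    · intro b hb
      exact (u.2 ⟨b, hBA b hb⟩ hb).2
  have hN' : ∀ u : H →L[ℂ] H, IsNormaliser A B u → ∃ u' : Normaliser A.N B,
      (((u' : unitary (Alg A.N)) : Alg A.N) : H →L[ℂ] H) = u := by
    intro u hu
    have h1 : (⟨u, hu.mem⟩ : Alg A.N) ∈ unitary (Alg A.N) :=
      Unitary.mem_iff.2 ⟨Subtype.ext hu.star_mul, Subtype.ext hu.mul_star⟩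
    exact ⟨⟨⟨⟨u, hu.mem⟩, h1⟩, fun b hb => ⟨hu.conj b hb, hu.conj' b hb⟩⟩, rfl⟩
  let q' : Normaliser A.N B →* G := MonoidHom.mk'
    (fun u => q (((u : unitary (Alg A.N)) : Alg A.N) : H →L[ℂ] H))
    (fun u v => hqm _ _ (hN u) (hN v))
  refine (connesEmb_iff M).2 (connesEmb_of_regular hBA (stLin_isTrace A) ((connesEmb_iff A).1 hA)
    ?_ ?_ (isHyperlinear_of_st hG) q' ?_ (fun u => hqk _ (hN u)) (stLin_isTrace M)
    (isFreePower_of_st hBA hι))
  · intro a ha
    obtain ⟨z, hz⟩ := hirr a a.2 fun b hb => congrArg Subtype.val (ha ⟨b, hBA b hb⟩ hb)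
    exact ⟨z, Subtype.ext hz⟩
  · refine hreg.trans (Set.centralizer_subset (Set.centralizer_subset ?_))
    intro u hu
    obtain ⟨u', rfl⟩ := hN' u hu
    exact ⟨(u' : unitary (Alg A.N)), u'.2, rfl⟩
  · intro g
    obtain ⟨u, hu, rfl⟩ := hqs g
    obtain ⟨u', rfl⟩ := hN' u hu
    exact ⟨u', rfl⟩

end Pool.Agent.QFP.RegularInclusions
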