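import Mathlib

/-!
# Definitions used in the statements: tracial von Neumann algebras, Connes embeddability,
amalgamated free powers, inner averaging, hyperlinear groups

A finite von Neumann algebra is given as a von Neumann algebra of operators on a Hilbert space `H`
together with a faithful normal tracial state. Maps and families indexed by the elements of such an
algebra `A` are written as functions on all of `B(H)`; only their values on `A` matter.
-/

set_option autoImplicit false

namespace Pool.Agent.QFP.St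

open scoped InnerProductSpace Matrix.Norms.L2Operator

universe u v w

/-- The value of the ⋆-word `l` at the family `x`. A letter is a pair `(k, s)`; it stands for
`x k` if `s = false` and for `(x k)*` if `s = true`. -/
def starWord {R κ : Type*} [Monoid R] [Star R] (x : κ → R) (l : List (κ × Bool)) : R :=
  (l.map fun p => if p.2 then star (x p.1) else x p.1).prod

section Matrices

variable {ν : ℕ}

/-- The normalised trace of a matrix. -/
noncomputable def ntrace (X : Matrix (Fin ν) (Fin ν) ℂ) : ℂ := (ν : ℂ)⁻¹ * X.trace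

/-- The 2-norm `(tr X*X)^(1/2)` of a matrix, `tr` the normalised trace. -/
noncomputable def norm2 (X : Matrix (Fin ν) (Fin ν) ℂ) : ℝ := Real.sqrt (ntrace (star X * X)).re

/-- `X` is a unitary matrix. -/
def IsUnitary (X : Matrix (Fin ν) (Fin ν) ℂ) : Prop := X * star X = 1 ∧ star X * X = 1

end Matrices

section VN

variable {H : Type u} [NormedAddCommGroup H] [InnerProductSpace ℂ H] [CompleteSpace H]

/-- The functional `x ↦ ∑ᵢ ⟨ξᵢ, x ξᵢ⟩` on `B(H)`. -/
noncomputable def vecSum (ξ : ℕ → H) (x : H →L[ℂ] H) : ℂ := ∑' i, ⟪ξ i, x (ξ i)⟫_ℂ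

variable (H) in
/-- A finite von Neumann algebra `(N, τ)` on `H` with a faithful normal tracial state: `N ⊆ B(H)`
is a von Neumann algebra and `τ(x) = ∑ᵢ ⟨ξᵢ, x ξᵢ⟩`, where `∑ᵢ ‖ξᵢ‖² < ∞`, is a faithful tracial
state on `N` (every normal state has this form). -/
structure TracialVN where
  /-- the von Neumann algebra -/
  N : VonNeumannAlgebra H
  /-- the vectors defining the trace -/
  ξ : ℕ → H
  summable : Summable fun i => ‖ξ i‖ ^ 2
  map_one : vecSum ξ 1 = 1
  tracial : ∀ x ∈ N, ∀ y ∈ N, vecSum ξ (x * y) = vecSum ξ (y * x)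
  faithful : ∀ x ∈ N, vecSum ξ (star x * x) = 0 → x = 0

/-- The trace `τ` of `(N, τ)`. -/
noncomputable def TracialVN.tr (A : TracialVN H) (x : H →L[ℂ] H) : ℂ := vecSum A.ξ x

/-- `X` is a matricial `(m, ε)`-microstate of the finite set `F ⊆ A`: the matrices `X a`, `a ∈ F`,
have operator norm at most `‖a‖` and all their ⋆-moments of order at most `m` with respect to the
normalised trace are within `ε` of those of `F`. -/
def IsMicrostate (A : TracialVN H) (F : Finset (H →L[ℂ] H)) (m : ℕ) (ε : ℝ) {ν : ℕ}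
    (X : (H →L[ℂ] H) → Matrix (Fin ν) (Fin ν) ℂ) : Prop :=
  0 < ν ∧ (∀ a ∈ F, ‖X a‖ ≤ ‖a‖) ∧
    ∀ l : List ((H →L[ℂ] H) × Bool), (∀ p ∈ l, p.1 ∈ F) → l.length ≤ m →
      ‖ntrace (starWord X l) - A.tr (starWord id l)‖ < ε

/-- `A` is Connes embeddable (by Kirchberg's theorem, `A` is QWEP): every finite subset of `A` has
matricial microstates of all orders and precisions. -/
def ConnesEmbeddable (A : TracialVN H) : Prop :=
  ∀ F : Finset (H →L[ℂ] H), (∀ a ∈ F, a ∈ A.N) → ∀ (m : ℕ) (ε : ℝ), 0 < ε →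
    ∃ (ν : ℕ) (X : (H →L[ℂ] H) → Matrix (Fin ν) (Fin ν) ℂ), IsMicrostate A F m ε X

/-- `a` is orthogonal to `B`: `τ(a b) = 0` for all `b ∈ B`. For `a ∈ A` and `B ⊆ A` this means
`E_B(a) = 0` for the `τ`-preserving conditional expectation `E_B` of `A` onto `B`. -/
def Orthogonal (A : TracialVN H) (B : VonNeumannAlgebra H) (a : H →L[ℂ] H) : Prop :=
  ∀ b ∈ B, A.tr (a * b) = 0

/-- `(A, B)` has inner averaging: every finite `F ⊆ A` has microstates `X` (of all orders `m` and
precisions `ε`) with unitary matrices `v 1, …, v n` commuting with the matrices `X b`, `b ∈ F ∩ B`,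
such that the average of the `v s * X a * (v s)*` has 2-norm less than `ε` for all `a ∈ F` with
`E_B(a) = 0`. In terms of a tracial ultraproduct `𝓜` of matrix algebras: there is a trace preserving
embedding `θ` of `A` in `𝓜` such that, for all `a ∈ A`, `θ(E_B(a))` is in the 2-norm closure of the
set of averages of `u θ(a) u*` over finite families of unitaries `u ∈ θ(B)' ∩ 𝓜`. -/
def InnerAveraging (A : TracialVN H) (B : VonNeumannAlgebra H) : Prop :=
  ∀ F : Finset (H →L[ℂ] H), (∀ a ∈ F, a ∈ A.N) → ∀ (m : ℕ) (ε : ℝ), 0 < ε →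
    ∃ (ν : ℕ) (X : (H →L[ℂ] H) → Matrix (Fin ν) (Fin ν) ℂ) (n : ℕ)
      (v : Fin n → Matrix (Fin ν) (Fin ν) ℂ), IsMicrostate A F m ε X ∧ 0 < n ∧
      (∀ s, IsUnitary (v s)) ∧ (∀ s, ∀ b ∈ F, b ∈ B → v s * X b = X b * v s) ∧
      ∀ a ∈ F, Orthogonal A B a → norm2 ((n : ℂ)⁻¹ • ∑ s, v s * X a * star (v s)) < ε

/-- The normaliser `N_A(B)` of `B` in the unitary group of `A`. -/
structure IsNormaliser (A : TracialVN H) (B : VonNeumannAlgebra H) (u : H →L[ℂ] H) : Prop where
  mem : u ∈ A.N
  mul_star : u * star u = 1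
  star_mul : star u * u = 1
  conj : ∀ b ∈ B, u * b * star u ∈ B
  conj' : ∀ b ∈ B, star u * b * u ∈ B

variable {K : Type v} [NormedAddCommGroup K] [InnerProductSpace ℂ K] [CompleteSpace K]

/-- `f` is a trace preserving unital ⋆-homomorphism of `A` to `M` (only the values of `f` on `A`
matter). -/
structure IsTraceHom (A : TracialVN H) (M : TracialVN K) (f : (H →L[ℂ] H) → (K →L[ℂ] K)) :
    Prop where
  mem : ∀ a ∈ A.N, f a ∈ M.N
  map_one : f 1 = 1
  map_add : ∀ a ∈ A.N, ∀ b ∈ A.N, f (a + b) = f a + f b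
  map_mul : ∀ a ∈ A.N, ∀ b ∈ A.N, f (a * b) = f a * f b
  map_smul : ∀ z : ℂ, ∀ a ∈ A.N, f (z • a) = z • f a
  map_star : ∀ a ∈ A.N, f (star a) = star (f a)
  trace_eq : ∀ a ∈ A.N, M.tr (f a) = A.tr a

/-- `M`, with the maps `ι j : A → M` (`j ∈ J`), is the amalgamated free product over `B` of copies of
`A` indexed by `J`: the `ι j` are trace preserving unital ⋆-homomorphisms which agree on `B`, `M` is
generated by their ranges as a von Neumann algebra, and the trace of `ι j₁ a₁ ⋯ ι jₙ aₙ` is `0`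
whenever `n ≥ 1`, neighbouring indices are distinct and `E_B(a₁) = ⋯ = E_B(aₙ) = 0`. -/
structure IsAmalgamatedPower (A : TracialVN H) (B : VonNeumannAlgebra H) (M : TracialVN K)
    {J : Type w} (ι : J → (H →L[ℂ] H) → (K →L[ℂ] K)) : Prop where
  hom : ∀ j, IsTraceHom A M (ι j)
  agree : ∀ i j, ∀ b ∈ B, ι i b = ι j b
  generates : (M.N : Set (K →L[ℂ] K)) =
    Set.centralizer (Set.centralizer {x | ∃ j, ∃ a ∈ A.N, x = ι j a})
  free : ∀ l : List (J × (H →L[ℂ] H)), l ≠ [] → l.IsChain (fun p q => p.1 ≠ q.1) →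
    (∀ p ∈ l, p.2 ∈ A.N ∧ Orthogonal A B p.2) → M.tr (l.map fun p => ι p.1 p.2).prod = 0

end VN

/-- A group `G` is hyperlinear: it has approximate unitary representations `σ` of finite dimension
which are asymptotically multiplicative in the 2-norm and whose normalised trace tends to `0` at
every `g ≠ 1` (equivalently, the group von Neumann algebra of `G` is Connes embeddable). -/
def Hyperlinear (G : Type*) [Group G] : Prop :=
  ∀ (F : Finset G) (ε : ℝ), 0 < ε →
    ∃ (k : ℕ) (σ : G → Matrix (Fin k) (Fin k) ℂ), 0 < k ∧ (∀ g, IsUnitary (σ g)) ∧ σ 1 = 1 ∧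
      (∀ g ∈ F, ∀ h ∈ F, norm2 (σ g * σ h - σ (g * h)) < ε) ∧
      ∀ g ∈ F, g ≠ 1 → ‖ntrace (σ g)‖ < ε

end Pool.Agent.QFP.St
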