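import Pool.Agent.QFP.St
import Pool.Agent.QFP.W1

/-!
# The definitions of `St` and those of `Defs` agree
-/

set_option autoImplicit false

namespace Pool.Agent.QFP

open scoped InnerProductSpace Matrix.Norms.L2Operator
open St (TracialVN)

universe u v w

theorem ntrace_eq {ν : ℕ} (X : Matrix (Fin ν) (Fin ν) ℂ) : St.ntrace X = ntr X := by
  unfold St.ntrace ntr
  rw [LinearMap.smul_apply, Matrix.traceLinearMap_apply, Fintype.card_fin, smul_eq_mul]

theorem norm2_eq {ν : ℕ} (X : Matrix (Fin ν) (Fin ν) ℂ) : St.norm2 X = n2 ntr X := by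
  unfold St.norm2 n2
  rw [ntrace_eq]

section VN

variable {H : Type u} [NormedAddCommGroup H] [InnerProductSpace ℂ H] [CompleteSpace H]

omit [CompleteSpace H] in
theorem st_summable {ξ : ℕ → H} (hξ : Summable fun i => ‖ξ i‖ ^ 2) (x : H →L[ℂ] H) :
    Summable fun i => ⟪ξ i, x (ξ i)⟫_ℂ := by
  refine Summable.of_norm_bounded (hξ.mul_left ‖x‖) fun i => ?_
  calc _ ≤ ‖ξ i‖ * ‖x (ξ i)‖ := norm_inner_le_norm _ _
    _ ≤ ‖ξ i‖ * (‖x‖ * ‖ξ i‖) := by gcongr; exact x.le_opNorm _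
    _ = _ := by ring

/-- The trace as a linear functional on `N`. -/
noncomputable def stLin (A : TracialVN H) : Alg A.N →ₗ[ℂ] ℂ where
  toFun x := A.tr (x : H →L[ℂ] H)
  map_add' x y := by
    change ∑' i, ⟪A.ξ i, ((x : H →L[ℂ] H) + (y : H →L[ℂ] H)) (A.ξ i)⟫_ℂ = _
    simp only [add_apply, inner_add_right]
    exact (st_summable A.summable _).tsum_add (st_summable A.summable _)
  map_smul' c x := by
    change ∑' i, ⟪A.ξ i, (c • (x : H →L[ℂ] H)) (A.ξ i)⟫_ℂ = _
    simp only [smul_apply, inner_smul_right]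
    exact tsum_mul_left

theorem stLin_isTrace (A : TracialVN H) : IsTrace A.N (stLin A) where
  map_one := A.map_one
  tracial x y := A.tracial _ x.2 _ y.2
  faithful x hx := Subtype.ext (A.faithful _ x.2 hx)
  normal := ⟨A.ξ, A.summable, fun _ => rfl⟩

/-- the letter of `B(H)` given by a letter of `N` -/
def upL {N : VonNeumannAlgebra H} (p : Alg N × Bool) : (H →L[ℂ] H) × Bool :=
  ((p.1 : H →L[ℂ] H), p.2)

theorem wordEval_upL {N : VonNeumannAlgebra H} {D : Type*} [Monoid D] [Star D] (X : Alg N → D)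
    (Y : (H →L[ℂ] H) → D) (l : List (Alg N × Bool))
    (h : ∀ p ∈ l, Y (p.1 : H →L[ℂ] H) = X p.1) : wordEval Y (l.map upL) = wordEval X l := by
  unfold wordEval
  rw [List.map_map]
  congr 1
  refine List.map_congr_left fun p hp => ?_
  change (if p.2 then star (Y (p.1 : H →L[ℂ] H)) else Y (p.1 : H →L[ℂ] H)) = _
  rw [h p hp]

theorem wordEval_val {N : VonNeumannAlgebra H} (l : List (Alg N × Bool)) :
    ((wordEval (id : Alg N → Alg N) l : Alg N) : H →L[ℂ] H) = wordEval id (l.map upL) := by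
  induction l with
  | nil => rfl
  | cons p l ih =>
    rw [List.map_cons, W1_cons, W1_cons, ← ih]
    rcases p with ⟨a, s⟩
    cases s
    · rfl
    · rfl

theorem exists_upL {N : VonNeumannAlgebra H} (l : List ((H →L[ℂ] H) × Bool))
    (h : ∀ p ∈ l, p.1 ∈ N) : ∃ l' : List (Alg N × Bool), l'.map upL = l := by
  induction l with
  | nil => exact ⟨[], rfl⟩
  | cons p l ih =>
    obtain ⟨l', hl'⟩ := ih fun q hq => h q (List.mem_cons_of_mem _ hq)
    exact ⟨(⟨p.1, h p List.mem_cons_self⟩, p.2) :: l', by rw [List.map_cons, hl']; rfl⟩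

/-- microstates for all elements from microstates in the sense of `St` -/
theorem micro_of_st {A : TracialVN H} {F : Finset (Alg A.N)} {F' : Finset (H →L[ℂ] H)}
    (hF' : ∀ a ∈ F, (a : H →L[ℂ] H) ∈ F') {m : ℕ} {ε : ℝ} {ν : ℕ}
    {X : (H →L[ℂ] H) → Matrix (Fin ν) (Fin ν) ℂ} (hX : St.IsMicrostate A F' m ε X)
    {Y : Alg A.N → Matrix (Fin ν) (Fin ν) ℂ} (hY : ∀ a ∈ F, Y a = X a) :
    ∀ l : List (Alg A.N × Bool), (∀ p ∈ l, p.1 ∈ F) → l.length ≤ m →
      ‖ntr (wordEval Y l) - stLin A (wordEval id l)‖ < ε := by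
  intro l hl hm
  have h := hX.2.2 (l.map upL) (by
    intro p hp
    obtain ⟨q, hq, rfl⟩ := List.mem_map.1 hp
    exact hF' _ (hl q hq)) (by rw [List.length_map]; exact hm)
  have e1 : St.starWord X (l.map upL) = wordEval Y l :=
    wordEval_upL Y X l fun p hp => (hY _ (hl p hp)).symm
  have e2 : St.starWord (id : (H →L[ℂ] H) → (H →L[ℂ] H)) (l.map upL) =
      ((wordEval (id : Alg A.N → Alg A.N) l : Alg A.N) : H →L[ℂ] H) := (wordEval_val l).symm
  rw [e1, e2, ntrace_eq] at h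
  exact h

theorem st_of_micro {A : TracialVN H} {F : Finset (Alg A.N)} {F' : Finset (H →L[ℂ] H)}
    (hF' : ∀ a ∈ F', ∃ h : a ∈ A.N, (⟨a, h⟩ : Alg A.N) ∈ F) {m : ℕ} {ε : ℝ} {ν : ℕ} (hν : 0 < ν)
    {Y : Alg A.N → Matrix (Fin ν) (Fin ν) ℂ} (hn : ∀ a, ‖Y a‖ ≤ ‖(a : H →L[ℂ] H)‖)
    (hw : ∀ l : List (Alg A.N × Bool), (∀ p ∈ l, p.1 ∈ F) → l.length ≤ m →
      ‖ntr (wordEval Y l) - stLin A (wordEval id l)‖ < ε)
    {X : (H →L[ℂ] H) → Matrix (Fin ν) (Fin ν) ℂ} (hX : ∀ a : Alg A.N, X a = Y a) :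
    St.IsMicrostate A F' m ε X := by
  refine ⟨hν, fun a ha => ?_, fun l hl hm => ?_⟩
  · obtain ⟨h, -⟩ := hF' a ha
    have h2 := hn ⟨a, h⟩
    rw [← hX] at h2
    exact h2
  · obtain ⟨l', rfl⟩ := exists_upL (N := A.N) l fun p hp => (hF' _ (hl p hp)).1
    have h := hw l' (by
      intro p hp
      obtain ⟨h1, h2⟩ := hF' _ (hl _ (List.mem_map_of_mem (f := upL) hp))
      exact h2) (by rw [List.length_map] at hm; exact hm)
    have e1 : St.starWord X (l'.map upL) = wordEval Y l' :=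
      wordEval_upL Y X l' fun p _ => hX _
    have e2 : St.starWord (id : (H →L[ℂ] H) → (H →L[ℂ] H)) (l'.map upL) =
        ((wordEval (id : Alg A.N → Alg A.N) l' : Alg A.N) : H →L[ℂ] H) := (wordEval_val l').symm
    rw [e1, e2, ntrace_eq]
    exact h

/-- the extension by `0` of a function on `N` -/
noncomputable def ext0 {N : VonNeumannAlgebra H} {D : Type*} [Zero D] (Y : Alg N → D)
    (a : H →L[ℂ] H) : D := by
  classical
  exact if h : a ∈ N then Y ⟨a, h⟩ else 0

theorem ext0_coe {N : VonNeumannAlgebra H} {D : Type*} [Zero D] (Y : Alg N → D) (a : Alg N) :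
    ext0 Y (a : H →L[ℂ] H) = Y a := by
  unfold ext0
  rw [dif_pos (show (a : H →L[ℂ] H) ∈ N from a.2)]

theorem connesEmb_iff (A : TracialVN H) : St.ConnesEmbeddable A ↔ ConnesEmb A.N (stLin A) := by
  classical
  constructor
  · intro h F m ε hε
    obtain ⟨ν, X, hX⟩ := h (F.image fun a : Alg A.N => (a : H →L[ℂ] H)) (by
      intro a ha
      obtain ⟨b, -, rfl⟩ := Finset.mem_image.1 ha
      exact b.2) m ε hε
    refine ⟨ν, hX.1, fun a => if a ∈ F then X a else 0, fun a => ?_, ?_⟩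
    · dsimp only
      by_cases ha : a ∈ F
      · rw [if_pos ha]
        exact hX.2.1 _ (Finset.mem_image_of_mem _ ha)
      · rw [if_neg ha, norm_zero]
        exact norm_nonneg _
    · exact micro_of_st (fun a ha => Finset.mem_image_of_mem _ ha) hX fun a ha => if_pos ha
  · intro h F hF m ε hε
    obtain ⟨ν, hν, X, hn, hw⟩ := h (F.attach.image fun a : {x // x ∈ F} => (⟨a.1, hF a.1 a.2⟩ : Alg A.N)) m ε hε
    refine ⟨ν, ext0 X, st_of_micro (fun a ha => ⟨hF a ha, ?_⟩) hν hn hw fun a => ext0_coe X a⟩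
    exact Finset.mem_image.2 ⟨⟨a, ha⟩, Finset.mem_attach _ _, rfl⟩

theorem perp_iff {A : TracialVN H} {B : VonNeumannAlgebra H}
    (hBA : ∀ x : H →L[ℂ] H, x ∈ B → x ∈ A.N) (a : Alg A.N) :
    St.Orthogonal A B (a : H →L[ℂ] H) ↔ Perp A.N B (stLin A) a := by
  constructor
  · intro h b hb
    exact h _ hb
  · intro h b hb
    exact h ⟨b, hBA b hb⟩ hb

theorem innerAveraging_iff {A : TracialVN H} {B : VonNeumannAlgebra H}
    (hBA : ∀ x : H →L[ℂ] H, x ∈ B → x ∈ A.N) :
    St.InnerAveraging A B ↔ Pool.Agent.QFP.InnerAveraging A.N B (stLin A) := by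
  classical
  constructor
  · intro h F m ε hε
    obtain ⟨ν, X, n, v, hX, hn, hv, hc, ha⟩ :=
      h (F.image fun a : Alg A.N => (a : H →L[ℂ] H)) (by
        intro a ha
        obtain ⟨b, -, rfl⟩ := Finset.mem_image.1 ha
        exact b.2) m ε hε
    refine ⟨ν, hX.1, fun a => if a ∈ F then X a else 0, n, hn, v, fun a => ?_, ?_, hv, ?_, ?_⟩
    · dsimp only
      by_cases ha : a ∈ F
      · rw [if_pos ha]
        exact hX.2.1 _ (Finset.mem_image_of_mem _ ha)
      · rw [if_neg ha, norm_zero]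
        exact norm_nonneg _
    · exact micro_of_st (fun a ha => Finset.mem_image_of_mem _ ha) hX fun a ha => if_pos ha
    · intro s b hb hbB
      dsimp only
      rw [if_pos hb]
      exact hc s _ (Finset.mem_image_of_mem _ hb) hbB
    · intro a haF hp
      dsimp only
      rw [if_pos haF, ← norm2_eq]
      exact ha _ (Finset.mem_image_of_mem _ haF) ((perp_iff hBA a).2 hp)
  · intro h F hF m ε hε
    obtain ⟨ν, hν, X, n, hn0, v, hn, hw, hv, hc, ha⟩ :=
      h (F.attach.image fun a : {x // x ∈ F} => (⟨a.1, hF a.1 a.2⟩ : Alg A.N)) m ε hε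
    have hmem : ∀ (a : H →L[ℂ] H) (haF : a ∈ F), (⟨a, hF a haF⟩ : Alg A.N) ∈
        F.attach.image fun a : {x // x ∈ F} => (⟨a.1, hF a.1 a.2⟩ : Alg A.N) := fun a haF =>
      Finset.mem_image.2 ⟨⟨a, haF⟩, Finset.mem_attach _ _, rfl⟩
    have hext : ∀ (a : H →L[ℂ] H) (haF : a ∈ F), ext0 X a = X ⟨a, hF a haF⟩ := fun a haF =>
      ext0_coe X ⟨a, hF a haF⟩
    refine ⟨ν, ext0 X, n, v, st_of_micro (fun a ha => ⟨hF a ha, hmem a ha⟩) hν hn hw
      (fun a => ext0_coe X a), hn0, hv, ?_, ?_⟩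
    · intro s b hb hbB
      rw [hext b hb]
      exact hc s _ (hmem b hb) hbB
    · intro a haF hp
      rw [hext a haF, norm2_eq]
      exact ha _ (hmem a haF) ((perp_iff hBA ⟨a, hF a haF⟩).1 hp)

variable {K : Type v} [NormedAddCommGroup K] [InnerProductSpace ℂ K] [CompleteSpace K]

/-- the ⋆-homomorphism of von Neumann algebras given by a trace preserving homomorphism -/
noncomputable def stHom {A : TracialVN H} {M : TracialVN K} {f : (H →L[ℂ] H) → (K →L[ℂ] K)}
    (hf : St.IsTraceHom A M f) : Alg A.N →⋆ₐ[ℂ] Alg M.N where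
  toFun a := ⟨f a, hf.mem a a.2⟩
  map_one' := Subtype.ext hf.map_one
  map_mul' a b := Subtype.ext (hf.map_mul a a.2 b b.2)
  map_zero' := by
    apply Subtype.ext
    have h := hf.map_smul 0 (0 : H →L[ℂ] H) (zero_mem A.N)
    rw [zero_smul, zero_smul] at h
    exact h
  map_add' a b := Subtype.ext (hf.map_add a a.2 b b.2)
  commutes' z := by
    apply Subtype.ext
    have h := hf.map_smul z (1 : H →L[ℂ] H) (one_mem A.N)
    rw [hf.map_one] at h
    exact h
  map_star' a := Subtype.ext (hf.map_star a a.2)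

theorem stHom_coe {A : TracialVN H} {M : TracialVN K} {f : (H →L[ℂ] H) → (K →L[ℂ] K)}
    (hf : St.IsTraceHom A M f) (a : Alg A.N) :
    ((stHom hf a : Alg M.N) : K →L[ℂ] K) = f a := rfl

theorem stLin_apply (A : TracialVN H) (a : Alg A.N) : stLin A a = A.tr a := rfl

theorem coe_prod {N : VonNeumannAlgebra H} (l : List (Alg N)) :
    ((l.prod : Alg N) : H →L[ℂ] H) = (l.map fun a : Alg N => (a : H →L[ℂ] H)).prod := by
  induction l with
  | nil => rfl
  | cons a l ih =>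
    rw [List.map_cons, List.prod_cons, List.prod_cons, ← ih]
    rfl

theorem isFreePower_of_st {A : TracialVN H} {B : VonNeumannAlgebra H}
    (hBA : ∀ x : H →L[ℂ] H, x ∈ B → x ∈ A.N) {M : TracialVN K} {J : Type w}
    {ι : J → (H →L[ℂ] H) → (K →L[ℂ] K)} (hι : St.IsAmalgamatedPower A B M ι) :
    IsFreePower A.N B (stLin A) M.N (stLin M) fun j => stHom (hι.hom j) where
  trace_eq j a := (hι.hom j).trace_eq a a.2
  agree i j b hb := Subtype.ext (hι.agree i j b hb)
  generates := by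
    rw [hι.generates]
    congr 2
    ext z
    constructor
    · rintro ⟨j, a, ha, rfl⟩
      exact ⟨j, ⟨a, ha⟩, rfl⟩
    · rintro ⟨j, a, rfl⟩
      exact ⟨j, a, a.2, rfl⟩
  free := by
    intro l hl hch hp
    have h := hι.free (l.map fun p => (p.1, (p.2 : H →L[ℂ] H))) (by simpa using hl) (by
      rw [List.isChain_map]
      exact hch) (by
      intro p hp'
      obtain ⟨q, hq, rfl⟩ := List.mem_map.1 hp'
      exact ⟨q.2.2, (perp_iff hBA q.2).2 (hp q hq)⟩)
    rw [stLin_apply, coe_prod, List.map_map]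
    rw [List.map_map] at h
    exact h

end VN

theorem isHyperlinear_of_st {G : Type*} [Group G] (h : St.Hyperlinear G) : IsHyperlinear G := by
  intro F ε hε
  obtain ⟨k, σ, hk, h1, h2, h3, h4⟩ := h F ε hε
  refine ⟨k, hk, σ, h1, h2, fun g hg g' hg' => ?_, fun g hg hg1 => ?_⟩
  · rw [← norm2_eq]
    exact h3 g hg g' hg'
  · rw [← ntrace_eq]
    exact h4 g hg hg1

end Pool.Agent.QFP
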